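import Pool.Agent.H64.F5.Lvd
import Pool.Agent.H23.D2.Wst

/-!
# (F5) on the event of finitely many windows: the first three levels

`wins_ok`, `wins_deep`: one window of `Wins` with a list of covectors near all its gradients.
`nat_low`: the levels of the coordinates `c l`, `l ≤ 2`, at all windows of a list, on one event.
-/

set_option autoImplicit false

namespace Pool.F5

open Finset Real MvPolynomial
open Pool.Agent.H49.Ent Pool.Agent.H32.Dense Pool.STK Pool.KA Pool.KSAT Pool.K2S Pool.PB Pool.S6C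
open Pool.GEN Pool.CHT Pool.CHX
open Pool.LBT (ThrOf)
open Pool.D2F
open Pool.D2Z (Nc frok_sub frok_mono frok_le pow1)
open Pool.D2R (dd hs nrm nrm_nonneg ROut1 Wins star_vel ev_list)

variable {m J : ℕ}

/-- Base statements for all members of a list. -/
theorem bas_mem {S : PCl m} (L : List ℕ) : ∀ {Φ : ∀ k, k ∈ L → Stat m},
    (∀ k (hk : k ∈ L), Bas S (Φ k hk)) →
    Bas S (fun J F A => ∀ k (hk : k ∈ L), Φ k hk J F A) := by
  induction L with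
  | nil => exact fun _ => ⟨1, one_pos, 0, fun _ _ _ _ _ k hk => absurd hk (by simp)⟩
  | cons x L ih =>
    intro Φ h
    have h1 := ih (Φ := fun k hk => Φ k (List.mem_cons_of_mem _ hk))
      (fun k hk => h k (List.mem_cons_of_mem _ hk))
    refine Bas.mono 0 (h1.and (h x (by simp))) ?_
    rintro J - F A ⟨h2, h3⟩ k hk
    rcases List.mem_cons.1 hk with h4 | h4
    · subst h4
      exact h3
    · exact h2 k h4

/-- A positive lower bound for a list. -/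
theorem min_mem (L : List ℕ) : ∀ {κ : ∀ k, k ∈ L → ℝ}, (∀ k hk, 0 < κ k hk) →
    ∃ κ' : ℝ, 0 < κ' ∧ ∀ k hk, κ' ≤ κ k hk := by
  induction L with
  | nil => exact fun _ => ⟨1, one_pos, fun k hk => absurd hk (by simp)⟩
  | cons x L ih =>
    intro κ h
    obtain ⟨κ₁, h1, h2⟩ := ih (κ := fun k hk => κ k (List.mem_cons_of_mem _ hk))
      (fun k hk => h k (List.mem_cons_of_mem _ hk))
    refine ⟨min κ₁ (κ x (by simp)), lt_min h1 (h x _), fun k hk => ?_⟩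
    rcases List.mem_cons.1 hk with h4 | h4
    · subst h4
      exact min_le_right _ _
    · exact (min_le_left _ _).trans (h2 k h4)

section

variable {F : Fam m J} {c : ℕ → Fin m} {r D Dr N M : ℕ} {R : ℕ → Prop}
    {C₀ a Eb ηm : ℝ} {o ε p' η σ : ℕ → ℝ} {lv be b : ℕ → ℕ → ℝ} {κ : ℝ} {z : ℕ → ℕ → ℕ}
    {B : F.Ω → Prop} {gc gT g₀ : ℕ → ℕ → ℕ}
    {G : ℕ → PtT F → ℕ → MvPolynomial (Option (Fin m)) ℝ}
    {H : ℕ → LnT F → ℕ → MvPolynomial (Option (Fin m)) ℝ}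
    {T : ℕ → PtT F → ℕ → MvPolynomial (Option (Fin m)) ℝ}
    {TH : ℕ → LnT F → ℕ → MvPolynomial (Option (Fin m)) ℝ}
    {Gt : ℕ → PtT F → MvPolynomial (Option (Fin m)) ℝ}
    {Ht : ℕ → LnT F → MvPolynomial (Option (Fin m)) ℝ}
    {Sv : PtT F → ℕ → Option (Fin m) → ℝ} {B₁ : F.Ω → Prop}

/-- One window of `Wins`. -/
theorem wins_ok (W : Wins F c r D Dr N M R C₀ a Eb ηm o ε p' η σ lv be b κ z B gc gT g₀ G H T
    TH Gt Ht) {k Y : ℕ} (hk : k ≤ N) (hY : C₀ * (ηm * J) ≤ Y) (hB₁ : Sub B₁ B)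
    (hSd : ∀ y l, CvC c l (Sv y l))
    (hS : ∀ ω, B₁ ω → Nc c (g₀ k) ⌊o k * J⌋₊ (r + 1) (2 ^ Y) (Sv (ptr F J ω))
      (fun l => grd (G k (ptr F J ω) l) (bt F ω))) :
    WOK F c r D ⌊o k * J⌋₊ ⌊o k * J⌋₊ (⌊a * J⌋₊ - ⌊o k * J⌋₊) ⌊(Eb + 2 * ηm) * J⌋₊ Y 0 (g₀ k)
      (gT k) (2 ^ ⌊C₀ * (η k * J)⌋₊) B₁ (G k) (H k) (T k) (TH k) (Ht k) Sv := by
  have hJ : (0 : ℝ) ≤ J := Nat.cast_nonneg J
  have hC0 : 0 ≤ C₀ := by linarith [W.C1]
  refine ⟨((W.evs k hk).ball.mono le_rfl (fun _ => le_rfl) le_rfl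
    (Nat.floor_le_floor (mul_le_mul_of_nonneg_right (by
      have h1 := (W.hη k hk).2
      have h2 := (W.hσ k hk).2
      linarith) hJ))).sub hB₁, (W.row k hk k hk le_rfl 0 (by
    have := mul_le_mul_of_nonneg_right (W.hp' k hk) hJ
    rw [Nat.cast_zero, zero_add]
    linarith) (by
    rw [Nat.cast_zero, zero_add]
    exact W.hgr k hk)).sub hB₁, by positivity, pow_le_pow_right₀ (by norm_num) ?_, hSd, hS⟩
  have h2 : C₀ * (η k * J) ≤ Y := le_trans (mul_le_mul_of_nonneg_left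
    (mul_le_mul_of_nonneg_right (W.hη k hk).2 hJ) hC0) hY
  have h3 : (⌊C₀ * (η k * J)⌋₊ : ℝ) ≤ Y :=
    (Nat.floor_le (mul_nonneg hC0 (mul_nonneg (W.hη k hk).1 hJ))).trans h2
  exact_mod_cast h3

/-- The velocities of the covectors at a deep window. -/
theorem wins_deep (W : Wins F c r D Dr N M R C₀ a Eb ηm o ε p' η σ lv be b κ z B gc gT g₀ G H T
    TH Gt Ht) {k q Y X l : ℕ} (hk : k ≤ N) (hq : q ≤ N) (hl : l ≤ r) (hY : C₀ * (ηm * J) ≤ Y)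
    (hB₁ : Sub B₁ B)
    (hS : ∀ ω, B₁ ω → Nc c (g₀ q) ⌊o q * J⌋₊ (r + 1) (2 ^ Y) (Sv (ptr F J ω))
      (fun l => grd (G q (ptr F J ω) l) (bt F ω)))
    (hX : (((r + 4) * (r + 4) * (Y + 1) + X + 1 : ℕ) : ℝ) + ηm * J + (lv k l - o k) * J ≤
      (lv q l - o q) * J) :
    ∀ ω, B₁ ω → |bd F ω (some (c l)) - cv (Sv (ptr F J ω) l) (bd F ω)| ≤
      2 ^ Y * 2 ^ ⌊o k * J⌋₊ / 2 ^ (g₀ k l + X) := by
  intro ω hω
  have h1 := star_vel (X := Y) hl hS (fun ω ν hω hν hpt l hl =>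
    W.vel hq hY ω ν (hB₁ ω hω) (hB₁ ν hν) hpt l (by omega)) ω ω hω hω rfl
  rw [Pool.D2R.dd_afp] at h1
  refine h1.trans ?_
  rw [div_le_div_iff₀ (by positivity) (by positivity), ← pow_add, ← pow_add, ← pow_add,
    ← pow_add]
  refine pow_le_pow_right₀ (by norm_num) ?_
  have hJ : (0 : ℝ) ≤ J := Nat.cast_nonneg J
  obtain ⟨-, -, -, a1, -⟩ := W.g_num hk hl
  obtain ⟨-, -, a2, -⟩ := W.g_num hq hl
  have a3 : (⌊o q * J⌋₊ : ℝ) ≤ o q * J := Nat.floor_le (mul_nonneg (W.ho q hq).1 hJ)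
  have a4 := (Nat.lt_floor_add_one (o k * (J : ℝ))).le
  have a5 : (0 : ℝ) ≤ Y := Nat.cast_nonneg Y
  have h2 : (((r + 4) * (r + 4) * (Y + 1) + ⌊o q * J⌋₊ + (g₀ k l + X) : ℕ) : ℝ) ≤
      ((Y + ⌊o k * J⌋₊ + g₀ q l : ℕ) : ℝ) := by
    push_cast at hX ⊢
    linarith
  exact_mod_cast h2

end

/-- **(F5), the coordinates `c l`, `l ≤ 2`, at all windows of a list, on one event.** `q k`: a deep
window, where the velocities are read. -/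
theorem nat_low (m D r : ℕ) (hD : 1 ≤ D) (hr : 1 ≤ r) : ∃ C : ℕ, 1 ≤ C ∧ ∀ {S : PCl m}
    {P : List (Fin m) × Fin m → ℝ → ℝ → ℝ} {θ : ℝ} {c : ℕ → Fin m} {R : ℕ → Prop}
    {C₀ a Eb ηm ζ e h κ₀ : ℝ} {o ε p' η σ : ℕ → ℝ} {lv be : ℕ → ℕ → ℝ} {Dr N M : ℕ}
    (W : ℕ → ℚ) (LS L : List ℕ) (q : ℕ → ℕ), ThrOf (chsys m θ) S P → TmH S →
    Set.InjOn c (Set.Iio (r + 1)) → D ≤ Dr → 0 < h → h ≤ ζ → 0 < κ₀ → C₀ * ηm ≤ ζ →
    Eb + C * ζ ≤ e → (∀ k ∈ LS, k ≤ N) →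
    (∀ k ∈ L, k ∈ LS ∧ o k ≤ W k ∧ 0 ≤ W k ∧ W k < 1 ∧ e < θ * W k) →
    (∀ k ∈ L, ∀ l < 3, l < r → bet P c l (W k) (W k) + h ≤ 1 ∧
      bet P c l (W k) (W k) ≤ lv k l + ζ) →
    (∀ k ∈ L, ∀ l ≤ 2, l ≤ r → Eb + lv k l + C * ζ ≤ 1) → (∀ k ∈ L, C * ζ ≤ lv k 0) →
    (∀ k ∈ L, 2 ≤ r → q k ∈ LS ∧ lv k 1 - o k + C * ζ ≤ lv (q k) 1 - o (q k)) →
    ∃ κ' : ℝ, 0 < κ' ∧ Bas S (fun J F A => ∀ (z : ℕ → ℕ → ℕ) (κ : ℝ) (b : ℕ → ℕ → ℝ)
      (B : F.Ω → Prop) (gc gT g₀ : ℕ → ℕ → ℕ)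
      (G : ℕ → PtT F → ℕ → MvPolynomial (Option (Fin m)) ℝ)
      (H : ℕ → LnT F → ℕ → MvPolynomial (Option (Fin m)) ℝ)
      (T : ℕ → PtT F → ℕ → MvPolynomial (Option (Fin m)) ℝ)
      (TH : ℕ → LnT F → ℕ → MvPolynomial (Option (Fin m)) ℝ)
      (Gt : ℕ → PtT F → MvPolynomial (Option (Fin m)) ℝ)
      (Ht : ℕ → LnT F → MvPolynomial (Option (Fin m)) ℝ)
      (Sv : PtT F → ℕ → Option (Fin m) → ℝ) (B₁ : F.Ω → Prop),
      Wins F c r D Dr N M R C₀ a Eb ηm o ε p' η σ lv be b κ z B gc gT g₀ G H T TH Gt Ht →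
      κ ≤ κ' → Sub B A → Sub B₁ B → κ₀ * Pe F.p A ≤ Pe F.p B₁ → (∀ y l, CvC c l (Sv y l)) →
      (∀ ω, B₁ ω → ∀ k ∈ LS, Nc c (g₀ k) ⌊o k * J⌋₊ (r + 1) (2 ^ ⌊ζ * J⌋₊) (Sv (ptr F J ω))
        (fun l => grd (G k (ptr F J ω) l) (bt F ω))) →
      ∃ B' : F.Ω → Prop, Sub B' B₁ ∧ Pe F.p B₁ ≤ (C : ℝ) ^ L.length * Pe F.p B' ∧
        ∀ k ∈ L, LvT F c r ⌊o k * J⌋₊ ⌊C * ζ * J⌋₊ (⌊(Eb + 2 * ηm) * J⌋₊ + ⌊C * ζ * J⌋₊) (g₀ k)
          (G k) Sv B') := by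
  obtain ⟨C₂, hC₂, hlvl⟩ := lvl_12 m D r hD hr
  obtain ⟨C, hC⟩ : ∃ C, C = 10 * C₂ + 4 * ((r + 4) * (r + 4)) + 10 := ⟨_, rfl⟩
  refine ⟨C, by omega, ?_⟩
  intro S P θ c R C₀ a Eb ηm ζ e h κ₀ o ε p' η σ lv be Dr N M W LS L q hP hT hc hDr hh hhζ hκ₀
    hCη hEe hLS hL hpl hnum hlow hdeep
  have hζ : 0 < ζ := lt_of_lt_of_le hh hhζ
  have hC₂R : (1 : ℝ) ≤ C₂ := by exact_mod_cast hC₂
  have hCC₂ : C₂ ≤ C := by omega
  have hCR : (1 : ℝ) ≤ C := by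
    have : 1 ≤ C := by omega
    exact_mod_cast this
  obtain ⟨κ₂, hκ₂⟩ : ∃ κ₂ : ℝ, κ₂ = κ₀ / C ^ L.length := ⟨_, rfl⟩
  have hκ₂0 : 0 < κ₂ := by rw [hκ₂]; positivity
  have h1 := fun (k : ℕ) (hk : k ∈ L) => hlvl hP hT c hc (W k) e h ζ κ₂ (hL k hk).2.2.1
    (hL k hk).2.2.2.1 (hL k hk).2.2.2.2 hh (hpl k hk 0 (by norm_num) hr).1
    (fun hr2 => (hpl k hk 1 (by norm_num) hr2).1) hζ hκ₂0
  choose κf hκf hbf using h1
  obtain ⟨κ', hκ', hκm⟩ := min_mem L hκf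
  obtain ⟨J₁, hJ₁⟩ := exists_nat_gt (1 / ζ)
  refine ⟨κ', hκ', Bas.mono J₁ (bas_mem L hbf) ?_⟩
  intro J hJ F A hA z κ b B gc gT g₀ G H T TH Gt Ht Sv B₁ Wn hκκ hBA hB₁B hκB hSd hS
  have hp := Pe_nonneg F.isLaw
  have hJ0 : (0 : ℝ) ≤ J := Nat.cast_nonneg J
  have hζJ : 1 ≤ ζ * J := by
    have : 1 / ζ < J := hJ₁.trans_le (by exact_mod_cast hJ)
    rw [div_lt_iff₀ hζ] at this
    linarith
  obtain ⟨Y, hY⟩ : ∃ Y : ℕ, Y = ⌊ζ * J⌋₊ + 1 := ⟨_, rfl⟩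
  have hY1 : ζ * J ≤ Y := by
    rw [hY]
    push_cast
    exact (Nat.lt_floor_add_one _).le
  have hY2 : (Y : ℝ) ≤ 2 * (ζ * J) := by
    rw [hY]
    push_cast
    have := Nat.floor_le (by linarith : 0 ≤ ζ * (J : ℝ))
    linarith
  have hYp : (2 : ℝ) ^ ⌊ζ * J⌋₊ ≤ 2 ^ Y := by
    rw [hY]
    exact pow_le_pow_right₀ (by norm_num) (Nat.le_succ _)
  have hYone : 1 ≤ Y := by omega
  have hYR : (1 : ℝ) ≤ Y := by exact_mod_cast hYone
  have hCY : C₀ * (ηm * J) ≤ Y := by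
    have : C₀ * (ηm * J) = C₀ * ηm * J := by ring
    rw [this]
    exact (mul_le_mul_of_nonneg_right hCη hJ0).trans hY1
  -- the constants
  obtain ⟨E, hE⟩ : ∃ E, E = Y + 3 * Y + 1 := ⟨_, rfl⟩
  have hE4 : (E : ℝ) ≤ 10 * (ζ * J) := by
    rw [hE]
    push_cast
    linarith
  have hCER : ((C₂ * E : ℕ) : ℝ) ≤ 10 * C₂ * (ζ * J) := by
    push_cast
    have := mul_le_mul_of_nonneg_left hE4 (by linarith : (0 : ℝ) ≤ C₂)
    linarith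
  obtain ⟨Λ, hΛ⟩ : ∃ Λ : ℝ, Λ = 10 * C₂ * (ζ * J) := ⟨_, rfl⟩
  rw [← hΛ] at hCER
  have hCζ : C * ζ * J = Λ + 4 * ((r + 4) * (r + 4)) * (ζ * J) + 10 * (ζ * J) := by
    rw [hC, hΛ]
    push_cast
    ring
  have hrr : 0 ≤ 4 * (((r : ℝ) + 4) * (r + 4)) * (ζ * J) := by positivity
  have hK : C₂ * E ≤ ⌊C * ζ * J⌋₊ := Nat.le_floor (by linarith)
  obtain ⟨e₀, he₀⟩ : ∃ e₀, e₀ = ⌊(Eb + 2 * ηm) * J⌋₊ := ⟨_, rfl⟩
  -- the windows
  have hstep : ∀ k ∈ L, ∀ B' : F.Ω → Prop, Sub B' B₁ →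
      Pe F.p B₁ ≤ (C : ℝ) ^ L.length * Pe F.p B' →
      ∃ B'' : F.Ω → Prop, Sub B'' B' ∧ Pe F.p B' ≤ (C : ℝ) * Pe F.p B'' ∧
        LvT F c r ⌊o k * J⌋₊ ⌊C * ζ * J⌋₊ (e₀ + ⌊C * ζ * J⌋₊) (g₀ k) (G k) Sv B'' := by
    intro k hk B' hB' hPB'
    obtain ⟨hkS, hok, hW0, hW1, heW⟩ := hL k hk
    have hkN := hLS k hkS
    have hηm0 : 0 ≤ ηm := (Wn.hη k hkN).1.trans (Wn.hη k hkN).2
    have hηζ : ηm ≤ ζ := (le_mul_of_one_le_left hηm0 Wn.C1).trans hCη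
    have hηJ : ηm * J ≤ ζ * J := mul_le_mul_of_nonneg_right hηζ hJ0
    have hB'B : Sub B' B := fun ω hω => hB₁B ω (hB' ω hω)
    have hEb := Wn.Eb0
    have hfE : (e₀ : ℝ) ≤ Eb * J + 2 * (ζ * J) := by
      rw [he₀]
      refine (Nat.floor_le (mul_nonneg (by linarith) hJ0)).trans ?_
      rw [add_mul]
      linarith
    have hSk : ∀ k ∈ LS, ∀ ω, B' ω → Nc c (g₀ k) ⌊o k * J⌋₊ (r + 1) (2 ^ Y) (Sv (ptr F J ω))
        (fun l => grd (G k (ptr F J ω) l) (bt F ω)) := fun k hk ω hω =>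
      (hS ω (hB' ω hω) k hk).mono hYp
    have hWok := wins_ok Wn hkN hCY hB'B hSd (hSk k hkS)
    rw [← he₀] at hWok
    have hWR : (0 : ℝ) ≤ W k := by exact_mod_cast hW0
    have haW : ⌊o k * J⌋₊ ≤ ⌊(W k : ℝ) * J⌋₊ :=
      Nat.floor_le_floor (mul_le_mul_of_nonneg_right hok hJ0)
    have haJ : ⌊o k * J⌋₊ ≤ J := by
      refine haW.trans ?_
      have h2 : ((W k : ℚ) : ℝ) * J ≤ J := by
        have h3 : ((W k : ℚ) : ℝ) ≤ 1 := by exact_mod_cast hW1.le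
        have := mul_le_mul_of_nonneg_right h3 hJ0
        rwa [one_mul] at this
      have h3 := Nat.floor_le_floor h2
      rwa [Nat.floor_natCast] at h3
    have hgl := fun (l : ℕ) (hl : l ≤ r) => Wn.g_num hkN hl
    obtain ⟨B'', k1, k2, k3⟩ := hA k hk ⌊o k * J⌋₊ ⌊o k * J⌋₊ (⌊a * J⌋₊ - ⌊o k * J⌋₊) e₀ Y (3 * Y)
      0 (g₀ k) (gT k) _ (G k) (H k) (T k) (TH k) (Ht k) Sv B B' haJ haW hY1 (by
        rw [← hE]
        refine Nat.le_floor ?_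
        push_cast at hCER ⊢
        have := mul_le_mul_of_nonneg_right hEe hJ0
        rw [add_mul] at this
        linarith) (fun j hj => by
        rw [← hE]
        obtain ⟨-, -, -, g2, -⟩ := hgl j (by omega)
        have h2 := mul_le_mul_of_nonneg_right (hnum k hk j (by omega) (by omega)) hJ0
        rw [add_mul, add_mul, one_mul] at h2
        have h3 : ((e₀ + g₀ k j + C₂ * E : ℕ) : ℝ) ≤ (J : ℕ) := by
          push_cast at hCER ⊢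
          linarith
        exact_mod_cast h3) (fun hr2 => by
        obtain ⟨-, -, -, g2, -⟩ := hgl 2 hr2
        have h2 := mul_le_mul_of_nonneg_right (hnum k hk 2 le_rfl hr2) hJ0
        rw [add_mul, add_mul, one_mul] at h2
        have h4 : 0 ≤ Eb * J := mul_nonneg hEb hJ0
        have h5 : 0 ≤ Λ := by rw [hΛ]; positivity
        have h3 : ((g₀ k 2 : ℕ) : ℝ) ≤ (J : ℕ) := by linarith
        exact_mod_cast h3) (fun hr2 => by
        rw [← hE]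
        obtain ⟨-, -, g1, -, -⟩ := hgl 0 (by omega)
        have h2 := mul_le_mul_of_nonneg_right (hlow k hk) hJ0
        have h3 : ((C₂ * E : ℕ) : ℝ) ≤ (g₀ k 0 : ℕ) := by linarith
        exact_mod_cast h3) (fun l hl hlr => by
        obtain ⟨-, -, g1, -, -⟩ := hgl l (by omega)
        obtain ⟨h2, h3⟩ := hpl k hk l (by omega) hlr
        have h4 : (⌊(bet P c l (W k) (W k) + h) * J⌋₊ : ℝ) ≤
            (bet P c l (W k) (W k) + h) * J := by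
          refine Nat.floor_le (mul_nonneg ?_ hJ0)
          have : (0 : ℝ) ≤ bet P c l (W k) (W k) := hWR.trans (hP.low _ _ _ hWR le_rfl (by
            exact_mod_cast hW1.le))
          linarith
        have h5 := mul_le_mul_of_nonneg_right h3 hJ0
        have h6 := mul_le_mul_of_nonneg_right hhζ hJ0
        have h7 : ((⌊(bet P c l (W k) (W k) + h) * J⌋₊ : ℕ) : ℝ) ≤
            ((g₀ k l + 3 * Y : ℕ) : ℝ) := by
          push_cast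
          have e1 := add_mul (bet P c l (W k) (W k)) h (J : ℝ)
          rw [add_mul] at h5
          linarith
        have h8 : ⌊(bet P c l (W k) (W k) + h) * J⌋₊ ≤ g₀ k l + 3 * Y := by exact_mod_cast h7
        omega) hB'B hBA (by
        have h2 : κ₀ * Pe F.p A ≤ (C : ℝ) ^ L.length * Pe F.p B' := hκB.trans hPB'
        rw [hκ₂, div_mul_eq_mul_div, div_le_iff₀ (by positivity)]
        linarith) hWok (fun hr2 => by
        rw [← hE]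
        obtain ⟨hqS, hqv⟩ := hdeep k hk hr2
        refine wins_deep Wn hkN (hLS _ hqS) (by omega) hCY hB'B (hSk _ hqS) ?_
        have h2 := mul_le_mul_of_nonneg_right hqv hJ0
        rw [add_mul] at h2
        have h3 : (((r + 4) * (r + 4) * (Y + 1) + C₂ * E + 1 : ℕ) : ℝ) ≤
            4 * ((r + 4) * (r + 4)) * (ζ * J) + Λ + ζ * J := by
          push_cast at hCER ⊢
          have h4 : ((r : ℝ) + 4) * (r + 4) * (Y + 1) ≤ (r + 4) * (r + 4) * (4 * (ζ * J)) :=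
            mul_le_mul_of_nonneg_left (by linarith) (by positivity)
          linarith
        linarith)
      (Pool.ISO.relvF_exp ((Wn.evs k hkN).relb.mono hDr (hκκ.trans (hκm k hk))) (by
        have h2 : (⌊η k * J⌋₊ : ℝ) ≤ Y := by
          refine (Nat.floor_le (mul_nonneg (Wn.hη k hkN).1 hJ0)).trans ?_
          have := mul_le_mul_of_nonneg_right (Wn.hη k hkN).2 hJ0
          linarith
        exact_mod_cast h2))
    refine ⟨B'', k1, k2.trans (mul_le_mul_of_nonneg_right (by exact_mod_cast hCC₂) (hp _)), ?_⟩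
    rw [← hE] at k3
    exact k3.sub (fun _ h => h) hK (by omega)
  rw [← he₀]
  exact ev_list (fun k B'' => LvT F c r ⌊o k * J⌋₊ ⌊C * ζ * J⌋₊ (e₀ + ⌊C * ζ * J⌋₊) (g₀ k) (G k) Sv
    B'') hCR (fun k B B' h hB => h.sub hB le_rfl le_rfl) L B₁ hstep

end Pool.F5
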