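import Pool.Agent.H23.D2.Gen

/-!
# (F5): the second derivative is natural

`NatH`: the second derivative of the ball chart of the coordinate `c l` is natural on the natural
boxes, in all directions.
-/

set_option autoImplicit false

namespace Pool.F5

open Finset Real MvPolynomial
open Pool.Agent.H49.Ent Pool.Agent.H32.Dense Pool.STK Pool.KA Pool.KSAT Pool.K2S Pool.PB Pool.S6C
open Pool.GEN Pool.CHT Pool.CHX
open Pool.D2R (hs nrm nrm_nonneg)

variable {m J : ℕ}

/-- **The second derivative of the ball chart is natural** on the natural boxes. -/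
def NatH (F : Fam m J) (c : ℕ → Fin m) (a : ℕ) (g : ℕ → ℕ) (B : F.Ω → Prop)
    (G : PtT F → ℕ → MvPolynomial (Option (Fin m)) ℝ) (k l : ℕ) : Prop :=
  ∀ ω, B ω → ∀ b, NBx c (G (ptr F J ω)) g a (F.t ω) l b → ∀ V V' : Option (Fin m) → ℝ,
    |hs (G (ptr F J ω) l) b V V'| ≤
      2 ^ k / 2 ^ g l * (nrm c (G (ptr F J ω)) g a l b V * nrm c (G (ptr F J ω)) g a l b V')

theorem NatH.sub {F : Fam m J} {c : ℕ → Fin m} {a : ℕ} {g : ℕ → ℕ} {B B' : F.Ω → Prop}
    {G : PtT F → ℕ → MvPolynomial (Option (Fin m)) ℝ} {k k' l : ℕ} (h : NatH F c a g B G k l)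
    (hB : Sub B' B) (hk : k ≤ k') : NatH F c a g B' G k' l :=
  fun ω hω b hb V V' => (h ω (hB ω hω) b hb V V').trans (mul_le_mul_of_nonneg_right
    (div_le_div_of_nonneg_right (pow_le_pow_right₀ (by norm_num) hk) (by positivity))
    (mul_nonneg (nrm_nonneg _ _ _ _ _ _ _) (nrm_nonneg _ _ _ _ _ _ _)))

end Pool.F5
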