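import Pool.Agent.H64.F5.Lva

/-!
# (F5): the third level at one window

`relv_pre`: no relation for a prefix of the chain. `lvl_two`: the second derivatives of the first
three coordinates and the frame over three coordinates, at one window.
-/

set_option autoImplicit false

namespace Pool.F5

open Finset Real MvPolynomial
open Pool.Agent.H49.Ent Pool.Agent.H32.Dense Pool.STK Pool.KA Pool.KSAT Pool.K2S Pool.PB Pool.S6C
open Pool.GEN Pool.CHT Pool.CHX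
open Pool.LBT (ThrOf)
open Pool.D2F
open Pool.D2Z (Nc frm_cls box_cls V1P CurP frok_sub frok_mono frok_le cvc_grd pow1)
open Pool.D2R (dd hs nrm nrm_nonneg ROut1 nbx_up)

variable {m J : ℕ}

/-- **No relation for a prefix of the chain.** -/
theorem relv_pre {F : Fam m J} {c : ℕ → Fin m} {i r a w : ℕ} {g : ℕ → ℕ} {D h : ℕ} {κ : ℝ}
    {B : F.Ω → Prop} {G : PtT F → ℕ → MvPolynomial (Option (Fin m)) ℝ}
    (hc : Set.InjOn c (Set.Iio r)) (hdep : ∀ y l, DepC c l (G y l))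
    (hR : RelvF F c r a w g D h κ B G) (hi : i ≤ r) : RelvF F c i a w g D h κ B G := by
  intro B' hB hP Dx Dl M h1 h2 h3 h4 hM h5 h6
  obtain ⟨B'', k1, k2, k3⟩ := hR B' hB hP Dx Dl M h1 h2 (fun y => (h3 y).mono hi)
    (fun s => (h4 s).mono hi) hM h5 fun ω hω b hb => h6 ω hω b (hb.mono le_rfl hi)
  refine ⟨B'', k1, k2, fun ω hω b hb => ?_⟩
  obtain ⟨b', q1, q2, q3⟩ := nbx_up hc (hdep (ptr F J ω)) hi hb
  have h7 := k3 ω hω b' q1
  rwa [h3 (ptr F J ω) b' b q2 q3] at h7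

/-- The slopes at the samples. -/
theorem xn_slp {F : Fam m J} {c : ℕ → Fin m} {n : ℕ} (hc : Set.InjOn c (Set.Iio n)) {g : ℕ → ℕ}
    {a k₁ k mu : ℕ} {ψ : PtT F → ℕ → Option (Fin m) → ℝ} {Sv : PtT F → ℕ → Option (Fin m) → ℝ}
    (hψ : ∀ y l, CvC c l (ψ y l)) (hS : ∀ y l, CvC c l (Sv y l)) {ω : F.Ω}
    (hN : Nc c g a n (2 ^ k₁) (ψ (ptr F J ω)) (Sv (ptr F J ω)))
    (hv : ∀ l, 1 ≤ l → l < n → |bd F ω (some (c l)) - cv (Sv (ptr F J ω) l) (bd F ω)| ≤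
      2 ^ k * 2 ^ a / 2 ^ (g l + mu)) {i : ℕ} (hi : i + 2 ≤ n) :
    |Xn F c g a ψ ω (i + 2) - (Mx n c g a (ψ (ptr F J ω)) (Sv (ptr F J ω)) i 0 +
      Mx n c g a (ψ (ptr F J ω)) (Sv (ptr F J ω)) i 1 * Xn F c g a ψ ω 1)| ≤
      2 ^ (n + k + (k₁ + 1) * n) / 2 ^ mu := by
  have h1 := mx_own hc (g := g) (a := a) (hψ (ptr F J ω)) (hS (ptr F J ω))
    (K := 2 ^ k₁) (δ := 2 ^ k / 2 ^ mu) (by positivity) hN (V := (1 / 2 ^ a : ℝ) • bd F ω)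
    (Xn_zero F c g a ψ ω) (fun l hl hln => ?_) hi
  · refine h1.trans ?_
    have e1 : (n : ℝ) ≤ 2 ^ n := by exact_mod_cast (Nat.lt_two_pow_self (n := n)).le
    have e2 := pow1 k₁ n
    calc (n : ℝ) * (2 ^ k / 2 ^ mu * (1 + 2 ^ k₁) ^ n) ≤
          2 ^ n * (2 ^ k / 2 ^ mu * 2 ^ ((k₁ + 1) * n)) :=
          mul_le_mul e1 (mul_le_mul_of_nonneg_left e2 (by positivity)) (by positivity)
            (by positivity)
      _ = _ := by
          rw [pow_add, pow_add]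
          ring
  · rw [eta_smul]
    show |1 / 2 ^ a * (2 ^ g l * (bd F ω (some (c l)) - cv (Sv (ptr F J ω) l) (bd F ω)))| ≤ _
    rw [abs_mul, abs_mul, abs_of_pos (show (0 : ℝ) < 1 / 2 ^ a by positivity),
      abs_of_pos (show (0 : ℝ) < 2 ^ g l by positivity)]
    calc (1 : ℝ) / 2 ^ a * (2 ^ g l * |bd F ω (some (c l)) -
          cv (Sv (ptr F J ω) l) (bd F ω)|) ≤
          1 / 2 ^ a * (2 ^ g l * (2 ^ k * 2 ^ a / 2 ^ (g l + mu))) :=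
          mul_le_mul_of_nonneg_left (mul_le_mul_of_nonneg_left (hv l hl hln) (by positivity))
            (by positivity)
      _ = _ := by
          rw [pow_add]
          field_simp

/-- The slopes of the frame are bounded. -/
theorem mx_le2 {c : ℕ → Fin m} {n : ℕ} (hc : Set.InjOn c (Set.Iio n)) {g : ℕ → ℕ}
    {a k₁ : ℕ} {ψ χ : ℕ → Option (Fin m) → ℝ} (hψ : ∀ l, CvC c l (ψ l))
    (hχ : ∀ l, CvC c l (χ l)) (hN : Nc c g a n (2 ^ k₁) ψ χ) {i : ℕ} (hi : i + 2 ≤ n)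
    (j : Fin 2) : |Mx n c g a ψ χ i j| ≤ 2 ^ ((k₁ + 1) * n) :=
  (mx_le hc hψ hχ (by positivity) hN hi j).trans (pow1 k₁ n)

/-- `V1P` from the second derivative. -/
theorem v1p_nat {F : Fam m J} {c : ℕ → Fin m} {r D w a v e k p k₂ : ℕ} {g gT : ℕ → ℕ} {U : ℝ}
    {B : F.Ω → Prop} {G : PtT F → ℕ → MvPolynomial (Option (Fin m)) ℝ}
    {H : LnT F → ℕ → MvPolynomial (Option (Fin m)) ℝ}
    {T : PtT F → ℕ → MvPolynomial (Option (Fin m)) ℝ}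
    {TH : LnT F → ℕ → MvPolynomial (Option (Fin m)) ℝ}
    {Ht : LnT F → MvPolynomial (Option (Fin m)) ℝ} {Sv : PtT F → ℕ → Option (Fin m) → ℝ}
    (h : WOK F c r D w a v e k p g gT U B G H T TH Ht Sv) {l : ℕ} (hl : l ≤ r)
    (hN : NatH F c a g B G k₂ l) : V1P F c a g B G (2 ^ (k₂ + r + 1 + k)) l := by
  intro ω ν hω hν hp R _ _
  have h1 := hN ω hω (bt F ω) (h.ch.self hω (by omega)) (bd F ν) R
  refine h1.trans ?_
  have h2 := h.nrm_bd hω hν hp (show l ≤ r + 1 by omega)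
  have h3 := nrm_nonneg c (G (ptr F J ω)) g a l (bt F ω) R
  calc (2 : ℝ) ^ k₂ / 2 ^ g l * (nrm c (G (ptr F J ω)) g a l (bt F ω) (bd F ν) *
        nrm c (G (ptr F J ω)) g a l (bt F ω) R) ≤ 2 ^ k₂ / 2 ^ g l *
        ((2 ^ (r + 1) * 2 ^ k * 2 ^ a) * nrm c (G (ptr F J ω)) g a l (bt F ω) R) :=
        mul_le_mul_of_nonneg_left (mul_le_mul_of_nonneg_right h2 h3) (by positivity)
    _ = _ := by
        rw [show k₂ + r + 1 + k = k₂ + (r + 1) + k by ring, pow_add, pow_add]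
        ring

/-- **The first three levels at one window.** -/
theorem lvl_two (m D r : ℕ) (hD : 1 ≤ D) (hr : 2 ≤ r) : ∃ C : ℕ, 1 ≤ C ∧ ∀ {θ : ℝ} {S : PCl m}
    {P : List (Fin m) × Fin m → ℝ → ℝ → ℝ}, ThrOf (chsys m θ) S P → TmH S → ∀ (c : ℕ → Fin m),
    Set.InjOn c (Set.Iio (r + 1)) → ∀ (a : ℚ) (e h ε κ : ℝ), 0 ≤ a → a < 1 → e < θ * a → 0 < h →
    bet P c 0 a a + h ≤ 1 → bet P c 1 a a + h ≤ 1 → 0 < ε → 0 < κ → ∃ κ' : ℝ, 0 < κ' ∧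
    Bas S (fun J F A => ∀ (w a₀ v e₀ k s p : ℕ) (g gT : ℕ → ℕ) (U : ℝ)
      (G : PtT F → ℕ → MvPolynomial (Option (Fin m)) ℝ)
      (H : LnT F → ℕ → MvPolynomial (Option (Fin m)) ℝ)
      (T : PtT F → ℕ → MvPolynomial (Option (Fin m)) ℝ)
      (TH : LnT F → ℕ → MvPolynomial (Option (Fin m)) ℝ)
      (Ht : LnT F → MvPolynomial (Option (Fin m)) ℝ)
      (Sv : PtT F → ℕ → Option (Fin m) → ℝ) (B₀ B : F.Ω → Prop), a₀ ≤ J →
      a₀ ≤ ⌊(a : ℝ) * J⌋₊ → ε * J ≤ k → e₀ + C * (k + s + 1) ≤ ⌊e * J⌋₊ →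
      (∀ j ≤ 1, e₀ + g j + C * (k + s + 1) ≤ J) → g 2 ≤ J → C * (k + s + 1) ≤ g 0 →
      (∀ l ≤ 1, ⌊(bet P c l a a + h) * J⌋₊ + a₀ ≤ g l + s + ⌊(a : ℝ) * J⌋₊) → Sub B B₀ →
      Sub B₀ A → κ * Pe F.p A ≤ Pe F.p B → WOK F c r D w a₀ v e₀ k p g gT U B G H T TH Ht Sv →
      (∀ ω, B ω → |bd F ω (some (c 1)) - cv (Sv (ptr F J ω) 1) (bd F ω)| ≤
        2 ^ k * 2 ^ a₀ / 2 ^ (g 1 + C * (k + s + 1))) →
      RelvF F c r a₀ a₀ g D k κ' B₀ G →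
      ∃ (B' : F.Ω → Prop) (ψ : PtT F → ℕ → Option (Fin m) → ℝ)
        (ψH : LnT F → ℕ → Option (Fin m) → ℝ), Sub B' B ∧ Pe F.p B ≤ C * Pe F.p B' ∧
        FrOK F c 3 a₀ (C * (k + s + 1)) (e₀ + C * (k + s + 1)) g B' ψ ψH ∧
        (∀ ω, B' ω → Nc c g a₀ 3 (2 ^ (C * (k + s + 1))) (ψ (ptr F J ω)) (Sv (ptr F J ω))) ∧
        ∀ l ≤ 2, NatH F c a₀ g B' G (C * (k + s + 1)) l) := by
  classical
  obtain ⟨C₁, hC₁, hone⟩ := lvl_one m D r hD (by omega)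
  obtain ⟨C₃, hC₃, htwo⟩ := nat_two D hD
  obtain ⟨C₄, hC₄, hfrm⟩ := frm_cls m D r 3 hD (by norm_num) (by omega)
  obtain ⟨X, hX⟩ : ∃ X, X = 6 * C₁ + 20 := ⟨_, rfl⟩
  obtain ⟨X₃, hX₃⟩ : ∃ X₃, X₃ = 2 * (C₃ * (X + 2)) + 2 * r + 10 := ⟨_, rfl⟩
  obtain ⟨C, hC⟩ : ∃ C, C = 2 * (C₄ * (X₃ + 2)) + C₁ + 2 * X₃ + X + C₁ * (2 * 2 ^ 9 * C₄) :=
    ⟨_, rfl⟩
  refine ⟨C, by omega, ?_⟩
  intro θ S P hP hT c hc a e h ε κ ha0 ha he hh hb0 hb1 hε hκ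
  have hC₁R : (1 : ℝ) ≤ C₁ := by exact_mod_cast hC₁
  have hC₄R : (1 : ℝ) ≤ C₄ := by exact_mod_cast hC₄
  have hc3 : Set.InjOn c (Set.Iio 3) := hc.mono (Set.Iio_subset_Iio (by omega))
  have hcr : Set.InjOn c (Set.Iio r) := hc.mono (Set.Iio_subset_Iio (by omega))
  have hc2 : Set.InjOn c (Set.Iio 2) := hc.mono (Set.Iio_subset_Iio (by omega))
  have hf1 := hone hP hT c hc a e h ε κ ha0 ha he hh hb0 hε hκ
  obtain ⟨κ', hκ', hf2⟩ := htwo hP hT c hc3 a e h ε (κ / C₁) ha0 ha.le he hh hb0 hb1 hε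
    (by positivity)
  have hf3 := hfrm hP hT c hc3 a e h ε (κ / C₁ / (2 * 2 ^ 9)) ha0 ha he hh hb0 hε (by positivity)
  refine ⟨κ', hκ', Bas.mono 0 ((hf1.and hf2).and hf3) ?_⟩
  rintro J - F A ⟨⟨hA1, hA2⟩, hA3⟩ w a₀ v e₀ k s p g gT U G H T TH Ht Sv B₀ B haJ haa hεk hee hgJ
    hg2 hg0 hbt hBB₀ hB₀A hBκ hW hv hR
  have hp := Pe_nonneg F.isLaw
  have hBA : Sub B A := fun ω hω => hB₀A ω (hBB₀ ω hω)
  obtain ⟨E, hE⟩ : ∃ E, E = k + s + 1 := ⟨_, rfl⟩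
  have hE1 : 1 ≤ E := by omega
  rw [← hE] at hee hgJ hg0 hv ⊢
  -- the numbers
  obtain ⟨k₁, hk₁⟩ : ∃ k₁, k₁ = C₁ * E := ⟨_, rfl⟩
  obtain ⟨x, hx⟩ : ∃ x, x = X * E := ⟨_, rfl⟩
  obtain ⟨mu, hmu⟩ : ∃ mu, mu = C₃ * (x + 1) := ⟨_, rfl⟩
  obtain ⟨k₃, hk₃⟩ : ∃ k₃, k₃ = 2 * mu + r + 1 + k + (k + (k + 1) * (r + 1)) := ⟨_, rfl⟩
  have hx1 : x = 6 * k₁ + 20 * E := by rw [hx, hX, hk₁]; ring
  have hmuE : mu ≤ C₃ * (X + 2) * E := by
    rw [hmu, mul_assoc]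
    refine Nat.mul_le_mul_left _ ?_
    rw [hx, add_mul]
    omega
  have hk₃E : k₃ + s + 1 ≤ (X₃ + 2) * E := by
    have h1 : k₃ ≤ 2 * mu + r + 1 + k + (k + E * (r + 1)) := by
      rw [hk₃]
      have : (k + 1) * (r + 1) ≤ E * (r + 1) := Nat.mul_le_mul_right _ (by omega)
      omega
    have h2 : r ≤ r * E := Nat.le_mul_of_pos_right _ hE1
    rw [hX₃]
    nlinarith
  have hV : C₄ * (k₃ + s + 1) ≤ C₄ * (X₃ + 2) * E := by
    rw [mul_assoc]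
    exact Nat.mul_le_mul_left _ hk₃E
  obtain ⟨Q, hQ⟩ : ∃ Q, Q = C₄ * (X₃ + 2) * E := ⟨_, rfl⟩
  obtain ⟨Q₃, hQ₃⟩ : ∃ Q₃, Q₃ = C₃ * (X + 2) * E := ⟨_, rfl⟩
  have hCE : 2 * Q + k₁ + 4 * Q₃ + (4 * r + 20) * E + x ≤ C * E := by
    rw [hC, hQ, hQ₃, hk₁, hx, hX₃]
    nlinarith [Nat.zero_le (C₁ * (2 * 2 ^ 9 * C₄) * E)]
  rw [← hQ] at hV
  rw [← hQ₃] at hmuE
  have hrE : 20 * E ≤ (4 * r + 20) * E := by nlinarith
  -- the first two levels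
  obtain ⟨B₁, ψ, ψH, a1, a2, a3, a4, a5⟩ := hA1 w a₀ v e₀ k s p g gT U G H T TH Ht Sv B haJ haa hεk
    (by rw [← hE]; omega) (fun j hj => by
      have := hgJ j hj
      rw [← hE]
      omega) (hbt 0 (by norm_num)) hBA hBκ hW
  rw [← hE, ← hk₁] at a3 a4 a5
  have hB₁ : κ / C₁ * Pe F.p A ≤ Pe F.p B₁ := by
    rw [div_mul_eq_mul_div, div_le_iff₀ (by linarith), mul_comm]
    linarith
  have hB₁A : Sub B₁ A := fun ω hω => hBA ω (a1 ω hω)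
  have hW₁ := hW.sub a1
  have hkE : k + 1 ≤ E := by omega
  have hUx : U ≤ 2 ^ x := hW.Uk.trans (pow_le_pow_right₀ (by norm_num) (by omega))
  -- the places
  have hpl : ∀ l ≤ 1, ∃ p₁, p₁ ≤ g l + x ∧ p₁ ≤ J ∧
      ⌊(bet P c l a a + h) * J⌋₊ + a₀ ≤ p₁ + ⌊(a : ℝ) * J⌋₊ := by
    intro l hl
    refine ⟨min (g l + x) J, min_le_left _ _, min_le_right _ _, ?_⟩
    have hbl : bet P c l a a + h ≤ 1 := by
      obtain h1 | h1 : l = 0 ∨ l = 1 := by omega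
      · rw [h1]; exact hb0
      · rw [h1]; exact hb1
    have h1 : ⌊(bet P c l a a + h) * J⌋₊ ≤ J := by
      have h2 : (bet P c l a a + h) * J ≤ J := by
        have h3 := mul_le_mul_of_nonneg_right hbl (Nat.cast_nonneg (α := ℝ) J)
        rwa [one_mul] at h3
      have h3 := Nat.floor_le_floor h2
      rwa [Nat.floor_natCast] at h3
    have h2 := hbt l hl
    rcases min_cases (g l + x) J with ⟨h3, -⟩ | ⟨h3, -⟩ <;> rw [h3] <;> omega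
  obtain ⟨p₀, q1, q2, q3⟩ := hpl 0 (by norm_num)
  obtain ⟨p₁, q4, q5, q6⟩ := hpl 1 le_rfl
  have hg00 := hgJ 0 (by norm_num)
  have hg01 := hgJ 1 le_rfl
  have hch' : ChOK F c 3 (fun _ => D) a₀ a₀ (e₀ + k₁) g B₁ G H :=
    hW₁.ch.mono (by omega) (fun _ => le_rfl) le_rfl (by omega)
  -- the third level
  obtain ⟨B₂, b1, b2, b3⟩ := hA2 a₀ (e₀ + k₁) x x mu p₀ p₁ g B₀ B₁ G H ψ ψH
    (fun y l j => Mx 2 c g a₀ (ψ y) (Sv y) l j) haJ haa (hεk.trans (by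
      have : k ≤ x := by omega
      exact_mod_cast this)) le_rfl (by rw [hmu]) (by omega)
    (fun j hj => by
      have := hgJ j hj
      omega) hg2 (by omega) q1 q2 q3 q4 q5 q6 (fun ω hω => hBB₀ ω (a1 ω hω)) hB₀A hB₁ hch'
    (frok_mono a3 (by omega) le_rfl)
    (fun ω hω => ((a4 ω hω).trans2 ((hW₁.nr ω hω).le (by omega))).mono
      (pow_le_pow_right₀ (by norm_num) (by omega)))
    (fun ω hω τ hτ => (hW₁.row.own ω hω 2 hr τ hτ).trans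
      (div_le_div_of_nonneg_right hUx (by positivity)))
    ((a5 0 (by norm_num)).sub (fun _ h => h) (by omega))
    ((a5 1 le_rfl).sub (fun _ h => h) (by omega))
    (fun ω hω j hj => (hW₁.row.vel ω ω hω hω rfl j (by omega)).trans
      (div_le_div_of_nonneg_right (mul_le_mul_of_nonneg_right hUx (by positivity))
        (by positivity)))
    (fun ω hω => (hW₁.row.nul ω ω hω hω rfl 2 hr).trans
      (div_le_div_of_nonneg_right (mul_le_mul_of_nonneg_right hUx (by positivity))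
        (by positivity)))
    (fun ω hω => by
      have h1 := xn_slp hc2 a3.dep hW.dep (a4 ω hω) (k := k) (mu := C * E) (fun l hl hl2 => by
        have h2 : l = 1 := by omega
        rw [h2]
        exact hv ω (a1 ω hω)) (i := 0) le_rfl
      refine h1.trans ?_
      rw [div_le_div_iff₀ (by positivity) (by positivity), ← pow_add, ← pow_add]
      exact pow_le_pow_right₀ (by norm_num) (by omega))
    (fun ω hω l i => (mx_le2 hc2 (a3.dep _) (hW.dep _) (a4 ω hω) (i := l) (by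
        have := l.2
        omega) i).trans (pow_le_pow_right₀ (by norm_num) (by omega)))
    (Pool.ISO.relvF_exp (relv_pre hcr hW.ch.depG hR hr) (by omega))
  -- the frame
  have hW₂ := hW₁.sub b1
  have hB₂ : κ / C₁ / (2 * 2 ^ 9) * Pe F.p A ≤ Pe F.p B₂ := by
    rw [div_mul_eq_mul_div, div_le_iff₀ (by positivity), mul_comm]
    linarith
  have hkk₃ : k ≤ k₃ := by rw [hk₃]; omega
  obtain ⟨B₃, ψ₃, ψH₃, d1, d2, d3, d4, -⟩ := hA3 w a₀ v e₀ k₃ s (C₄ * (k₃ + s + 1)) p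
    (min (g 0 + s) J) g gT U G H T TH Ht Sv B₂ haJ haa (hεk.trans (by exact_mod_cast hkk₃))
    (by omega) le_rfl (by omega) (min_le_left _ _) (min_le_right _ _) (by
      have h1 : ⌊(bet P c 0 a a + h) * J⌋₊ ≤ J := by
        have h2 : (bet P c 0 a a + h) * J ≤ J := by
          have h3 := mul_le_mul_of_nonneg_right hb0 (Nat.cast_nonneg (α := ℝ) J)
          rwa [one_mul] at h3
        have h3 := Nat.floor_le_floor h2
        rwa [Nat.floor_natCast] at h3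
      have h2 := hbt 0 (by norm_num)
      rcases min_cases (g 0 + s) J with ⟨h3, -⟩ | ⟨h3, -⟩ <;> rw [h3] <;> omega)
    (fun ω hω => hB₁A ω (b1 ω hω)) hB₂ hW₂.ch hW₂.row hW.U0
    (hW.Uk.trans (pow_le_pow_right₀ (by norm_num) hkk₃))
    (fun l h1 h2 => by
      have h3 : l = 2 := by omega
      rw [h3]
      exact (v1p_nat hW₂ hr b3).sub (fun _ h => h)
        (pow_le_pow_right₀ (by norm_num) (by rw [hk₃]; omega))) hW.dep
    (fun ω hω => ((hW₂.nr ω hω).le (by omega)).symm2.mono (pow_le_pow_right₀ (by norm_num) (by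
      rw [hk₃]
      have : (k + 1) * 3 ≤ (k + 1) * (r + 1) := Nat.mul_le_mul_left _ (by omega)
      omega)))
  have hVC : C₄ * (k₃ + s + 1) ≤ C * E := by omega
  refine ⟨B₃, ψ₃, ψH₃, fun ω hω => a1 ω (b1 ω (d1 ω hω)), ?_, frok_mono d3 hVC (by omega),
    fun ω hω => (d4 ω hω).mono (pow_le_pow_right₀ (by norm_num) hVC), fun l hl => ?_⟩
  · have h1 : Pe F.p B ≤ C₁ * (2 * 2 ^ 9 * (C₄ * Pe F.p B₃)) :=
      a2.trans (mul_le_mul_of_nonneg_left (b2.trans (mul_le_mul_of_nonneg_left d2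
        (by positivity))) (by linarith))
    refine h1.trans ?_
    have h2 : ((C₁ * (2 * 2 ^ 9 * C₄) : ℕ) : ℝ) ≤ (C : ℕ) := by
      have : C₁ * (2 * 2 ^ 9 * C₄) ≤ C := by rw [hC]; omega
      exact_mod_cast this
    have h3 := mul_le_mul_of_nonneg_right h2 (hp B₃)
    push_cast at h3
    linarith
  · rcases Nat.lt_or_ge l 2 with h1 | h1
    · exact (a5 l (by omega)).sub (fun ω hω => b1 ω (d1 ω hω)) (by omega)
    · have h2 : l = 2 := by omega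
      rw [h2]
      exact b3.sub d1 (by omega)

end Pool.F5
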