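import Pool.Agent.H64.F5.Lvc

/-!
# (F5): the first three levels at one window, any length of the chain

`LvT`: the output of the levels at one window. `lvl_12`: the levels of the coordinates `c l`, `l ≤ 2`.
-/

set_option autoImplicit false

namespace Pool.F5

open Finset Real MvPolynomial
open Pool.Agent.H49.Ent Pool.Agent.H32.Dense Pool.STK Pool.KA Pool.KSAT Pool.K2S Pool.PB Pool.S6C
open Pool.GEN Pool.CHT Pool.CHX
open Pool.LBT (ThrOf)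
open Pool.D2F
open Pool.D2Z (Nc frok_sub frok_mono frok_le pow1)
open Pool.D2R (dd hs nrm nrm_nonneg ROut1)

variable {m J : ℕ}

/-- **The levels at one window**: a frame near the covectors `Sv`, and the second derivatives of
the ball charts of `c l`, `l ≤ 2`, are natural. -/
def LvT (F : Fam m J) (c : ℕ → Fin m) (r a k e : ℕ) (g : ℕ → ℕ)
    (G : PtT F → ℕ → MvPolynomial (Option (Fin m)) ℝ)
    (Sv : PtT F → ℕ → Option (Fin m) → ℝ) (B : F.Ω → Prop) : Prop :=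
  ∃ (ψ : PtT F → ℕ → Option (Fin m) → ℝ) (ψH : LnT F → ℕ → Option (Fin m) → ℝ),
    FrOK F c (min 3 (r + 1)) a k e g B ψ ψH ∧
    (∀ ω, B ω → Nc c g a (min 3 (r + 1)) (2 ^ k) (ψ (ptr F J ω)) (Sv (ptr F J ω))) ∧
    ∀ l ≤ 2, l ≤ r → NatH F c a g B G k l

theorem LvT.sub {F : Fam m J} {c : ℕ → Fin m} {r a k k' e e' : ℕ} {g : ℕ → ℕ}
    {G : PtT F → ℕ → MvPolynomial (Option (Fin m)) ℝ}
    {Sv : PtT F → ℕ → Option (Fin m) → ℝ} {B B' : F.Ω → Prop} (h : LvT F c r a k e g G Sv B)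
    (hB : Sub B' B) (hk : k ≤ k') (he : e ≤ e') : LvT F c r a k' e' g G Sv B' := by
  obtain ⟨ψ, ψH, h1, h2, h3⟩ := h
  exact ⟨ψ, ψH, frok_mono (frok_sub h1 hB) hk he,
    fun ω hω => (h2 ω (hB ω hω)).mono (pow_le_pow_right₀ (by norm_num) hk),
    fun l hl hlr => (h3 l hl hlr).sub hB hk⟩

/-- **The levels of the first three coordinates at one window.** -/
theorem lvl_12 (m D r : ℕ) (hD : 1 ≤ D) (hr : 1 ≤ r) : ∃ C : ℕ, 1 ≤ C ∧ ∀ {θ : ℝ} {S : PCl m}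
    {P : List (Fin m) × Fin m → ℝ → ℝ → ℝ}, ThrOf (chsys m θ) S P → TmH S → ∀ (c : ℕ → Fin m),
    Set.InjOn c (Set.Iio (r + 1)) → ∀ (a : ℚ) (e h ε κ : ℝ), 0 ≤ a → a < 1 → e < θ * a → 0 < h →
    bet P c 0 a a + h ≤ 1 → (2 ≤ r → bet P c 1 a a + h ≤ 1) → 0 < ε → 0 < κ →
    ∃ κ' : ℝ, 0 < κ' ∧
    Bas S (fun J F A => ∀ (w a₀ v e₀ k s p : ℕ) (g gT : ℕ → ℕ) (U : ℝ)
      (G : PtT F → ℕ → MvPolynomial (Option (Fin m)) ℝ)
      (H : LnT F → ℕ → MvPolynomial (Option (Fin m)) ℝ)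
      (T : PtT F → ℕ → MvPolynomial (Option (Fin m)) ℝ)
      (TH : LnT F → ℕ → MvPolynomial (Option (Fin m)) ℝ)
      (Ht : LnT F → MvPolynomial (Option (Fin m)) ℝ)
      (Sv : PtT F → ℕ → Option (Fin m) → ℝ) (B₀ B : F.Ω → Prop), a₀ ≤ J →
      a₀ ≤ ⌊(a : ℝ) * J⌋₊ → ε * J ≤ k → e₀ + C * (k + s + 1) ≤ ⌊e * J⌋₊ →
      (∀ j ≤ 1, e₀ + g j + C * (k + s + 1) ≤ J) → (2 ≤ r → g 2 ≤ J) →
      (2 ≤ r → C * (k + s + 1) ≤ g 0) →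
      (∀ l ≤ 1, l < r → ⌊(bet P c l a a + h) * J⌋₊ + a₀ ≤ g l + s + ⌊(a : ℝ) * J⌋₊) →
      Sub B B₀ → Sub B₀ A → κ * Pe F.p A ≤ Pe F.p B →
      WOK F c r D w a₀ v e₀ k p g gT U B G H T TH Ht Sv →
      (2 ≤ r → ∀ ω, B ω → |bd F ω (some (c 1)) - cv (Sv (ptr F J ω) 1) (bd F ω)| ≤
        2 ^ k * 2 ^ a₀ / 2 ^ (g 1 + C * (k + s + 1))) →
      RelvF F c r a₀ a₀ g D k κ' B₀ G →
      ∃ B' : F.Ω → Prop, Sub B' B ∧ Pe F.p B ≤ C * Pe F.p B' ∧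
        LvT F c r a₀ (C * (k + s + 1)) (e₀ + C * (k + s + 1)) g G Sv B') := by
  rcases Nat.lt_or_ge r 2 with hr2 | hr2
  · have h1 : r = 1 := by omega
    subst h1
    obtain ⟨C, hC, hone⟩ := lvl_one m D 1 hD le_rfl
    refine ⟨C, hC, ?_⟩
    intro θ S P hP hT c hc a e h ε κ ha0 ha he hh hb0 _ hε hκ
    refine ⟨1, one_pos, Bas.mono 0 (hone hP hT c hc a e h ε κ ha0 ha he hh hb0 hε hκ) ?_⟩
    intro J _ F A hA w a₀ v e₀ k s p g gT U G H T TH Ht Sv B₀ B haJ haa hεk hee hgJ _ _ hbt hBB₀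
      hB₀A hBκ hW _ _
    obtain ⟨B', ψ, ψH, a1, a2, a3, a4, a5⟩ := hA w a₀ v e₀ k s p g gT U G H T TH Ht Sv B haJ haa
      hεk hee hgJ (hbt 0 (by norm_num) one_pos) (fun ω hω => hB₀A ω (hBB₀ ω hω)) hBκ hW
    exact ⟨B', a1, a2, ψ, ψH, a3, a4, fun l _ hl => a5 l hl⟩
  · obtain ⟨C, hC, htwo⟩ := lvl_two m D r hD hr2
    refine ⟨C, hC, ?_⟩
    intro θ S P hP hT c hc a e h ε κ ha0 ha he hh hb0 hb1 hε hκ
    obtain ⟨κ', hκ', hb⟩ := htwo hP hT c hc a e h ε κ ha0 ha he hh hb0 (hb1 hr2) hε hκ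
    refine ⟨κ', hκ', Bas.mono 0 hb ?_⟩
    intro J _ F A hA w a₀ v e₀ k s p g gT U G H T TH Ht Sv B₀ B haJ haa hεk hee hgJ hg2 hg0 hbt
      hBB₀ hB₀A hBκ hW hv hR
    obtain ⟨B', ψ, ψH, a1, a2, a3, a4, a5⟩ := hA w a₀ v e₀ k s p g gT U G H T TH Ht Sv B₀ B haJ
      haa hεk hee hgJ (hg2 hr2) (hg0 hr2) (fun l hl => hbt l hl (by omega)) hBB₀ hB₀A hBκ hW
      (hv hr2) hR
    have h3 : min 3 (r + 1) = 3 := by omega
    refine ⟨B', a1, a2, ψ, ψH, ?_, ?_, fun l hl _ => a5 l hl⟩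
    · rw [h3]
      exact a3
    · rw [h3]
      exact a4

end Pool.F5
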