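import Pool.Agent.H64.F5.Alg

/-!
# (F5), two coordinates: the form at a sample

`h`: the (natural, normalised) second derivative of the chart at a sample, in the closed frame
`(t, y, v, u)`. `M`: the visible slopes of `v`, `u` at this sample, `M'`: at the other sample of the
line. `hv M i`: the lifted direction `i` (`0` = time, `1` = `y`). If `h` is small on both lifted planes,
the mixed part `aa h M` kills the difference of the slopes (`fp_one`), and `fp_two`; `fp_three` for the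
pure part `qq h`.
-/

set_option autoImplicit false

namespace Pool.F5

open Finset

/-- The lifted directions. -/
def hv (M : Fin 2 → Fin 2 → ℝ) (i : Fin 2) : Fin 4 → ℝ :=
  ![if i = 0 then 1 else 0, if i = 1 then 1 else 0, M 0 i, M 1 i]

/-- The directions of `v` and `u`. -/
def ev (k : Fin 2) : Fin 4 → ℝ := ![0, 0, if k = 0 then 1 else 0, if k = 1 then 1 else 0]

/-- The bilinear form. -/
def bf (h : Fin 4 → Fin 4 → ℝ) (U V : Fin 4 → ℝ) : ℝ := ∑ i, ∑ j, h i j * (U i * V j)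

/-- The mixed part. -/
def aa (h : Fin 4 → Fin 4 → ℝ) (M : Fin 2 → Fin 2 → ℝ) (i k : Fin 2) : ℝ := bf h (hv M i) (ev k)

/-- The pure part. -/
def qq (h : Fin 4 → Fin 4 → ℝ) (k l : Fin 2) : ℝ := bf h (ev k) (ev l)

section bf

variable (h : Fin 4 → Fin 4 → ℝ)

theorem bf_add_left (U U' V : Fin 4 → ℝ) : bf h (U + U') V = bf h U V + bf h U' V := by
  unfold bf
  simp only [← Finset.sum_add_distrib, Pi.add_apply]
  exact Finset.sum_congr rfl fun i _ => Finset.sum_congr rfl fun j _ => by ring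

theorem bf_add_right (U V V' : Fin 4 → ℝ) : bf h U (V + V') = bf h U V + bf h U V' := by
  unfold bf
  simp only [← Finset.sum_add_distrib, Pi.add_apply]
  exact Finset.sum_congr rfl fun i _ => Finset.sum_congr rfl fun j _ => by ring

theorem bf_smul_left (s : ℝ) (U V : Fin 4 → ℝ) : bf h (s • U) V = s * bf h U V := by
  unfold bf
  simp only [Finset.mul_sum, Pi.smul_apply, smul_eq_mul]
  exact Finset.sum_congr rfl fun i _ => Finset.sum_congr rfl fun j _ => by ring

theorem bf_smul_right (s : ℝ) (U V : Fin 4 → ℝ) : bf h U (s • V) = s * bf h U V := by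
  unfold bf
  simp only [Finset.mul_sum, Pi.smul_apply, smul_eq_mul]
  exact Finset.sum_congr rfl fun i _ => Finset.sum_congr rfl fun j _ => by ring

theorem bf_comm (hs : ∀ i j, h i j = h j i) (U V : Fin 4 → ℝ) : bf h U V = bf h V U := by
  unfold bf
  rw [Finset.sum_comm]
  exact Finset.sum_congr rfl fun i _ => Finset.sum_congr rfl fun j _ => by rw [hs j i]; ring

/-- The size of the form. -/
theorem bf_le {K R T : ℝ} (hK : ∀ i j, |h i j| ≤ K) {U V : Fin 4 → ℝ} (hU : ∀ i, |U i| ≤ R)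
    (hV : ∀ i, |V i| ≤ T) : |bf h U V| ≤ 16 * (K * (R * T)) := by
  have hR0 : 0 ≤ R := (abs_nonneg _).trans (hU 0)
  have hK0 : 0 ≤ K := (abs_nonneg _).trans (hK 0 0)
  unfold bf
  refine (Finset.abs_sum_le_sum_abs _ _).trans ?_
  calc _ ≤ ∑ _i : Fin 4, 4 * (K * (R * T)) := by
        refine Finset.sum_le_sum fun i _ => (Finset.abs_sum_le_sum_abs _ _).trans ?_
        calc _ ≤ ∑ _j : Fin 4, K * (R * T) := by
              refine Finset.sum_le_sum fun j _ => ?_
              rw [abs_mul, abs_mul]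
              exact mul_le_mul (hK i j) (mul_le_mul (hU i) (hV j) (abs_nonneg _) hR0)
                (by positivity) hK0
          _ = _ := by simp
    _ = _ := by
      simp
      ring

end bf

theorem hv_sub (M M' : Fin 2 → Fin 2 → ℝ) (i : Fin 2) :
    hv M' i = hv M i + ((M' 0 i - M 0 i) • ev 0 + (M' 1 i - M 1 i) • ev 1) := by
  funext j
  fin_cases j <;> simp [hv, ev]

theorem hv_le {M : Fin 2 → Fin 2 → ℝ} {B : ℝ} (hB : 1 ≤ B) (hM : ∀ k i, |M k i| ≤ B) (i : Fin 2)
    (j : Fin 4) : |hv M i j| ≤ B := by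
  fin_cases j
  · show |if i = 0 then (1 : ℝ) else 0| ≤ B
    split_ifs <;> simp <;> linarith
  · show |if i = 1 then (1 : ℝ) else 0| ≤ B
    split_ifs <;> simp <;> linarith
  · exact hM 0 i
  · exact hM 1 i

theorem ev_le (k : Fin 2) (j : Fin 4) : |ev k j| ≤ 1 := by
  fin_cases j
  · show |(0 : ℝ)| ≤ 1
    simp
  · show |(0 : ℝ)| ≤ 1
    simp
  · show |if k = 0 then (1 : ℝ) else 0| ≤ 1
    split_ifs <;> simp
  · show |if k = 1 then (1 : ℝ) else 0| ≤ 1
    split_ifs <;> simp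

/-- **The form is small on both lifted planes.** -/
structure FP (h : Fin 4 → Fin 4 → ℝ) (M M' : Fin 2 → Fin 2 → ℝ) (ε : ℝ) : Prop where
  sym : ∀ i j, h i j = h j i
  own : ∀ i j, |bf h (hv M i) (hv M j)| ≤ ε
  oth : ∀ i j, |bf h (hv M' i) (hv M' j)| ≤ ε

/-- The difference of the slopes. -/
def zz (M M' : Fin 2 → Fin 2 → ℝ) (k : Fin 2) : ℝ := M' k 1 - M k 1

variable {h : Fin 4 → Fin 4 → ℝ} {M M' : Fin 2 → Fin 2 → ℝ} {E R K B ε ε' : ℝ}

/-- The mixed part on the own line kills the difference of the slopes. -/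
theorem fp_one (hp : FP h M M' ε) (hE : |E| ≤ R) (hK : ∀ i j, |h i j| ≤ K) (hB : 1 ≤ B)
    (hM' : ∀ k i, |M' k i| ≤ B)
    (hl : ∀ k, |M' k 0 - M k 0 + E * (M' k 1 - M k 1)| ≤ ε) :
    |dt (fun k => aa h M 0 k + E * aa h M 1 k) (zz M M')| ≤
      (2 * (1 + R) + 32 * (K * B)) * ε := by
  have hε : 0 ≤ ε := (abs_nonneg _).trans (hp.own 0 0)
  have hR0 : 0 ≤ R := (abs_nonneg _).trans hE
  have hK0 : 0 ≤ K := (abs_nonneg _).trans (hK 0 0)
  obtain ⟨W, hW⟩ : ∃ W, W = hv M 0 + E • hv M 1 := ⟨_, rfl⟩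
  obtain ⟨r, hr⟩ : ∃ r : Fin 2 → ℝ, r = fun k => M' k 0 - M k 0 + E * (M' k 1 - M k 1) := ⟨_, rfl⟩
  have hWW : hv M' 0 + E • hv M' 1 = W + (r 0 • ev 0 + r 1 • ev 1) := by
    rw [hW, hr, hv_sub M M' 0, hv_sub M M' 1]
    funext j
    simp only [Pi.add_apply, Pi.smul_apply, smul_eq_mul]
    ring
  have e0 : dt (fun k => aa h M 0 k + E * aa h M 1 k) (zz M M') =
      bf h W (hv M' 1) - bf h W (hv M 1) := by
    have e1 : bf h W (hv M' 1) = bf h W (hv M 1) + (zz M M' 0 * bf h W (ev 0) +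
        zz M M' 1 * bf h W (ev 1)) := by
      rw [hv_sub M M' 1, bf_add_right, bf_add_right, bf_smul_right, bf_smul_right]
      rfl
    have e2 : ∀ k, bf h W (ev k) = aa h M 0 k + E * aa h M 1 k := by
      intro k
      rw [hW, bf_add_left, bf_smul_left]
      rfl
    rw [e1, e2, e2]
    unfold dt
    ring
  have e1 : |bf h W (hv M 1)| ≤ (1 + R) * ε := by
    rw [hW, bf_add_left, bf_smul_left]
    refine (abs_add_le _ _).trans ?_
    rw [abs_mul, add_mul, one_mul]
    exact add_le_add (hp.own 0 1) (mul_le_mul hE (hp.own 1 1) (abs_nonneg _) hR0)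
  have e2 : |bf h (hv M' 0 + E • hv M' 1) (hv M' 1)| ≤ (1 + R) * ε := by
    rw [bf_add_left, bf_smul_left]
    refine (abs_add_le _ _).trans ?_
    rw [abs_mul, add_mul, one_mul]
    exact add_le_add (hp.oth 0 1) (mul_le_mul hE (hp.oth 1 1) (abs_nonneg _) hR0)
  have e3 : ∀ k, |r k * bf h (ev k) (hv M' 1)| ≤ 16 * (K * B) * ε := by
    intro k
    have g1 := bf_le h hK (ev_le k) (hv_le hB hM' 1)
    rw [one_mul] at g1
    rw [abs_mul, mul_comm]
    refine (mul_le_mul g1 ?_ (abs_nonneg _) (by positivity))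
    rw [hr]
    exact hl k
  have e4 : bf h W (hv M' 1) = bf h (hv M' 0 + E • hv M' 1) (hv M' 1) -
      (r 0 * bf h (ev 0) (hv M' 1) + r 1 * bf h (ev 1) (hv M' 1)) := by
    rw [hWW, bf_add_left, bf_add_left, bf_smul_left, bf_smul_left]
    ring
  rw [e0, e4]
  have g0 := e3 0
  have g1 := e3 1
  refine (abs_sub _ _).trans ((add_le_add ((abs_sub _ _).trans (add_le_add e2
    ((abs_add_le _ _).trans (add_le_add g0 g1)))) e1).trans (le_of_eq ?_))
  ring

/-- The mixed part in the direction `y`. -/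
theorem fp_two (hp : FP h M M' ε) :
    |2 * dt (aa h M 1) (zz M M') + (qq h 0 0 * (zz M M' 0 * zz M M' 0) +
      qq h 0 1 * (zz M M' 0 * zz M M' 1) + (qq h 1 0 * (zz M M' 1 * zz M M' 0) +
      qq h 1 1 * (zz M M' 1 * zz M M' 1)))| ≤ 2 * ε := by
  have e : 2 * dt (aa h M 1) (zz M M') + (qq h 0 0 * (zz M M' 0 * zz M M' 0) +
      qq h 0 1 * (zz M M' 0 * zz M M' 1) + (qq h 1 0 * (zz M M' 1 * zz M M' 0) +
      qq h 1 1 * (zz M M' 1 * zz M M' 1))) =
      bf h (hv M' 1) (hv M' 1) - bf h (hv M 1) (hv M 1) := by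
    have c0 := bf_comm h hp.sym (ev 0) (hv M 1)
    have c1 := bf_comm h hp.sym (ev 1) (hv M 1)
    rw [hv_sub M M' 1]
    simp only [bf_add_left, bf_add_right, bf_smul_left, bf_smul_right, c0, c1]
    unfold dt aa qq zz
    ring
  rw [e]
  refine (abs_sub _ _).trans ((add_le_add (hp.oth 1 1) (hp.own 1 1)).trans (le_of_eq ?_))
  ring

/-- **The pure part kills the difference of the slopes.** -/
theorem fp_three (hs : ∀ i j, h i j = h j i) (h1 : ∀ k, |aa h M 1 k| ≤ ε')
    (h2 : ∀ k, |bf h (hv M' 1) (ev k)| ≤ ε') (k : Fin 2) :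
    |dt (fun l => qq h k l) (zz M M')| ≤ 2 * ε' := by
  have e : dt (fun l => qq h k l) (zz M M') = bf h (hv M' 1) (ev k) - aa h M 1 k := by
    have c0 := bf_comm h hs (ev 0) (ev k)
    have c1 := bf_comm h hs (ev 1) (ev k)
    rw [hv_sub M M' 1]
    simp only [bf_add_left, bf_smul_left, c0, c1]
    unfold dt aa qq zz
    ring
  rw [e]
  refine (abs_sub _ _).trans ((add_le_add (h2 k) (h1 k)).trans (le_of_eq ?_))
  ring

/-- The form is small if its three parts are. -/
theorem fp_small (hs : ∀ i j, h i j = h j i) (hB : 1 ≤ B) (hM : ∀ k i, |M k i| ≤ B)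
    (h0 : ∀ i j, |bf h (hv M i) (hv M j)| ≤ ε) (h1 : ∀ i k, |aa h M i k| ≤ ε)
    (h2 : ∀ k l, |qq h k l| ≤ ε) (i j : Fin 4) : |h i j| ≤ 9 * B ^ 2 * ε := by
  have hε : 0 ≤ ε := (abs_nonneg _).trans (h0 0 0)
  have hB0 : 0 ≤ B := by linarith
  -- the basis
  obtain ⟨b, hb⟩ : ∃ b : Fin 4 → Fin 4 → ℝ, b = fun i j => if i = j then 1 else 0 := ⟨_, rfl⟩
  have hbij : ∀ i j, bf h (b i) (b j) = h i j := by
    intro i j
    unfold bf
    rw [Finset.sum_eq_single i, Finset.sum_eq_single j]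
    · rw [hb]
      simp
    · intro l _ hl
      rw [hb]
      simp [Ne.symm hl]
    · intro hh
      exact absurd (Finset.mem_univ _) hh
    · intro l _ hl
      refine Finset.sum_eq_zero fun l' _ => ?_
      rw [hb]
      simp [Ne.symm hl]
    · intro hh
      exact absurd (Finset.mem_univ _) hh
  have b0 : b 0 = hv M 0 + ((-(M 0 0)) • ev 0 + (-(M 1 0)) • ev 1) := by
    rw [hb]
    funext j
    fin_cases j <;> simp [hv, ev]
  have b1 : b 1 = hv M 1 + ((-(M 0 1)) • ev 0 + (-(M 1 1)) • ev 1) := by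
    rw [hb]
    funext j
    fin_cases j <;> simp [hv, ev]
  have b2 : b 2 = ev 0 := by
    rw [hb]
    funext j
    fin_cases j <;> simp [ev]
  have b3 : b 3 = ev 1 := by
    rw [hb]
    funext j
    fin_cases j <;> simp [ev]
  have key : ∀ i : Fin 4, ∃ (s : ℝ) (p : Fin 2) (r : Fin 2 → ℝ), |s| ≤ 1 ∧ (∀ k, |r k| ≤ B) ∧
      b i = s • hv M p + (r 0 • ev 0 + r 1 • ev 1) := by
    intro i
    fin_cases i
    · exact ⟨1, 0, ![-(M 0 0), -(M 1 0)], by simp, fun k => by
        fin_cases k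
        · show |-(M 0 0)| ≤ B
          rw [abs_neg]
          exact hM 0 0
        · show |-(M 1 0)| ≤ B
          rw [abs_neg]
          exact hM 1 0, by
        show b 0 = _
        rw [b0, one_smul]
        rfl⟩
    · exact ⟨1, 1, ![-(M 0 1), -(M 1 1)], by simp, fun k => by
        fin_cases k
        · show |-(M 0 1)| ≤ B
          rw [abs_neg]
          exact hM 0 1
        · show |-(M 1 1)| ≤ B
          rw [abs_neg]
          exact hM 1 1, by
        show b 1 = _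
        rw [b1, one_smul]
        rfl⟩
    · exact ⟨0, 0, ![1, 0], by simp, fun k => by
        fin_cases k
        · show |(1 : ℝ)| ≤ B
          rw [abs_one]
          exact hB
        · show |(0 : ℝ)| ≤ B
          rw [abs_zero]
          exact hB0, by
        show b 2 = _
        rw [b2, zero_smul, zero_add]
        show ev 0 = (1 : ℝ) • ev 0 + (0 : ℝ) • ev 1
        rw [one_smul, zero_smul, add_zero]⟩
    · exact ⟨0, 0, ![0, 1], by simp, fun k => by
        fin_cases k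
        · show |(0 : ℝ)| ≤ B
          rw [abs_zero]
          exact hB0
        · show |(1 : ℝ)| ≤ B
          rw [abs_one]
          exact hB, by
        show b 3 = _
        rw [b3, zero_smul, zero_add]
        show ev 1 = (0 : ℝ) • ev 0 + (1 : ℝ) • ev 1
        rw [one_smul, zero_smul, zero_add]⟩
  obtain ⟨s, p, r, hs1, hr, hi⟩ := key i
  obtain ⟨s', p', r', hs1', hr', hj⟩ := key j
  rw [← hbij, hi, hj]
  simp only [bf_add_left, bf_add_right, bf_smul_left, bf_smul_right]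
  have cc : ∀ (x y w : ℝ) , |x| ≤ B → |y| ≤ B → |w| ≤ ε → |x * (y * w)| ≤ B ^ 2 * ε := by
    intro x y w hx hy hw
    rw [abs_mul, abs_mul, pow_two, mul_assoc]
    exact mul_le_mul hx (mul_le_mul hy hw (abs_nonneg _) hB0) (by positivity) hB0
  have hsB : |s| ≤ B := hs1.trans hB
  have hsB' : |s'| ≤ B := hs1'.trans hB
  have aL : ∀ k, |bf h (ev k) (hv M p')| ≤ ε := fun k => by
    rw [bf_comm h hs]
    exact h1 p' k
  have g1 := cc s s' _ hsB hsB' (h0 p p')
  have g2 := cc s (r' 0) _ hsB (hr' 0) (h1 p 0)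
  have g3 := cc s (r' 1) _ hsB (hr' 1) (h1 p 1)
  have g4 := cc (r 0) s' _ (hr 0) hsB' (aL 0)
  have g5 := cc (r 0) (r' 0) _ (hr 0) (hr' 0) (h2 0 0)
  have g6 := cc (r 0) (r' 1) _ (hr 0) (hr' 1) (h2 0 1)
  have g7 := cc (r 1) s' _ (hr 1) hsB' (aL 1)
  have g8 := cc (r 1) (r' 0) _ (hr 1) (hr' 0) (h2 1 0)
  have g9 := cc (r 1) (r' 1) _ (hr 1) (hr' 1) (h2 1 1)
  unfold aa at g2 g3
  unfold qq at g5 g6 g8 g9
  rw [abs_le] at g1 g2 g3 g4 g5 g6 g7 g8 g9 ⊢
  constructor
  · linarith [g1.1, g2.1, g3.1, g4.1, g5.1, g6.1, g7.1, g8.1, g9.1]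
  · linarith [g1.2, g2.2, g3.2, g4.2, g5.2, g6.2, g7.2, g8.2, g9.2]

end Pool.F5
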