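import Pool.Agent.H23.D2.Path
import Pool.Agent.H64.F5.Frm

/-!
# (F5): polynomials on lines and on boxes

`lp`: the polynomial on a line. `gp`: the derivative in a fixed direction, `hp`: the second derivative
in two fixed directions. `Bx P R K`: the second derivative is at most `K` on the box of radius `R`.
`lip_hs`: it is Lipschitz on the box.
-/

set_option autoImplicit false

namespace Pool.F5

open Finset Real MvPolynomial
open Pool.GEN Pool.CHT
open Pool.D2R (dd hs dd_add dd_smul dd_sub hs_sub hs_add_left hs_add_right hs_smul_left hs_smul_right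
  hs_comm der_curve mv_seg der_one)

variable {m : ℕ}

/-- The polynomial on a line. -/
noncomputable def lp (P : MvPolynomial (Option (Fin m)) ℝ) (x W : Option (Fin m) → ℝ) :
    Polynomial ℝ := MvPolynomial.aeval (fun o => Polynomial.C (x o) +
      Polynomial.C (W o) * Polynomial.X) P

theorem eval_lp (P : MvPolynomial (Option (Fin m)) ℝ) (x W : Option (Fin m) → ℝ) (s : ℝ) :
    (lp P x W).eval s = eval (fun o => x o + s * W o) P := by
  unfold lp
  rw [Pool.KBX.eval_aeval_poly]
  congr 1
  congr 1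
  funext o
  simp
  ring

theorem deg_lp {P : MvPolynomial (Option (Fin m)) ℝ} {D : ℕ} (h : P.totalDegree ≤ D)
    (x W : Option (Fin m) → ℝ) : (lp P x W).natDegree ≤ D := by
  unfold lp
  refine Pool.KBX.natDegree_aeval_le _ _ (fun o => ?_) h
  refine (Polynomial.natDegree_add_le _ _).trans (max_le ?_ ?_)
  · rw [Polynomial.natDegree_C]
    exact Nat.zero_le _
  · refine (Polynomial.natDegree_C_mul_le _ _).trans ?_
    exact Polynomial.natDegree_X_le

theorem der_lp (P : MvPolynomial (Option (Fin m)) ℝ) (x W : Option (Fin m) → ℝ) (s : ℝ) :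
    (Polynomial.derivative (lp P x W)).eval s = dd P (fun o => x o + s * W o) W ∧
    (Polynomial.derivative (Polynomial.derivative (lp P x W))).eval s =
      hs P (fun o => x o + s * W o) W W := by
  have h := der_curve (fun o => Polynomial.C (x o) + Polynomial.C (W o) * Polynomial.X)
    (x := fun o => x o + s * W o) (V := W) (Z := 0) (s := s) (fun o => by simp; ring)
    (fun o => by simp) (fun o => by simp) P
  refine ⟨h.1, ?_⟩
  have h2 := h.2
  have e : dd P (fun o => x o + s * W o) (0 : Option (Fin m) → ℝ) = 0 := by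
    unfold dd
    simp
  rw [e, add_zero] at h2
  exact h2

/-- The derivative in a fixed direction. -/
noncomputable def gp (P : MvPolynomial (Option (Fin m)) ℝ) (V : Option (Fin m) → ℝ) :
    MvPolynomial (Option (Fin m)) ℝ := ∑ o, C (V o) * pderiv o P

theorem eval_gp (P : MvPolynomial (Option (Fin m)) ℝ) (V x : Option (Fin m) → ℝ) :
    eval x (gp P V) = dd P x V := by
  unfold gp dd
  rw [map_sum]
  exact Finset.sum_congr rfl fun o _ => by rw [map_mul, eval_C]; ring

theorem dd_gp (P : MvPolynomial (Option (Fin m)) ℝ) (V x W : Option (Fin m) → ℝ) :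
    dd (gp P V) x W = hs P x W V := by
  unfold gp hs dd
  simp only [map_sum, Derivation.leibniz, pderiv_C, smul_eq_mul, mul_zero, add_zero, map_mul,
    eval_C, Finset.sum_mul]
  rw [Finset.sum_comm]
  refine Finset.sum_congr rfl fun o _ => Finset.sum_congr rfl fun o' _ => ?_
  ring

theorem deg_gp {P : MvPolynomial (Option (Fin m)) ℝ} {D : ℕ} (h : P.totalDegree ≤ D)
    (V : Option (Fin m) → ℝ) : (gp P V).totalDegree ≤ D := by
  unfold gp
  refine totalDegree_finsetSum_le fun o _ => ?_
  refine (totalDegree_mul _ _).trans ?_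
  rw [totalDegree_C, zero_add]
  exact totalDegree_pdσ h o

/-- The second derivative in two fixed directions. -/
noncomputable def hp (P : MvPolynomial (Option (Fin m)) ℝ) (V V' : Option (Fin m) → ℝ) :
    MvPolynomial (Option (Fin m)) ℝ := gp (gp P V') V

theorem eval_hp (P : MvPolynomial (Option (Fin m)) ℝ) (V V' x : Option (Fin m) → ℝ) :
    eval x (hp P V V') = hs P x V V' := by
  unfold hp
  rw [eval_gp, dd_gp]

theorem deg_hp {P : MvPolynomial (Option (Fin m)) ℝ} {D : ℕ} (h : P.totalDegree ≤ D)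
    (V V' : Option (Fin m) → ℝ) : (hp P V V').totalDegree ≤ D := deg_gp (deg_gp h V') V

/-- **The second derivative is bounded on a box.** -/
def Bx (P : MvPolynomial (Option (Fin m)) ℝ) (R K : ℝ) : Prop :=
  ∀ η V V' : Option (Fin m) → ℝ, (∀ o, |η o| ≤ R) → (∀ o, |V o| ≤ 1) → (∀ o, |V' o| ≤ 1) →
    |hs P η V V'| ≤ K

/-- A bounded bilinear form. -/
theorem bil_le {f : (Option (Fin m) → ℝ) → (Option (Fin m) → ℝ) → ℝ} {K : ℝ}
    (h1 : ∀ (s : ℝ) V V', f (s • V) V' = s * f V V') (h2 : ∀ (s : ℝ) V V', f V (s • V') = s * f V V')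
    (h : ∀ V V', (∀ o, |V o| ≤ 1) → (∀ o, |V' o| ≤ 1) → |f V V'| ≤ K) {A A' : ℝ} (hA : 0 ≤ A)
    (hA' : 0 ≤ A') {V V' : Option (Fin m) → ℝ} (hV : ∀ o, |V o| ≤ A) (hV' : ∀ o, |V' o| ≤ A') :
    |f V V'| ≤ K * (A * A') := by
  rcases hA.eq_or_lt with h0 | h0
  · have e : V = (0 : ℝ) • V := by
      funext o
      have h3 := hV o
      rw [← h0] at h3
      rw [abs_nonpos_iff.1 h3, zero_smul]
      rfl
    rw [e, h1, ← h0]
    simp
  rcases hA'.eq_or_lt with h0' | h0'
  · have e : V' = (0 : ℝ) • V' := by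
      funext o
      have h3 := hV' o
      rw [← h0'] at h3
      rw [abs_nonpos_iff.1 h3, zero_smul]
      rfl
    rw [e, h2, ← h0']
    simp
  have e : f V V' = A * A' * f ((1 / A) • V) ((1 / A') • V') := by
    rw [h1, h2]
    field_simp
  have g1 := h ((1 / A) • V) ((1 / A') • V') (fun o => by
    rw [Pi.smul_apply, smul_eq_mul, abs_mul, abs_of_pos (by positivity), one_div,
      inv_mul_le_iff₀ h0, mul_one]
    exact hV o) fun o => by
    rw [Pi.smul_apply, smul_eq_mul, abs_mul, abs_of_pos (by positivity), one_div,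
      inv_mul_le_iff₀ h0', mul_one]
    exact hV' o
  rw [e, abs_mul, abs_of_pos (mul_pos h0 h0'), mul_comm K]
  exact mul_le_mul_of_nonneg_left g1 (mul_pos h0 h0').le

theorem Bx.le {P : MvPolynomial (Option (Fin m)) ℝ} {R K : ℝ} (h : Bx P R K) {A A' : ℝ}
    (hA : 0 ≤ A) (hA' : 0 ≤ A') {η V V' : Option (Fin m) → ℝ} (hη : ∀ o, |η o| ≤ R)
    (hV : ∀ o, |V o| ≤ A) (hV' : ∀ o, |V' o| ≤ A') : |hs P η V V'| ≤ K * (A * A') :=
  bil_le (f := fun V V' => hs P η V V') (fun s V V' => hs_smul_left P η V V' s)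
    (fun s V V' => hs_smul_right P η V V' s) (fun V V' h1 h2 => h η V V' hη h1 h2) hA hA' hV hV'

/-- **The second derivative is Lipschitz.** -/
theorem lip_hs (D : ℕ) : ∃ C : ℝ, 1 ≤ C ∧ ∀ {m : ℕ} {P : MvPolynomial (Option (Fin m)) ℝ}
    {R K ε : ℝ}, P.totalDegree ≤ D → Bx P R K → 0 ≤ K → 0 ≤ ε → ε ≤ 1 →
    ∀ η δ : Option (Fin m) → ℝ, (∀ o, |η o| ≤ R - 1) → (∀ o, |δ o| ≤ ε) →
    ∀ A A' : ℝ, 0 ≤ A → 0 ≤ A' → ∀ V V' : Option (Fin m) → ℝ, (∀ o, |V o| ≤ A) →
      (∀ o, |V' o| ≤ A') → |hs P (fun o => η o + δ o) V V' - hs P η V V'| ≤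
        C * (K * ε) * (A * A') := by
  obtain ⟨C, hC, hder⟩ := der_one D
  refine ⟨C, hC, ?_⟩
  intro m P R K ε hD hB hK hε0 hε1 η δ hη hδ A A' hA hA' V V' hV hV'
  rcases hε0.eq_or_lt with h0 | h0
  · have e : (fun o => η o + δ o) = η := by
      funext o
      have := hδ o
      rw [← h0] at this
      have := abs_nonpos_iff.1 this
      rw [this, add_zero]
    rw [e, sub_self, abs_zero]
    positivity
  · obtain ⟨W, hW⟩ : ∃ W : Option (Fin m) → ℝ, W = fun o => δ o / ε := ⟨_, rfl⟩
    have hW1 : ∀ o, |W o| ≤ 1 := by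
      intro o
      rw [hW]
      show |δ o / ε| ≤ 1
      rw [abs_div, abs_of_pos h0, div_le_one h0]
      exact hδ o
    have hb : ∀ s ∈ Set.Icc (0 : ℝ) 1, ∀ o, |η o + s * W o| ≤ R := by
      intro s hs o
      refine (abs_add_le _ _).trans ?_
      rw [abs_mul, abs_of_nonneg hs.1]
      have := mul_le_mul hs.2 (hW1 o) (abs_nonneg _) zero_le_one
      linarith [hη o]
    have key : ∀ V V' : Option (Fin m) → ℝ, (∀ o, |V o| ≤ 1) → (∀ o, |V' o| ≤ 1) →
        |hs P (fun o => η o + δ o) V V' - hs P η V V'| ≤ C * (K * ε) := by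
      intro V V' hV hV'
      obtain ⟨Q, hQ⟩ : ∃ Q, Q = hp P V V' := ⟨_, rfl⟩
      have hQe : ∀ x, eval x Q = hs P x V V' := fun x => by rw [hQ, eval_hp]
      have hQd : Q.totalDegree ≤ D := by rw [hQ]; exact deg_hp hD V V'
      have h1 : ∀ s ∈ Set.Icc (0 : ℝ) 1, |(lp Q η W).eval s| ≤ K := by
        intro s hs
        rw [eval_lp, hQe]
        exact hB _ V V' (hb s hs) hV hV'
      have h2 := hder (lp Q η W) K (deg_lp hQd η W) h1
      have h3 := mv_seg Q η δ (M := ε * (C * K)) (by
        intro u hu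
        have e1 : dd Q (fun o => η o + u * δ o) δ =
            ε * dd Q (fun o => η o + (u * ε) * W o) W := by
          rw [← dd_smul]
          have e2 : (fun o => η o + u * δ o) = fun o => η o + u * ε * W o := by
            funext o
            rw [hW]
            field_simp
          have e3 : δ = ε • W := by
            funext o
            rw [hW]
            simp only [Pi.smul_apply, smul_eq_mul]
            field_simp
          rw [e2, ← e3]
        rw [e1, abs_mul, abs_of_pos h0]
        refine mul_le_mul_of_nonneg_left ?_ h0.le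
        rw [← (der_lp Q η W (u * ε)).1]
        refine h2 _ ?_
        rw [abs_of_nonneg (mul_nonneg hu.1 h0.le)]
        calc u * ε ≤ 1 * 1 := mul_le_mul hu.2 hε1 h0.le zero_le_one
          _ = 1 := one_mul 1) 1 ⟨zero_le_one, le_rfl⟩
      rw [hQe, hQe] at h3
      simp only [one_mul] at h3
      refine h3.trans (le_of_eq ?_)
      ring
    exact bil_le (f := fun V V' => hs P (fun o => η o + δ o) V V' - hs P η V V')
      (fun s V V' => by rw [hs_smul_left, hs_smul_left]; ring)
      (fun s V V' => by rw [hs_smul_right, hs_smul_right]; ring) key hA hA' hV hV'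

end Pool.F5
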