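import Pool.Agent.H31.F5.Plane
import Pool.Agent.H64.F5.Lip

/-!
# (F5): from the lines to the plane

`D + 1` separated lines through the origin, near the plane of `U₀`, `U₁`. `pln_hs`: if the second
derivative along every line is small, the second derivative is small in the plane. `pln_dv`: if the
mixed derivative in a fixed direction is small along every line, it is small in the plane.
-/

set_option autoImplicit false

namespace Pool.F5

open Finset Real MvPolynomial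
open Pool.GEN Pool.CHT
open Pool.D2R (dd hs dd_add dd_smul dd_sub hs_sub hs_add_left hs_add_right hs_smul_left hs_smul_right
  hs_comm der_curve mv_seg der_one)

variable {m : ℕ}

/-- The polynomial without its linear part. -/
noncomputable def nl (P : MvPolynomial (Option (Fin m)) ℝ) : MvPolynomial (Option (Fin m)) ℝ :=
  P - ∑ o, C (eval 0 (pderiv o P)) * X o

theorem dd_nl (P : MvPolynomial (Option (Fin m)) ℝ) (x W : Option (Fin m) → ℝ) :
    dd (nl P) x W = dd P x W - dd P 0 W := by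
  classical
  unfold nl
  rw [dd_sub]
  congr 1
  unfold dd
  refine Finset.sum_congr rfl fun o _ => ?_
  congr 1
  rw [map_sum, map_sum, Finset.sum_eq_single o]
  · rw [Derivation.leibniz, pderiv_C, pderiv_X]
    simp
  · intro o' _ ho
    rw [Derivation.leibniz, pderiv_C, pderiv_X]
    simp [Pi.single_eq_of_ne ho]
  · intro h
    exact absurd (Finset.mem_univ _) h

theorem hs_nl (P : MvPolynomial (Option (Fin m)) ℝ) (x W V : Option (Fin m) → ℝ) :
    hs (nl P) x W V = hs P x W V := by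
  classical
  unfold nl
  rw [hs_sub]
  have e : hs (∑ o, C (eval 0 (pderiv o P)) * X o) x W V = 0 := by
    unfold hs dd
    refine Finset.sum_eq_zero fun o _ => ?_
    have : pderiv o (∑ o, C (eval 0 (pderiv o P)) * X o) =
        (C (eval 0 (pderiv o P)) : MvPolynomial (Option (Fin m)) ℝ) := by
      rw [map_sum, Finset.sum_eq_single o]
      · rw [Derivation.leibniz, pderiv_C, pderiv_X]
        simp
      · intro o' _ ho
        rw [Derivation.leibniz, pderiv_C, pderiv_X]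
        simp [Pi.single_eq_of_ne ho]
      · intro h
        exact absurd (Finset.mem_univ _) h
    rw [this]
    simp
  rw [e, sub_zero]

theorem deg_nl {P : MvPolynomial (Option (Fin m)) ℝ} {D : ℕ} (hD : 1 ≤ D)
    (h : P.totalDegree ≤ D) : (nl P).totalDegree ≤ D := by
  unfold nl
  refine (totalDegree_sub _ _).trans (max_le h (totalDegree_finsetSum_le fun o _ => ?_))
  refine (totalDegree_mul _ _).trans ?_
  rw [totalDegree_C, totalDegree_X, zero_add]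
  exact hD

/-- **The exact lines and the plane.** -/
theorem pln_near (D : ℕ) : ∃ C : ℝ, 1 ≤ C ∧ ∀ {m : ℕ} {P : MvPolynomial (Option (Fin m)) ℝ}
    {X Y : Option (Fin m) → ℝ} {A K ε : ℝ}, P.totalDegree ≤ D → 1 ≤ A → 1 ≤ K → 0 ≤ ε → ε ≤ 1 →
    Bx P (8 * A ^ 2) K → (∀ o, |Y o| ≤ 2 * A ^ 2) → (∀ o, |X o - Y o| ≤ ε) → ∀ s : ℝ, |s| ≤ 1 →
    (|hs P (fun o => s * X o) X X| ≤ ε → |hs P (s • Y) Y Y| ≤ C * A ^ 4 * (K * ε)) ∧
    ∀ V : Option (Fin m) → ℝ, (∀ o, |V o| ≤ 1) → |hs P (fun o => s * X o) X V| ≤ ε →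
      |hs P (s • Y) Y V| ≤ C * A ^ 4 * (K * ε) := by
  obtain ⟨C, hC, hlip⟩ := lip_hs D
  refine ⟨4 * C + 11, by linarith, ?_⟩
  intro m P X Y A K ε hD hA hK hε0 hε1 hB hY hXY s hs1
  have hA2 : 1 ≤ A ^ 2 := one_le_pow₀ hA
  have hA0 : 0 ≤ A ^ 2 := by positivity
  have hK0 : 0 ≤ K := by linarith
  have hX : ∀ o, |X o| ≤ 3 * A ^ 2 := by
    intro o
    have e : X o = (X o - Y o) + Y o := by ring
    rw [e]
    refine (abs_add_le _ _).trans ?_
    linarith [hXY o, hY o]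
  have hsX : ∀ o, |s * X o| ≤ 8 * A ^ 2 - 1 := by
    intro o
    rw [abs_mul]
    have := mul_le_mul hs1 (hX o) (abs_nonneg _) zero_le_one
    linarith
  have hsX' : ∀ o, |s * X o| ≤ 8 * A ^ 2 := fun o => by linarith [hsX o]
  have hδ : ∀ o, |s * (Y o - X o)| ≤ ε := by
    intro o
    rw [abs_mul, abs_sub_comm]
    have := mul_le_mul hs1 (hXY o) (abs_nonneg _) zero_le_one
    linarith
  have hYX : ∀ o, |(Y - X) o| ≤ ε := by
    intro o
    rw [Pi.sub_apply, abs_sub_comm]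
    exact hXY o
  have e0 : (fun o => s * X o + s * (Y o - X o)) = s • Y := by
    funext o
    rw [Pi.smul_apply, smul_eq_mul]
    ring
  have eY : Y = X + (Y - X) := by
    funext o
    rw [Pi.add_apply, Pi.sub_apply]
    ring
  have hl := fun (A₁ A₂ : ℝ) (h1 : 0 ≤ A₁) (h2 : 0 ≤ A₂) (V V' : Option (Fin m) → ℝ)
    (h3 : ∀ o, |V o| ≤ A₁) (h4 : ∀ o, |V' o| ≤ A₂) =>
    hlip hD hB hK0 hε0 hε1 (fun o => s * X o) (fun o => s * (Y o - X o)) hsX hδ A₁ A₂ h1 h2 V V'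
      h3 h4
  simp only [e0] at hl
  have hKε : 0 ≤ K * ε := mul_nonneg hK0 hε0
  have hA4 : A ^ 4 = A ^ 2 * A ^ 2 := by ring
  have h14 : 1 ≤ A ^ 4 := one_le_pow₀ hA
  have h24 : A ^ 2 ≤ A ^ 4 := by rw [hA4]; nlinarith
  have hεK : ε ≤ K * ε := le_mul_of_one_le_left hε0 hK
  have hC0 : 0 ≤ C := by linarith
  constructor
  · intro h
    have g1 := hl (2 * A ^ 2) (2 * A ^ 2) (by positivity) (by positivity) Y Y hY hY
    have g2 : |hs P (fun o => s * X o) (Y - X) Y| ≤ K * (ε * (2 * A ^ 2)) :=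
      hB.le hε0 (by positivity) hsX' hYX hY
    have g3 : |hs P (fun o => s * X o) X (Y - X)| ≤ K * (3 * A ^ 2 * ε) :=
      hB.le (by positivity) hε0 hsX' hX hYX
    have e : hs P (fun o => s * X o) Y Y = hs P (fun o => s * X o) X X +
        (hs P (fun o => s * X o) X (Y - X) + hs P (fun o => s * X o) (Y - X) Y) := by
      conv_lhs => rw [eY]
      rw [hs_add_left]
      have : hs P (fun o => s * X o) X (X + (Y - X)) = hs P (fun o => s * X o) X X +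
          hs P (fun o => s * X o) X (Y - X) := hs_add_right _ _ _ _ _
      rw [this, ← eY]
      ring
    have e1 : hs P (s • Y) Y Y = (hs P (s • Y) Y Y - hs P (fun o => s * X o) Y Y) +
        (hs P (fun o => s * X o) X X + (hs P (fun o => s * X o) X (Y - X) +
          hs P (fun o => s * X o) (Y - X) Y)) := by rw [← e]; ring
    rw [e1]
    have b0 := (abs_add_le _ _).trans (add_le_add g1 ((abs_add_le _ _).trans
      (add_le_add h ((abs_add_le _ _).trans (add_le_add g3 g2)))))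
    refine b0.trans ?_
    have e2 : C * (K * ε) * (2 * A ^ 2 * (2 * A ^ 2)) + (ε + (K * (3 * A ^ 2 * ε) +
        K * (ε * (2 * A ^ 2)))) = 4 * C * A ^ 4 * (K * ε) + ε + 5 * (A ^ 2 * (K * ε)) := by ring
    rw [e2]
    have e3 : ε ≤ A ^ 4 * (K * ε) := hεK.trans (le_mul_of_one_le_left hKε h14)
    have e4 : A ^ 2 * (K * ε) ≤ A ^ 4 * (K * ε) := mul_le_mul_of_nonneg_right h24 hKε
    have e5 : (4 * C + 11) * A ^ 4 * (K * ε) = 4 * C * A ^ 4 * (K * ε) +
      11 * (A ^ 4 * (K * ε)) := by ring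
    rw [e5]
    have e6 : 0 ≤ A ^ 4 * (K * ε) := by positivity
    linarith
  · intro V hV h
    have g1 := hl (2 * A ^ 2) 1 (by positivity) zero_le_one Y V hY hV
    have g2 : |hs P (fun o => s * X o) (Y - X) V| ≤ K * (ε * 1) :=
      hB.le hε0 zero_le_one hsX' hYX hV
    have e : hs P (fun o => s * X o) Y V = hs P (fun o => s * X o) X V +
        hs P (fun o => s * X o) (Y - X) V := by
      conv_lhs => rw [eY]
      rw [hs_add_left]
    have e1 : hs P (s • Y) Y V = (hs P (s • Y) Y V - hs P (fun o => s * X o) Y V) +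
        (hs P (fun o => s * X o) X V + hs P (fun o => s * X o) (Y - X) V) := by rw [← e]; ring
    rw [e1]
    refine ((abs_add_le _ _).trans (add_le_add g1 ((abs_add_le _ _).trans
      (add_le_add h g2)))).trans ?_
    have e2 : C * (K * ε) * (2 * A ^ 2 * 1) + (ε + K * (ε * 1)) =
      2 * C * (A ^ 2 * (K * ε)) + ε + K * ε := by ring
    rw [e2]
    have e3 : ε ≤ A ^ 4 * (K * ε) := hεK.trans (le_mul_of_one_le_left hKε h14)
    have e3' : K * ε ≤ A ^ 4 * (K * ε) := le_mul_of_one_le_left hKε h14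
    have e4 : A ^ 2 * (K * ε) ≤ A ^ 4 * (K * ε) := mul_le_mul_of_nonneg_right h24 hKε
    have e4' := mul_le_mul_of_nonneg_left e4 (show 0 ≤ 2 * C by linarith)
    have e5 : (4 * C + 11) * A ^ 4 * (K * ε) = 2 * C * (A ^ 4 * (K * ε)) +
      (2 * C + 11) * (A ^ 4 * (K * ε)) := by ring
    rw [e5]
    have e6 : 0 ≤ A ^ 4 * (K * ε) := by positivity
    have e7 : 2 * (A ^ 4 * (K * ε)) ≤ (2 * C + 11) * (A ^ 4 * (K * ε)) :=
      mul_le_mul_of_nonneg_right (by linarith) e6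
    linarith

/-- The nodes on a line. -/
theorem nodes {D : ℕ} (hD : 1 ≤ D) (r : Fin (D + 1) → ℝ) (hr : ∀ j, r j ∈ Set.Icc (0 : ℝ) 1)
    {mu : ℝ} (hmu1 : mu ≤ 1) :
    ∃ τ : Fin (D + 1) → Fin (D + 1) → ℝ, (∀ j i, |τ j i| ≤ 1) ∧
      (∀ j i i', i ≠ i' → mu / D ≤ |τ j i - τ j i'|) ∧
      ∀ j i, -r j ≤ τ j i ∧ τ j i ≤ 1 - r j := by
  have hD0 : (0 : ℝ) < D := by exact_mod_cast (by omega : 0 < D)
  refine ⟨fun j i => -r j + (i : ℕ) / D, fun j i => ?_, fun j i i' hii => ?_, fun j i => ?_⟩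
  · have h1 : (0 : ℝ) ≤ ((i : ℕ) : ℝ) / D := by positivity
    have h2 : ((i : ℕ) : ℝ) / D ≤ 1 := by
      rw [div_le_one hD0]
      exact_mod_cast Nat.lt_succ_iff.1 i.2
    rw [abs_le]
    constructor <;> linarith [(hr j).1, (hr j).2]
  · have e : -r j + ((i : ℕ) : ℝ) / D - (-r j + ((i' : ℕ) : ℝ) / D) =
        (((i : ℕ) : ℝ) - ((i' : ℕ) : ℝ)) / D := by ring
    rw [e, abs_div, abs_of_pos hD0]
    refine div_le_div_of_nonneg_right (hmu1.trans ?_) hD0.le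
    have h1 : ((i : ℕ) : ℤ) - ((i' : ℕ) : ℤ) ≠ 0 := by
      intro h
      exact hii (Fin.ext (by omega))
    have h2 := Int.one_le_abs h1
    have h3 : ((1 : ℤ) : ℝ) ≤ ((|((i : ℕ) : ℤ) - ((i' : ℕ) : ℤ)| : ℤ) : ℝ) := by exact_mod_cast h2
    push_cast at h3
    exact h3
  · have h1 : (0 : ℝ) ≤ ((i : ℕ) : ℝ) / D := by positivity
    have h2 : ((i : ℕ) : ℝ) / D ≤ 1 := by
      rw [div_le_one hD0]
      exact_mod_cast Nat.lt_succ_iff.1 i.2
    constructor <;> linarith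

/-- **The second derivative in the plane.** -/
theorem pln_hs (D : ℕ) (hD1 : 1 ≤ D) : ∃ C : ℝ, 1 ≤ C ∧ ∃ N : ℕ, ∀ {m : ℕ}
    {P : MvPolynomial (Option (Fin m)) ℝ} {U₀ U₁ : Option (Fin m) → ℝ} {E : Fin (D + 1) → ℝ}
    {X : Fin (D + 1) → Option (Fin m) → ℝ} {r : Fin (D + 1) → ℝ} {A K mu ε : ℝ},
    P.totalDegree ≤ D → 1 ≤ A → 1 ≤ K → 0 < mu → mu ≤ 1 → 0 ≤ ε → ε ≤ 1 →
    Bx P (8 * A ^ 2) K → (∀ o, |U₀ o| ≤ A) → (∀ o, |U₁ o| ≤ A) → (∀ j, |E j| ≤ A) →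
    (∀ j j', j ≠ j' → mu ≤ |E j - E j'|) → (∀ j, r j ∈ Set.Icc (0 : ℝ) 1) →
    (∀ j o, |X j o - (U₀ o + E j * U₁ o)| ≤ ε) →
    (∀ j, ∀ τ ∈ Set.Icc (0 : ℝ) 1, |hs P (fun o => (τ - r j) * X j o) (X j) (X j)| ≤ ε) →
    ∀ α β a b a' b' : ℝ, |α| ≤ A → |β| ≤ A → |a| ≤ A → |b| ≤ A → |a'| ≤ A → |b'| ≤ A →
      |hs P (α • U₀ + β • U₁) (a • U₀ + b • U₁) (a' • U₀ + b' • U₁)| ≤
        C * (A / mu) ^ N * (K * ε) := by
  obtain ⟨C₁, hC₁, hnear⟩ := pln_near D
  obtain ⟨C₂, hC₂, N, hpl⟩ := plane_two D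
  obtain ⟨C₃, hC₃, hder⟩ := der_one D
  have hD0 : (1 : ℝ) ≤ D := by exact_mod_cast hD1
  refine ⟨C₃ * (C₂ * (2 * D) ^ N * C₁), one_le_mul_of_one_le_of_one_le hC₃
    (one_le_mul_of_one_le_of_one_le (one_le_mul_of_one_le_of_one_le hC₂
    (one_le_pow₀ (by linarith))) hC₁), N + 4, ?_⟩
  intro m P U₀ U₁ E X r A K mu ε hD hA hK hmu hmu1 hε0 hε1 hB hU₀ hU₁ hE hsep hr hX hown α β a b a'
    b' hα hβ ha hb ha' hb'
  have hA0 : 0 < A := by linarith
  have hYb : ∀ j o, |(U₀ + E j • U₁) o| ≤ 2 * A ^ 2 := by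
    intro j o
    rw [Pi.add_apply, Pi.smul_apply, smul_eq_mul]
    refine (abs_add_le _ _).trans ?_
    rw [abs_mul]
    have h1 := mul_le_mul (hE j) (hU₁ o) (abs_nonneg _) hA0.le
    have h2 := hU₀ o
    nlinarith
  have hXY : ∀ j o, |X j o - (U₀ + E j • U₁) o| ≤ ε := by
    intro j o
    rw [Pi.add_apply, Pi.smul_apply, smul_eq_mul]
    exact hX j o
  obtain ⟨M₁, hM₁⟩ : ∃ M₁, M₁ = C₁ * A ^ 4 * (K * ε) := ⟨_, rfl⟩
  have hM₁0 : 0 ≤ M₁ := by rw [hM₁]; positivity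
  have h1 : ∀ j, ∀ s : ℝ, -r j ≤ s → s ≤ 1 - r j →
      |hs P (s • (U₀ + E j • U₁)) (U₀ + E j • U₁) (U₀ + E j • U₁)| ≤ M₁ := by
    intro j s hs1 hs2
    rw [hM₁]
    refine (hnear hD hA hK hε0 hε1 hB (hYb j) (hXY j) s ?_).1 ?_
    · rw [abs_le]
      constructor <;> linarith [(hr j).1, (hr j).2]
    · have h2 := hown j (s + r j) ⟨by linarith, by linarith⟩
      rw [add_sub_cancel_right] at h2
      exact h2
  -- the first derivative
  have h2 : ∀ j, ∀ s : ℝ, -r j ≤ s → s ≤ 1 - r j →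
      |dd (nl P) (s • (U₀ + E j • U₁)) (U₀ + E j • U₁)| ≤ M₁ := by
    intro j s hs1 hs2
    have hs0 : |s| ≤ 1 := by
      rw [abs_le]
      constructor <;> linarith [(hr j).1, (hr j).2]
    rw [dd_nl]
    obtain ⟨Y, hY⟩ : ∃ Y, Y = U₀ + E j • U₁ := ⟨_, rfl⟩
    rw [← hY]
    have h3 := mv_seg (gp P Y) 0 (s • Y) (M := M₁) (by
      intro u hu
      rw [dd_gp, hs_smul_left]
      have e1 : (fun o => (0 : Option (Fin m) → ℝ) o + u * (s • Y) o) = (u * s) • Y := by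
        funext o
        simp only [Pi.zero_apply, Pi.smul_apply, smul_eq_mul]
        ring
      rw [e1, abs_mul]
      have h4 : |hs P ((u * s) • Y) Y Y| ≤ M₁ := by
        rw [hY]
        refine h1 j _ ?_ ?_
        · have := (hr j).1
          rcases le_total 0 s with h | h
          · have : 0 ≤ u * s := mul_nonneg hu.1 h
            linarith
          · have : s ≤ u * s := by nlinarith [hu.1, hu.2]
            linarith
        · have := (hr j).2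
          rcases le_total 0 s with h | h
          · have : u * s ≤ s := by nlinarith [hu.1, hu.2]
            linarith
          · have : u * s ≤ 0 := mul_nonpos_of_nonneg_of_nonpos hu.1 h
            linarith
      calc |s| * |hs P ((u * s) • Y) Y Y| ≤ 1 * M₁ := mul_le_mul hs0 h4 (abs_nonneg _) zero_le_one
        _ = M₁ := one_mul _) 1 ⟨zero_le_one, le_rfl⟩
    rw [eval_gp, eval_gp] at h3
    have e2 : (fun o => (0 : Option (Fin m) → ℝ) o + 1 * (s • Y) o) = s • Y := by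
      funext o
      simp
    rw [e2] at h3
    exact h3
  -- the plane
  obtain ⟨τ, t1, t2, t3⟩ := nodes hD1 r hr hmu1
  obtain ⟨M₂, hM₂⟩ : ∃ M₂, M₂ = C₂ * (2 * A / (mu / D)) ^ N * M₁ := ⟨_, rfl⟩
  have hmuD : mu / D ≤ mu := div_le_self hmu.le hD0
  have h3 : ∀ α β a b : ℝ, |α| ≤ 2 * A → |β| ≤ 2 * A → |a| ≤ 2 * A → |b| ≤ 2 * A →
      |dd (nl P) (0 + α • U₀ + β • U₁) (a • U₀ + b • U₁)| ≤ M₂ := by
    rw [hM₂]
    refine hpl (nl P) 0 U₀ U₁ E τ (2 * A) (mu / D) M₁ (deg_nl hD1 hD) (by linarith)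
      (by positivity) (hmuD.trans hmu1) (fun j => (hE j).trans (by linarith))
      (fun j j' h => hmuD.trans (hsep j j' h)) t1 t2 ?_
    intro j i
    rw [zero_add]
    exact h2 j _ (t3 j i).1 (t3 j i).2
  -- the second derivative
  obtain ⟨η, hη⟩ : ∃ η, η = α • U₀ + β • U₁ := ⟨_, rfl⟩
  obtain ⟨V, hV⟩ : ∃ V, V = a • U₀ + b • U₁ := ⟨_, rfl⟩
  obtain ⟨V', hV'⟩ : ∃ V', V' = a' • U₀ + b' • U₁ := ⟨_, rfl⟩
  have h4 : ∀ s ∈ Set.Icc (0 : ℝ) 1, |(lp (gp (nl P) V') η V).eval s| ≤ M₂ := by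
    intro s hs
    rw [eval_lp, eval_gp]
    have e1 : (fun o => η o + s * V o) = 0 + (α + s * a) • U₀ + (β + s * b) • U₁ := by
      funext o
      rw [hη, hV]
      simp only [Pi.add_apply, Pi.smul_apply, Pi.zero_apply, smul_eq_mul]
      ring
    rw [e1, hV']
    have h5 : ∀ x y : ℝ, |x| ≤ A → |y| ≤ A → |x + s * y| ≤ 2 * A := by
      intro x y hx hy
      refine (abs_add_le _ _).trans ?_
      rw [abs_mul, abs_of_nonneg hs.1]
      have := mul_le_mul hs.2 hy (abs_nonneg _) zero_le_one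
      linarith
    exact h3 _ _ _ _ (h5 _ _ hα ha) (h5 _ _ hβ hb) (ha'.trans (by linarith))
      (hb'.trans (by linarith))
  have h5 := hder _ M₂ (deg_lp (deg_gp (deg_nl hD1 hD) V') η V) h4 0 (by rw [abs_zero]; norm_num)
  rw [(der_lp (gp (nl P) V') η V 0).1, dd_gp, hs_nl] at h5
  have e1 : (fun o => η o + 0 * V o) = η := by
    funext o
    ring
  rw [e1] at h5
  rw [← hη, ← hV, ← hV']
  refine h5.trans ?_
  -- the numbers
  have e2 : 2 * A / (mu / D) = 2 * D * (A / mu) := by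
    field_simp
  have hAm : A ≤ A / mu := le_div_self hA0.le hmu hmu1
  have hA4 : A ^ 4 ≤ (A / mu) ^ 4 := pow_le_pow_left₀ hA0.le hAm 4
  have hKε : 0 ≤ K * ε := mul_nonneg (by linarith) hε0
  rw [hM₂, hM₁, e2, mul_pow, pow_add]
  have e3 : C₃ * (C₂ * ((2 * D) ^ N * (A / mu) ^ N) * (C₁ * A ^ 4 * (K * ε))) =
      C₃ * (C₂ * (2 * D) ^ N * C₁) * ((A / mu) ^ N * A ^ 4) * (K * ε) := by ring
  rw [e3]
  refine mul_le_mul_of_nonneg_right ?_ hKε
  refine mul_le_mul_of_nonneg_left ?_ (by positivity)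
  exact mul_le_mul_of_nonneg_left hA4 (by positivity)

/-- **The mixed derivative in a fixed direction, in the plane.** -/
theorem pln_dv (D : ℕ) (hD1 : 1 ≤ D) : ∃ C : ℝ, 1 ≤ C ∧ ∃ N : ℕ, ∀ {m : ℕ}
    {P : MvPolynomial (Option (Fin m)) ℝ} {U₀ U₁ V : Option (Fin m) → ℝ} {E : Fin (D + 1) → ℝ}
    {X : Fin (D + 1) → Option (Fin m) → ℝ} {r : Fin (D + 1) → ℝ} {A K mu ε : ℝ},
    P.totalDegree ≤ D → 1 ≤ A → 1 ≤ K → 0 < mu → mu ≤ 1 → 0 ≤ ε → ε ≤ 1 →
    Bx P (8 * A ^ 2) K → (∀ o, |U₀ o| ≤ A) → (∀ o, |U₁ o| ≤ A) → (∀ o, |V o| ≤ 1) →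
    (∀ j, |E j| ≤ A) → (∀ j j', j ≠ j' → mu ≤ |E j - E j'|) →
    (∀ j, r j ∈ Set.Icc (0 : ℝ) 1) → (∀ j o, |X j o - (U₀ o + E j * U₁ o)| ≤ ε) →
    (∀ j, ∀ τ ∈ Set.Icc (0 : ℝ) 1, |hs P (fun o => (τ - r j) * X j o) (X j) V| ≤ ε) →
    ∀ α β a b : ℝ, |α| ≤ A → |β| ≤ A → |a| ≤ A → |b| ≤ A →
      |hs P (α • U₀ + β • U₁) (a • U₀ + b • U₁) V| ≤ C * (A / mu) ^ N * (K * ε) := by
  obtain ⟨C₁, hC₁, hnear⟩ := pln_near D
  obtain ⟨C₂, hC₂, N, hpl⟩ := plane_two D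
  have hD0 : (1 : ℝ) ≤ D := by exact_mod_cast hD1
  refine ⟨C₂ * (2 * D) ^ N * C₁, one_le_mul_of_one_le_of_one_le
    (one_le_mul_of_one_le_of_one_le hC₂ (one_le_pow₀ (by linarith))) hC₁, N + 4, ?_⟩
  intro m P U₀ U₁ V E X r A K mu ε hD hA hK hmu hmu1 hε0 hε1 hB hU₀ hU₁ hV hE hsep hr hX hown α β a
    b hα hβ ha hb
  have hA0 : 0 < A := by linarith
  have hYb : ∀ j o, |(U₀ + E j • U₁) o| ≤ 2 * A ^ 2 := by
    intro j o
    rw [Pi.add_apply, Pi.smul_apply, smul_eq_mul]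
    refine (abs_add_le _ _).trans ?_
    rw [abs_mul]
    have h1 := mul_le_mul (hE j) (hU₁ o) (abs_nonneg _) hA0.le
    have h2 := hU₀ o
    nlinarith
  have hXY : ∀ j o, |X j o - (U₀ + E j • U₁) o| ≤ ε := by
    intro j o
    rw [Pi.add_apply, Pi.smul_apply, smul_eq_mul]
    exact hX j o
  obtain ⟨M₁, hM₁⟩ : ∃ M₁, M₁ = C₁ * A ^ 4 * (K * ε) := ⟨_, rfl⟩
  have h1 : ∀ j, ∀ s : ℝ, -r j ≤ s → s ≤ 1 - r j →
      |dd (gp P V) (s • (U₀ + E j • U₁)) (U₀ + E j • U₁)| ≤ M₁ := by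
    intro j s hs1 hs2
    rw [hM₁, dd_gp]
    refine (hnear hD hA hK hε0 hε1 hB (hYb j) (hXY j) s ?_).2 V hV ?_
    · rw [abs_le]
      constructor <;> linarith [(hr j).1, (hr j).2]
    · have h2 := hown j (s + r j) ⟨by linarith, by linarith⟩
      rw [add_sub_cancel_right] at h2
      exact h2
  obtain ⟨τ, t1, t2, t3⟩ := nodes hD1 r hr hmu1
  have hmuD : mu / D ≤ mu := div_le_self hmu.le hD0
  have h3 := hpl (gp P V) 0 U₀ U₁ E τ (2 * A) (mu / D) M₁ (deg_gp hD V) (by linarith)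
      (by positivity) (hmuD.trans hmu1) (fun j => (hE j).trans (by linarith))
      (fun j j' h => hmuD.trans (hsep j j' h)) t1 t2 (by
        intro j i
        rw [zero_add]
        exact h1 j _ (t3 j i).1 (t3 j i).2) α β a b (hα.trans (by linarith))
      (hβ.trans (by linarith)) (ha.trans (by linarith)) (hb.trans (by linarith))
  rw [zero_add, dd_gp] at h3
  refine h3.trans ?_
  have e2 : 2 * A / (mu / D) = 2 * D * (A / mu) := by
    field_simp
  have hAm : A ≤ A / mu := le_div_self hA0.le hmu hmu1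
  have hA4 : A ^ 4 ≤ (A / mu) ^ 4 := pow_le_pow_left₀ hA0.le hAm 4
  have hKε : 0 ≤ K * ε := mul_nonneg (by linarith) hε0
  rw [hM₁, e2, mul_pow, pow_add]
  have e3 : C₂ * ((2 * D) ^ N * (A / mu) ^ N) * (C₁ * A ^ 4 * (K * ε)) =
      C₂ * (2 * D) ^ N * C₁ * ((A / mu) ^ N * A ^ 4) * (K * ε) := by ring
  rw [e3]
  refine mul_le_mul_of_nonneg_right ?_ hKε
  refine mul_le_mul_of_nonneg_left ?_ (by positivity)
  exact mul_le_mul_of_nonneg_left hA4 (by positivity)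

end Pool.F5
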