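import Pool.Agent.H64.F5.Alg
import Pool.Agent.H90.D2.Lcl

/-!
# (F5), two coordinates: a visible covector which kills the difference of the slopes

`v = c 1`, `u = c 2`, `c 0 = y`. `Mv`, `Mu`: the visible natural slopes over `(t, y)`. `al`: a visible
covector on the plane of `(v, u)` which kills, on the event `B`, the difference of the slopes at two
samples of one line and window. Then `B` is small: the slope of `v`, or the slope of `u + kp v`, would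
be a visible and closed label.
-/

set_option autoImplicit false

namespace Pool.F5

open Finset Real MvPolynomial
open Pool.Agent.H49.Ent Pool.Agent.H32.Dense Pool.STK Pool.KA Pool.KSAT Pool.K2S Pool.PB Pool.S6C
open Pool.GEN Pool.CHT Pool.CHX
open Pool.LBT (ThrOf)
open Pool.KM7 (P2)
open Pool.D2F

variable {m J : ℕ}

/-- The difference of the slopes. -/
def dz {T : Type} (Mv Mu : T → Fin 2 → ℝ) (y y' : T) : Fin 2 → ℝ :=
  ![Mv y' 1 - Mv y 1, Mu y' 1 - Mu y 1]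

/-- The coefficients of the label of `v`. -/
def muv {T : Type} (Mv : T → Fin 2 → ℝ) (y : T) : ℕ → ℝ
  | 0 => Mv y 0
  | 1 => Mv y 1
  | _ + 2 => 0

/-- The coefficients of the label of `u`. -/
noncomputable def muu {T : Type} (θ : ℝ) (Mv Mu al : T → Fin 2 → ℝ) (y : T) : ℕ → ℝ
  | 0 => Mu y 0 + kp θ (al y) * Mv y 0
  | 1 => Mu y 1 + kp θ (al y) * Mv y 1
  | 2 => -kp θ (al y)
  | _ + 3 => 0

/-- **The visible data.** -/
structure VDat (F : Fam m J) (c : ℕ → Fin m) (g : ℕ → ℕ) (a : ℕ)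
    (ψ : PtT F → ℕ → Option (Fin m) → ℝ) (B : F.Ω → Prop) (Mv Mu al : PtT F → Fin 2 → ℝ)
    (ε Mb K μ : ℝ) : Prop where
  ownv : ∀ ω, B ω → |Xn F c g a ψ ω 2 -
    (Mv (ptr F J ω) 0 + Mv (ptr F J ω) 1 * Xn F c g a ψ ω 1)| ≤ ε
  ownu : ∀ ω, B ω → |Xn F c g a ψ ω 3 -
    (Mu (ptr F J ω) 0 + Mu (ptr F J ω) 1 * Xn F c g a ψ ω 1)| ≤ ε
  bv : ∀ ω, B ω → ∀ j, |Mv (ptr F J ω) j| ≤ Mb
  bu : ∀ ω, B ω → ∀ j, |Mu (ptr F J ω) j| ≤ Mb
  bal : ∀ ω, B ω → ∀ j, |al (ptr F J ω) j| ≤ K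
  lal : ∀ ω, B ω → μ ≤ |al (ptr F J ω) 0| ∨ μ ≤ |al (ptr F J ω) 1|

/-- The error of the labels. -/
noncomputable def Er (T Mb K μ θ μ' ε ε₂ : ℝ) : ℝ :=
  T * max μ' ((ε₂ + θ * (2 * Mb)) / μ) + T * (ε₂ / θ) + 2 * ε * (1 + K / θ) +
    2 * K * ε₂ / μ' / θ ^ 2 * (Mb + 1)

theorem Xn_eq {F : Fam m J} {c : ℕ → Fin m} {n a k e : ℕ} {g : ℕ → ℕ} {A : F.Ω → Prop}
    {ψ : PtT F → ℕ → Option (Fin m) → ℝ} {ψH : LnT F → ℕ → Option (Fin m) → ℝ}
    (h : FrOK F c n a k e g A ψ ψH) {ω ω' : F.Ω} (hω : A ω) (hω' : A ω')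
    (hs : slam F a ω = slam F a ω') : Xn F c g a ψ ω' = Xn F c g a ψ ω := by
  funext j
  unfold Xn
  rw [h.cls ω hω, h.cls ω' hω', hs, (slam_eq hs).1]

theorem ln_one (μ η : ℕ → ℝ) : ln 1 μ η = μ 0 * η 0 + μ 1 * η 1 := by
  unfold ln
  rw [Finset.sum_range_succ, Finset.sum_range_succ, Finset.sum_range_zero]
  ring

theorem ln_two (μ η : ℕ → ℝ) : ln 2 μ η = μ 0 * η 0 + μ 1 * η 1 + μ 2 * η 2 := by
  unfold ln
  rw [Finset.sum_range_succ, Finset.sum_range_succ, Finset.sum_range_succ, Finset.sum_range_zero]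
  ring

/-- **The pair**: one of the two labels is the same at both samples. -/
theorem pr_cl {F : Fam m J} {c : ℕ → Fin m} {n a k e s : ℕ} {g : ℕ → ℕ} {B : F.Ω → Prop}
    {ψ : PtT F → ℕ → Option (Fin m) → ℝ} {ψH : LnT F → ℕ → Option (Fin m) → ℝ}
    {Mv Mu al : PtT F → Fin 2 → ℝ} {ε Mb K μ θ μ' ε₂ : ℝ} (hn : 3 ≤ n) (ha : a ≤ J)
    (hfr : FrOK F c n a k e g B ψ ψH) (hd : VDat F c g a ψ B Mv Mu al ε Mb K μ)
    (hμ : 0 < μ) (hθ0 : 0 < θ) (hθ : θ ≤ μ / 2) (hμ' : 0 < μ')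
    (hk : Er (2 ^ k) Mb K μ θ μ' ε ε₂ * 2 ^ (2 * (2 + 1) + 2 * k + 6 + s) ≤ 1)
    {ω ω' : F.Ω} (hω : B ω) (hω' : B ω') (hs : slam F a ω = slam F a ω')
    (h1 : |dt (al (ptr F J ω)) (dz Mv Mu (ptr F J ω) (ptr F J ω'))| ≤ ε₂)
    (h2 : |dt (al (ptr F J ω')) (dz Mv Mu (ptr F J ω) (ptr F J ω'))| ≤ ε₂) :
    Cl F c g a 1 k s ψ (muv Mv) (fun _ _ _ => 0) ω ω' ∨
      Cl F c g a 2 k s ψ (muu θ Mv Mu al) (fun _ _ _ => 0) ω ω' := by
  obtain ⟨X, hX⟩ : ∃ X, X = Xn F c g a ψ ω := ⟨_, rfl⟩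
  have hX' : Xn F c g a ψ ω' = X := by rw [hX]; exact Xn_eq hfr hω hω' hs
  have hX0 : X 0 = 1 := by rw [hX]; exact Xn_zero F c g a ψ ω
  have hX1 : |X 1| ≤ 2 ^ k := by
    rw [hX]
    exact Xn_le hfr hω (by omega)
  have hT1 : (1 : ℝ) ≤ 2 ^ k := one_le_pow₀ (by norm_num)
  have o1 := hd.ownv ω hω
  have o2 := hd.ownu ω hω
  have o1' := hd.ownv ω' hω'
  have o2' := hd.ownu ω' hω'
  rw [hX'] at o1' o2'
  rw [← hX] at o1 o2
  obtain ⟨y, hy⟩ : ∃ y, y = ptr F J ω := ⟨_, rfl⟩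
  obtain ⟨y', hy'⟩ : ∃ y', y' = ptr F J ω' := ⟨_, rfl⟩
  have bv := hd.bv ω hω
  have bu := hd.bu ω hω
  have bv' := hd.bv ω' hω'
  have bu' := hd.bu ω' hω'
  have bal := hd.bal ω hω
  have bal' := hd.bal ω' hω'
  have lal := hd.lal ω hω
  have lal' := hd.lal ω' hω'
  rw [← hy] at o1 o2 bv bu bal lal h1 h2
  rw [← hy'] at o1' o2' bv' bu' bal' lal' h1 h2
  obtain ⟨z, hz⟩ : ∃ z, z = dz Mv Mu y y' := ⟨_, rfl⟩
  rw [← hz] at h1 h2
  have z0 : z 0 = Mv y' 1 - Mv y 1 := by rw [hz]; rfl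
  have z1 : z 1 = Mu y' 1 - Mu y 1 := by rw [hz]; rfl
  have hMb : 0 ≤ Mb := (abs_nonneg _).trans (bv 0)
  have hε : 0 ≤ ε := (abs_nonneg _).trans o1
  have hε₂ : 0 ≤ ε₂ := (abs_nonneg _).trans h1
  have hK0 : 0 ≤ K := (abs_nonneg _).trans (bal 0)
  have hzb : ∀ j, |z j| ≤ 2 * Mb := by
    intro j
    fin_cases j
    · show |z 0| ≤ 2 * Mb
      rw [z0]
      refine (abs_sub _ _).trans ?_
      linarith [bv' 1, bv 1]
    · show |z 1| ≤ 2 * Mb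
      rw [z1]
      refine (abs_sub _ _).trans ?_
      linarith [bu' 1, bu 1]
  have key := end_two bal bal' hμ hθ0 hθ hμ' lal lal' h1 h2 hzb
  obtain ⟨e1, he1⟩ : ∃ e1, e1 = max μ' ((ε₂ + θ * (2 * Mb)) / μ) := ⟨_, rfl⟩
  obtain ⟨e2, he2⟩ : ∃ e2, e2 = 2 * K * ε₂ / μ' / θ ^ 2 := ⟨_, rfl⟩
  have he1n : 0 ≤ e1 := by
    rw [he1]
    exact hμ'.le.trans (le_max_left _ _)
  have he2n : 0 ≤ e2 := by
    rw [he2]
    positivity
  obtain ⟨E, hE⟩ : ∃ E, E = Er (2 ^ k) Mb K μ θ μ' ε ε₂ := ⟨_, rfl⟩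
  have hEe : E = 2 ^ k * e1 + 2 ^ k * (ε₂ / θ) + 2 * ε * (1 + K / θ) + e2 * (Mb + 1) := by
    rw [hE, he1, he2]
    rfl
  rw [← he1, ← he2] at key
  rw [← hE] at hk
  have t1 : 0 ≤ (2 : ℝ) ^ k * e1 := by positivity
  have t2 : 0 ≤ (2 : ℝ) ^ k * (ε₂ / θ) := by positivity
  have t3 : 0 ≤ K / θ * ε := by positivity
  have t4 : 0 ≤ e2 * Mb := by positivity
  have hEe' : E = 2 ^ k * e1 + 2 ^ k * (ε₂ / θ) + 2 * ε + 2 * (K / θ * ε) + e2 * Mb + e2 := by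
    rw [hEe]
    ring
  have hE0 : 0 ≤ E := by
    rw [hEe']
    linarith
  have hτ : |tu F a ω ω'| ≤ 1 := tu_le ha hs
  -- the difference of the time components
  have d1 : |Mv y' 0 - Mv y 0 + X 1 * z 0| ≤ 2 * ε := by
    have e : Mv y' 0 - Mv y 0 + X 1 * z 0 =
        (X 2 - (Mv y 0 + Mv y 1 * X 1)) - (X 2 - (Mv y' 0 + Mv y' 1 * X 1)) := by
      rw [z0]
      ring
    rw [e]
    exact (abs_sub _ _).trans ((add_le_add o1 o1').trans (le_of_eq (by ring)))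
  have d2 : |Mu y' 0 - Mu y 0 + X 1 * z 1| ≤ 2 * ε := by
    have e : Mu y' 0 - Mu y 0 + X 1 * z 1 =
        (X 3 - (Mu y 0 + Mu y 1 * X 1)) - (X 3 - (Mu y' 0 + Mu y' 1 * X 1)) := by
      rw [z1]
      ring
    rw [e]
    exact (abs_sub _ _).trans ((add_le_add o2 o2').trans (le_of_eq (by ring)))
  rcases key with hv | ⟨hu1, hu2⟩
  · left
    have hk' : E * 2 ^ (2 * (1 + 1) + 2 * k + 6 + s) ≤ 1 := by
      refine le_trans (mul_le_mul_of_nonneg_left (pow_le_pow_right₀ (by norm_num) ?_) hE0) hk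
      omega
    have hXz : |X 1 * z 0| ≤ 2 ^ k * e1 := by
      rw [abs_mul]
      exact mul_le_mul hX1 hv (abs_nonneg _) (by positivity)
    refine cl_of (ε := E) hE0 hτ (fun j hj => Xn_le hfr hω (by omega)) (fun _ _ _ _ => rfl) ?_ ?_
      (fun j _ l _ => by simpa using hE0) (by
        unfold bl
        simpa using hE0) hk'
    · intro j hj
      rw [← hy, ← hy']
      simp only [zero_mul, Finset.sum_const_zero, mul_zero, sub_zero]
      interval_cases j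
      · show |Mv y' 0 - Mv y 0| ≤ E
        have e : Mv y' 0 - Mv y 0 = (Mv y' 0 - Mv y 0 + X 1 * z 0) - X 1 * z 0 := by ring
        rw [e, hEe']
        refine (abs_sub _ _).trans ((add_le_add d1 hXz).trans ?_)
        linarith
      · show |Mv y' 1 - Mv y 1| ≤ E
        rw [← z0, hEe']
        refine hv.trans ?_
        have : e1 ≤ 2 ^ k * e1 := le_mul_of_one_le_left he1n hT1
        linarith
    · rw [← hy', ← hX, ln_one, hX0]
      show |X 2 - (Mv y' 0 * 1 + Mv y' 1 * X 1)| ≤ E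
      rw [mul_one]
      refine o1'.trans ?_
      rw [hEe']
      linarith
  · right
    have hL := kp_le hθ0 bal
    have hL' := kp_le hθ0 bal'
    have hXz : |X 1 * (z 1 + kp θ (al y) * z 0)| ≤ 2 ^ k * (ε₂ / θ) := by
      rw [abs_mul]
      exact mul_le_mul hX1 hu2 (abs_nonneg _) (by positivity)
    have hkk : |kp θ (al y') - kp θ (al y)| ≤ e2 := by
      rw [abs_sub_comm]
      exact hu1
    have hM0 : ∀ j, |(kp θ (al y') - kp θ (al y)) * Mv y' j| ≤ e2 * Mb := by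
      intro j
      rw [abs_mul]
      exact mul_le_mul hkk (bv' j) (abs_nonneg _) he2n
    refine cl_of (ε := E) hE0 hτ (fun j hj => Xn_le hfr hω (by omega)) (fun _ _ _ _ => rfl) ?_ ?_
      (fun j _ l _ => by simpa using hE0) (by
        unfold bl
        simpa using hE0) hk
    · intro j hj
      rw [← hy, ← hy']
      simp only [zero_mul, Finset.sum_const_zero, mul_zero, sub_zero]
      interval_cases j
      · show |(Mu y' 0 + kp θ (al y') * Mv y' 0) - (Mu y 0 + kp θ (al y) * Mv y 0)| ≤ E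
        have e : (Mu y' 0 + kp θ (al y') * Mv y' 0) - (Mu y 0 + kp θ (al y) * Mv y 0) =
            (Mu y' 0 - Mu y 0 + X 1 * z 1) + kp θ (al y) * (Mv y' 0 - Mv y 0 + X 1 * z 0) -
              X 1 * (z 1 + kp θ (al y) * z 0) + (kp θ (al y') - kp θ (al y)) * Mv y' 0 := by ring
        have g1 : |kp θ (al y) * (Mv y' 0 - Mv y 0 + X 1 * z 0)| ≤ K / θ * (2 * ε) := by
          rw [abs_mul]
          exact mul_le_mul hL d1 (abs_nonneg _) (by positivity)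
        have g2 := hM0 0
        have g3 : K / θ * (2 * ε) = 2 * (K / θ * ε) := by ring
        rw [e, hEe']
        refine (abs_add_le _ _).trans ?_
        refine (add_le_add ((abs_sub _ _).trans (add_le_add ((abs_add_le _ _).trans
          (add_le_add d2 g1)) hXz)) g2).trans ?_
        rw [g3]
        linarith
      · show |(Mu y' 1 + kp θ (al y') * Mv y' 1) - (Mu y 1 + kp θ (al y) * Mv y 1)| ≤ E
        have e : (Mu y' 1 + kp θ (al y') * Mv y' 1) - (Mu y 1 + kp θ (al y) * Mv y 1) =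
            (z 1 + kp θ (al y) * z 0) + (kp θ (al y') - kp θ (al y)) * Mv y' 1 := by
          rw [z0, z1]
          ring
        rw [e, hEe']
        refine (abs_add_le _ _).trans ((add_le_add hu2 (hM0 1)).trans ?_)
        have : ε₂ / θ ≤ 2 ^ k * (ε₂ / θ) := le_mul_of_one_le_left (by positivity) hT1
        linarith
      · show |-kp θ (al y') - -kp θ (al y)| ≤ E
        have e : -kp θ (al y') - -kp θ (al y) = -(kp θ (al y') - kp θ (al y)) := by ring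
        rw [e, abs_neg, hEe']
        refine hkk.trans ?_
        linarith
    · rw [← hy', ← hX, ln_two, hX0]
      show |X 3 - ((Mu y' 0 + kp θ (al y') * Mv y' 0) * 1 + (Mu y' 1 + kp θ (al y') * Mv y' 1) * X 1
        + -kp θ (al y') * X 2)| ≤ E
      have e : X 3 - ((Mu y' 0 + kp θ (al y') * Mv y' 0) * 1 +
          (Mu y' 1 + kp θ (al y') * Mv y' 1) * X 1 + -kp θ (al y') * X 2) =
          (X 3 - (Mu y' 0 + Mu y' 1 * X 1)) +
            kp θ (al y') * (X 2 - (Mv y' 0 + Mv y' 1 * X 1)) := by ring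
      have g1 : |kp θ (al y') * (X 2 - (Mv y' 0 + Mv y' 1 * X 1))| ≤ K / θ * ε := by
        rw [abs_mul]
        exact mul_le_mul hL' o1' (abs_nonneg _) (by positivity)
      rw [e, hEe']
      refine (abs_add_le _ _).trans ((add_le_add o2' g1).trans ?_)
      linarith

/-! ### The class theorem -/

/-- The covectors of both samples kill the difference of the slopes. -/
def Kil (F : Fam m J) (Mv Mu al : PtT F → Fin 2 → ℝ) (ε₂ : ℝ) (ω ω' : F.Ω) : Prop :=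
  |dt (al (ptr F J ω)) (dz Mv Mu (ptr F J ω) (ptr F J ω'))| ≤ ε₂ ∧
    |dt (al (ptr F J ω')) (dz Mv Mu (ptr F J ω) (ptr F J ω'))| ≤ ε₂

theorem pe_or {Ω : Type} [Fintype Ω] {q : Ω → ℝ} (hq : ∀ ω, 0 ≤ q ω) {R A B : Ω → Prop}
    (h : ∀ ω, 0 < q ω → R ω → A ω ∨ B ω) : Pe q R ≤ Pe q A + Pe q B := by
  classical
  rw [Pool.JVE.pe_sum, Pool.JVE.pe_sum, Pool.JVE.pe_sum, ← Finset.sum_add_distrib]
  refine Finset.sum_le_sum fun ω _ => ?_
  rcases (hq ω).eq_or_lt with h0 | h0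
  · rw [← h0]
    simp
  · by_cases hR : R ω
    · rw [if_pos hR]
      rcases h ω h0 hR with h1 | h1
      · rw [if_pos h1]
        split_ifs <;> linarith
      · rw [if_pos h1]
        split_ifs <;> linarith
    · rw [if_neg hR]
      split_ifs <;> linarith

/-- **A visible covector does not kill the difference of the slopes**, with probability near one. -/
theorem kil_cls {θc : ℝ} {S : PCl m} {P : List (Fin m) × Fin m → ℝ → ℝ → ℝ}
    (hP : ThrOf (chsys m θc) S P) (c : ℕ → Fin m) (hc : Set.InjOn c (Set.Iio 3))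
    (a : ℚ) (e h : ℝ) (ha0 : 0 ≤ a) (ha : a ≤ 1) (he : e < θc * a) (hh : 0 < h)
    (h1 : bet P c 1 a a + h ≤ 1) (h2 : bet P c 2 a a + h ≤ 1) :
    ∃ δ : ℝ, 0 < δ ∧ Bas S (fun J F A => ∀ (n a₀ e₀ e' k s V p₁ p₂ : ℕ) (g : ℕ → ℕ)
      (ψ : PtT F → ℕ → Option (Fin m) → ℝ) (ψH : LnT F → ℕ → Option (Fin m) → ℝ)
      (Mv Mu al : PtT F → Fin 2 → ℝ) (ε Mb K μ θ μ' ε₂ : ℝ), 3 ≤ n → a₀ ≤ J →
      a₀ ≤ ⌊(a : ℝ) * J⌋₊ → e₀ + e' + 2 * k + s + 10 ≤ ⌊e * J⌋₊ →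
      s + e' + k + 15 ≤ V → (∀ j ≤ 2, e₀ + g j + V ≤ J) → (∀ l < 2, k + 1 ≤ g l) →
      p₁ ≤ g 1 + s → p₂ ≤ g 2 + s → p₁ ≤ J → p₂ ≤ J →
      ⌊(bet P c 1 a a + h) * J⌋₊ + a₀ ≤ p₁ + ⌊(a : ℝ) * J⌋₊ →
      ⌊(bet P c 2 a a + h) * J⌋₊ + a₀ ≤ p₂ + ⌊(a : ℝ) * J⌋₊ →
      0 < μ → 0 < θ → θ ≤ μ / 2 → 0 < μ' → Mb * (1 + K / θ) ≤ 2 ^ e' → K / θ ≤ 2 ^ e' →
      Er (2 ^ k) Mb K μ θ μ' ε ε₂ * 2 ^ (2 * k + 12 + s) ≤ 1 → ∀ B : F.Ω → Prop, Sub B A →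
      FrOK F c n a₀ k e₀ g B ψ ψH → VDat F c g a₀ ψ B Mv Mu al ε Mb K μ →
      ∀ (q : F.Ω → ℝ) (M : ℝ), IsLaw q → 0 ≤ M → (∀ ω, 0 < q ω → B ω) →
      (∀ ω, q ω * Pe F.p A ≤ M * F.p ω) →
      Pe (P2 q (slam F a₀)) (fun x => Kil F Mv Mu al ε₂ x.1 x.2) ≤
        2 * M * Real.exp (-(δ * J))) := by
  obtain ⟨δ₁, hδ₁, b1⟩ := lab_cls hP c 1 (hc.mono (Set.Iio_subset_Iio (by omega))) a e h ha0 ha he
    hh h1
  obtain ⟨δ₂, hδ₂, b2⟩ := lab_cls hP c 2 hc a e h ha0 ha he hh h2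
  refine ⟨min δ₁ δ₂, lt_min hδ₁ hδ₂, (b1.and b2).mono 0 ?_⟩
  rintro J - F A ⟨l1, l2⟩ n a₀ e₀ e' k s V p₁ p₂ g ψ ψH Mv Mu al ε Mb K μ θ μ' ε₂ hn haJ haa hee hV
    hJg hgk hp1 hp2 hp1J hp2J hb1 hb2 hμ hθ0 hθ hμ' hMb hKθ hEr B hBA hfr hd q M hq hM hqB hqM
  have hMv : ∀ ω, B ω → ∀ j ≤ 1, |muv Mv (ptr F J ω) j| ≤ 2 ^ e' := by
    intro ω hω j hj
    have h3 := hd.bv ω hω
    have hMb0 : 0 ≤ Mb := (abs_nonneg _).trans (h3 0)
    have hK0 : 0 ≤ K := (abs_nonneg _).trans (hd.bal ω hω 0)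
    have h4 : Mb ≤ 2 ^ e' := by
      refine le_trans ?_ hMb
      exact le_mul_of_one_le_right hMb0 (le_add_of_nonneg_right (by positivity))
    interval_cases j
    · exact (h3 0).trans h4
    · exact (h3 1).trans h4
  have hMu : ∀ ω, B ω → ∀ j ≤ 2, |muu θ Mv Mu al (ptr F J ω) j| ≤ 2 ^ e' := by
    intro ω hω j hj
    have h3 := hd.bv ω hω
    have h4 := hd.bu ω hω
    have hMb0 : 0 ≤ Mb := (abs_nonneg _).trans (h3 0)
    have hk := kp_le hθ0 (hd.bal ω hω)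
    have h5 : ∀ j, |Mu (ptr F J ω) j + kp θ (al (ptr F J ω)) * Mv (ptr F J ω) j| ≤ 2 ^ e' := by
      intro j
      refine le_trans ?_ hMb
      refine (abs_add_le _ _).trans ?_
      rw [abs_mul, mul_add, mul_one, mul_comm Mb]
      exact add_le_add (h4 j) (mul_le_mul hk (h3 j) (abs_nonneg _) ((abs_nonneg _).trans hk))
    interval_cases j
    · exact h5 0
    · exact h5 1
    · show |-kp θ (al (ptr F J ω))| ≤ 2 ^ e'
      rw [abs_neg]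
      exact hk.trans hKθ
  have hκ : ∀ ω, B ω → ∀ (i : ℕ), ∀ j ≤ i, ∀ l ≤ i,
      |(fun (_ : PtT F) (_ _ : ℕ) => (0 : ℝ)) (ptr F J ω) j l| ≤ 2 ^ e' := by
    intro ω _ i j _ l _
    simp
  have r1 := l1 n a₀ e₀ e' k s V p₁ g ψ ψH (muv Mv) (fun _ _ _ => 0) (by omega) haJ haa (by omega)
    (by omega) (fun j hj => hJg j (by omega)) (fun l hl => hgk l (by omega)) hp1 hp1J hb1 B hBA hfr
    hMv (fun ω hω j hj l hl => hκ ω hω 1 j hj l hl) q M hq hM hqB hqM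
  have r2 := l2 n a₀ e₀ e' k s V p₂ g ψ ψH (muu θ Mv Mu al) (fun _ _ _ => 0) (by omega) haJ haa
    (by omega) (by omega) hJg hgk hp2 hp2J hb2 B hBA hfr hMu
    (fun ω hω j hj l hl => hκ ω hω 2 j hj l hl) q M hq hM hqB hqM
  have hP2 := Pool.KM7.P2_isLaw hq (slam F a₀)
  have r3 := pe_or (q := P2 q (slam F a₀)) hP2.nonneg
    (R := fun x => Kil F Mv Mu al ε₂ x.1 x.2)
    (A := fun x => Cl F c g a₀ 1 k s ψ (muv Mv) (fun _ _ _ => 0) x.1 x.2)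
    (B := fun x => Cl F c g a₀ 2 k s ψ (muu θ Mv Mu al) (fun _ _ _ => 0) x.1 x.2) (by
      intro x hx hR
      obtain ⟨x1, x2, x3⟩ := (Pool.KM7.P2_pos hq x).mp hx
      exact pr_cl hn haJ hfr hd hμ hθ0 hθ hμ' (by
        rw [show 2 * (2 + 1) + 2 * k + 6 + s = 2 * k + 12 + s by ring]
        exact hEr) (hqB _ x1) (hqB _ x2) x3 hR.1 hR.2)
  have hJ0 : (0 : ℝ) ≤ J := Nat.cast_nonneg J
  have x1 : Real.exp (-(δ₁ * J)) ≤ Real.exp (-(min δ₁ δ₂ * J)) :=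
    Real.exp_le_exp.2 (by nlinarith [min_le_left δ₁ δ₂])
  have x2 : Real.exp (-(δ₂ * J)) ≤ Real.exp (-(min δ₁ δ₂ * J)) :=
    Real.exp_le_exp.2 (by nlinarith [min_le_right δ₁ δ₂])
  have y1 := mul_le_mul_of_nonneg_left x1 hM
  have y2 := mul_le_mul_of_nonneg_left x2 hM
  linarith

end Pool.F5
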