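import Pool.Agent.H64.F5.One
import Pool.Agent.H64.F5.NatH
import Pool.Agent.H23.D2.Bal
import Pool.Agent.H60.D2.Frz

/-!
# (F5): the choice of the size

`rel_all`: RELV for finitely many polynomials. `win_pig`: finitely many polynomials are small on the
natural boxes, or they have on an event the same size up to a factor, and one of them has this size
at the sample.
-/

set_option autoImplicit false

namespace Pool.F5

open Finset Real MvPolynomial
open Pool.Agent.H49.Ent Pool.Agent.H32.Dense Pool.STK Pool.KA Pool.KSAT Pool.K2S Pool.PB Pool.S6C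
open Pool.GEN Pool.CHT Pool.CHX
open Pool.D2F
open Pool.D2R (ev_list)

variable {m J : ℕ}

/-- Two parts. -/
theorem pe_part {F : Fam m J} (B : F.Ω → Prop) (P : F.Ω → Prop) :
    Pe F.p B = Pe F.p (fun ω => B ω ∧ P ω) + Pe F.p (fun ω => B ω ∧ ¬P ω) := by
  classical
  simp only [Pe_eq]
  rw [← Finset.sum_add_distrib]
  refine Finset.sum_congr rfl fun ω _ => ?_
  by_cases h : B ω <;> by_cases h' : P ω <;> simp [h, h']

/-- An event with a positive probability is not empty. -/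
theorem pe_ne {F : Fam m J} {B : F.Ω → Prop} (h : 0 < Pe F.p B) : ∃ ω, B ω := by
  classical
  by_contra hcon
  push Not at hcon
  rw [Pe_eq, Finset.sum_eq_zero (fun ω _ => if_neg (hcon ω))] at h
  exact lt_irrefl _ h

/-- **RELV for finitely many polynomials.** -/
theorem rel_all {ι : Type} [Fintype ι] {F : Fam m J} {c : ℕ → Fin m} {i a w D h : ℕ} {g : ℕ → ℕ}
    {κ : ℝ} {B₀ W : F.Ω → Prop} {G : PtT F → ℕ → MvPolynomial (Option (Fin m)) ℝ}
    (hR : RelvF F c i a w g D h κ B₀ G) (hW : Sub W B₀)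
    (hκ : κ * 2 ^ Fintype.card ι * Pe F.p B₀ ≤ Pe F.p W)
    {E : ι → PtT F → MvPolynomial (Option (Fin m)) ℝ}
    {El : ι → LnT F → MvPolynomial (Option (Fin m)) ℝ} {M : ℝ} (hM : 0 < M)
    (dE : ∀ x y, (E x y).totalDegree ≤ D) (dEl : ∀ x s, (El x s).totalDegree ≤ D)
    (pE : ∀ x y, DepC c i (E x y)) (pEl : ∀ x s, DepC c i (El x s))
    (hs' : ∀ ω, W ω → ∀ x, |eval (bt F ω) (E x (ptr F J ω))| ≤ M)
    (hc' : ∀ ω, W ω → ∀ x, ∀ b, NBx c (G (ptr F J ω)) g a (F.t ω) i b →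
      |eval b (E x (ptr F J ω)) - eval b (El x (slam F w ω))| ≤ M) :
    ∃ W' : F.Ω → Prop, Sub W' W ∧ Pe F.p W ≤ 2 ^ Fintype.card ι * Pe F.p W' ∧ ∀ ω, W' ω →
      ∀ x, ∀ b, NBx c (G (ptr F J ω)) g a (F.t ω) i b →
        |eval b (E x (ptr F J ω))| ≤ 2 ^ h * M := by
  classical
  have hp := Pe_nonneg F.isLaw
  have hlen : (Finset.univ : Finset ι).toList.length = Fintype.card ι := by
    rw [Finset.length_toList, Finset.card_univ]
  obtain ⟨W', h1, h2, h3⟩ := ev_list (F := F) (ι := ι) (fun x B' => ∀ ω, B' ω → ∀ b,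
      NBx c (G (ptr F J ω)) g a (F.t ω) i b → |eval b (E x (ptr F J ω))| ≤ 2 ^ h * M)
    (Y := 2) (by norm_num) (fun x B B' hB hs ω hω => hB ω (hs ω hω)) (Finset.univ : Finset ι).toList W
    (by
      intro x _ B' hB' hP
      rw [hlen] at hP
      obtain ⟨B'', k1, k2, k3⟩ := hR B' (fun ω hω => hW ω (hB' ω hω)) (by
          have h2 : (2 : ℝ) ^ Fintype.card ι * (κ * Pe F.p B₀) ≤
              2 ^ Fintype.card ι * Pe F.p B' := by
            calc (2 : ℝ) ^ Fintype.card ι * (κ * Pe F.p B₀) =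
                κ * 2 ^ Fintype.card ι * Pe F.p B₀ := by ring
              _ ≤ Pe F.p W := hκ
              _ ≤ _ := hP
          exact le_of_mul_le_mul_left h2 (by positivity)) (E x) (El x) M (dE x) (dEl x) (pE x)
        (pEl x) hM (fun ω hω => hs' ω (hB' ω hω) x) (fun ω hω => hc' ω (hB' ω hω) x)
      exact ⟨B'', k1, by linarith, k3⟩)
  rw [hlen] at h2
  exact ⟨W', h1, h2, fun ω hω x b hb => h3 x (Finset.mem_toList.2 (Finset.mem_univ x)) ω hω b hb⟩

/-- **The choice of the size.** -/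
theorem win_pig {ι : Type} [Fintype ι] {F : Fam m J} {c : ℕ → Fin m} {i a w D h : ℕ} {g : ℕ → ℕ}
    {κ : ℝ} {B₀ B : F.Ω → Prop} {G : PtT F → ℕ → MvPolynomial (Option (Fin m)) ℝ}
    (hR : RelvF F c i a w g D h κ B₀ G) (hB : Sub B B₀)
    {E : ι → PtT F → MvPolynomial (Option (Fin m)) ℝ}
    {El : ι → LnT F → MvPolynomial (Option (Fin m)) ℝ} {M : ℝ} (hM : 0 < M) {N T l₀ : ℕ}
    (hκ : κ * (4 * N * 2 ^ Fintype.card ι) * Pe F.p B₀ ≤ Pe F.p B) (hB0 : 0 < Pe F.p B)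
    (dE : ∀ x y, (E x y).totalDegree ≤ D) (dEl : ∀ x s, (El x s).totalDegree ≤ D)
    (pE : ∀ x y, DepC c i (E x y)) (pEl : ∀ x s, DepC c i (El x s))
    (hc' : ∀ ω, B ω → ∀ x, ∀ b, NBx c (G (ptr F J ω)) g a (F.t ω) i b →
      |eval b (E x (ptr F J ω)) - eval b (El x (slam F w ω))| ≤ M)
    (hup : ∀ ω, B ω → ∀ x, ∀ b, NBx c (G (ptr F J ω)) g a (F.t ω) i b →
      |eval b (E x (ptr F J ω))| ≤ 2 ^ (l₀ + N * T) * M) (hh : h + 1 ≤ l₀) :
    (∃ B' : F.Ω → Prop, Sub B' B ∧ Pe F.p B ≤ 2 * Pe F.p B' ∧ ∀ ω, B' ω → ∀ x, ∀ b,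
      NBx c (G (ptr F J ω)) g a (F.t ω) i b → |eval b (E x (ptr F J ω))| ≤ 2 ^ l₀ * M) ∨
    ∃ (l : ℕ) (W : F.Ω → Prop), l₀ ≤ l ∧ Sub W B ∧ Pe F.p B ≤ 4 * N * Pe F.p W ∧
      ∀ ω, W ω → (∀ x, ∀ b, NBx c (G (ptr F J ω)) g a (F.t ω) i b →
        |eval b (E x (ptr F J ω))| ≤ 2 ^ (l + T) * M) ∧
        ∃ x, 2 ^ l / 2 ^ (h + 1) * M ≤ |eval (bt F ω) (E x (ptr F J ω))| := by
  classical
  have hp := Pe_nonneg F.isLaw
  obtain ⟨S, hS⟩ : ∃ S : ℕ → F.Ω → Prop, S = fun n ω => ∀ x, ∀ b,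
      NBx c (G (ptr F J ω)) g a (F.t ω) i b →
        |eval b (E x (ptr F J ω))| ≤ 2 ^ (l₀ + n * T) * M := ⟨_, rfl⟩
  by_cases hgood : Pe F.p B ≤ 2 * Pe F.p (fun ω => B ω ∧ S 0 ω)
  · refine Or.inl ⟨_, fun ω hω => hω.1, hgood, fun ω hω x b hb => ?_⟩
    have h1 := hω.2
    rw [hS] at h1
    have h2 := h1 x b hb
    rwa [zero_mul, add_zero] at h2
  · right
    have hbad : Pe F.p B ≤ 2 * Pe F.p (fun ω => B ω ∧ ¬S 0 ω) := by
      have h1 := pe_part B (S 0)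
      linarith
    have hSN : ∀ ω, B ω → S N ω := fun ω hω => by
      rw [hS]
      exact hup ω hω
    have hN : 0 < N := by
      rcases Nat.eq_zero_or_pos N with h0 | h0
      · exfalso
        rw [h0] at hSN
        have h1 : Pe F.p (fun ω => B ω ∧ ¬S 0 ω) = 0 := by
          rw [Pe_eq]
          exact Finset.sum_eq_zero fun ω _ => if_neg fun h => h.2 (hSN ω h.1)
        rw [h1] at hbad
        linarith
      · exact h0
    -- the first good index
    have hex : ∀ ω, ∃ n : Fin N, B ω → ¬S 0 ω → ¬S n ω ∧ S (n + 1) ω := by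
      intro ω
      by_cases hω : B ω ∧ ¬S 0 ω
      · have hex' : ∃ n, S n ω := ⟨N, hSN ω hω.1⟩
        obtain ⟨n, hn⟩ : ∃ n, n = Nat.find hex' := ⟨_, rfl⟩
        have e1 : S n ω := by rw [hn]; exact Nat.find_spec hex'
        have e2 : n ≤ N := by rw [hn]; exact Nat.find_min' hex' (hSN ω hω.1)
        have e3 : n ≠ 0 := fun h => hω.2 (h ▸ e1)
        have e4 : ¬S (n - 1) ω := by
          refine Nat.find_min hex' ?_
          rw [← hn]
          omega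
        refine ⟨⟨n - 1, by omega⟩, fun _ _ => ⟨e4, ?_⟩⟩
        show S (n - 1 + 1) ω
        rw [Nat.sub_add_cancel (Nat.one_le_iff_ne_zero.2 e3)]
        exact e1
      · exact ⟨⟨0, hN⟩, fun h1 h2 => absurd ⟨h1, h2⟩ hω⟩
    choose f hf using hex
    have : Nonempty (Fin N) := ⟨⟨0, hN⟩⟩
    obtain ⟨n, hn⟩ := Pool.D2Z.pe_pgn (p := F.p) f (fun ω => B ω ∧ ¬S 0 ω)
    rw [Fintype.card_fin] at hn
    obtain ⟨W₀, hW₀⟩ : ∃ W₀ : F.Ω → Prop, W₀ = fun ω => (B ω ∧ ¬S 0 ω) ∧ f ω = n := ⟨_, rfl⟩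
    rw [← hW₀] at hn
    have w1 : Sub W₀ B := fun ω hω => by
      rw [hW₀] at hω
      exact hω.1.1
    have w2 : ∀ ω, W₀ ω → ¬S n ω ∧ S (n + 1) ω := fun ω hω => by
      rw [hW₀] at hω
      have := hf ω hω.1.1 hω.1.2
      rwa [hω.2] at this
    obtain ⟨l, hl⟩ : ∃ l, l = l₀ + n * T := ⟨_, rfl⟩
    obtain ⟨Q, hQ⟩ : ∃ Q : F.Ω → Prop, Q = fun ω =>
        ∃ x, 2 ^ l / 2 ^ (h + 1) * M ≤ |eval (bt F ω) (E x (ptr F J ω))| := ⟨_, rfl⟩
    have hNr : (0 : ℝ) < N := by exact_mod_cast hN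
    by_cases hQP : Pe F.p W₀ ≤ 2 * Pe F.p (fun ω => W₀ ω ∧ Q ω)
    · refine ⟨l, fun ω => W₀ ω ∧ Q ω, by omega, fun ω hω => w1 ω hω.1, ?_,
        fun ω hω => ⟨?_, ?_⟩⟩
      · calc Pe F.p B ≤ 2 * (N * Pe F.p W₀) := by linarith
          _ ≤ 2 * (N * (2 * Pe F.p (fun ω => W₀ ω ∧ Q ω))) := by
            refine mul_le_mul_of_nonneg_left (mul_le_mul_of_nonneg_left hQP hNr.le) (by norm_num)
          _ = _ := by ring
      · have h1 := (w2 ω hω.1).2
        rw [hS] at h1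
        intro x b hb
        have h2 := h1 x b hb
        rwa [show l₀ + (↑n + 1) * T = l + T by rw [hl]; ring] at h2
      · have h1 := hω.2
        rw [hQ] at h1
        exact h1
    · exfalso
      have h1 := pe_part W₀ Q
      have h2 : Pe F.p W₀ ≤ 2 * Pe F.p (fun ω => W₀ ω ∧ ¬Q ω) := by linarith
      have h3 : κ * 2 ^ Fintype.card ι * Pe F.p B₀ ≤ Pe F.p (fun ω => W₀ ω ∧ ¬Q ω) := by
        have h4 : (4 * N : ℝ) * (κ * 2 ^ Fintype.card ι * Pe F.p B₀) ≤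
            (4 * N : ℝ) * Pe F.p (fun ω => W₀ ω ∧ ¬Q ω) := by
          calc (4 * N : ℝ) * (κ * 2 ^ Fintype.card ι * Pe F.p B₀) =
              κ * (4 * N * 2 ^ Fintype.card ι) * Pe F.p B₀ := by ring
            _ ≤ Pe F.p B := hκ
            _ ≤ 2 * (N * Pe F.p W₀) := by linarith
            _ ≤ 2 * (N * (2 * Pe F.p (fun ω => W₀ ω ∧ ¬Q ω))) :=
              mul_le_mul_of_nonneg_left (mul_le_mul_of_nonneg_left h2 hNr.le) (by norm_num)
            _ = _ := by ring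
        exact le_of_mul_le_mul_left h4 (by positivity)
      have hM1 : 1 ≤ (2 : ℝ) ^ l / 2 ^ (h + 1) := by
        rw [le_div_iff₀ (by positivity), one_mul]
        exact pow_le_pow_right₀ (by norm_num) (by omega)
      obtain ⟨W', k1, k2, k3⟩ := rel_all hR (W := fun ω => W₀ ω ∧ ¬Q ω)
        (fun ω hω => hB ω (w1 ω hω.1)) h3 (E := E) (El := El) (M := 2 ^ l / 2 ^ (h + 1) * M)
        (mul_pos (by positivity) hM) dE dEl pE pEl (fun ω hω x => by
          have e1 := hω.2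
          rw [hQ] at e1
          push Not at e1
          exact (e1 x).le) (fun ω hω x b hb =>
          (hc' ω (w1 ω hω.1) x b hb).trans (le_mul_of_one_le_left hM.le hM1))
      have hpos : 0 < Pe F.p W' := by
        have e1 : 0 < Pe F.p W₀ := by
          have e2 : 0 < (N : ℝ) * Pe F.p W₀ := by linarith
          exact (mul_pos_iff_of_pos_left hNr).1 e2
        have e3 : 0 < 2 ^ Fintype.card ι * Pe F.p W' := by linarith
        exact (mul_pos_iff_of_pos_left (by positivity)).1 e3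
      obtain ⟨ω, hω⟩ := pe_ne hpos
      have e1 := (w2 ω (k1 ω hω).1).1
      apply e1
      rw [hS]
      intro x b hb
      refine (k3 ω hω x b hb).trans ?_
      rw [← hl]
      have e2 : (2 : ℝ) ^ h * (2 ^ l / 2 ^ (h + 1) * M) = 2 ^ l * M / 2 := by
        rw [pow_succ]
        field_simp
      have e3 : 0 < (2 : ℝ) ^ l * M := mul_pos (by positivity) hM
      rw [e2]
      linarith

end Pool.F5
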