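import Pool.Agent.H64.F5.One
import Pool.Agent.H23.D2.Two

/-!
# (F5), two coordinates of `V1`: the small events

`ev_of_law`: from laws to events. `ev_zero`: the direction of the line is not visible. `ev_one`: the
slope of the first coordinate of `V1` is not closed. `kil_ev`: a visible covector does not kill the
difference of the slopes. `rem_dv`: the mixed derivatives on the whole line (Remez).
-/

set_option autoImplicit false

namespace Pool.F5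

open Finset Real MvPolynomial
open Pool.Agent.H49.Ent Pool.Agent.H32.Dense Pool.STK Pool.KA Pool.KSAT Pool.K2S Pool.PB Pool.S6C
open Pool.GEN Pool.CHT Pool.CHX
open Pool.LBT (ThrOf)
open Pool.KM7 (P2)
open Pool.D2F
open Pool.SEP46 (sep_cls cl_ev)
open Pool.FLF (Fam.sub)
open Pool.PB.Trl (rt rt_mem t_rt)
open Pool.D2R (dd hs dd_add dd_smul dd_sub hs_sub hs_add_left hs_add_right hs_smul_left hs_smul_right
  hs_comm rem_fam)

variable {m J n : ℕ}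

/-- From laws to events. -/
theorem ev_of_law {F : Fam m J} {A B : F.Ω → Prop} {a₀ : ℕ} {R : F.Ω → F.Ω → Prop} {K x : ℝ}
    (hx : 0 ≤ x) (hK : 0 ≤ K)
    (h : ∀ (q : F.Ω → ℝ) (M : ℝ), IsLaw q → 0 ≤ M → (∀ ω, 0 < q ω → B ω) →
      (∀ ω, q ω * Pe F.p A ≤ M * F.p ω) →
      Pe (P2 q (slam F a₀)) (fun y => R y.1 y.2) ≤ K * M * x)
    (hR : ∀ ω ω', B ω → B ω' → slam F a₀ ω = slam F a₀ ω' → R ω ω') :
    Pe F.p B ≤ K * x * Pe F.p A := by
  classical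
  rcases (Pe_nonneg F.isLaw B).eq_or_lt with h0 | h0
  · rw [← h0]
    exact mul_nonneg (mul_nonneg hK hx) (Pe_nonneg F.isLaw A)
  have hq1 : ∀ ω, 0 ≤ F.p ω := F.isLaw.nonneg
  obtain ⟨q, hq⟩ : ∃ q : F.Ω → ℝ, q = fun ω => if B ω then F.p ω / Pe F.p B else 0 := ⟨_, rfl⟩
  have hqlaw : IsLaw q := by
    refine ⟨fun ω => ?_, ?_⟩
    · rw [hq]
      show 0 ≤ (if B ω then F.p ω / Pe F.p B else 0)
      split_ifs
      exacts [div_nonneg (hq1 ω) h0.le, le_rfl]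
    · have e1 : ∑ ω, q ω = (∑ ω, if B ω then F.p ω else 0) / Pe F.p B := by
        rw [Finset.sum_div]
        refine Finset.sum_congr rfl fun ω _ => ?_
        rw [hq]
        show (if B ω then F.p ω / Pe F.p B else 0) = (if B ω then F.p ω else 0) / Pe F.p B
        split_ifs
        exacts [rfl, (zero_div _).symm]
      rw [e1, ← Pool.JVE.pe_sum, div_self h0.ne']
  have hqB : ∀ ω, 0 < q ω → B ω := by
    intro ω hω
    by_contra hcon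
    rw [hq] at hω
    simp only [if_neg hcon] at hω
    exact lt_irrefl _ hω
  have hM : 0 ≤ Pe F.p A / Pe F.p B := div_nonneg (Pe_nonneg F.isLaw A) h0.le
  have hqM : ∀ ω, q ω * Pe F.p A ≤ Pe F.p A / Pe F.p B * F.p ω := by
    intro ω
    rw [hq]
    show (if B ω then F.p ω / Pe F.p B else 0) * Pe F.p A ≤ _
    split_ifs
    · refine le_of_eq ?_
      field_simp
    · rw [zero_mul]
      exact mul_nonneg hM (hq1 ω)
  have h2 := h q _ hqlaw hM hqB hqM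
  have hP2 := Pool.KM7.P2_isLaw hqlaw (slam F a₀)
  have h3 : Pe (P2 q (slam F a₀)) (fun y => R y.1 y.2) = 1 := by
    rw [Pool.JVE.pe_sum, ← hP2.sum_one]
    refine Finset.sum_congr rfl fun y _ => ?_
    rcases (hP2.nonneg y).eq_or_lt with h4 | h4
    · rw [← h4]
      simp
    · obtain ⟨x1, x2, x3⟩ := (Pool.KM7.P2_pos hqlaw y).mp h4
      rw [if_pos (hR _ _ (hqB _ x1) (hqB _ x2) x3)]
  rw [h3] at h2
  have h4 : Pe F.p B * 1 ≤ Pe F.p B * (K * (Pe F.p A / Pe F.p B) * x) :=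
    mul_le_mul_of_nonneg_left h2 h0.le
  rw [mul_one] at h4
  refine h4.trans (le_of_eq ?_)
  field_simp

/-- **The direction of the line is not visible.** -/
theorem ev_zero {θ : ℝ} {S : PCl m} {P : List (Fin m) × Fin m → ℝ → ℝ → ℝ}
    (hP : ThrOf (chsys m θ) S P) (c : ℕ → Fin m)
    (a : ℚ) (e h : ℝ) (ha0 : 0 ≤ a) (ha : a ≤ 1) (he : e < θ * a) (hh : 0 < h)
    (h1 : bet P c 0 a a + h ≤ 1) :
    ∃ δ : ℝ, 0 < δ ∧ Bas S (fun J F A => ∀ (n a₀ e₀ e' k s V p : ℕ) (g : ℕ → ℕ)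
      (ψ : PtT F → ℕ → Option (Fin m) → ℝ) (ψH : LnT F → ℕ → Option (Fin m) → ℝ)
      (t : PtT F → ℝ) (η : ℝ), 0 < n → a₀ ≤ J → a₀ ≤ ⌊(a : ℝ) * J⌋₊ →
      e₀ + e' + 2 * k + s + 6 ≤ ⌊e * J⌋₊ → s + e' + k + 9 ≤ V → e₀ + g 0 + V ≤ J →
      p ≤ g 0 + s → p ≤ J → ⌊(bet P c 0 a a + h) * J⌋₊ + a₀ ≤ p + ⌊(a : ℝ) * J⌋₊ →
      2 * η * 2 ^ (2 * k + 8 + s) ≤ 1 → 0 ≤ η → ∀ B : F.Ω → Prop, Sub B A →
      FrOK F c n a₀ k e₀ g B ψ ψH → (∀ ω, B ω → |t (ptr F J ω)| ≤ 2 ^ e') →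
      (∀ ω, B ω → |Xn F c g a₀ ψ ω 1 - t (ptr F J ω)| ≤ η) →
      Pe F.p B ≤ Real.exp (-(δ * J)) * Pe F.p A) := by
  have hc0 : Set.InjOn c (Set.Iio (0 + 1)) := by
    intro x hx y hy _
    simp only [zero_add, Set.mem_Iio, Nat.lt_one_iff] at hx hy
    rw [hx, hy]
  obtain ⟨δ, hδ, hB⟩ := cl_ev hP c 0 hc0 a e h ha0 ha he hh h1
  refine ⟨δ, hδ, hB.mono 0 ?_⟩
  intro J _ F A hA n a₀ e₀ e' k s V p g ψ ψH t η k1 k2 k3 k4 k5 k6 k7 k8 k9 k10 hη B hBA hfr ht htx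
  refine hA n a₀ e₀ e' k s V p g ψ ψH (fun y _ => t y) (fun _ _ _ => 0) k1 k2 k3 (by omega)
    (by omega) (fun j hj => ?_) (fun l hl => absurd hl (Nat.not_lt_zero l)) k7 k8 k9 B hBA hfr
    (fun ω hω j _ => ht ω hω) (fun ω _ j _ l _ => by rw [abs_zero]; positivity)
    (fun ω ω' hω hω' hs => ?_)
  · have : j = 0 := by omega
    subst this
    exact k6
  · have hX := Xn_eq hfr hω hω' hs
    have h2 := htx ω hω
    have h3 := htx ω' hω'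
    rw [hX] at h3
    refine cl_of (ε := 2 * η) (by linarith) (tu_le k2 hs) (fun j hj => Xn_le hfr hω (by omega))
      (fun _ _ _ _ => rfl) (fun j _ => ?_) ?_ (fun j _ l _ => ?_) ?_ ?_
    · simp only [zero_mul, Finset.sum_const_zero, mul_zero, sub_zero]
      have e1 : t (ptr F J ω') - t (ptr F J ω) = (Xn F c g a₀ ψ ω 1 - t (ptr F J ω)) -
          (Xn F c g a₀ ψ ω 1 - t (ptr F J ω')) := by ring
      rw [e1]
      refine (abs_sub _ _).trans ?_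
      linarith
    · have e1 : Xn F c g a₀ ψ ω (0 + 1) - ln 0 (fun _ => t (ptr F J ω')) (Xn F c g a₀ ψ ω) =
          Xn F c g a₀ ψ ω 1 - t (ptr F J ω') := by
        unfold ln
        rw [zero_add, Finset.sum_range_one, Xn_zero, mul_one]
      rw [e1]
      linarith
    · rw [sub_self, abs_zero]
      linarith
    · unfold bl
      simp
      linarith
    · rw [show 2 * (0 + 1) + 2 * k + 6 + s = 2 * k + 8 + s by ring]
      exact k10

/-- **The slope of the first coordinate of `V1` is not closed.** -/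
theorem ev_one {θ : ℝ} {S : PCl m} {P : List (Fin m) × Fin m → ℝ → ℝ → ℝ}
    (hP : ThrOf (chsys m θ) S P) (c : ℕ → Fin m) (hc : Set.InjOn c (Set.Iio 2))
    (a : ℚ) (e h : ℝ) (ha0 : 0 ≤ a) (ha : a ≤ 1) (he : e < θ * a) (hh : 0 < h)
    (h1 : bet P c 1 a a + h ≤ 1) :
    ∃ δ : ℝ, 0 < δ ∧ Bas S (fun J F A => ∀ (n a₀ e₀ e' k s V p : ℕ) (g : ℕ → ℕ)
      (ψ : PtT F → ℕ → Option (Fin m) → ℝ) (ψH : LnT F → ℕ → Option (Fin m) → ℝ)
      (Mv : PtT F → Fin 2 → ℝ) (η ε : ℝ), 2 ≤ n → a₀ ≤ J → a₀ ≤ ⌊(a : ℝ) * J⌋₊ →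
      e₀ + e' + 2 * k + s + 8 ≤ ⌊e * J⌋₊ → s + e' + k + 12 ≤ V → (∀ j ≤ 1, e₀ + g j + V ≤ J) →
      k + 1 ≤ g 0 → p ≤ g 1 + s → p ≤ J →
      ⌊(bet P c 1 a a + h) * J⌋₊ + a₀ ≤ p + ⌊(a : ℝ) * J⌋₊ →
      (2 ^ k * η + 2 * ε) * 2 ^ (2 * k + 10 + s) ≤ 1 → 0 ≤ η → 0 ≤ ε →
      ∀ B : F.Ω → Prop, Sub B A → FrOK F c n a₀ k e₀ g B ψ ψH →
      (∀ ω, B ω → ∀ j, |Mv (ptr F J ω) j| ≤ 2 ^ e') →
      (∀ ω, B ω → |Xn F c g a₀ ψ ω 2 -
        (Mv (ptr F J ω) 0 + Mv (ptr F J ω) 1 * Xn F c g a₀ ψ ω 1)| ≤ ε) →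
      (∀ ω ω', B ω → B ω' → slam F a₀ ω = slam F a₀ ω' →
        |Mv (ptr F J ω') 1 - Mv (ptr F J ω) 1| ≤ η) →
      Pe F.p B ≤ Real.exp (-(δ * J)) * Pe F.p A) := by
  obtain ⟨δ, hδ, hB⟩ := cl_ev hP c 1 hc a e h ha0 ha he hh h1
  refine ⟨δ, hδ, hB.mono 0 ?_⟩
  intro J _ F A hA n a₀ e₀ e' k s V p g ψ ψH Mv η ε hn haJ haa hee hV hJg hgk hp hpJ hq hnum hη hε
    B hBA hfr hMb hown hz
  refine hA n a₀ e₀ e' k s V p g ψ ψH (muv Mv) (fun _ _ _ => 0) (by omega) haJ haa (by omega)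
    (by omega) hJg (fun l hl => ?_) hp hpJ hq B hBA hfr (fun ω hω j hj => ?_)
    (fun ω _ j _ l _ => by rw [abs_zero]; positivity) (fun ω ω' hω hω' hsl => ?_)
  · have : l = 0 := by omega
    rw [this]
    exact hgk
  · have h1 := hMb ω hω
    interval_cases j
    · exact h1 0
    · exact h1 1
  · have hX := Xn_eq hfr hω hω' hsl
    have hz1 := hz ω ω' hω hω' hsl
    have h2 := hown ω hω
    have h3 := hown ω' hω'
    rw [hX] at h3
    have hX1 := Xn_le hfr hω (j := 1) (by omega)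
    obtain ⟨z, hz'⟩ : ∃ z, z = Mv (ptr F J ω') 1 - Mv (ptr F J ω) 1 := ⟨_, rfl⟩
    rw [← hz'] at hz1
    have hXz : |Xn F c g a₀ ψ ω 1 * z| ≤ 2 ^ k * η := by
      rw [abs_mul]
      exact mul_le_mul hX1 hz1 (abs_nonneg _) (by positivity)
    have hk1 : (1 : ℝ) ≤ 2 ^ k := one_le_pow₀ (by norm_num)
    have hE1 : 0 ≤ 2 ^ k * η + 2 * ε := by positivity
    refine cl_of (ε := 2 ^ k * η + 2 * ε) hE1 (tu_le haJ hsl) (fun j hj => Xn_le hfr hω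
      (by omega)) (fun _ _ _ _ => rfl) (fun j hj => ?_) ?_ (fun j _ l _ => ?_) ?_ (by
        rw [show 2 * (1 + 1) + 2 * k + 6 + s = 2 * k + 10 + s by ring]
        exact hnum)
    · simp only [zero_mul, Finset.sum_const_zero, mul_zero, sub_zero]
      interval_cases j
      · show |Mv (ptr F J ω') 0 - Mv (ptr F J ω) 0| ≤ _
        have e1 : Mv (ptr F J ω') 0 - Mv (ptr F J ω) 0 =
            (Xn F c g a₀ ψ ω 2 - (Mv (ptr F J ω) 0 + Mv (ptr F J ω) 1 * Xn F c g a₀ ψ ω 1)) -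
            (Xn F c g a₀ ψ ω 2 - (Mv (ptr F J ω') 0 + Mv (ptr F J ω') 1 * Xn F c g a₀ ψ ω 1)) -
              Xn F c g a₀ ψ ω 1 * z := by
          rw [hz']
          ring
        rw [e1]
        refine (abs_sub _ _).trans ((add_le_add ((abs_sub _ _).trans (add_le_add h2 h3))
          hXz).trans ?_)
        linarith
      · show |Mv (ptr F J ω') 1 - Mv (ptr F J ω) 1| ≤ _
        rw [← hz']
        have : η ≤ 2 ^ k * η := le_mul_of_one_le_left hη hk1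
        linarith
    · rw [ln_one, Xn_zero]
      show |Xn F c g a₀ ψ ω 2 - (Mv (ptr F J ω') 0 * 1 +
        Mv (ptr F J ω') 1 * Xn F c g a₀ ψ ω 1)| ≤ _
      rw [mul_one]
      refine h3.trans ?_
      have : 0 ≤ 2 ^ k * η := by positivity
      linarith
    · rw [sub_zero, abs_zero]
      exact hE1
    · unfold bl
      simpa using hE1

/-- **A visible covector does not kill the difference of the slopes.** -/
theorem kil_ev {θc : ℝ} {S : PCl m} {P : List (Fin m) × Fin m → ℝ → ℝ → ℝ}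
    (hP : ThrOf (chsys m θc) S P) (c : ℕ → Fin m) (hc : Set.InjOn c (Set.Iio 3))
    (a : ℚ) (e h : ℝ) (ha0 : 0 ≤ a) (ha : a ≤ 1) (he : e < θc * a) (hh : 0 < h)
    (h1 : bet P c 1 a a + h ≤ 1) (h2 : bet P c 2 a a + h ≤ 1) :
    ∃ δ : ℝ, 0 < δ ∧ Bas S (fun J F A => ∀ (n a₀ e₀ e' k s V p₁ p₂ : ℕ) (g : ℕ → ℕ)
      (ψ : PtT F → ℕ → Option (Fin m) → ℝ) (ψH : LnT F → ℕ → Option (Fin m) → ℝ)
      (Mv Mu al : PtT F → Fin 2 → ℝ) (ε Mb K μ θ μ' ε₂ : ℝ), 3 ≤ n → a₀ ≤ J →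
      a₀ ≤ ⌊(a : ℝ) * J⌋₊ → e₀ + e' + 2 * k + s + 10 ≤ ⌊e * J⌋₊ →
      s + e' + k + 15 ≤ V → (∀ j ≤ 2, e₀ + g j + V ≤ J) → (∀ l < 2, k + 1 ≤ g l) →
      p₁ ≤ g 1 + s → p₂ ≤ g 2 + s → p₁ ≤ J → p₂ ≤ J →
      ⌊(bet P c 1 a a + h) * J⌋₊ + a₀ ≤ p₁ + ⌊(a : ℝ) * J⌋₊ →
      ⌊(bet P c 2 a a + h) * J⌋₊ + a₀ ≤ p₂ + ⌊(a : ℝ) * J⌋₊ →
      0 < μ → 0 < θ → θ ≤ μ / 2 → 0 < μ' → Mb * (1 + K / θ) ≤ 2 ^ e' → K / θ ≤ 2 ^ e' →
      Er (2 ^ k) Mb K μ θ μ' ε ε₂ * 2 ^ (2 * k + 12 + s) ≤ 1 → ∀ B : F.Ω → Prop, Sub B A →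
      FrOK F c n a₀ k e₀ g B ψ ψH → VDat F c g a₀ ψ B Mv Mu al ε Mb K μ →
      (∀ ω ω', B ω → B ω' → slam F a₀ ω = slam F a₀ ω' → Kil F Mv Mu al ε₂ ω ω') →
      Pe F.p B ≤ 2 * Real.exp (-(δ * J)) * Pe F.p A) := by
  obtain ⟨δ, hδ, hB⟩ := kil_cls hP c hc a e h ha0 ha he hh h1 h2
  refine ⟨δ, hδ, hB.mono 0 ?_⟩
  intro J _ F A hA n a₀ e₀ e' k s V p₁ p₂ g ψ ψH Mv Mu al ε Mb K μ θ μ' ε₂ hn haJ haa hee hV
    hJg hgk hp1 hp2 hp1J hp2J hb1 hb2 hμ hθ0 hθ hμ' hMb hKθ hEr B hBA hfr hd hkil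
  exact ev_of_law (R := Kil F Mv Mu al ε₂) (Real.exp_pos _).le (by norm_num)
    (fun q M hq hM hqB hqM => hA n a₀ e₀ e' k s V p₁ p₂ g ψ ψH Mv Mu al ε Mb K μ θ μ' ε₂ hn haJ
      haa hee hV hJg hgk hp1 hp2 hp1J hp2J hb1 hb2 hμ hθ0 hθ hμ' hMb hKθ hEr B hBA hfr hd q M hq hM
      hqB hqM) hkil

/-! ### Remez -/

/-- The direction of a line. -/
noncomputable def bdS {F : Fam m J} (s : LnT F) : Option (Fin m) → ℝ
  | none => 1
  | some j => s.1.2 j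

theorem bdS_slam (F : Fam m J) (a : ℕ) (ω : F.Ω) : bdS (slam F a ω) = bd F ω := by
  funext o
  cases o with
  | none => rfl
  | some j => rfl

/-- The natural velocity, as a function of the line. -/
noncomputable def Xs (n : ℕ) {F : Fam m J} (c : ℕ → Fin m) (g : ℕ → ℕ) (a : ℕ)
    (ψH : LnT F → ℕ → Option (Fin m) → ℝ) (s : LnT F) : Option (Fin (n + 1)) → ℝ :=
  fun o => eta c g a (ψH s) ((1 / 2 ^ a : ℝ) • bdS s) (ix o)

theorem Xs_eq {F : Fam m J} {c : ℕ → Fin m} {n' a k e : ℕ} {g : ℕ → ℕ} {A : F.Ω → Prop}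
    {ψ : PtT F → ℕ → Option (Fin m) → ℝ} {ψH : LnT F → ℕ → Option (Fin m) → ℝ}
    (h : FrOK F c n' a k e g A ψ ψH) {ω : F.Ω} (hω : A ω) :
    Xs n c g a ψH (slam F a ω) = Xo n F c g a ψ ω := by
  funext o
  unfold Xs Xo Xn
  rw [bdS_slam, h.cls ω hω]

/-- The mixed derivative along a line. -/
noncomputable def dvp (n : ℕ) {F : Fam m J} (c : ℕ → Fin m) (g : ℕ → ℕ) (a : ℕ)
    (ψH : LnT F → ℕ → Option (Fin m) → ℝ)
    (PH : LnT F → MvPolynomial (Option (Fin (n + 1))) ℝ) (V : Option (Fin (n + 1)) → ℝ)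
    (s : LnT F) : Polynomial ℝ :=
  Polynomial.derivative (lp (gp (PH s) V) 0 (Xs n c g a ψH s))

theorem eval_dvp {F : Fam m J} {c : ℕ → Fin m} {n' a k e : ℕ} {g : ℕ → ℕ} {A : F.Ω → Prop}
    {ψ : PtT F → ℕ → Option (Fin m) → ℝ} {ψH : LnT F → ℕ → Option (Fin m) → ℝ}
    (h : FrOK F c n' a k e g A ψ ψH) {ω : F.Ω} (hω : A ω)
    (PH : LnT F → MvPolynomial (Option (Fin (n + 1))) ℝ) (V : Option (Fin (n + 1)) → ℝ) (τ : ℝ) :
    (dvp n c g a ψH PH V (slam F a ω)).eval τ = hs (PH (slam F a ω))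
      (fun o => τ * Xo n F c g a ψ ω o) (Xo n F c g a ψ ω) V := by
  unfold dvp
  rw [(der_lp _ _ _ τ).1, dd_gp, Xs_eq h hω]
  congr 1
  funext o
  simp

theorem deg_dvp {F : Fam m J} (c : ℕ → Fin m) (g : ℕ → ℕ) (a : ℕ)
    (ψH : LnT F → ℕ → Option (Fin m) → ℝ)
    {PH : LnT F → MvPolynomial (Option (Fin (n + 1))) ℝ} {D : ℕ}
    (hD : ∀ s, (PH s).totalDegree ≤ D) (V : Option (Fin (n + 1)) → ℝ) (s : LnT F) :
    (dvp n c g a ψH PH V s).natDegree ≤ D := by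
  unfold dvp
  exact (Polynomial.natDegree_derivative_le _).trans ((Nat.sub_le _ _).trans
    (deg_lp (deg_gp (hD s) V) _ _))

/-- **The mixed derivatives on the whole line.** -/
theorem rem_dv (m D : ℕ) : ∃ C : ℝ, 1 ≤ C ∧ ∀ {J n : ℕ} {F : Fam m J} {c : ℕ → Fin m}
    {n' a k e : ℕ} {g : ℕ → ℕ} {B B₄ : F.Ω → Prop} {ψ : PtT F → ℕ → Option (Fin m) → ℝ}
    {ψH : LnT F → ℕ → Option (Fin m) → ℝ} {PG : PtT F → MvPolynomial (Option (Fin (n + 1))) ℝ}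
    {PH : LnT F → MvPolynomial (Option (Fin (n + 1))) ℝ} {M : PtT F → Fin n → Fin 2 → ℝ}
    {A K ε μ θ : ℝ}, FrOK F c n' a k e g B ψ ψH → HPol F c g a n D ψ B PG PH M A K ε → 1 ≤ A →
    1 ≤ K → 0 ≤ ε → 0 < μ → a ≤ J → 0 ≤ θ → Sub B₄ B → ∀ (hB₄ : 0 < Pe F.p B₄),
    (Fam.sub F B₄ hB₄).Tm θ → C * (θ + 1) ≤ ((J : ℝ) - a) * Real.log 2 →
    (∀ ω, B₄ ω → ∀ (i : Fin 2) (l : Fin n),
      |hs (PG (ptr F J ω)) 0 (lv (M (ptr F J ω)) i) (eo (some l.succ))| ≤ μ) → n ≤ 2 →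
    ∃ B₅ : F.Ω → Prop, Sub B₅ B₄ ∧ Pe F.p B₄ ≤ 2 * Pe F.p B₅ ∧ ∀ ω, B₅ ω → ∀ (l : Fin n),
      ∀ τ ∈ Set.Icc (0 : ℝ) 1, |hs (PH (slam F a ω)) (fun o => τ * Xo n F c g a ψ ω o)
        (Xo n F c g a ψ ω) (eo (some l.succ))| ≤
        Real.exp (C * (θ + 1)) * (2 * A * μ + 2 * (A * (K * ε)) ) := by
  classical
  obtain ⟨C, hC, hrem⟩ := rem_fam m D 2
  refine ⟨C, hC, ?_⟩
  intro J n F c n' a k e g B B₄ ψ ψH PG PH M A K ε μ θ hfr hH hA hK hε hμ haJ hθ hB₄B hB₄ hTm hJ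
    hsm hn
  have hA0 : 0 ≤ A := by linarith
  have hK0 : 0 ≤ K := by linarith
  have hS0 : 0 < 2 * A * μ + 2 * (A * (K * ε)) := by
    have : 0 < A * μ := mul_pos (by linarith) hμ
    have h2 : 0 ≤ A * (K * ε) := by positivity
    linarith
  obtain ⟨B₅, k1, k2, k3⟩ := hrem J F B₄ hB₄ a (fun i s => if h : i < n then
    dvp n c g a ψH PH (eo (some (Fin.succ ⟨i, h⟩))) s else 0)
    (fun _ => 2 * A * μ + 2 * (A * (K * ε))) θ haJ (fun i _ s => by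
      split_ifs
      · exact deg_dvp c g a ψH hH.dH _ s
      · rw [Polynomial.natDegree_zero]
        exact Nat.zero_le _) (fun _ _ => hS0) hθ hTm hJ (fun ω hω i _ => by
      split_ifs with hi
      · obtain ⟨l, hl⟩ : ∃ l : Fin n, l = ⟨i, hi⟩ := ⟨_, rfl⟩
        rw [← hl, eval_dvp hfr (hB₄B ω hω)]
        have hωB := hB₄B ω hω
        obtain ⟨V, hV⟩ : ∃ V : Option (Fin (n + 1)) → ℝ, V = eo (some l.succ) := ⟨_, rfl⟩
        have hV1 : ∀ o, |V o| ≤ 1 := by rw [hV]; exact eo_le _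
        rw [← hV]
        have g1 := hH.shift hωB (rt_mem F a ω) hA0 zero_le_one (hH.xo hωB) hV1
        have e0 : (fun o => (rt F a ω - rt F a ω) * Xo n F c g a ψ ω o) =
            (0 : Option (Fin (n + 1)) → ℝ) := by
          funext o
          rw [sub_self, zero_mul]
          rfl
        rw [e0] at g1
        obtain ⟨E, hE⟩ : ∃ E, E = Xn F c g a ψ ω 1 := ⟨_, rfl⟩
        have hEb : |E| ≤ A := by rw [hE]; exact hH.bX ω hωB 1 (by omega)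
        obtain ⟨Z, hZ⟩ : ∃ Z : Option (Fin (n + 1)) → ℝ, Z = fun o => Xo n F c g a ψ ω o -
            (lv (M (ptr F J ω)) 0 o + E * lv (M (ptr F J ω)) 1 o) := ⟨_, rfl⟩
        have hZ1 : ∀ o, |Z o| ≤ ε := by
          intro o
          rw [hZ, hE]
          exact hH.pln hε hωB o
        have g2 : |hs (PG (ptr F J ω)) 0 Z V| ≤ K * (ε * 1) :=
          (hH.bx ω hωB).le hε zero_le_one (fun o => by simp; positivity) hZ1 hV1
        have e1 : Xo n F c g a ψ ω = lv (M (ptr F J ω)) 0 + E • lv (M (ptr F J ω)) 1 + Z := by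
          funext o
          rw [hZ]
          simp only [Pi.add_apply, Pi.smul_apply, smul_eq_mul]
          ring
        have g3 : |hs (PG (ptr F J ω)) 0 (Xo n F c g a ψ ω) V| ≤ 2 * A * μ + K * ε := by
          rw [e1, hs_add_left, hs_add_left, hs_smul_left]
          have b0 := hsm ω hω 0 l
          have b1 := hsm ω hω 1 l
          rw [← hV] at b0 b1
          refine (abs_add_le _ _).trans ?_
          have b2 : |hs (PG (ptr F J ω)) 0 (lv (M (ptr F J ω)) 0) V +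
              E * hs (PG (ptr F J ω)) 0 (lv (M (ptr F J ω)) 1) V| ≤ μ + A * μ := by
            refine (abs_add_le _ _).trans ?_
            rw [abs_mul]
            exact add_le_add b0 (mul_le_mul hEb b1 (abs_nonneg _) hA0)
          have b3 : μ ≤ A * μ := le_mul_of_one_le_left hμ.le hA
          rw [mul_one] at g2
          linarith
        have e2 : hs (PH (slam F a ω)) (fun o => rt F a ω * Xo n F c g a ψ ω o)
            (Xo n F c g a ψ ω) V = hs (PG (ptr F J ω)) 0 (Xo n F c g a ψ ω) V -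
            (hs (PG (ptr F J ω)) 0 (Xo n F c g a ψ ω) V - hs (PH (slam F a ω))
              (fun o => rt F a ω * Xo n F c g a ψ ω o) (Xo n F c g a ψ ω) V) := by ring
        rw [e2]
        refine (abs_sub _ _).trans ((add_le_add g3 g1).trans ?_)
        have b4 : K * ε ≤ A * (K * ε) := le_mul_of_one_le_left (by positivity) hA
        have b5 : ε * (A * 1) ≤ A * (K * ε) := by
          have : ε ≤ K * ε := le_mul_of_one_le_left hε hK
          nlinarith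
        linarith
      · simp only [Polynomial.eval_zero, abs_zero]
        exact hS0.le)
  refine ⟨B₅, k1, by linarith, fun ω hω l τ hτ => ?_⟩
  have h1 := k3 ω hω l (by have := l.2; omega) τ hτ
  have hl : (l : ℕ) < n := l.2
  rw [dif_pos hl, eval_dvp hfr (hB₄B ω (k1 ω hω))] at h1
  exact h1

end Pool.F5
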