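import Pool.Agent.H64.F5.Nat
import Pool.Agent.H46.D2.Tri3

/-!
# (F5), one coordinate of `V1`

`one_end`: the second derivative is small at a point with two separated lines, if on every one of them
there is another sample with another slope. `f5_one`: an event on which the normalised second
derivative is not small is small.
-/

set_option autoImplicit false

namespace Pool.F5

open Finset Real MvPolynomial
open Pool.Agent.H49.Ent Pool.Agent.H32.Dense Pool.STK Pool.KA Pool.KSAT Pool.K2S Pool.PB Pool.S6C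
open Pool.GEN Pool.CHT Pool.CHX
open Pool.LBT (ThrOf)
open Pool.D2F
open Pool.SEP46 (sep_cls cl_ev)
open Pool.PB.Trl (rt rt_mem t_rt)
open Pool.D2R (dd hs dd_add dd_smul dd_sub hs_sub hs_add_left hs_add_right hs_smul_left hs_smul_right
  hs_comm)

variable {m J n : ℕ}

/-- The basis vectors. -/
def eo (o : Option (Fin n)) : Option (Fin n) → ℝ := fun o' => if o' = o then 1 else 0

theorem eo_le (o o' : Option (Fin n)) : |eo o o'| ≤ 1 := by
  unfold eo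
  split_ifs <;> simp

theorem exp_half {δ : ℝ} (hδ : 0 < δ) {K : ℝ} (hK : 0 < K) :
    ∃ J₀ : ℕ, ∀ J : ℕ, J₀ ≤ J → K * Real.exp (-(δ * J)) ≤ Real.exp (-(δ / 2 * J)) := by
  obtain ⟨J₀, hJ₀⟩ := exists_nat_ge (Real.log K / (δ / 2))
  refine ⟨J₀, fun J hJ => ?_⟩
  have h1 : Real.log K / (δ / 2) ≤ J := hJ₀.trans (by exact_mod_cast hJ)
  rw [div_le_iff₀ (by linarith)] at h1
  have h2 : K ≤ Real.exp (δ / 2 * J) := by
    calc K = Real.exp (Real.log K) := (Real.exp_log hK).symm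
      _ ≤ _ := Real.exp_le_exp.2 (by linarith)
  have h3 : Real.exp (-(δ / 2 * J)) = Real.exp (δ / 2 * J) * Real.exp (-(δ * J)) := by
    rw [← Real.exp_add]
    congr 1
    ring
  rw [h3]
  exact mul_le_mul_of_nonneg_right h2 (Real.exp_pos _).le

/-- The mixed derivative times the difference of the slopes. -/
theorem one_a {h01 h11 k01 k11 a₀ a₁ q z₀ z E T ε ε' : ℝ} (hT : 1 ≤ T) (hε : ε ≤ ε')
    (e01 : k01 = h01 + z₀ * a₁ + z * a₀ + z₀ * z * q) (e11 : k11 = h11 + 2 * (z * a₁) + z ^ 2 * q)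
    (b01 : |h01| ≤ ε') (b11 : |h11| ≤ ε') (c01 : |k01| ≤ ε') (c11 : |k11| ≤ ε')
    (hE : |E| ≤ T) (ha : |a₁| ≤ T) (hq : |q| ≤ T) (hz : |z| ≤ 2 * T)
    (hr : |z₀ + E * z| ≤ 2 * ε) : |z * (a₀ + E * a₁)| ≤ 10 * T ^ 2 * ε' := by
  have hε0 : 0 ≤ ε := by linarith [abs_nonneg (z₀ + E * z)]
  have hε' : 0 ≤ ε' := hε0.trans hε
  have e : z * (a₀ + E * a₁) = (k01 + E * k11) - (h01 + E * h11) -
      (z₀ + E * z) * (a₁ + z * q) := by
    rw [e01, e11]
    ring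
  have hT0 : 0 ≤ T := by linarith
  have g1 : |k01 + E * k11| ≤ (1 + T) * ε' := by
    refine (abs_add_le _ _).trans ?_
    rw [abs_mul]
    have := mul_le_mul hE c11 (abs_nonneg _) hT0
    linarith
  have g2 : |h01 + E * h11| ≤ (1 + T) * ε' := by
    refine (abs_add_le _ _).trans ?_
    rw [abs_mul]
    have := mul_le_mul hE b11 (abs_nonneg _) hT0
    linarith
  have g3 : |(z₀ + E * z) * (a₁ + z * q)| ≤ 2 * ε' * (T + 2 * T * T) := by
    rw [abs_mul]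
    refine mul_le_mul (hr.trans (by linarith)) ?_ (abs_nonneg _) (by linarith)
    refine (abs_add_le _ _).trans ?_
    rw [abs_mul]
    exact add_le_add ha (mul_le_mul hz hq (abs_nonneg _) (by linarith))
  rw [e]
  refine ((abs_sub _ _).trans (add_le_add ((abs_sub _ _).trans (add_le_add g1 g2)) g3)).trans ?_
  have h1 : T ≤ T ^ 2 := by nlinarith
  have h2 : T * ε' ≤ T ^ 2 * ε' := mul_le_mul_of_nonneg_right h1 hε'
  have h3 : ε' ≤ T ^ 2 * ε' := le_mul_of_one_le_left hε' (one_le_pow₀ hT)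
  have e2 : (1 + T) * ε' + (1 + T) * ε' + 2 * ε' * (T + 2 * T * T) =
    2 * ε' + 4 * (T * ε') + 4 * (T ^ 2 * ε') := by ring
  rw [e2]
  linarith

/-- The quantities of a point with two lines. -/
theorem one_end {h11 k11 a₀ a₁ q z z' E E' T ε' : ℝ} (hT : 1 ≤ T) (hε' : 0 ≤ ε')
    (e11 : k11 = h11 + 2 * (z * a₁) + z ^ 2 * q) (b11 : |h11| ≤ ε') (c11 : |k11| ≤ ε')
    (hE : |E| ≤ T) (hz : |z| ≤ 2 * T) (hzz : 1 ≤ T * |z|) (hzz' : 1 ≤ T * |z'|)
    (hEE : 1 ≤ T * |E - E'|) (h1 : |z * (a₀ + E * a₁)| ≤ 10 * T ^ 2 * ε')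
    (h2 : |z' * (a₀ + E' * a₁)| ≤ 10 * T ^ 2 * ε') :
    |a₁| ≤ 20 * T ^ 4 * ε' ∧ |a₀| ≤ 30 * T ^ 5 * ε' ∧ |q| ≤ 82 * T ^ 7 * ε' := by
  have hT0 : 0 ≤ T := by linarith
  have g1 : |a₀ + E * a₁| ≤ 10 * T ^ 3 * ε' := by
    have : |a₀ + E * a₁| ≤ T * |z| * |a₀ + E * a₁| := le_mul_of_one_le_left (abs_nonneg _) hzz
    rw [abs_mul] at h1
    have := mul_le_mul_of_nonneg_left h1 hT0
    nlinarith
  have g2 : |a₀ + E' * a₁| ≤ 10 * T ^ 3 * ε' := by
    have : |a₀ + E' * a₁| ≤ T * |z'| * |a₀ + E' * a₁| :=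
      le_mul_of_one_le_left (abs_nonneg _) hzz'
    rw [abs_mul] at h2
    have := mul_le_mul_of_nonneg_left h2 hT0
    nlinarith
  have g3 : |(E - E') * a₁| ≤ 20 * T ^ 3 * ε' := by
    have e : (E - E') * a₁ = (a₀ + E * a₁) - (a₀ + E' * a₁) := by ring
    rw [e]
    refine (abs_sub _ _).trans ?_
    linarith
  have g4 : |a₁| ≤ 20 * T ^ 4 * ε' := by
    have : |a₁| ≤ T * |E - E'| * |a₁| := le_mul_of_one_le_left (abs_nonneg _) hEE
    rw [abs_mul] at g3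
    have := mul_le_mul_of_nonneg_left g3 hT0
    nlinarith
  have hp : ∀ i j : ℕ, i ≤ j → T ^ i * ε' ≤ T ^ j * ε' := fun i j hij =>
    mul_le_mul_of_nonneg_right (pow_le_pow_right₀ hT hij) hε'
  refine ⟨g4, ?_, ?_⟩
  · have e : a₀ = (a₀ + E * a₁) - E * a₁ := by ring
    rw [e]
    refine (abs_sub _ _).trans ?_
    rw [abs_mul]
    have h3 := mul_le_mul hE g4 (abs_nonneg _) hT0
    have h4 := hp 3 5 (by norm_num)
    have e2 : T * (20 * T ^ 4 * ε') = 20 * (T ^ 5 * ε') := by ring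
    rw [e2] at h3
    linarith
  · have e : z ^ 2 * q = k11 - h11 - 2 * (z * a₁) := by rw [e11]; ring
    have h3 : |z ^ 2 * q| ≤ 82 * T ^ 5 * ε' := by
      rw [e]
      have h4 : |2 * (z * a₁)| ≤ 80 * (T ^ 5 * ε') := by
        rw [abs_mul, abs_mul, abs_two]
        have := mul_le_mul hz g4 (abs_nonneg _) (by linarith)
        have e2 : 2 * T * (20 * T ^ 4 * ε') = 40 * (T ^ 5 * ε') := by ring
        rw [e2] at this
        linarith
      have h5 := hp 0 5 (by norm_num)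
      rw [pow_zero, one_mul] at h5
      refine ((abs_sub _ _).trans (add_le_add ((abs_sub _ _).trans (add_le_add c11 b11))
        h4)).trans ?_
      linarith
    have h6 : 1 ≤ T ^ 2 * |z| ^ 2 := by
      rw [← mul_pow]
      exact one_le_pow₀ hzz
    rw [abs_mul, abs_pow] at h3
    have h7 : |q| ≤ T ^ 2 * |z| ^ 2 * |q| := le_mul_of_one_le_left (abs_nonneg _) h6
    have h8 := mul_le_mul_of_nonneg_left h3 (show 0 ≤ T ^ 2 by positivity)
    nlinarith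

/-- The entries of the form. -/
theorem one_ent {P : MvPolynomial (Option (Fin 2)) ℝ} {M : Fin 1 → Fin 2 → ℝ} {T δ : ℝ}
    (hT : 1 ≤ T) (hM : ∀ l i, |M l i| ≤ T)
    (h0 : ∀ i j, |hs P 0 (lv M i) (lv M j)| ≤ δ)
    (h1 : ∀ i, |hs P 0 (lv M i) (eo (some 1))| ≤ δ)
    (h2 : |hs P 0 (eo (some 1)) (eo (some 1))| ≤ δ) (o o' : Option (Fin 2)) :
    |hs P 0 (eo o) (eo o')| ≤ 4 * T ^ 2 * δ := by
  have hT0 : 0 ≤ T := by linarith
  have hδ : 0 ≤ δ := (abs_nonneg _).trans h2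
  have key : ∀ o : Option (Fin 2), ∃ (s r : ℝ) (i : Fin 2), |s| ≤ T ∧ |r| ≤ T ∧
      eo o = s • lv M i + r • eo (some 1) := by
    intro o
    cases o with
    | none =>
      refine ⟨1, -M 0 0, 0, by rw [abs_one]; exact hT, by rw [abs_neg]; exact hM 0 0, ?_⟩
      funext o'
      simp only [Pi.add_apply, Pi.smul_apply, smul_eq_mul, one_mul]
      cases o' with
      | none =>
        show (if (none : Option (Fin 2)) = none then (1 : ℝ) else 0) = (if (0 : Fin 2) = 0 then 1 else 0) +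
          -M 0 0 * (if (none : Option (Fin 2)) = some 1 then (1 : ℝ) else 0)
        simp
      | some j =>
        fin_cases j
        · show (if (some 0 : Option (Fin 2)) = none then (1 : ℝ) else 0) =
            (if (0 : Fin 2) = 1 then 1 else 0) +
            -M 0 0 * (if (some 0 : Option (Fin 2)) = some 1 then (1 : ℝ) else 0)
          simp
        · show (if (some 1 : Option (Fin 2)) = none then (1 : ℝ) else 0) = M 0 0 +
            -M 0 0 * (if (some 1 : Option (Fin 2)) = some 1 then (1 : ℝ) else 0)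
          simp
    | some j =>
      fin_cases j
      · refine ⟨1, -M 0 1, 1, by rw [abs_one]; exact hT, by rw [abs_neg]; exact hM 0 1, ?_⟩
        funext o'
        simp only [Pi.add_apply, Pi.smul_apply, smul_eq_mul, one_mul]
        cases o' with
        | none =>
          show (if (none : Option (Fin 2)) = some 0 then (1 : ℝ) else 0) =
            (if (1 : Fin 2) = 0 then 1 else 0) +
            -M 0 1 * (if (none : Option (Fin 2)) = some 1 then (1 : ℝ) else 0)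
          simp
        | some j =>
          fin_cases j
          · show (if (some 0 : Option (Fin 2)) = some 0 then (1 : ℝ) else 0) =
              (if (1 : Fin 2) = 1 then 1 else 0) +
              -M 0 1 * (if (some 0 : Option (Fin 2)) = some 1 then (1 : ℝ) else 0)
            simp
          · show (if (some 1 : Option (Fin 2)) = some 0 then (1 : ℝ) else 0) = M 0 1 +
              -M 0 1 * (if (some 1 : Option (Fin 2)) = some 1 then (1 : ℝ) else 0)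
            simp
      · exact ⟨0, 1, 0, by rw [abs_zero]; exact hT0, by rw [abs_one]; exact hT, by
          rw [zero_smul, zero_add, one_smul]
          rfl⟩
  obtain ⟨s, r, i, hs1, hr1, e1⟩ := key o
  obtain ⟨s', r', i', hs2, hr2, e2⟩ := key o'
  rw [e1, e2]
  simp only [hs_add_left, hs_add_right, hs_smul_left, hs_smul_right]
  have cc : ∀ x y w : ℝ, |x| ≤ T → |y| ≤ T → |w| ≤ δ → |x * (y * w)| ≤ T ^ 2 * δ := by
    intro x y w hx hy hw
    rw [abs_mul, abs_mul, pow_two, mul_assoc]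
    exact mul_le_mul hx (mul_le_mul hy hw (abs_nonneg _) hT0) (by positivity) hT0
  have g1 := cc s s' _ hs1 hs2 (h0 i i')
  have g2 := cc s r' _ hs1 hr2 (h1 i)
  have g3 := cc r s' (hs P 0 (eo (some 1)) (lv M i')) hr1 hs2 (by rw [hs_comm]; exact h1 i')
  have g4 := cc r r' _ hr1 hr2 h2
  have e3 : s' * (s * hs P 0 (lv M i) (lv M i') + r * hs P 0 (eo (some 1)) (lv M i')) +
      r' * (s * hs P 0 (lv M i) (eo (some 1)) + r * hs P 0 (eo (some 1)) (eo (some 1))) =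
      s * (s' * hs P 0 (lv M i) (lv M i')) + s * (r' * hs P 0 (lv M i) (eo (some 1))) +
      (r * (s' * hs P 0 (eo (some 1)) (lv M i')) +
        r * (r' * hs P 0 (eo (some 1)) (eo (some 1)))) := by ring
  rw [e3]
  refine (abs_add_le _ _).trans ((add_le_add ((abs_add_le _ _).trans (add_le_add g1 g2))
    ((abs_add_le _ _).trans (add_le_add g3 g4))).trans (le_of_eq ?_))
  ring

theorem fr_sub {F : Fam m J} {c : ℕ → Fin m} {n a k e : ℕ} {g : ℕ → ℕ} {A B : F.Ω → Prop}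
    {ψ : PtT F → ℕ → Option (Fin m) → ℝ} {ψH : LnT F → ℕ → Option (Fin m) → ℝ}
    (h : FrOK F c n a k e g A ψ ψH) (hB : Sub B A) : FrOK F c n a k e g B ψ ψH :=
  ⟨fun ω hω => h.cls ω (hB ω hω), h.dep, h.depH, fun ω hω => h.nat ω (hB ω hω),
    fun ω hω => h.lip ω (hB ω hω)⟩

/-- The lifted directions of the other sample. -/
theorem lv_one (M M' : Fin 1 → Fin 2 → ℝ) (i : Fin 2) :
    lv M' i = lv M i + (M' 0 i - M 0 i) • eo (some 1) := by
  funext o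
  simp only [Pi.add_apply, Pi.smul_apply, smul_eq_mul]
  cases o with
  | none =>
    show (if i = 0 then (1 : ℝ) else 0) = (if i = 0 then (1 : ℝ) else 0) + (M' 0 i - M 0 i) *
      (if (none : Option (Fin 2)) = some 1 then (1 : ℝ) else 0)
    simp
  | some j =>
    fin_cases j
    · show (if i = 1 then (1 : ℝ) else 0) = (if i = 1 then (1 : ℝ) else 0) + (M' 0 i - M 0 i) *
        (if (some 0 : Option (Fin 2)) = some 1 then (1 : ℝ) else 0)
      simp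
    · show M' 0 i = M 0 i + (M' 0 i - M 0 i) *
        (if (some 1 : Option (Fin 2)) = some 1 then (1 : ℝ) else 0)
      simp

/-- The own slopes at two samples of a line. -/
theorem HPol.dif {n : ℕ} {F : Fam m J} {c : ℕ → Fin m} {g : ℕ → ℕ} {a D : ℕ}
    {ψ : PtT F → ℕ → Option (Fin m) → ℝ} {B : F.Ω → Prop}
    {PG : PtT F → MvPolynomial (Option (Fin (n + 1))) ℝ}
    {PH : LnT F → MvPolynomial (Option (Fin (n + 1))) ℝ} {M : PtT F → Fin n → Fin 2 → ℝ}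
    {A K ε : ℝ} (h : HPol F c g a n D ψ B PG PH M A K ε) {ω ω' : F.Ω} (hω : B ω) (hω' : B ω')
    (hX : Xn F c g a ψ ω' = Xn F c g a ψ ω) (l : Fin n) :
    |(M (ptr F J ω') l 0 - M (ptr F J ω) l 0) +
      Xn F c g a ψ ω 1 * (M (ptr F J ω') l 1 - M (ptr F J ω) l 1)| ≤ 2 * ε := by
  have h1 := h.slp ω hω l
  have h2 := h.slp ω' hω' l
  rw [hX] at h2
  have e : (M (ptr F J ω') l 0 - M (ptr F J ω) l 0) +
      Xn F c g a ψ ω 1 * (M (ptr F J ω') l 1 - M (ptr F J ω) l 1) =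
      (Xn F c g a ψ ω (l + 2) - (M (ptr F J ω) l 0 + M (ptr F J ω) l 1 * Xn F c g a ψ ω 1)) -
      (Xn F c g a ψ ω (l + 2) - (M (ptr F J ω') l 0 + M (ptr F J ω') l 1 * Xn F c g a ψ ω 1)) := by
    ring
  rw [e]
  refine (abs_sub _ _).trans ?_
  linarith

theorem num_one {C₁ ε : ℝ} {c₁ N x k s s₀ : ℕ} (hC : C₁ ≤ 2 ^ c₁) (hk : k ≤ x) (hε : 0 ≤ ε)
    (hb : ε * 2 ^ ((200 + c₁ + 9 * N) * (x + s + s₀ + 1)) ≤ 1) :
    2 * (2 ^ x) ^ 2 * ε ≤ 1 ∧ (2 ^ k * (1 / 2 ^ (3 * k + s + 12)) + 2 * ε) *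
      2 ^ (2 * (1 + 1) + 2 * k + 6 + s) ≤ 1 ∧
    4 * (2 ^ (5 * x + s + 12)) ^ 2 * (82 * (2 ^ (5 * x + s + 12)) ^ 7 *
      (C₁ * (2 ^ x / (1 / 2 ^ (s + 2 * k + 9))) ^ N * (2 ^ x * ε))) < 1 / 2 ^ s₀ := by
  have hp : ∀ i : ℕ, i ≤ (200 + c₁ + 9 * N) * (x + s + s₀ + 1) → ε * 2 ^ i ≤ 1 := fun i hi =>
    (mul_le_mul_of_nonneg_left (pow_le_pow_right₀ (by norm_num) hi) hε).trans hb
  have e0 : (200 + c₁ + 9 * N) * (x + s + s₀ + 1) = 200 * x + 200 * s + 200 * s₀ + 200 +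
      c₁ * (x + s + s₀ + 1) + 9 * N * (x + s + s₀ + 1) := by ring
  have hc : c₁ ≤ c₁ * (x + s + s₀ + 1) := Nat.le_mul_of_pos_right _ (by omega)
  have hN : (3 * x + s + 9) * N ≤ 9 * N * (x + s + s₀ + 1) := by
    calc (3 * x + s + 9) * N ≤ (9 * (x + s + s₀ + 1)) * N := Nat.mul_le_mul_right _ (by omega)
      _ = _ := by ring
  refine ⟨?_, ?_, ?_⟩
  · have h1 := hp (2 * x + 1) (by omega)
    calc 2 * (2 ^ x) ^ 2 * ε = ε * 2 ^ (2 * x + 1) := by rw [pow_succ, ← pow_mul]; ring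
      _ ≤ 1 := h1
  · have h1 := hp (2 * k + s + 13) (by omega)
    have e1 : (2 : ℝ) ^ k * (1 / 2 ^ (3 * k + s + 12)) * 2 ^ (2 * (1 + 1) + 2 * k + 6 + s) =
        1 / 4 := by
      rw [show 3 * k + s + 12 = k + (2 * (1 + 1) + 2 * k + 6 + s) + 2 by ring, pow_add, pow_add]
      field_simp
      norm_num
    have e2 : 2 * ε * (2 : ℝ) ^ (2 * (1 + 1) + 2 * k + 6 + s) = ε * 2 ^ (2 * k + s + 13) / 4 := by
      rw [show 2 * k + s + 13 = (2 * (1 + 1) + 2 * k + 6 + s) + 3 by ring, pow_add]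
      ring
    rw [add_mul, e1, e2]
    linarith
  · obtain ⟨T, hT⟩ : ∃ T : ℝ, T = 2 ^ (5 * x + s + 12) := ⟨_, rfl⟩
    have h1 := hp (9 + 9 * (5 * x + s + 12) + c₁ + (3 * x + s + 9) * N + x + s₀) (by omega)
    have e1 : (2 : ℝ) ^ x / (1 / 2 ^ (s + 2 * k + 9)) ≤ 2 ^ (3 * x + s + 9) := by
      rw [one_div, div_inv_eq_mul, ← pow_add]
      exact pow_le_pow_right₀ (by norm_num) (by omega)
    have e2 : ((2 : ℝ) ^ x / (1 / 2 ^ (s + 2 * k + 9))) ^ N ≤ 2 ^ ((3 * x + s + 9) * N) := by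
      rw [pow_mul]
      exact pow_le_pow_left₀ (by positivity) e1 N
    have e3 : C₁ * ((2 : ℝ) ^ x / (1 / 2 ^ (s + 2 * k + 9))) ^ N ≤
        2 ^ c₁ * 2 ^ ((3 * x + s + 9) * N) :=
      mul_le_mul hC e2 (by positivity) (by positivity)
    have e4 : 4 * T ^ 2 * (82 * T ^ 7 *
        (C₁ * (2 ^ x / (1 / 2 ^ (s + 2 * k + 9))) ^ N * (2 ^ x * ε))) ≤
        328 * T ^ 9 * (2 ^ c₁ * 2 ^ ((3 * x + s + 9) * N) * (2 ^ x * ε)) := by
      have h2 := mul_le_mul_of_nonneg_right e3 (show 0 ≤ 2 ^ x * ε by positivity)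
      have h3 := mul_le_mul_of_nonneg_left h2 (show 0 ≤ 328 * T ^ 9 by rw [hT]; positivity)
      refine le_trans (le_of_eq ?_) h3
      ring
    rw [← hT]
    refine e4.trans_lt ?_
    rw [lt_div_iff₀ (by positivity)]
    have e5 : 328 * T ^ 9 * (2 ^ c₁ * 2 ^ ((3 * x + s + 9) * N) * (2 ^ x * ε)) * 2 ^ s₀ =
        328 / 512 * (ε * 2 ^ (9 + 9 * (5 * x + s + 12) + c₁ + (3 * x + s + 9) * N + x + s₀)) := by
      rw [hT, ← pow_mul, pow_add, pow_add, pow_add, pow_add, pow_add,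
        show (5 * x + s + 12) * 9 = 9 * (5 * x + s + 12) by ring]
      norm_num
      ring
    rw [e5]
    linarith

/-- **(F5), one coordinate of `V1`.** -/
theorem f5_one (D : ℕ) (hD1 : 1 ≤ D) : ∃ C : ℕ, ∀ {m : ℕ} {θ : ℝ} {S : PCl m}
    {P : List (Fin m) × Fin m → ℝ → ℝ → ℝ}, ThrOf (chsys m θ) S P → ∀ (c : ℕ → Fin m),
    Set.InjOn c (Set.Iio 2) → ∀ (a : ℚ) (e h : ℝ), 0 ≤ a → a ≤ 1 → e < θ * a → 0 < h →
    bet P c 0 a a + h ≤ 1 → bet P c 1 a a + h ≤ 1 →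
    ∃ δ : ℝ, 0 < δ ∧ Bas S (fun J F A => ∀ (n a₀ e₀ k x s s₀ V p₀ p₁ : ℕ) (g : ℕ → ℕ)
      (ψ : PtT F → ℕ → Option (Fin m) → ℝ) (ψH : LnT F → ℕ → Option (Fin m) → ℝ)
      (PG : PtT F → MvPolynomial (Option (Fin 2)) ℝ)
      (PH : LnT F → MvPolynomial (Option (Fin 2)) ℝ) (M : PtT F → Fin 1 → Fin 2 → ℝ) (ε : ℝ),
      2 ≤ n → a₀ ≤ J → a₀ ≤ ⌊(a : ℝ) * J⌋₊ → k ≤ x → e₀ + x + 3 * k + s + 8 ≤ ⌊e * J⌋₊ →
      s + x + 2 * k + 12 ≤ V → (∀ j ≤ 1, e₀ + g j + V ≤ J) → k + 1 ≤ g 0 →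
      p₀ ≤ g 0 + s → p₀ ≤ J → ⌊(bet P c 0 a a + h) * J⌋₊ + a₀ ≤ p₀ + ⌊(a : ℝ) * J⌋₊ →
      p₁ ≤ g 1 + s → p₁ ≤ J → ⌊(bet P c 1 a a + h) * J⌋₊ + a₀ ≤ p₁ + ⌊(a : ℝ) * J⌋₊ → 0 ≤ ε →
      ε * 2 ^ (C * (x + s + s₀ + 1)) ≤ 1 → ∀ B : F.Ω → Prop, Sub B A →
      FrOK F c n a₀ k e₀ g B ψ ψH → HPol F c g a₀ 1 D ψ B PG PH M (2 ^ x) (2 ^ x) ε →
      (∀ ω, B ω → ∃ o o' : Option (Fin 2),
        1 / 2 ^ s₀ ≤ |hs (PG (ptr F J ω)) 0 (eo o) (eo o')|) →
      Pe F.p B ≤ Real.exp (-(δ * J)) * Pe F.p A) := by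
  classical
  obtain ⟨C₁, hC₁, N, hpair⟩ := pl_pair D hD1
  obtain ⟨c₁, hc₁⟩ := pow_unbounded_of_one_lt C₁ (one_lt_two (α := ℝ))
  refine ⟨200 + c₁ + 9 * N, ?_⟩
  intro m θ S P hP c hc a e h ha0 ha he hh hb0 hb1
  obtain ⟨δ₁, hδ₁, b1⟩ := sep_cls hP c (D + 1) a e h ha0 ha he hh hb0
  obtain ⟨δ₂, hδ₂, b2⟩ := sep_cls hP c 1 a e h ha0 ha he hh hb0
  obtain ⟨δ₃, hδ₃, b3⟩ := cl_ev hP c 1 hc a e h ha0 ha he hh hb1
  obtain ⟨δ, hδ⟩ : ∃ δ, δ = min δ₁ (min δ₂ δ₃) := ⟨_, rfl⟩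
  have hδ0 : 0 < δ := by rw [hδ]; exact lt_min hδ₁ (lt_min hδ₂ hδ₃)
  have d1 : δ ≤ δ₁ := by rw [hδ]; exact min_le_left _ _
  have d2 : δ ≤ δ₂ := by rw [hδ]; exact (min_le_right _ _).trans (min_le_left _ _)
  have d3 : δ ≤ δ₃ := by rw [hδ]; exact (min_le_right _ _).trans (min_le_right _ _)
  obtain ⟨J₀, hJ₀⟩ := exp_half hδ0 (K := 4) (by norm_num)
  refine ⟨δ / 2, by linarith, (b1.and (b2.and b3)).mono J₀ ?_⟩
  rintro J hJ F A ⟨l1, l2, l3⟩ n a₀ e₀ k x s s₀ V p₀ p₁ g ψ ψH PG PH M ε hn haJ haa hkx hee hV hJg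
    hgk hp0 hp0J hq0 hp1 hp1J hq1 hε hnum B hBA hfr hH hrel
  have hPA := Pe_nonneg F.isLaw A
  have hex : ∀ d : ℝ, δ ≤ d → Real.exp (-(d * J)) * Pe F.p A ≤ Real.exp (-(δ * J)) * Pe F.p A := by
    intro d hd
    refine mul_le_mul_of_nonneg_right (Real.exp_le_exp.2 ?_) hPA
    have : (0 : ℝ) ≤ J := Nat.cast_nonneg J
    nlinarith
  -- it is enough
  suffices hmain : Pe F.p B ≤ 4 * (Real.exp (-(δ * J)) * Pe F.p A) by
    refine hmain.trans ?_
    rw [← mul_assoc]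
    exact mul_le_mul_of_nonneg_right (hJ₀ J hJ) hPA
  have hE0 : 0 ≤ Real.exp (-(δ * J)) * Pe F.p A := mul_nonneg (Real.exp_pos _).le hPA
  by_cases hB : Real.exp (-(δ₁ * J)) * Pe F.p A ≤ Pe F.p B
  swap
  · push Not at hB
    linarith [hex δ₁ d1]
  obtain ⟨n1, n2, n3⟩ := num_one hc₁.le hkx hε hnum
  obtain ⟨mu, hmu⟩ : ∃ mu : ℝ, mu = 1 / 2 ^ (s + 2 * k + 9) := ⟨_, rfl⟩
  have hmu0 : 0 < mu := by rw [hmu]; positivity
  have hmu1 : mu ≤ 1 := by
    rw [hmu, div_le_one (by positivity)]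
    exact one_le_pow₀ (by norm_num)
  obtain ⟨μz, hμz⟩ : ∃ μz : ℝ, μz = 1 / 2 ^ (3 * k + s + 12) := ⟨_, rfl⟩
  have hμz0 : 0 < μz := by rw [hμz]; positivity
  obtain ⟨T, hT⟩ : ∃ T : ℝ, T = 2 ^ (5 * x + s + 12) := ⟨_, rfl⟩
  have hT1 : 1 ≤ T := by rw [hT]; exact one_le_pow₀ (by norm_num)
  obtain ⟨ε', hε'⟩ : ∃ ε' : ℝ, ε' = C₁ * (2 ^ x / mu) ^ N * (2 ^ x * ε) := ⟨_, rfl⟩
  rw [← hmu, ← hε', ← hT] at n3
  rw [← hμz] at n2
  have hx1 : (1 : ℝ) ≤ 2 ^ x := one_le_pow₀ (by norm_num)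
  have hεε : ε ≤ ε' := by
    rw [hε']
    have h1 : 1 ≤ (2 ^ x / mu) ^ N := one_le_pow₀ (by
      rw [le_div_iff₀ hmu0]
      linarith)
    calc ε = 1 * 1 * (1 * ε) := by ring
      _ ≤ C₁ * (2 ^ x / mu) ^ N * (2 ^ x * ε) := by
        refine mul_le_mul (mul_le_mul hC₁ h1 zero_le_one (by linarith))
          (mul_le_mul_of_nonneg_right hx1 hε) (by linarith) (by positivity)
  have hε'0 : 0 ≤ ε' := hε.trans hεε
  have hAT : (2 : ℝ) ^ x ≤ T := by
    rw [hT]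
    exact pow_le_pow_right₀ (by norm_num) (by omega)
  -- the rich points
  obtain ⟨B₁, k1, k2, k3⟩ := l1 n a₀ e₀ k s V p₀ g ψ ψH (by omega) haJ haa (by omega) (by omega)
    (hJg 0 (by omega)) hp0 hp0J hq0 B hBA hfr hB
  have hLn : ∀ ω, B₁ ω → Lns F c g a₀ D ψ B mu ω := by
    intro ω hω
    obtain ⟨ν, v1, -, v3⟩ := k3 ω hω
    exact ⟨ν, v1, fun i j hij => by rw [hmu]; exact v3 i j hij⟩
  -- the pairs
  have hpr : ∀ ω ω', B₁ ω → B₁ ω' → slam F a₀ ω = slam F a₀ ω' → ∀ i j : Fin 2,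
      |hs (PG (ptr F J ω')) 0 (lv (M (ptr F J ω)) i) (lv (M (ptr F J ω)) j)| ≤ ε' := by
    intro ω ω' hω hω' hsl i j
    rw [hε']
    exact hpair hH hx1 hx1 hε n1 hmu0 hmu1 ω ω' (k1 ω hω) (k1 ω' hω') hsl
      (Xn_eq hfr (k1 ω hω) (k1 ω' hω') hsl) (hLn ω hω) i j
  -- the samples without another slope
  obtain ⟨B₂, hB₂⟩ : ∃ B₂ : F.Ω → Prop, B₂ = fun ω => B₁ ω ∧ ∀ ω', B₁ ω' →
      slam F a₀ ω = slam F a₀ ω' → |M (ptr F J ω') 0 1 - M (ptr F J ω) 0 1| < μz := ⟨_, rfl⟩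
  have hB₂B : Sub B₂ B := fun ω hω => by
    rw [hB₂] at hω
    exact k1 ω hω.1
  have s2 : Pe F.p B₂ ≤ Real.exp (-(δ * J)) * Pe F.p A := by
    refine le_trans ?_ (hex δ₃ d3)
    refine l3 n a₀ e₀ x k s V p₁ g ψ ψH (muv (fun y => M y 0)) (fun _ _ _ => 0) (by omega) haJ haa
      (by omega) (by omega) hJg (fun l hl => ?_) hp1 hp1J hq1 B₂ (fun ω hω => hBA ω (hB₂B ω hω))
      (fr_sub hfr hB₂B) (fun ω hω j hj => ?_) (fun ω _ j _ l _ => ?_) (fun ω ω' hω hω' hsl => ?_)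
    · have : l = 0 := by omega
      rw [this]
      exact hgk
    · have h1 := hH.bM ω (hB₂B ω hω) 0
      interval_cases j
      · exact h1 0
      · exact h1 1
    · rw [abs_zero]
      positivity
    · have hω0 := hB₂B ω hω
      have hω0' := hB₂B ω' hω'
      rw [hB₂] at hω hω'
      have hz := hω.2 ω' hω'.1 hsl
      have hX := Xn_eq hfr hω0 hω0' hsl
      have hdf := hH.dif hω0 hω0' hX 0
      obtain ⟨z, hz'⟩ : ∃ z, z = M (ptr F J ω') 0 1 - M (ptr F J ω) 0 1 := ⟨_, rfl⟩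
      rw [← hz'] at hz hdf
      have hX1 := Xn_le hfr hω0 (j := 1) (by omega)
      have hXz : |Xn F c g a₀ ψ ω 1 * z| ≤ 2 ^ k * μz := by
        rw [abs_mul]
        exact mul_le_mul hX1 hz.le (abs_nonneg _) (by positivity)
      have hk1 : (1 : ℝ) ≤ 2 ^ k := one_le_pow₀ (by norm_num)
      have hE1 : 0 ≤ 2 ^ k * μz + 2 * ε := by positivity
      refine cl_of (ε := 2 ^ k * μz + 2 * ε) hE1 (tu_le haJ hsl) (fun j hj => Xn_le hfr hω0
        (by omega)) (fun _ _ _ _ => rfl) (fun j hj => ?_) ?_ (fun j _ l _ => ?_) ?_ n2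
      · simp only [zero_mul, Finset.sum_const_zero, mul_zero, sub_zero]
        interval_cases j
        · show |M (ptr F J ω') 0 0 - M (ptr F J ω) 0 0| ≤ _
          have e1 : M (ptr F J ω') 0 0 - M (ptr F J ω) 0 0 =
              (M (ptr F J ω') 0 0 - M (ptr F J ω) 0 0 + Xn F c g a₀ ψ ω 1 * z) -
                Xn F c g a₀ ψ ω 1 * z := by ring
          rw [e1]
          refine (abs_sub _ _).trans ?_
          linarith
        · show |M (ptr F J ω') 0 1 - M (ptr F J ω) 0 1| ≤ _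
          rw [← hz']
          have : μz ≤ 2 ^ k * μz := le_mul_of_one_le_left hμz0.le hk1
          linarith
      · have h1 := hH.slp ω' hω0' 0
        rw [hX] at h1
        rw [ln_one, Xn_zero]
        show |Xn F c g a₀ ψ ω 2 - (M (ptr F J ω') 0 0 * 1 +
          M (ptr F J ω') 0 1 * Xn F c g a₀ ψ ω 1)| ≤ _
        rw [mul_one]
        refine h1.trans ?_
        have : 0 ≤ 2 ^ k * μz := by positivity
        linarith
      · rw [sub_zero, abs_zero]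
        exact hE1
      · unfold bl
        simpa using hE1
  -- the samples with another slope
  obtain ⟨B₃, hB₃⟩ : ∃ B₃ : F.Ω → Prop, B₃ = fun ω => B₁ ω ∧ ∃ ω', B₁ ω' ∧
      slam F a₀ ω = slam F a₀ ω' ∧ μz ≤ |M (ptr F J ω') 0 1 - M (ptr F J ω) 0 1| := ⟨_, rfl⟩
  have hB₃B : Sub B₃ B := fun ω hω => by
    rw [hB₃] at hω
    exact k1 ω hω.1
  have s3 : Pe F.p B₃ ≤ Real.exp (-(δ * J)) * Pe F.p A := by
    by_contra hcon
    push Not at hcon
    obtain ⟨B₄, q1, q2, q3⟩ := l2 n a₀ e₀ k s V p₀ g ψ ψH (by omega) haJ haa (by omega) (by omega)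
      (hJg 0 (by omega)) hp0 hp0J hq0 B₃ (fun ω hω => hBA ω (hB₃B ω hω)) (fr_sub hfr hB₃B)
      ((hex δ₂ d2).trans hcon.le)
    have hpos : 0 < Pe F.p B₃ := hE0.trans_lt hcon
    have hne : ∃ ω, B₄ ω := by
      by_contra hno
      push Not at hno
      have : Pe F.p B₄ = 0 := by
        rw [Pool.JVE.pe_sum]
        exact Finset.sum_eq_zero fun ω _ => if_neg (hno ω)
      rw [this, mul_zero] at q2
      linarith
    obtain ⟨ω, hω⟩ := hne
    obtain ⟨ν, v1, v2, -⟩ := q3 ω hω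
    obtain ⟨v3, v4⟩ := v1 0
    have v5 := v2 0
    rw [← hmu] at v5
    have w := q1 ω hω
    rw [hB₃] at w v3
    obtain ⟨w1, ω', w2, w3, w4⟩ := w
    obtain ⟨u1, ν', u2, u3, u4⟩ := v3
    obtain ⟨Q, hQ⟩ : ∃ Q, Q = PG (ptr F J ω) := ⟨_, rfl⟩
    obtain ⟨M₀, hM₀⟩ : ∃ M₀, M₀ = M (ptr F J ω) := ⟨_, rfl⟩
    have hQb : Bx Q (8 * (2 ^ x) ^ 2) (2 ^ x) := by rw [hQ]; exact hH.bx ω (k1 ω w1)
    have hMb : ∀ l i, |M₀ l i| ≤ T := fun l i => by
      rw [hM₀]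
      exact (hH.bM ω (k1 ω w1) l i).trans hAT
    have hMx : ∀ l i, |M₀ l i| ≤ 2 ^ x := fun l i => by
      rw [hM₀]
      exact hH.bM ω (k1 ω w1) l i
    -- the own form
    have g0 : ∀ i j : Fin 2, |hs Q 0 (lv M₀ i) (lv M₀ j)| ≤ ε' := fun i j => by
      rw [hQ, hM₀]
      exact hpr ω ω w1 w1 rfl i j
    have ga : ∀ i, |hs Q 0 (lv M₀ i) (eo (some 1))| ≤ T := by
      intro i
      refine (hQb.le (A := 2 ^ x) (A' := 1) (by positivity) zero_le_one (fun o => by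
        simp) (fun o => lv_le hx1 hMx i o) (fun o => eo_le _ _)).trans ?_
      rw [hT, mul_one, ← pow_add]
      exact pow_le_pow_right₀ (by norm_num) (by omega)
    have gq : |hs Q 0 (eo (some 1)) (eo (some 1))| ≤ T :=
      (hQb 0 _ _ (fun o => by simp) (eo_le _) (eo_le _)).trans hAT
    -- one line
    have line : ∀ ν ν' : F.Ω, B₁ ν → B₁ ν' → ptr F J ν = ptr F J ω →
        slam F a₀ ν = slam F a₀ ν' → ∃ z z₀ k11 : ℝ,
        z = M (ptr F J ν') 0 1 - M₀ 0 1 ∧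
        k11 = hs Q 0 (lv M₀ 1) (lv M₀ 1) + 2 * (z * hs Q 0 (lv M₀ 1) (eo (some 1))) +
          z ^ 2 * hs Q 0 (eo (some 1)) (eo (some 1)) ∧ |k11| ≤ ε' ∧ |z| ≤ 2 * T ∧
        |z * (hs Q 0 (lv M₀ 0) (eo (some 1)) +
          Xn F c g a₀ ψ ν 1 * hs Q 0 (lv M₀ 1) (eo (some 1)))| ≤ 10 * T ^ 2 * ε' := by
      intro ν ν' hν hν' hpt hsl
      have hX := Xn_eq hfr (k1 ν hν) (k1 ν' hν') hsl
      have hdf := hH.dif (k1 ν hν) (k1 ν' hν') hX 0
      rw [hpt, ← hM₀] at hdf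
      obtain ⟨z, hz⟩ : ∃ z, z = M (ptr F J ν') 0 1 - M₀ 0 1 := ⟨_, rfl⟩
      obtain ⟨z₀, hz₀⟩ : ∃ z₀, z₀ = M (ptr F J ν') 0 0 - M₀ 0 0 := ⟨_, rfl⟩
      rw [← hz, ← hz₀] at hdf
      have c0 : ∀ i j : Fin 2, |hs Q 0 (lv (M (ptr F J ν')) i) (lv (M (ptr F J ν')) j)| ≤ ε' := by
        intro i j
        have h1 := hpr ν' ν hν' hν hsl.symm i j
        rw [hpt, ← hQ] at h1
        exact h1
      have e0 := lv_one M₀ (M (ptr F J ν')) 0
      have e1 := lv_one M₀ (M (ptr F J ν')) 1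
      rw [← hz₀] at e0
      rw [← hz] at e1
      have c01 := c0 0 1
      have c11 := c0 1 1
      rw [e0, e1] at c01
      rw [e1] at c11
      have hcm : ∀ i : Fin 2, hs Q 0 (eo (some 1)) (lv M₀ i) =
        hs Q 0 (lv M₀ i) (eo (some 1)) := fun i => hs_comm _ _ _ _
      simp only [hs_add_left, hs_add_right, hs_smul_left, hs_smul_right, hcm] at c01 c11
      have hz2 : |z| ≤ 2 * T := by
        rw [hz]
        refine (abs_sub _ _).trans ?_
        have h1 := (hH.bM ν' (k1 ν' hν') 0 1).trans hAT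
        linarith [hMb 0 1]
      refine ⟨z, z₀, _, hz, rfl, ?_, hz2, ?_⟩
      · refine le_trans (le_of_eq ?_) c11
        congr 1
        ring
      · refine one_a (k01 := _) (k11 := _) hT1 hεε rfl rfl (g0 0 1) (g0 1 1) ?_ ?_ ?_ (ga 1) gq hz2
          hdf
        · refine le_trans (le_of_eq ?_) c01
          congr 1
          ring
        · refine le_trans (le_of_eq ?_) c11
          congr 1
          ring
        · have h1 := Xn_le hfr (k1 ν hν) (j := 1) (by omega)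
          refine h1.trans (le_trans ?_ hAT)
          exact pow_le_pow_right₀ (by norm_num) hkx
    obtain ⟨z, z₀, k11, y1, y2, y3, y4, y5⟩ := line ω ω' w1 w2 rfl w3
    obtain ⟨z', z₀', k11', y1', y2', y3', y4', y5'⟩ := line (ν 0) ν' u1 u2 v4 u3
    have hTz : 1 ≤ T * μz := by
      rw [hT, hμz, mul_one_div, le_div_iff₀ (by positivity), one_mul]
      exact pow_le_pow_right₀ (by norm_num) (by omega)
    have hTm : 1 ≤ T * mu := by
      rw [hT, hmu, mul_one_div, le_div_iff₀ (by positivity), one_mul]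
      exact pow_le_pow_right₀ (by norm_num) (by omega)
    have hT0 : 0 ≤ T := by linarith
    rw [← hM₀, ← y1] at w4
    rw [v4, ← hM₀, ← y1'] at u4
    obtain ⟨r1, r2, r3⟩ := one_end hT1 hε'0 y2 (g0 1 1) y3 ((Xn_le hfr (k1 ω w1) (j := 1)
      (by omega)).trans ((pow_le_pow_right₀ (by norm_num) hkx).trans hAT)) y4
      (hTz.trans (mul_le_mul_of_nonneg_left w4 hT0)) (hTz.trans (mul_le_mul_of_nonneg_left u4 hT0))
      (hTm.trans (mul_le_mul_of_nonneg_left v5 hT0)) y5 y5'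
    obtain ⟨o, o', hoo⟩ := hrel ω (k1 ω w1)
    rw [← hQ] at hoo
    have hp : ∀ i : ℕ, i ≤ 7 → T ^ i * ε' ≤ T ^ 7 * ε' := fun i hi =>
      mul_le_mul_of_nonneg_right (pow_le_pow_right₀ hT1 hi) hε'0
    have h70 : 0 ≤ T ^ 7 * ε' := mul_nonneg (pow_nonneg hT0 7) hε'0
    have hent := one_ent hT1 hMb (δ := 82 * T ^ 7 * ε') (fun i j => (g0 i j).trans (by
        have := hp 0 (by norm_num)
        rw [pow_zero, one_mul] at this
        linarith)) (fun i => by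
        fin_cases i
        · refine r2.trans ?_
          have := hp 5 (by norm_num)
          linarith
        · refine r1.trans ?_
          have := hp 4 (by norm_num)
          linarith) r3 o o'
    exact absurd (hoo.trans hent) (not_le.2 n3)
  have hcov : Pe F.p B₁ ≤ Pe F.p B₂ + Pe F.p B₃ := by
    refine pe_or F.isLaw.nonneg fun ω _ hω => ?_
    by_cases hc : ∃ ω', B₁ ω' ∧ slam F a₀ ω = slam F a₀ ω' ∧
        μz ≤ |M (ptr F J ω') 0 1 - M (ptr F J ω) 0 1|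
    · right
      rw [hB₃]
      exact ⟨hω, hc⟩
    · left
      rw [hB₂]
      refine ⟨hω, fun ω' hω' hsl => ?_⟩
      by_contra hcon
      push Not at hcon
      exact hc ⟨ω', hω', hsl, hcon⟩
  linarith

end Pool.F5
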