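import Pool.Agent.H64.F5.Pln
import Pool.Agent.H64.F5.End

/-!
# (F5): natural polynomials of the ball chart

`n`: the number of the coordinates of `V1`; natural coordinates are indexed by `Option (Fin (n + 1))`
(time, `y`, the coordinates of `V1`). `PG`: the visible chart of the target, centred at the exact
point, `PH`: the closed one, centred at the point of relative time `0` of the line; normalised and in
natural coordinates. `HPol`: the data. `pl_pair`: the second derivative is small on the planes of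
both samples. `pl_dv`: the mixed derivative in a fixed direction.
-/

set_option autoImplicit false

namespace Pool.F5

open Finset Real MvPolynomial
open Pool.Agent.H49.Ent Pool.Agent.H32.Dense Pool.STK Pool.KA Pool.KSAT Pool.K2S Pool.PB Pool.S6C
open Pool.GEN Pool.CHT Pool.CHX
open Pool.D2F
open Pool.PB.Trl (rt rt_mem t_rt)
open Pool.D2R (dd hs dd_add dd_smul dd_sub hs_sub hs_add_left hs_add_right hs_smul_left hs_smul_right
  hs_comm)

variable {m J n : ℕ}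

/-- The index of a natural coordinate. -/
def ix {n : ℕ} : Option (Fin n) → ℕ
  | none => 0
  | some j => j + 1

/-- The natural velocity. -/
noncomputable def Xo (n : ℕ) (F : Fam m J) (c : ℕ → Fin m) (g : ℕ → ℕ) (a : ℕ)
    (ψ : PtT F → ℕ → Option (Fin m) → ℝ) (ω : F.Ω) : Option (Fin (n + 1)) → ℝ :=
  fun o => Xn F c g a ψ ω (ix o)

/-- The lifted directions of the plane. -/
def lv (M : Fin n → Fin 2 → ℝ) (i : Fin 2) : Option (Fin (n + 1)) → ℝ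
  | none => if i = 0 then 1 else 0
  | some j => Fin.cases (if i = 1 then 1 else 0) (fun l => M l i) j

/-- **The data.** -/
structure HPol (F : Fam m J) (c : ℕ → Fin m) (g : ℕ → ℕ) (a n D : ℕ)
    (ψ : PtT F → ℕ → Option (Fin m) → ℝ) (B : F.Ω → Prop)
    (PG : PtT F → MvPolynomial (Option (Fin (n + 1))) ℝ)
    (PH : LnT F → MvPolynomial (Option (Fin (n + 1))) ℝ) (M : PtT F → Fin n → Fin 2 → ℝ)
    (A K ε : ℝ) : Prop where
  dG : ∀ y, (PG y).totalDegree ≤ D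
  dH : ∀ s, (PH s).totalDegree ≤ D
  bx : ∀ ω, B ω → Bx (PG (ptr F J ω)) (8 * A ^ 2) K
  agr : ∀ ω, B ω → ∀ η V V' : Option (Fin (n + 1)) → ℝ, (∀ o, |η o| ≤ A) → (∀ o, |V o| ≤ 1) →
    (∀ o, |V' o| ≤ 1) → |hs (PG (ptr F J ω)) η V V' -
      hs (PH (slam F a ω)) (fun o => rt F a ω * Xo n F c g a ψ ω o + η o) V V'| ≤ ε
  own : ∀ ω, B ω → ∀ τ ∈ Set.Icc (0 : ℝ) 1, |hs (PH (slam F a ω))
    (fun o => τ * Xo n F c g a ψ ω o) (Xo n F c g a ψ ω) (Xo n F c g a ψ ω)| ≤ ε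
  slp : ∀ ω, B ω → ∀ l : Fin n, |Xn F c g a ψ ω (l + 2) -
    (M (ptr F J ω) l 0 + M (ptr F J ω) l 1 * Xn F c g a ψ ω 1)| ≤ ε
  bM : ∀ ω, B ω → ∀ l i, |M (ptr F J ω) l i| ≤ A
  bX : ∀ ω, B ω → ∀ j ≤ n + 1, |Xn F c g a ψ ω j| ≤ A

/-- **Separated lines through the exact point.** -/
def Lns (F : Fam m J) (c : ℕ → Fin m) (g : ℕ → ℕ) (a D : ℕ)
    (ψ : PtT F → ℕ → Option (Fin m) → ℝ) (B : F.Ω → Prop) (mu : ℝ) (ω : F.Ω) : Prop :=
  ∃ ν : Fin (D + 1) → F.Ω, (∀ j, B (ν j) ∧ ptr F J (ν j) = ptr F J ω) ∧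
    ∀ i j, i ≠ j → mu ≤ |Xn F c g a ψ (ν i) 1 - Xn F c g a ψ (ν j) 1|

theorem HPol.sub {F : Fam m J} {c : ℕ → Fin m} {g : ℕ → ℕ} {a D : ℕ}
    {ψ : PtT F → ℕ → Option (Fin m) → ℝ} {B B' : F.Ω → Prop}
    {PG : PtT F → MvPolynomial (Option (Fin (n + 1))) ℝ}
    {PH : LnT F → MvPolynomial (Option (Fin (n + 1))) ℝ} {M : PtT F → Fin n → Fin 2 → ℝ}
    {A K ε : ℝ} (h : HPol F c g a n D ψ B PG PH M A K ε) (hB : Sub B' B) :
    HPol F c g a n D ψ B' PG PH M A K ε :=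
  ⟨h.dG, h.dH, fun ω hω => h.bx ω (hB ω hω), fun ω hω => h.agr ω (hB ω hω),
    fun ω hω => h.own ω (hB ω hω), fun ω hω => h.slp ω (hB ω hω), fun ω hω => h.bM ω (hB ω hω),
    fun ω hω => h.bX ω (hB ω hω)⟩

section one

variable {F : Fam m J} {c : ℕ → Fin m} {g : ℕ → ℕ} {a D : ℕ}
  {ψ : PtT F → ℕ → Option (Fin m) → ℝ} {B : F.Ω → Prop}
  {PG : PtT F → MvPolynomial (Option (Fin (n + 1))) ℝ}
  {PH : LnT F → MvPolynomial (Option (Fin (n + 1))) ℝ} {M : PtT F → Fin n → Fin 2 → ℝ}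
  {A K ε : ℝ}

theorem lv_le {M : Fin n → Fin 2 → ℝ} (hA : 1 ≤ A) (hM : ∀ l i, |M l i| ≤ A) (i : Fin 2)
    (o : Option (Fin (n + 1))) : |lv M i o| ≤ A := by
  cases o with
  | none =>
    show |if i = 0 then (1 : ℝ) else 0| ≤ A
    split_ifs <;> simp <;> linarith
  | some j =>
    refine Fin.cases ?_ (fun l => ?_) j
    · show |if i = 1 then (1 : ℝ) else 0| ≤ A
      split_ifs <;> simp <;> linarith
    · exact hM l i

theorem HPol.xo (h : HPol F c g a n D ψ B PG PH M A K ε) {ω : F.Ω} (hω : B ω)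
    (o : Option (Fin (n + 1))) : |Xo n F c g a ψ ω o| ≤ A := by
  cases o with
  | none => exact h.bX ω hω 0 (Nat.zero_le _)
  | some j => exact h.bX ω hω (j + 1) (by omega)

/-- The velocity is near the plane. -/
theorem HPol.pln (h : HPol F c g a n D ψ B PG PH M A K ε) (hε : 0 ≤ ε) {ω : F.Ω} (hω : B ω)
    (o : Option (Fin (n + 1))) : |Xo n F c g a ψ ω o - (lv (M (ptr F J ω)) 0 o +
      Xn F c g a ψ ω 1 * lv (M (ptr F J ω)) 1 o)| ≤ ε := by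
  cases o with
  | none =>
    have e : Xo n F c g a ψ ω none - (lv (M (ptr F J ω)) 0 none +
        Xn F c g a ψ ω 1 * lv (M (ptr F J ω)) 1 none) = 0 := by
      show Xn F c g a ψ ω 0 - ((if (0 : Fin 2) = 0 then (1 : ℝ) else 0) +
        Xn F c g a ψ ω 1 * (if (1 : Fin 2) = 0 then (1 : ℝ) else 0)) = 0
      rw [Xn_zero]
      simp
    rw [e, abs_zero]
    exact hε
  | some j =>
    refine Fin.cases ?_ (fun l => ?_) j
    · have e : Xo n F c g a ψ ω (some 0) - (lv (M (ptr F J ω)) 0 (some 0) +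
          Xn F c g a ψ ω 1 * lv (M (ptr F J ω)) 1 (some 0)) = 0 := by
        show Xn F c g a ψ ω 1 - ((if (0 : Fin 2) = 1 then (1 : ℝ) else 0) +
          Xn F c g a ψ ω 1 * (if (1 : Fin 2) = 1 then (1 : ℝ) else 0)) = 0
        simp
      rw [e, abs_zero]
      exact hε
    · have h1 := h.slp ω hω l
      have e : Xo n F c g a ψ ω (some l.succ) = Xn F c g a ψ ω (l + 2) := by
        show Xn F c g a ψ ω ((l.succ : ℕ) + 1) = _
        rw [Fin.val_succ]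
      rw [e]
      have e2 : lv (M (ptr F J ω)) 0 (some l.succ) + Xn F c g a ψ ω 1 *
          lv (M (ptr F J ω)) 1 (some l.succ) =
          M (ptr F J ω) l 0 + M (ptr F J ω) l 1 * Xn F c g a ψ ω 1 := by
        show M (ptr F J ω) l 0 + Xn F c g a ψ ω 1 * M (ptr F J ω) l 1 = _
        ring
      rw [e2]
      exact h1

/-- Two bilinear forms which are near. -/
theorem HPol.agr' (h : HPol F c g a n D ψ B PG PH M A K ε) {ω : F.Ω} (hω : B ω)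
    {η V V' : Option (Fin (n + 1)) → ℝ} (hη : ∀ o, |η o| ≤ A) {A₁ A₂ : ℝ} (h1 : 0 ≤ A₁)
    (h2 : 0 ≤ A₂) (hV : ∀ o, |V o| ≤ A₁) (hV' : ∀ o, |V' o| ≤ A₂) :
    |hs (PG (ptr F J ω)) η V V' -
      hs (PH (slam F a ω)) (fun o => rt F a ω * Xo n F c g a ψ ω o + η o) V V'| ≤
        ε * (A₁ * A₂) :=
  bil_le (f := fun V V' => hs (PG (ptr F J ω)) η V V' -
      hs (PH (slam F a ω)) (fun o => rt F a ω * Xo n F c g a ψ ω o + η o) V V')
    (fun s V V' => by rw [hs_smul_left, hs_smul_left]; ring)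
    (fun s V V' => by rw [hs_smul_right, hs_smul_right]; ring)
    (fun V V' h3 h4 => h.agr ω hω η V V' hη h3 h4) h1 h2 hV hV'

/-- The closed chart along the line, in the visible chart. -/
theorem HPol.shift (h : HPol F c g a n D ψ B PG PH M A K ε) {ω : F.Ω} (hω : B ω) {τ : ℝ}
    (hτ : τ ∈ Set.Icc (0 : ℝ) 1) {V V' : Option (Fin (n + 1)) → ℝ} {A₁ A₂ : ℝ} (h1 : 0 ≤ A₁)
    (h2 : 0 ≤ A₂) (hV : ∀ o, |V o| ≤ A₁) (hV' : ∀ o, |V' o| ≤ A₂) :
    |hs (PG (ptr F J ω)) (fun o => (τ - rt F a ω) * Xo n F c g a ψ ω o) V V' -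
      hs (PH (slam F a ω)) (fun o => τ * Xo n F c g a ψ ω o) V V'| ≤ ε * (A₁ * A₂) := by
  have hr := rt_mem F a ω
  have hη : ∀ o, |(τ - rt F a ω) * Xo n F c g a ψ ω o| ≤ A := by
    intro o
    rw [abs_mul]
    have h3 : |τ - rt F a ω| ≤ 1 := by
      rw [abs_le]
      constructor <;> linarith [hr.1, hr.2, hτ.1, hτ.2]
    have := mul_le_mul h3 (h.xo hω o) (abs_nonneg _) zero_le_one
    linarith
  have h3 := h.agr' hω hη h1 h2 hV hV'
  have e : (fun o => rt F a ω * Xo n F c g a ψ ω o + (τ - rt F a ω) * Xo n F c g a ψ ω o) =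
      fun o => τ * Xo n F c g a ψ ω o := by
    funext o
    ring
  rw [e] at h3
  exact h3

/-- The second derivative at another sample of the line. -/
theorem HPol.move (h : HPol F c g a n D ψ B PG PH M A K ε) (hA : 1 ≤ A) {ω ω' : F.Ω} (hω : B ω)
    (hω' : B ω') (hsl : slam F a ω = slam F a ω')
    (hX : Xn F c g a ψ ω' = Xn F c g a ψ ω) {V V' : Option (Fin (n + 1)) → ℝ} {A₁ A₂ : ℝ}
    (h1 : 0 ≤ A₁) (h2 : 0 ≤ A₂) (hV : ∀ o, |V o| ≤ A₁) (hV' : ∀ o, |V' o| ≤ A₂) :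
    |hs (PG (ptr F J ω')) 0 V V' - hs (PG (ptr F J ω))
      (fun o => (rt F a ω' - rt F a ω) * Xo n F c g a ψ ω o) V V'| ≤ 2 * (ε * (A₁ * A₂)) := by
  have g1 := h.agr' hω' (η := 0) (fun o => by simp; linarith) h1 h2 hV hV'
  have g2 := h.shift hω (rt_mem F a ω') h1 h2 hV hV'
  have hXo : Xo n F c g a ψ ω' = Xo n F c g a ψ ω := by
    funext o
    unfold Xo
    rw [hX]
  rw [← hsl, hXo] at g1
  have e : (fun o => rt F a ω' * Xo n F c g a ψ ω o + (0 : Option (Fin (n + 1)) → ℝ) o) =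
      fun o => rt F a ω' * Xo n F c g a ψ ω o := by
    funext o
    simp
  rw [e] at g1
  have e2 : hs (PG (ptr F J ω')) 0 V V' - hs (PG (ptr F J ω))
      (fun o => (rt F a ω' - rt F a ω) * Xo n F c g a ψ ω o) V V' =
      (hs (PG (ptr F J ω')) 0 V V' -
        hs (PH (slam F a ω)) (fun o => rt F a ω' * Xo n F c g a ψ ω o) V V') -
      (hs (PG (ptr F J ω)) (fun o => (rt F a ω' - rt F a ω) * Xo n F c g a ψ ω o) V V' -
        hs (PH (slam F a ω)) (fun o => rt F a ω' * Xo n F c g a ψ ω o) V V') := by ring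
  rw [e2]
  refine (abs_sub _ _).trans ?_
  linarith

end one

/-- **The second derivative is small on the plane of a sample, at every sample of the line.** -/
theorem pl_pair (D : ℕ) (hD1 : 1 ≤ D) : ∃ C : ℝ, 1 ≤ C ∧ ∃ N : ℕ, ∀ {m J n : ℕ} {F : Fam m J}
    {c : ℕ → Fin m} {g : ℕ → ℕ} {a : ℕ} {ψ : PtT F → ℕ → Option (Fin m) → ℝ} {B : F.Ω → Prop}
    {PG : PtT F → MvPolynomial (Option (Fin (n + 1))) ℝ}
    {PH : LnT F → MvPolynomial (Option (Fin (n + 1))) ℝ} {M : PtT F → Fin n → Fin 2 → ℝ}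
    {A K ε mu : ℝ}, HPol F c g a n D ψ B PG PH M A K ε → 1 ≤ A → 1 ≤ K → 0 ≤ ε →
    2 * A ^ 2 * ε ≤ 1 → 0 < mu → mu ≤ 1 → ∀ ω ω' : F.Ω, B ω → B ω' →
    slam F a ω = slam F a ω' → Xn F c g a ψ ω' = Xn F c g a ψ ω → Lns F c g a D ψ B mu ω →
    ∀ i j : Fin 2, |hs (PG (ptr F J ω')) 0 (lv (M (ptr F J ω)) i) (lv (M (ptr F J ω)) j)| ≤
      C * (A / mu) ^ N * (K * ε) := by
  obtain ⟨C₁, hC₁, hlip⟩ := lip_hs D
  obtain ⟨C₂, hC₂, N, hpl⟩ := pln_hs D hD1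
  refine ⟨2 + C₁ + 2 * C₂, by linarith, N + 2, ?_⟩
  intro m J n F c g a ψ B PG PH M A K ε mu h hA hK hε hε1 hmu hmu1 ω ω' hω hω' hsl hX hln i j
  obtain ⟨ν, hν, hsep⟩ := hln
  have hA0 : 0 ≤ A := by linarith
  have hA2 : 1 ≤ A ^ 2 := one_le_pow₀ hA
  have hK0 : 0 ≤ K := by linarith
  have hε2 : ε ≤ 2 * A ^ 2 * ε := le_mul_of_one_le_left hε (by linarith)
  have hε1' : ε ≤ 1 := hε2.trans hε1
  obtain ⟨M₀, hM₀⟩ : ∃ M₀, M₀ = M (ptr F J ω) := ⟨_, rfl⟩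
  have hMb : ∀ l i, |M₀ l i| ≤ A := by rw [hM₀]; exact h.bM ω hω
  have hUb : ∀ (i : Fin 2) o, |lv M₀ i o| ≤ A := fun i o => lv_le hA hMb i o
  -- the plane
  have h1 := hpl (P := PG (ptr F J ω)) (U₀ := lv M₀ 0) (U₁ := lv M₀ 1)
    (E := fun j => Xn F c g a ψ (ν j) 1) (X := fun j => Xo n F c g a ψ (ν j))
    (r := fun j => rt F a (ν j)) (A := A) (K := K) (mu := mu) (ε := 2 * A ^ 2 * ε) (h.dG _) hA hK
    hmu hmu1 (by positivity) hε1 (h.bx ω hω) (hUb 0) (hUb 1)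
    (fun j => h.bX _ (hν j).1 1 (by omega)) (fun j j' hj => hsep j j' hj)
    (fun j => rt_mem F a _) (fun j o => by
      have h2 := h.pln hε (hν j).1 o
      rw [(hν j).2, ← hM₀] at h2
      exact h2.trans hε2) (fun j τ hτ => by
      have h2 := h.own _ (hν j).1 τ hτ
      have h3 := h.shift (hν j).1 hτ hA0 hA0 (h.xo (hν j).1) (h.xo (hν j).1)
      rw [(hν j).2] at h3
      have e : hs (PG (ptr F J ω)) (fun o => (τ - rt F a (ν j)) * Xo n F c g a ψ (ν j) o)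
          (Xo n F c g a ψ (ν j)) (Xo n F c g a ψ (ν j)) =
          (hs (PG (ptr F J ω)) (fun o => (τ - rt F a (ν j)) * Xo n F c g a ψ (ν j) o)
          (Xo n F c g a ψ (ν j)) (Xo n F c g a ψ (ν j)) -
          hs (PH (slam F a (ν j))) (fun o => τ * Xo n F c g a ψ (ν j) o)
            (Xo n F c g a ψ (ν j)) (Xo n F c g a ψ (ν j))) +
          hs (PH (slam F a (ν j))) (fun o => τ * Xo n F c g a ψ (ν j) o)
            (Xo n F c g a ψ (ν j)) (Xo n F c g a ψ (ν j)) := by ring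
      rw [e]
      refine ((abs_add_le _ _).trans (add_le_add h3 h2)).trans ?_
      nlinarith)
  -- the point
  obtain ⟨s, hse⟩ : ∃ s, s = rt F a ω' - rt F a ω := ⟨_, rfl⟩
  have hs1 : |s| ≤ 1 := by
    have h2 := rt_mem F a ω
    have h3 := rt_mem F a ω'
    rw [hse, abs_le]
    constructor <;> linarith [h2.1, h2.2, h3.1, h3.2]
  obtain ⟨E, hE⟩ : ∃ E, E = Xn F c g a ψ ω 1 := ⟨_, rfl⟩
  have hEb : |E| ≤ A := by rw [hE]; exact h.bX ω hω 1 (by omega)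
  have h2 := h.move hA hω hω' hsl hX hA0 hA0 (hUb i) (hUb j)
  rw [← hse] at h2
  have h3 := hlip (P := PG (ptr F J ω)) (R := 8 * A ^ 2) (K := K) (ε := ε) (h.dG _) (h.bx ω hω)
    hK0 hε hε1' (fun o => s * (lv M₀ 0 o + E * lv M₀ 1 o))
    (fun o => s * (Xo n F c g a ψ ω o - (lv M₀ 0 o + E * lv M₀ 1 o))) (fun o => by
      rw [abs_mul]
      have h4 : |lv M₀ 0 o + E * lv M₀ 1 o| ≤ A + A * A := by
        refine (abs_add_le _ _).trans ?_
        rw [abs_mul]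
        exact add_le_add (hUb 0 o) (mul_le_mul hEb (hUb 1 o) (abs_nonneg _) hA0)
      have h5 := mul_le_mul hs1 h4 (abs_nonneg _) zero_le_one
      nlinarith) (fun o => by
      rw [abs_mul]
      have h4 := h.pln hε hω o
      rw [← hM₀, ← hE] at h4
      have h5 := mul_le_mul hs1 h4 (abs_nonneg _) zero_le_one
      linarith) A A hA0 hA0 _ _ (hUb i) (hUb j)
  have e1 : (fun o => s * (lv M₀ 0 o + E * lv M₀ 1 o) +
      s * (Xo n F c g a ψ ω o - (lv M₀ 0 o + E * lv M₀ 1 o))) =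
      fun o => s * Xo n F c g a ψ ω o := by
    funext o
    ring
  have e2 : (fun o => s * (lv M₀ 0 o + E * lv M₀ 1 o)) = s • lv M₀ 0 + (s * E) • lv M₀ 1 := by
    funext o
    simp only [Pi.add_apply, Pi.smul_apply, smul_eq_mul]
    ring
  rw [e1, e2] at h3
  have hl : ∀ i : Fin 2, ∃ a b : ℝ, |a| ≤ A ∧ |b| ≤ A ∧ lv M₀ i = a • lv M₀ 0 + b • lv M₀ 1 := by
    intro i
    fin_cases i
    · exact ⟨1, 0, by rw [abs_one]; exact hA, by rw [abs_zero]; exact hA0, by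
        rw [one_smul, zero_smul, add_zero]
        rfl⟩
    · exact ⟨0, 1, by rw [abs_zero]; exact hA0, by rw [abs_one]; exact hA, by
        rw [one_smul, zero_smul, zero_add]
        rfl⟩
  obtain ⟨a₁, b₁, ha₁, hb₁, hi⟩ := hl i
  obtain ⟨a₂, b₂, ha₂, hb₂, hj⟩ := hl j
  have h4 := h1 s (s * E) a₁ b₁ a₂ b₂ (hs1.trans hA) (by
    rw [abs_mul]
    have := mul_le_mul hs1 hEb (abs_nonneg _) zero_le_one
    linarith) ha₁ hb₁ ha₂ hb₂
  rw [← hi, ← hj] at h4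
  rw [← hM₀]
  have e3 : hs (PG (ptr F J ω')) 0 (lv M₀ i) (lv M₀ j) =
      (hs (PG (ptr F J ω')) 0 (lv M₀ i) (lv M₀ j) - hs (PG (ptr F J ω))
        (fun o => s * Xo n F c g a ψ ω o) (lv M₀ i) (lv M₀ j)) +
      ((hs (PG (ptr F J ω)) (fun o => s * Xo n F c g a ψ ω o) (lv M₀ i) (lv M₀ j) -
        hs (PG (ptr F J ω)) (s • lv M₀ 0 + (s * E) • lv M₀ 1) (lv M₀ i) (lv M₀ j)) +
      hs (PG (ptr F J ω)) (s • lv M₀ 0 + (s * E) • lv M₀ 1) (lv M₀ i) (lv M₀ j)) := by ring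
  rw [e3]
  refine ((abs_add_le _ _).trans (add_le_add h2 ((abs_add_le _ _).trans
    (add_le_add h3 h4)))).trans ?_
  -- the numbers
  have hAm : A ≤ A / mu := le_div_self hA0 hmu hmu1
  have hAm1 : 1 ≤ A / mu := hA.trans hAm
  have hKε : 0 ≤ K * ε := mul_nonneg hK0 hε
  have hεK : ε ≤ K * ε := le_mul_of_one_le_left hε hK
  obtain ⟨q, hq⟩ : ∃ q, q = A / mu := ⟨_, rfl⟩
  rw [← hq] at hAm hAm1 ⊢
  have hq0 : 0 ≤ q := by linarith
  have hA2q : A ^ 2 ≤ q ^ 2 := pow_le_pow_left₀ hA0 hAm 2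
  have hqN : 1 ≤ q ^ N := one_le_pow₀ hAm1
  have b1 : A ^ 2 * (K * ε) ≤ q ^ (N + 2) * (K * ε) := by
    refine mul_le_mul_of_nonneg_right ?_ hKε
    rw [pow_add]
    calc A ^ 2 = 1 * A ^ 2 := (one_mul _).symm
      _ ≤ q ^ N * q ^ 2 := mul_le_mul hqN hA2q (by positivity) (by positivity)
  have b2 : A ^ 2 * ε ≤ q ^ (N + 2) * (K * ε) :=
    (mul_le_mul_of_nonneg_left hεK (by positivity)).trans b1
  have b3 : q ^ N * (K * (2 * A ^ 2 * ε)) ≤ 2 * (q ^ (N + 2) * (K * ε)) := by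
    rw [pow_add]
    have : q ^ N * A ^ 2 ≤ q ^ N * q ^ 2 := mul_le_mul_of_nonneg_left hA2q (by positivity)
    have h5 := mul_le_mul_of_nonneg_right this hKε
    nlinarith
  have e4 : 2 * (ε * (A * A)) + (C₁ * (K * ε) * (A * A) + C₂ * q ^ N * (K * (2 * A ^ 2 * ε))) =
      2 * (A ^ 2 * ε) + (C₁ * (A ^ 2 * (K * ε)) + C₂ * (q ^ N * (K * (2 * A ^ 2 * ε)))) := by ring
  rw [e4]
  have c1 := mul_le_mul_of_nonneg_left b1 (show 0 ≤ C₁ by linarith)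
  have c3 := mul_le_mul_of_nonneg_left b3 (show 0 ≤ C₂ by linarith)
  have e5 : (2 + C₁ + 2 * C₂) * q ^ (N + 2) * (K * ε) = 2 * (q ^ (N + 2) * (K * ε)) +
      (C₁ * (q ^ (N + 2) * (K * ε)) + C₂ * (2 * (q ^ (N + 2) * (K * ε)))) := by ring
  rw [e5]
  linarith

/-- **The mixed derivative in a fixed direction.** -/
theorem pl_dv (D : ℕ) (hD1 : 1 ≤ D) : ∃ C : ℝ, 1 ≤ C ∧ ∃ N : ℕ, ∀ {m J n : ℕ} {F : Fam m J}
    {c : ℕ → Fin m} {g : ℕ → ℕ} {a : ℕ} {ψ : PtT F → ℕ → Option (Fin m) → ℝ}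
    {B B₁ : F.Ω → Prop} {PG : PtT F → MvPolynomial (Option (Fin (n + 1))) ℝ}
    {PH : LnT F → MvPolynomial (Option (Fin (n + 1))) ℝ} {M : PtT F → Fin n → Fin 2 → ℝ}
    {A K ε ε₁ mu : ℝ} {V : Option (Fin (n + 1)) → ℝ}, HPol F c g a n D ψ B PG PH M A K ε →
    1 ≤ A → 1 ≤ K → 0 ≤ ε → 2 * A * ε₁ ≤ 1 → ε ≤ ε₁ → 0 < mu → mu ≤ 1 → (∀ o, |V o| ≤ 1) →
    Sub B₁ B → (∀ ν, B₁ ν → ∀ τ ∈ Set.Icc (0 : ℝ) 1, |hs (PH (slam F a ν))
      (fun o => τ * Xo n F c g a ψ ν o) (Xo n F c g a ψ ν) V| ≤ ε₁) →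
    ∀ ω ω' : F.Ω, B ω → B ω' → slam F a ω = slam F a ω' →
    Xn F c g a ψ ω' = Xn F c g a ψ ω → Lns F c g a D ψ B₁ mu ω →
    ∀ i : Fin 2, |hs (PG (ptr F J ω')) 0 (lv (M (ptr F J ω)) i) V| ≤
      C * (A / mu) ^ N * (K * ε₁) := by
  obtain ⟨C₁, hC₁, hlip⟩ := lip_hs D
  obtain ⟨C₂, hC₂, N, hpl⟩ := pln_dv D hD1
  refine ⟨2 + C₁ + 2 * C₂, by linarith, N + 1, ?_⟩
  intro m J n F c g a ψ B B₁ PG PH M A K ε ε₁ mu V h hA hK hε hε1 hεε hmu hmu1 hV hB₁ hdv ω ω' hω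
    hω' hsl hX hln i
  obtain ⟨ν, hν, hsep⟩ := hln
  have hA0 : 0 ≤ A := by linarith
  have hK0 : 0 ≤ K := by linarith
  have hε₁ : 0 ≤ ε₁ := hε.trans hεε
  have hε2 : ε₁ ≤ 2 * A * ε₁ := le_mul_of_one_le_left hε₁ (by linarith)
  have hε1' : ε ≤ 1 := (hεε.trans hε2).trans hε1
  obtain ⟨M₀, hM₀⟩ : ∃ M₀, M₀ = M (ptr F J ω) := ⟨_, rfl⟩
  have hMb : ∀ l i, |M₀ l i| ≤ A := by rw [hM₀]; exact h.bM ω hω
  have hUb : ∀ (i : Fin 2) o, |lv M₀ i o| ≤ A := fun i o => lv_le hA hMb i o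
  have h1 := hpl (P := PG (ptr F J ω)) (U₀ := lv M₀ 0) (U₁ := lv M₀ 1) (V := V)
    (E := fun j => Xn F c g a ψ (ν j) 1) (X := fun j => Xo n F c g a ψ (ν j))
    (r := fun j => rt F a (ν j)) (A := A) (K := K) (mu := mu) (ε := 2 * A * ε₁) (h.dG _) hA hK
    hmu hmu1 (by positivity) hε1 (h.bx ω hω) (hUb 0) (hUb 1) hV
    (fun j => h.bX _ (hB₁ _ (hν j).1) 1 (by omega)) (fun j j' hj => hsep j j' hj)
    (fun j => rt_mem F a _) (fun j o => by
      have h2 := h.pln hε (hB₁ _ (hν j).1) o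
      rw [(hν j).2, ← hM₀] at h2
      exact (h2.trans hεε).trans hε2) (fun j τ hτ => by
      have h2 := hdv _ (hν j).1 τ hτ
      have h3 := h.shift (hB₁ _ (hν j).1) hτ hA0 zero_le_one (h.xo (hB₁ _ (hν j).1)) hV
      rw [(hν j).2] at h3
      have e : hs (PG (ptr F J ω)) (fun o => (τ - rt F a (ν j)) * Xo n F c g a ψ (ν j) o)
          (Xo n F c g a ψ (ν j)) V =
          (hs (PG (ptr F J ω)) (fun o => (τ - rt F a (ν j)) * Xo n F c g a ψ (ν j) o)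
          (Xo n F c g a ψ (ν j)) V -
          hs (PH (slam F a (ν j))) (fun o => τ * Xo n F c g a ψ (ν j) o)
            (Xo n F c g a ψ (ν j)) V) +
          hs (PH (slam F a (ν j))) (fun o => τ * Xo n F c g a ψ (ν j) o)
            (Xo n F c g a ψ (ν j)) V := by ring
      rw [e]
      refine ((abs_add_le _ _).trans (add_le_add h3 h2)).trans ?_
      have h4 : ε * (A * 1) ≤ ε₁ * A := by
        rw [mul_one]
        exact mul_le_mul_of_nonneg_right hεε hA0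
      have h5 : ε₁ ≤ ε₁ * A := le_mul_of_one_le_right hε₁ hA
      linarith)
  obtain ⟨s, hse⟩ : ∃ s, s = rt F a ω' - rt F a ω := ⟨_, rfl⟩
  have hs1 : |s| ≤ 1 := by
    have h2 := rt_mem F a ω
    have h3 := rt_mem F a ω'
    rw [hse, abs_le]
    constructor <;> linarith [h2.1, h2.2, h3.1, h3.2]
  obtain ⟨E, hE⟩ : ∃ E, E = Xn F c g a ψ ω 1 := ⟨_, rfl⟩
  have hEb : |E| ≤ A := by rw [hE]; exact h.bX ω hω 1 (by omega)
  have h2 := h.move hA hω hω' hsl hX hA0 zero_le_one (hUb i) hV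
  rw [← hse] at h2
  have h3 := hlip (P := PG (ptr F J ω)) (R := 8 * A ^ 2) (K := K) (ε := ε) (h.dG _) (h.bx ω hω)
    hK0 hε hε1' (fun o => s * (lv M₀ 0 o + E * lv M₀ 1 o))
    (fun o => s * (Xo n F c g a ψ ω o - (lv M₀ 0 o + E * lv M₀ 1 o))) (fun o => by
      rw [abs_mul]
      have h4 : |lv M₀ 0 o + E * lv M₀ 1 o| ≤ A + A * A := by
        refine (abs_add_le _ _).trans ?_
        rw [abs_mul]
        exact add_le_add (hUb 0 o) (mul_le_mul hEb (hUb 1 o) (abs_nonneg _) hA0)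
      have h5 := mul_le_mul hs1 h4 (abs_nonneg _) zero_le_one
      nlinarith) (fun o => by
      rw [abs_mul]
      have h4 := h.pln hε hω o
      rw [← hM₀, ← hE] at h4
      have h5 := mul_le_mul hs1 h4 (abs_nonneg _) zero_le_one
      linarith) A 1 hA0 zero_le_one _ _ (hUb i) hV
  have e1 : (fun o => s * (lv M₀ 0 o + E * lv M₀ 1 o) +
      s * (Xo n F c g a ψ ω o - (lv M₀ 0 o + E * lv M₀ 1 o))) =
      fun o => s * Xo n F c g a ψ ω o := by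
    funext o
    ring
  have e2 : (fun o => s * (lv M₀ 0 o + E * lv M₀ 1 o)) = s • lv M₀ 0 + (s * E) • lv M₀ 1 := by
    funext o
    simp only [Pi.add_apply, Pi.smul_apply, smul_eq_mul]
    ring
  rw [e1, e2] at h3
  have hl : ∀ i : Fin 2, ∃ a b : ℝ, |a| ≤ A ∧ |b| ≤ A ∧ lv M₀ i = a • lv M₀ 0 + b • lv M₀ 1 := by
    intro i
    fin_cases i
    · exact ⟨1, 0, by rw [abs_one]; exact hA, by rw [abs_zero]; exact hA0, by
        rw [one_smul, zero_smul, add_zero]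
        rfl⟩
    · exact ⟨0, 1, by rw [abs_zero]; exact hA0, by rw [abs_one]; exact hA, by
        rw [one_smul, zero_smul, zero_add]
        rfl⟩
  obtain ⟨a₁, b₁, ha₁, hb₁, hi⟩ := hl i
  have h4 := h1 s (s * E) a₁ b₁ (hs1.trans hA) (by
    rw [abs_mul]
    have := mul_le_mul hs1 hEb (abs_nonneg _) zero_le_one
    linarith) ha₁ hb₁
  rw [← hi] at h4
  rw [← hM₀]
  have e3 : hs (PG (ptr F J ω')) 0 (lv M₀ i) V =
      (hs (PG (ptr F J ω')) 0 (lv M₀ i) V - hs (PG (ptr F J ω))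
        (fun o => s * Xo n F c g a ψ ω o) (lv M₀ i) V) +
      ((hs (PG (ptr F J ω)) (fun o => s * Xo n F c g a ψ ω o) (lv M₀ i) V -
        hs (PG (ptr F J ω)) (s • lv M₀ 0 + (s * E) • lv M₀ 1) (lv M₀ i) V) +
      hs (PG (ptr F J ω)) (s • lv M₀ 0 + (s * E) • lv M₀ 1) (lv M₀ i) V) := by ring
  rw [e3]
  refine ((abs_add_le _ _).trans (add_le_add h2 ((abs_add_le _ _).trans
    (add_le_add h3 h4)))).trans ?_
  have hAm : A ≤ A / mu := le_div_self hA0 hmu hmu1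
  have hAm1 : 1 ≤ A / mu := hA.trans hAm
  have hKε : 0 ≤ K * ε₁ := mul_nonneg hK0 hε₁
  have hεK : ε₁ ≤ K * ε₁ := le_mul_of_one_le_left hε₁ hK
  obtain ⟨q, hq⟩ : ∃ q, q = A / mu := ⟨_, rfl⟩
  rw [← hq] at hAm hAm1 ⊢
  have hq0 : 0 ≤ q := by linarith
  have hqN : 1 ≤ q ^ N := one_le_pow₀ hAm1
  have b1 : A * (K * ε₁) ≤ q ^ (N + 1) * (K * ε₁) := by
    refine mul_le_mul_of_nonneg_right ?_ hKε
    rw [pow_succ]
    calc A = 1 * A := (one_mul _).symm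
      _ ≤ q ^ N * q := mul_le_mul hqN hAm hA0 (by positivity)
  have b2 : A * ε ≤ q ^ (N + 1) * (K * ε₁) :=
    (mul_le_mul_of_nonneg_left (hεε.trans hεK) hA0).trans b1
  have b2' : A * (K * ε) ≤ q ^ (N + 1) * (K * ε₁) :=
    (mul_le_mul_of_nonneg_left (mul_le_mul_of_nonneg_left hεε hK0) hA0).trans b1
  have b3 : q ^ N * (K * (2 * A * ε₁)) ≤ 2 * (q ^ (N + 1) * (K * ε₁)) := by
    rw [pow_succ]
    have : q ^ N * A ≤ q ^ N * q := mul_le_mul_of_nonneg_left hAm (by positivity)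
    have h5 := mul_le_mul_of_nonneg_right this hKε
    nlinarith
  have e4 : 2 * (ε * (A * 1)) + (C₁ * (K * ε) * (A * 1) + C₂ * q ^ N * (K * (2 * A * ε₁))) =
      2 * (A * ε) + (C₁ * (A * (K * ε)) + C₂ * (q ^ N * (K * (2 * A * ε₁)))) := by ring
  rw [e4]
  have c1 := mul_le_mul_of_nonneg_left b2' (show 0 ≤ C₁ by linarith)
  have c3 := mul_le_mul_of_nonneg_left b3 (show 0 ≤ C₂ by linarith)
  have e5 : (2 + C₁ + 2 * C₂) * q ^ (N + 1) * (K * ε₁) = 2 * (q ^ (N + 1) * (K * ε₁)) +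
      (C₁ * (q ^ (N + 1) * (K * ε₁)) + C₂ * (2 * (q ^ (N + 1) * (K * ε₁)))) := by ring
  rw [e5]
  linarith

end Pool.F5
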