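import Mathlib

/-!
# (F5), two coordinates: algebra

`A i j`: the second derivative of the chart in the plane direction `i` (`0` = time, `1` = `y`) and in
the direction of the coordinate `j` of `V1`. The own line has the direction `(1, E)`, `z` is the
difference of the `y`-components of the two visible gradients.

* `rank_le`: a close pair makes the determinant small;
* `dot_of`: a visible covector kills `z`;
* `end_two`: two visible covectors which kill `z`: `v` is closed, or a combination of `u` and `v`.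
-/

set_option autoImplicit false

namespace Pool.F5

/-- The wedge of two vectors of the plane. -/
def wd (a b : Fin 2 → ℝ) : ℝ := a 0 * b 1 - a 1 * b 0

/-- The product of two vectors of the plane. -/
def dt (a b : Fin 2 → ℝ) : ℝ := a 0 * b 0 + a 1 * b 1

theorem wd_mul (a b z : Fin 2 → ℝ) :
    wd a b * z 0 = dt a z * b 1 - dt b z * a 1 ∧ wd a b * z 1 = dt b z * a 0 - dt a z * b 0 := by
  unfold wd dt
  constructor <;> ring

theorem dt_mul (a b z : Fin 2 → ℝ) :
    b 0 * dt a z = a 0 * dt b z - z 1 * wd a b ∧ b 1 * dt a z = a 1 * dt b z + z 0 * wd a b := by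
  unfold wd dt
  constructor <;> ring

theorem wd_le {a b z : Fin 2 → ℝ} {K ε μ : ℝ} (hK : ∀ j, |a j| ≤ K) (hK' : ∀ j, |b j| ≤ K)
    (ha : |dt a z| ≤ ε) (hb : |dt b z| ≤ ε) (hμ : 0 < μ) (hz : μ ≤ |z 0| ∨ μ ≤ |z 1|) :
    |wd a b| ≤ 2 * K * ε / μ := by
  have hK0 : 0 ≤ K := (abs_nonneg _).trans (hK 0)
  have hε : 0 ≤ ε := (abs_nonneg _).trans ha
  have key : ∀ x y u v : ℝ, |x| ≤ ε → |y| ≤ ε → |u| ≤ K → |v| ≤ K → |x * u - y * v| ≤ 2 * K * ε := by
    intro x y u v h1 h2 h3 h4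
    have e1 : |x * u| ≤ ε * K := by
      rw [abs_mul]
      exact mul_le_mul h1 h3 (abs_nonneg _) hε
    have e2 : |y * v| ≤ ε * K := by
      rw [abs_mul]
      exact mul_le_mul h2 h4 (abs_nonneg _) hε
    calc _ ≤ ε * K + ε * K := (abs_sub _ _).trans (add_le_add e1 e2)
      _ = _ := by ring
  rw [le_div_iff₀ hμ]
  rcases hz with hz | hz
  · have e := (wd_mul a b z).1
    have h1 := key _ _ _ _ ha hb (hK' 1) (hK 1)
    rw [← e, abs_mul] at h1
    exact (mul_le_mul_of_nonneg_left hz (abs_nonneg _)).trans h1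
  · have e := (wd_mul a b z).2
    have h1 := key _ _ _ _ hb ha (hK 0) (hK' 0)
    rw [← e, abs_mul] at h1
    exact (mul_le_mul_of_nonneg_left hz (abs_nonneg _)).trans h1

/-- **A close pair makes the determinant small.** -/
theorem rank_le {A q : Fin 2 → Fin 2 → ℝ} {z : Fin 2 → ℝ} {E R K ε μ δ : ℝ} (hR : |E| ≤ R)
    (hK1 : 1 ≤ K) (hA : ∀ i j, |A i j| ≤ K) (hq : ∀ i j, |q i j| ≤ K)
    (h1 : |dt (fun j => A 0 j + E * A 1 j) z| ≤ ε)
    (h2 : |2 * dt (A 1) z + (q 0 0 * (z 0 * z 0) + q 0 1 * (z 0 * z 1) +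
      (q 1 0 * (z 1 * z 0) + q 1 1 * (z 1 * z 1)))| ≤ ε)
    (hμ : 0 < μ) (hz : μ ≤ |z 0| ∨ μ ≤ |z 1|) (hδ : ∀ j, |z j| ≤ δ) :
    |wd (A 0) (A 1)| ≤ 2 * ((1 + R) * K) * (ε + 2 * K * δ ^ 2) / μ := by
  have hK0 : 0 ≤ K := by linarith
  have hR0 : 0 ≤ R := (abs_nonneg _).trans hR
  have hδ0 : 0 ≤ δ := (abs_nonneg _).trans (hδ 0)
  have hε : 0 ≤ ε := (abs_nonneg _).trans h1
  have hzz : ∀ i j k l, |q k l * (z i * z j)| ≤ K * δ ^ 2 := by
    intro i j k l
    rw [abs_mul, abs_mul, pow_two]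
    exact mul_le_mul (hq k l) (mul_le_mul (hδ i) (hδ j) (abs_nonneg _) hδ0) (by positivity) hK0
  have h3 : |dt (A 1) z| ≤ ε + 2 * K * δ ^ 2 := by
    have g1 := hzz 0 0 0 0
    have g2 := hzz 0 1 0 1
    have g3 := hzz 1 0 1 0
    have g4 := hzz 1 1 1 1
    rw [abs_le] at g1 g2 g3 g4 h2 ⊢
    constructor <;> linarith [g1.1, g1.2, g2.1, g2.2, g3.1, g3.2, g4.1, g4.2, h2.1, h2.2]
  have h1' : |dt (fun j => A 0 j + E * A 1 j) z| ≤ ε + 2 * K * δ ^ 2 :=
    h1.trans (le_add_of_nonneg_right (by positivity))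
  have hB : ∀ j, |A 0 j + E * A 1 j| ≤ (1 + R) * K := by
    intro j
    have e1 : |E * A 1 j| ≤ R * K := by
      rw [abs_mul]
      exact mul_le_mul hR (hA 1 j) (abs_nonneg _) hR0
    calc _ ≤ K + R * K := (abs_add_le _ _).trans (add_le_add (hA 0 j) e1)
      _ = _ := by ring
  have hA1 : ∀ j, |A 1 j| ≤ (1 + R) * K := fun j => (hA 1 j).trans (by nlinarith)
  have h4 := wd_le (a := fun j => A 0 j + E * A 1 j) (b := A 1) hB hA1 h1' h3 hμ hz
  have e : wd (fun j => A 0 j + E * A 1 j) (A 1) = wd (A 0) (A 1) := by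
    unfold wd
    ring
  rw [e] at h4
  exact h4

/-- **The visible covector kills `z`.** -/
theorem dot_of {a r z : Fin 2 → ℝ} {K ε d μ Z : ℝ} (ha : ∀ j, |a j| ≤ K)
    (hr : |dt r z| ≤ ε) (hw : |wd a r| ≤ d) (hz : ∀ j, |z j| ≤ Z) (hμ : 0 < μ)
    (hm : μ ≤ |r 0| ∨ μ ≤ |r 1|) : |dt a z| ≤ (K * ε + Z * d) / μ := by
  have hK0 : 0 ≤ K := (abs_nonneg _).trans (ha 0)
  have hZ0 : 0 ≤ Z := (abs_nonneg _).trans (hz 0)
  have key : ∀ j k : Fin 2, ∀ s : ℝ, |s| ≤ 1 → |a j * dt r z + s * (z k * wd a r)| ≤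
      K * ε + Z * d := by
    intro j k s hs
    have e1 : |a j * dt r z| ≤ K * ε := by
      rw [abs_mul]
      exact mul_le_mul (ha j) hr (abs_nonneg _) hK0
    have e2 : |z k * wd a r| ≤ Z * d := by
      rw [abs_mul]
      exact mul_le_mul (hz k) hw (abs_nonneg _) hZ0
    have e3 : |s * (z k * wd a r)| ≤ 1 * (Z * d) := by
      rw [abs_mul]
      exact mul_le_mul hs e2 (abs_nonneg _) zero_le_one
    rw [one_mul] at e3
    exact (abs_add_le _ _).trans (add_le_add e1 e3)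
  rw [le_div_iff₀ hμ]
  rcases hm with hm | hm
  · have e := (dt_mul a r z).1
    have h1 := key 0 1 (-1) (by norm_num)
    have e' : a 0 * dt r z + -1 * (z 1 * wd a r) = r 0 * dt a z := by rw [e]; ring
    rw [e', abs_mul, mul_comm] at h1
    exact (mul_le_mul_of_nonneg_left hm (abs_nonneg _)).trans h1
  · have e := (dt_mul a r z).2
    have h1 := key 1 0 1 (by norm_num)
    have e' : a 1 * dt r z + 1 * (z 0 * wd a r) = r 1 * dt a z := by rw [e]; ring
    rw [e', abs_mul, mul_comm] at h1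
    exact (mul_le_mul_of_nonneg_left hm (abs_nonneg _)).trans h1

/-- The coefficient of `v` in the combination. -/
noncomputable def kp (θ : ℝ) (a : Fin 2 → ℝ) : ℝ :=
  open Classical in if θ ≤ |a 1| then a 0 / a 1 else 0

theorem kp_le {θ K : ℝ} (hθ : 0 < θ) {a : Fin 2 → ℝ} (ha : ∀ j, |a j| ≤ K) :
    |kp θ a| ≤ K / θ := by
  have hK0 : 0 ≤ K := (abs_nonneg _).trans (ha 0)
  unfold kp
  split_ifs with h
  · rw [abs_div]
    exact div_le_div₀ hK0 (ha 0) hθ h
  · rw [abs_zero]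
    positivity

/-- If the coefficient of `u` is small, `v` is closed. -/
theorem v_small {a z : Fin 2 → ℝ} {μ θ ε Z : ℝ} (hμ : 0 < μ) (hθ : θ ≤ μ / 2)
    (hm : μ ≤ |a 0| ∨ μ ≤ |a 1|) (h1 : |a 1| < θ) (hd : |dt a z| ≤ ε) (hz : |z 1| ≤ Z) :
    |z 0| ≤ (ε + θ * Z) / μ := by
  have h2 : μ ≤ |a 0| := by
    rcases hm with h | h
    · exact h
    · linarith
  rw [le_div_iff₀ hμ]
  have e : a 0 * z 0 = dt a z - a 1 * z 1 := by
    unfold dt
    ring
  have h3 : |a 1 * z 1| ≤ θ * Z := by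
    rw [abs_mul]
    exact mul_le_mul h1.le hz (abs_nonneg _) ((abs_nonneg _).trans h1.le)
  have h4 : |a 0 * z 0| ≤ ε + θ * Z := by
    rw [e]
    exact (abs_sub _ _).trans (add_le_add hd h3)
  rw [abs_mul] at h4
  calc |z 0| * μ ≤ |z 0| * |a 0| := mul_le_mul_of_nonneg_left h2 (abs_nonneg _)
    _ = |a 0| * |z 0| := mul_comm _ _
    _ ≤ _ := h4

/-- **Two visible covectors which kill `z`**: the slope of `v` is the same at both samples, or the
slope of `u + kp v` is, and `kp` too. -/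
theorem end_two {a b z : Fin 2 → ℝ} {K μ θ μ' ε Z : ℝ} (hK : ∀ j, |a j| ≤ K)
    (hK' : ∀ j, |b j| ≤ K) (hμ : 0 < μ) (hθ0 : 0 < θ) (hθ : θ ≤ μ / 2) (hμ' : 0 < μ')
    (ha : μ ≤ |a 0| ∨ μ ≤ |a 1|) (hb : μ ≤ |b 0| ∨ μ ≤ |b 1|) (h1 : |dt a z| ≤ ε)
    (h2 : |dt b z| ≤ ε) (hz : ∀ j, |z j| ≤ Z) :
    |z 0| ≤ max μ' ((ε + θ * Z) / μ) ∨
      (|kp θ a - kp θ b| ≤ 2 * K * ε / μ' / θ ^ 2 ∧ |z 1 + kp θ a * z 0| ≤ ε / θ) := by
  by_cases hz0 : μ' ≤ |z 0|
  · by_cases ha1 : θ ≤ |a 1|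
    · by_cases hb1 : θ ≤ |b 1|
      · right
        have a0 : a 1 ≠ 0 := by
          intro h
          rw [h, abs_zero] at ha1
          linarith
        have b0 : b 1 ≠ 0 := by
          intro h
          rw [h, abs_zero] at hb1
          linarith
        have hka : kp θ a = a 0 / a 1 := by
          unfold kp
          rw [if_pos ha1]
        have hkb : kp θ b = b 0 / b 1 := by
          unfold kp
          rw [if_pos hb1]
        constructor
        · have h3 := wd_le hK hK' h1 h2 hμ' (Or.inl hz0)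
          have e : kp θ a - kp θ b = wd a b / (a 1 * b 1) := by
            rw [hka, hkb]
            unfold wd
            field_simp
          rw [e, abs_div]
          refine div_le_div₀ ((abs_nonneg _).trans h3) h3 (by positivity) ?_
          rw [abs_mul, pow_two]
          exact mul_le_mul ha1 hb1 hθ0.le (abs_nonneg _)
        · have e : z 1 + kp θ a * z 0 = dt a z / a 1 := by
            rw [hka]
            unfold dt
            field_simp
            ring
          rw [e, abs_div]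
          exact div_le_div₀ ((abs_nonneg _).trans h1) h1 hθ0 ha1
      · left
        push Not at hb1
        exact (v_small hμ hθ hb hb1 h2 (hz 1)).trans (le_max_right _ _)
    · left
      push Not at ha1
      exact (v_small hμ hθ ha ha1 h1 (hz 1)).trans (le_max_right _ _)
  · left
    push Not at hz0
    exact hz0.le.trans (le_max_left _ _)

end Pool.F5
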