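import Pool.Agent.H64.F5.All

/-!
# (F5) on the event of finitely many windows

`nat_all`: the second derivatives of the ball charts of `c l`, `l ≤ 3`, are natural at all windows of
a list, on one event.
-/

set_option autoImplicit false

namespace Pool.F5

open Finset Real MvPolynomial
open Pool.Agent.H49.Ent Pool.Agent.H32.Dense Pool.STK Pool.KA Pool.KSAT Pool.K2S Pool.PB Pool.S6C
open Pool.GEN Pool.CHT Pool.CHX
open Pool.LBT (ThrOf)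
open Pool.D2F
open Pool.D2Z (Nc frok_sub frok_mono frok_le pow1)
open Pool.D2R (dd hs nrm nrm_nonneg ROut1 Wins star_vel ev_list)

variable {m J : ℕ}

/-- **(F5) at all windows of a list, on one event.** `q k`: a deep window, where the velocities are
read. `pb k`: a later window near the window `k`; `υ`: the growth of the slope of `c 1` between
them. -/
theorem nat_all (m D r : ℕ) (hD : 1 ≤ D) (hr : 1 ≤ r) : ∃ C : ℕ, 1 ≤ C ∧ ∀ {S : PCl m}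
    {P : List (Fin m) × Fin m → ℝ → ℝ → ℝ} {θ : ℝ} {c : ℕ → Fin m} {R : ℕ → Prop}
    {C₀ a Eb ηm ζ υ e h κ₀ : ℝ} {o ε p' η σ : ℕ → ℝ} {lv be : ℕ → ℕ → ℝ} {Dr N M : ℕ}
    (W : ℕ → ℚ) (LS L L₃ : List ℕ) (q pb : ℕ → ℕ), ThrOf (chsys m θ) S P → TmH S →
    Set.InjOn c (Set.Iio (r + 1)) → D ≤ Dr → 0 < h → h ≤ ζ → 0 ≤ υ → 0 < κ₀ → C₀ * ηm ≤ ζ →
    Eb + C * ζ + υ ≤ e → (∀ k ∈ LS, k ≤ N) →
    (∀ k ∈ L, k ∈ LS ∧ o k ≤ W k ∧ 0 ≤ W k ∧ W k < 1 ∧ e < θ * W k) →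
    (∀ k ∈ L, ∀ l < 3, l < r → bet P c l (W k) (W k) + h ≤ 1 ∧
      bet P c l (W k) (W k) ≤ lv k l + ζ) →
    (∀ k ∈ L, ∀ l ≤ 2, l ≤ r → Eb + lv k l + C * ζ + υ ≤ 1) →
    (∀ k ∈ L, C * ζ ≤ lv k 0) →
    (∀ k ∈ L, ∀ l, 1 ≤ l → l ≤ 2 → l < r →
      q k ∈ LS ∧ lv k l - o k + C * ζ + υ ≤ lv (q k) l - o (q k)) →
    (∀ k ∈ L₃, 3 ≤ r ∧ k ∈ L ∧ pb k ∈ L ∧ o k ≤ o (pb k) ∧ o k + C * ζ ≤ 1 ∧ lv k 3 ≤ 1 ∧
      C * ζ ≤ lv k 1 ∧
      lv (pb k) 1 - lv (pb k) 0 + C * ζ ≤ lv k 1 - lv k 0 + υ ∧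
      ∀ l < 2, lv k (l + 1) - lv k 0 + C * ζ ≤ lv (pb k) (l + 1) - lv (pb k) 0) →
    ∃ κ' : ℝ, 0 < κ' ∧ Bas S (fun J F A => ∀ (z : ℕ → ℕ → ℕ) (κ : ℝ) (b : ℕ → ℕ → ℝ)
      (B : F.Ω → Prop) (gc gT g₀ : ℕ → ℕ → ℕ)
      (G : ℕ → PtT F → ℕ → MvPolynomial (Option (Fin m)) ℝ)
      (H : ℕ → LnT F → ℕ → MvPolynomial (Option (Fin m)) ℝ)
      (T : ℕ → PtT F → ℕ → MvPolynomial (Option (Fin m)) ℝ)
      (TH : ℕ → LnT F → ℕ → MvPolynomial (Option (Fin m)) ℝ)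
      (Gt : ℕ → PtT F → MvPolynomial (Option (Fin m)) ℝ)
      (Ht : ℕ → LnT F → MvPolynomial (Option (Fin m)) ℝ)
      (Sv : PtT F → ℕ → Option (Fin m) → ℝ) (B₁ : F.Ω → Prop),
      Wins F c r D Dr N M R C₀ a Eb ηm o ε p' η σ lv be b κ z B gc gT g₀ G H T TH Gt Ht →
      κ ≤ κ' → Sub B A → Sub B₁ B → κ₀ * Pe F.p A ≤ Pe F.p B₁ → (∀ y l, CvC c l (Sv y l)) →
      (∀ ω, B₁ ω → ∀ k ∈ LS, Nc c (g₀ k) ⌊o k * J⌋₊ (r + 1) (2 ^ ⌊ζ * J⌋₊) (Sv (ptr F J ω))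
        (fun l => grd (G k (ptr F J ω) l) (bt F ω))) →
      ∃ B' : F.Ω → Prop, Sub B' B₁ ∧ Pe F.p B₁ ≤ (C : ℝ) ^ (L.length + L₃.length) * Pe F.p B' ∧
        (∀ k ∈ L, LvT F c r ⌊o k * J⌋₊ ⌊C * ζ * J⌋₊ (⌊(Eb + 2 * ηm) * J⌋₊ + ⌊C * ζ * J⌋₊) (g₀ k)
          (G k) Sv B') ∧
        ∀ k ∈ L₃, NatH F c ⌊o k * J⌋₊ (g₀ k) B' (G k) ⌊(C * ζ + 2 * υ) * J⌋₊ 3) := by
  obtain ⟨C₂, hC₂, hlow⟩ := nat_low m D r hD hr
  have hC₂R : (1 : ℝ) ≤ C₂ := by exact_mod_cast hC₂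
  rcases Nat.lt_or_ge r 3 with hr3 | hr3
  · refine ⟨C₂, hC₂, ?_⟩
    intro S P θ c R C₀ a Eb ηm ζ υ e h κ₀ o ε p' η σ lv be Dr N M W LS L L₃ q pb hP hT hc hDr hh
      hhζ hυ hκ₀ hCη hEe hLS hL hpl hnum hl0 hdeep h3
    obtain ⟨κ', hκ', hb⟩ := hlow (R := R) (a := a) (Eb := Eb) (ηm := ηm) (ε := ε) (p' := p')
      (η := η) (σ := σ) (be := be) (M := M) W LS L q hP hT hc hDr hh hhζ hκ₀ hCη (by linarith) hLS hL hpl
      (fun k hk l hl hlr => by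
        have := hnum k hk l hl hlr
        linarith) hl0 (fun k hk hr2 => by
        obtain ⟨h1, h2⟩ := hdeep k hk 1 le_rfl (by norm_num) hr2
        exact ⟨h1, by linarith⟩)
    refine ⟨κ', hκ', Bas.mono 0 hb ?_⟩
    intro J _ F A hA z κ b B gc gT g₀ G H T TH Gt Ht Sv B₁ Wn hκκ hBA hB₁B hκB hSd hS
    obtain ⟨B', k1, k2, k3⟩ := hA z κ b B gc gT g₀ G H T TH Gt Ht Sv B₁ Wn hκκ hBA hB₁B hκB hSd hS
    refine ⟨B', k1, k2.trans (mul_le_mul_of_nonneg_right (pow_le_pow_right₀ hC₂R (by omega))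
      (Pe_nonneg F.isLaw _)), k3, fun k hk => absurd (h3 k hk).1 (by omega)⟩
  obtain ⟨C₃, hC₃, hthr⟩ := lvl_three m D r hD hr3
  obtain ⟨X, hX⟩ : ∃ X, X = C₃ * (C₂ + 10) := ⟨_, rfl⟩
  obtain ⟨C, hC⟩ : ∃ C, C = X + C₂ + C₃ + 4 * ((r + 4) * (r + 4)) + 20 := ⟨_, rfl⟩
  refine ⟨C, by omega, ?_⟩
  intro S P θ c R C₀ a Eb ηm ζ υ e h κ₀ o ε p' η σ lv be Dr N M W LS L L₃ q pb hP hT hc hDr hh hhζ
    hυ hκ₀ hCη hEe hLS hL hpl hnum hl0 hdeep h3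
  have hζ : 0 < ζ := lt_of_lt_of_le hh hhζ
  have hC₃R : (1 : ℝ) ≤ C₃ := by exact_mod_cast hC₃
  have hXR : (0 : ℝ) ≤ X := Nat.cast_nonneg X
  have hCX : (C : ℝ) = X + C₂ + C₃ + 4 * ((r + 4) * (r + 4)) + 20 := by
    rw [hC]
    push_cast
    ring
  have hrr : 0 ≤ 4 * (((r : ℝ) + 4) * (r + 4)) := by positivity
  have hC₂C : (C₂ : ℝ) * ζ ≤ C * ζ := mul_le_mul_of_nonneg_right (by linarith) hζ.le
  have hCR : (1 : ℝ) ≤ C := by linarith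
  obtain ⟨κ', hκ', hb⟩ := hlow (R := R) (a := a) (Eb := Eb) (ηm := ηm) (ε := ε) (p' := p')
      (η := η) (σ := σ) (be := be) (M := M) W LS L q hP hT hc hDr hh hhζ hκ₀ hCη (by linarith) hLS hL hpl
    (fun k hk l hl hlr => by
      have := hnum k hk l hl hlr
      linarith) (fun k hk => hC₂C.trans (hl0 k hk)) (fun k hk hr2 => by
      obtain ⟨h1, h2⟩ := hdeep k hk 1 le_rfl (by norm_num) hr2
      exact ⟨h1, by linarith⟩)
  obtain ⟨κ₃, hκ₃⟩ : ∃ κ₃ : ℝ, κ₃ = κ₀ / (C ^ L.length * C ^ L₃.length) := ⟨_, rfl⟩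
  have hκ₃0 : 0 < κ₃ := by rw [hκ₃]; positivity
  have h1 := fun (k : ℕ) (hk : k ∈ L₃) => hthr hP hT c hc (W k) (W (pb k)) e h ζ κ₃
    (hL k (h3 k hk).2.1).2.2.1 (hL k (h3 k hk).2.1).2.2.2.1.le (hL k (h3 k hk).2.1).2.2.2.2
    (hL _ (h3 k hk).2.2.1).2.2.1 (hL _ (h3 k hk).2.2.1).2.2.2.1.le
    (hL _ (h3 k hk).2.2.1).2.2.2.2 hh (hpl k (h3 k hk).2.1 0 (by norm_num) (by omega)).1
    (hpl k (h3 k hk).2.1 1 (by norm_num) (by omega)).1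
    (hpl k (h3 k hk).2.1 2 (by norm_num) (by omega)).1
    (hpl _ (h3 k hk).2.2.1 1 (by norm_num) (by omega)).1 hζ hκ₃0
  choose κf hκf hbf using h1
  obtain ⟨κ₄, hκ₄, hκm⟩ := min_mem L₃ hκf
  obtain ⟨J₁, hJ₁⟩ := exists_nat_gt (1 / ζ)
  refine ⟨min κ' κ₄, lt_min hκ' hκ₄, Bas.mono J₁ (hb.and (bas_mem L₃ hbf)) ?_⟩
  rintro J hJ F A ⟨hA2, hA⟩ z κ b B gc gT g₀ G H T TH Gt Ht Sv B₁ Wn hκκ hBA hB₁B hκB hSd hS
  obtain ⟨B₂, c1, c2, c3⟩ := hA2 z κ b B gc gT g₀ G H T TH Gt Ht Sv B₁ Wn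
    (hκκ.trans (min_le_left _ _)) hBA hB₁B hκB hSd hS
  have hp := Pe_nonneg F.isLaw
  have hJ0 : (0 : ℝ) ≤ J := Nat.cast_nonneg J
  have hζJ : 1 ≤ ζ * J := by
    have : 1 / ζ < J := hJ₁.trans_le (by exact_mod_cast hJ)
    rw [div_lt_iff₀ hζ] at this
    linarith
  obtain ⟨Y, hY⟩ : ∃ Y : ℕ, Y = ⌊ζ * J⌋₊ + 1 := ⟨_, rfl⟩
  have hY1 : ζ * J ≤ Y := by
    rw [hY]
    push_cast
    exact (Nat.lt_floor_add_one _).le
  have hY2 : (Y : ℝ) ≤ 2 * (ζ * J) := by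
    rw [hY]
    push_cast
    have := Nat.floor_le (by linarith : 0 ≤ ζ * (J : ℝ))
    linarith
  have hYp : (2 : ℝ) ^ ⌊ζ * J⌋₊ ≤ 2 ^ Y := by
    rw [hY]
    exact pow_le_pow_right₀ (by norm_num) (Nat.le_succ _)
  have hYone : 1 ≤ Y := by omega
  have hCY : C₀ * (ηm * J) ≤ Y := by
    have : C₀ * (ηm * J) = C₀ * ηm * J := by ring
    rw [this]
    exact (mul_le_mul_of_nonneg_right hCη hJ0).trans hY1
  -- the constants
  obtain ⟨K₂, hK₂⟩ : ∃ K₂, K₂ = ⌊C₂ * ζ * J⌋₊ := ⟨_, rfl⟩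
  obtain ⟨k₁, hk₁⟩ : ∃ k₁, k₁ = K₂ + Y := ⟨_, rfl⟩
  obtain ⟨E, hE⟩ : ∃ E, E = k₁ + 3 * Y + 1 := ⟨_, rfl⟩
  have hK₂R : (K₂ : ℝ) ≤ C₂ * (ζ * J) := by
    rw [hK₂]
    refine (Nat.floor_le (by positivity)).trans (le_of_eq (by ring))
  have hER : (E : ℝ) ≤ (C₂ + 10) * (ζ * J) := by
    rw [hE, hk₁]
    push_cast
    linarith
  obtain ⟨Λ, hΛ⟩ : ∃ Λ : ℝ, Λ = X * (ζ * J) := ⟨_, rfl⟩
  have hCER : ((C₃ * E : ℕ) : ℝ) ≤ Λ := by
    rw [hΛ, hX]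
    push_cast
    have := mul_le_mul_of_nonneg_left hER (by linarith : (0 : ℝ) ≤ C₃)
    linarith
  have hΛ0 : 0 ≤ Λ := by rw [hΛ]; positivity
  have hCζ : Λ + C₂ * (ζ * J) + 4 * ((r + 4) * (r + 4)) * (ζ * J) + 20 * (ζ * J) ≤
      C * ζ * J := by
    rw [hΛ, hCX]
    have : 0 ≤ C₃ * (ζ * J) := by positivity
    linarith
  have hrrJ : 0 ≤ 4 * (((r : ℝ) + 4) * (r + 4)) * (ζ * J) := by positivity
  have hC₂J : 0 ≤ C₂ * (ζ * J) := by positivity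
  obtain ⟨u, hu⟩ : ∃ u, u = ⌊υ * J⌋₊ := ⟨_, rfl⟩
  have hυJ : 0 ≤ υ * J := mul_nonneg hυ hJ0
  have hu1 : (u : ℝ) ≤ υ * J := by rw [hu]; exact Nat.floor_le hυJ
  have hu2 : υ * J ≤ u + 1 := by rw [hu]; exact (Nat.lt_floor_add_one _).le
  obtain ⟨e₀, he₀⟩ : ∃ e₀, e₀ = ⌊(Eb + 2 * ηm) * J⌋₊ := ⟨_, rfl⟩
  rw [← he₀, ← hK₂] at c3
  have hKC : K₂ ≤ ⌊C * ζ * J⌋₊ := Nat.le_floor (by linarith)
  -- the windows
  have hstep : ∀ k ∈ L₃, ∀ B' : F.Ω → Prop, Sub B' B₂ →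
      Pe F.p B₂ ≤ (C : ℝ) ^ L₃.length * Pe F.p B' →
      ∃ B'' : F.Ω → Prop, Sub B'' B' ∧ Pe F.p B' ≤ (C : ℝ) * Pe F.p B'' ∧
        NatH F c ⌊o k * J⌋₊ (g₀ k) B'' (G k) ⌊(C * ζ + 2 * υ) * J⌋₊ 3 := by
    intro k hk B' hB' hPB'
    obtain ⟨-, hkL, hbL, hWW, hW1C, hlv3, hlv1, hpu, hpz⟩ := h3 k hk
    obtain ⟨hkS, hok, hW0, hW1, heW⟩ := hL k hkL
    obtain ⟨hbS, hob, hWb0, hWb1, heWb⟩ := hL _ hbL
    have hkN := hLS k hkS
    have hbN := hLS _ hbS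
    have hηm0 : 0 ≤ ηm := (Wn.hη k hkN).1.trans (Wn.hη k hkN).2
    have hηζ : ηm ≤ ζ := (le_mul_of_one_le_left hηm0 Wn.C1).trans hCη
    have hηJ : ηm * J ≤ ζ * J := mul_le_mul_of_nonneg_right hηζ hJ0
    have hηJ0 : 0 ≤ ηm * J := mul_nonneg hηm0 hJ0
    have hB'₁ : Sub B' B₁ := fun ω hω => c1 ω (hB' ω hω)
    have hB'B : Sub B' B := fun ω hω => hB₁B ω (hB'₁ ω hω)
    have hEb := Wn.Eb0
    have hEbJ : 0 ≤ Eb * J := mul_nonneg hEb hJ0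
    have hfE : (e₀ : ℝ) ≤ Eb * J + 2 * (ζ * J) := by
      rw [he₀]
      refine (Nat.floor_le (mul_nonneg (by linarith) hJ0)).trans ?_
      rw [add_mul]
      linarith
    have hSk : ∀ k ∈ LS, ∀ ω, B' ω → Nc c (g₀ k) ⌊o k * J⌋₊ (r + 1) (2 ^ Y) (Sv (ptr F J ω))
        (fun l => grd (G k (ptr F J ω) l) (bt F ω)) := fun k hk ω hω =>
      (hS ω (hB'₁ ω hω) k hk).mono hYp
    have hWok := wins_ok Wn hkN hCY hB'B hSd (hSk k hkS)
    rw [← he₀] at hWok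
    have hWR : (0 : ℝ) ≤ W k := by exact_mod_cast hW0
    have hWbR : (0 : ℝ) ≤ W (pb k) := by exact_mod_cast hWb0
    have hWb1R : (W (pb k) : ℝ) < 1 := by exact_mod_cast hWb1
    obtain ⟨a₀, ha₀⟩ : ∃ a₀, a₀ = ⌊o k * J⌋₊ := ⟨_, rfl⟩
    obtain ⟨b₀, hb₀⟩ : ∃ b₀, b₀ = ⌊o (pb k) * J⌋₊ := ⟨_, rfl⟩
    have hab : a₀ ≤ b₀ := by
      rw [ha₀, hb₀]
      exact Nat.floor_le_floor (mul_le_mul_of_nonneg_right hWW hJ0)
    have haW : ⌊o k * J⌋₊ ≤ ⌊(W k : ℝ) * J⌋₊ :=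
      Nat.floor_le_floor (mul_le_mul_of_nonneg_right hok hJ0)
    have hbW : ⌊o (pb k) * J⌋₊ ≤ ⌊(W (pb k) : ℝ) * J⌋₊ :=
      Nat.floor_le_floor (mul_le_mul_of_nonneg_right hob hJ0)
    have hbJ : b₀ ≤ J := by
      rw [hb₀]
      refine hbW.trans ?_
      have h2 : ((W (pb k) : ℚ) : ℝ) * J ≤ J := by
        have := mul_le_mul_of_nonneg_right hWb1R.le hJ0
        rwa [one_mul] at this
      have h3 := Nat.floor_le_floor h2
      rwa [Nat.floor_natCast] at h3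
    have ha₀R : (a₀ : ℝ) ≤ o k * J := by
      rw [ha₀]
      exact Nat.floor_le (mul_nonneg (Wn.ho k hkN).1 hJ0)
    have hgk := fun (l : ℕ) (hl : l ≤ r) => Wn.g_num hkN hl
    have hgb := fun (l : ℕ) (hl : l ≤ r) => Wn.g_num hbN hl
    obtain ⟨ψ, ψH, f1, f2, f3⟩ := (c3 k hkL).sub (k' := k₁) (e' := e₀ + k₁) hB' (by omega)
      (by omega)
    obtain ⟨ψ₁, ψH₁, f4, f5, -⟩ := (c3 _ hbL).sub (k' := k₁) (e' := e₀ + k₁) hB' (by omega)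
      (by omega)
    have hmin : min 3 (r + 1) = 3 := by omega
    rw [hmin, ← ha₀] at f1 f2
    rw [hmin, ← hb₀] at f4 f5
    rw [← ha₀] at f3
    have hpla : ∀ k' ∈ L, ∀ l < 3, ∀ a', a' = ⌊o k' * J⌋₊ →
        ⌊(bet P c l (W k') (W k') + h) * J⌋₊ + a' ≤ g₀ k' l + 3 * Y + ⌊(W k' : ℝ) * J⌋₊ := by
      intro k' hk' l hl a' ha'
      obtain ⟨hkS', hok', hW0', hW1', -⟩ := hL k' hk'
      obtain ⟨-, -, g1, -, -⟩ := Wn.g_num (hLS k' hkS') (show l ≤ r by omega)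
      obtain ⟨h2, h3⟩ := hpl k' hk' l hl (by omega)
      have hWR' : (0 : ℝ) ≤ W k' := by exact_mod_cast hW0'
      have h4 : (⌊(bet P c l (W k') (W k') + h) * J⌋₊ : ℝ) ≤
          (bet P c l (W k') (W k') + h) * J := by
        refine Nat.floor_le (mul_nonneg ?_ hJ0)
        have : (0 : ℝ) ≤ bet P c l (W k') (W k') := hWR'.trans (hP.low _ _ _ hWR' le_rfl (by
          exact_mod_cast hW1'.le))
        linarith
      have h5 := mul_le_mul_of_nonneg_right h3 hJ0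
      have h6 := mul_le_mul_of_nonneg_right hhζ hJ0
      have h7 : ((⌊(bet P c l (W k') (W k') + h) * J⌋₊ : ℕ) : ℝ) ≤
          ((g₀ k' l + 3 * Y : ℕ) : ℝ) := by
        push_cast
        have e1 := add_mul (bet P c l (W k') (W k')) h (J : ℝ)
        rw [add_mul] at h5
        linarith
      have h8 : ⌊(bet P c l (W k') (W k') + h) * J⌋₊ ≤ g₀ k' l + 3 * Y := by exact_mod_cast h7
      have h9 : ⌊o k' * J⌋₊ ≤ ⌊(W k' : ℝ) * J⌋₊ :=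
        Nat.floor_le_floor (mul_le_mul_of_nonneg_right hok' hJ0)
      rw [ha']
      omega
    have hnumJ : ∀ k' ∈ L, ∀ l ≤ 2, Eb * J + lv k' l * J + C * ζ * J + υ * J ≤ J := by
      intro k' hk' l hl
      have h2 := mul_le_mul_of_nonneg_right (hnum k' hk' l hl (by omega)) hJ0
      rw [add_mul, add_mul, add_mul, one_mul] at h2
      exact h2
    have heJ : e₀ + C₃ * E + u ≤ ⌊e * J⌋₊ := by
      refine Nat.le_floor ?_
      push_cast at hCER ⊢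
      have := mul_le_mul_of_nonneg_right hEe hJ0
      rw [add_mul, add_mul] at this
      linarith
    have hX2 : (((r + 4) * (r + 4) * (Y + 1) + (C₃ * E + u) + 1 : ℕ) : ℝ) ≤
        4 * ((r + 4) * (r + 4)) * (ζ * J) + Λ + υ * J + ζ * J := by
      push_cast at hCER ⊢
      have h4 : ((r : ℝ) + 4) * (r + 4) * (Y + 1) ≤ (r + 4) * (r + 4) * (4 * (ζ * J)) :=
        mul_le_mul_of_nonneg_left (by linarith) (by positivity)
      linarith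
    obtain ⟨B'', k1, k2, k3⟩ := hA k hk a₀ a₀ (⌊a * J⌋₊ - a₀) b₀ e₀ e₀ Y k₁ (3 * Y) u 0 (g₀ k)
      (gT k) (g₀ (pb k)) _ (G k) (H k) (T k) (TH k) (Ht k) Sv ψ ψ₁ ψH ψH₁ B B' hab hbJ
      (by rw [ha₀]; exact haW) (by rw [hb₀]; exact hbW) (hY1.trans (by
        have : Y ≤ k₁ := by omega
        exact_mod_cast this)) (by omega) (by
        rw [← hE]
        have h2 := mul_le_mul_of_nonneg_right hW1C hJ0
        rw [add_mul, one_mul] at h2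
        have h3 : ((a₀ + C₃ * E : ℕ) : ℝ) ≤ (J : ℕ) := by
          push_cast at hCER ⊢
          linarith
        exact_mod_cast h3) (by rw [← hE]; exact heJ) (by rw [← hE]; exact heJ) (fun j hj => by
        rw [← hE]
        obtain ⟨-, -, -, g2, -⟩ := hgk j (by omega)
        have h2 := hnumJ k hkL j hj
        have h3 : ((e₀ + g₀ k j + C₃ * E + u : ℕ) : ℝ) ≤ (J : ℕ) := by
          push_cast at hCER ⊢
          linarith
        exact_mod_cast h3) (fun j hj => by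
        rw [← hE]
        obtain ⟨-, -, -, g2, -⟩ := hgb j (by omega)
        have h2 := hnumJ _ hbL j (by omega)
        have h3 : ((e₀ + g₀ (pb k) j + C₃ * E + u : ℕ) : ℝ) ≤ (J : ℕ) := by
          push_cast at hCER ⊢
          linarith
        exact_mod_cast h3) (by
        obtain ⟨-, -, -, g2, -⟩ := hgk 3 hr3
        have h2 := mul_le_mul_of_nonneg_right hlv3 hJ0
        rw [one_mul] at h2
        have h3 : ((g₀ k 3 : ℕ) : ℝ) ≤ (J : ℕ) := by linarith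
        exact_mod_cast h3) (fun l hl => by
        rw [← hE]
        obtain ⟨-, -, g1, -, -⟩ := hgk l (by omega)
        have h2 : C * ζ * J ≤ lv k l * J := by
          refine mul_le_mul_of_nonneg_right ?_ hJ0
          obtain h | h : l = 0 ∨ l = 1 := by omega
          · rw [h]; exact hl0 k hkL
          · rw [h]; exact hlv1
        have h3 : ((C₃ * E : ℕ) : ℝ) ≤ (g₀ k l : ℕ) := by linarith
        exact_mod_cast h3) (by
        rw [← hE]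
        obtain ⟨-, -, g1, -, -⟩ := hgb 0 (by omega)
        have h2 := mul_le_mul_of_nonneg_right (hl0 _ hbL) hJ0
        have h3 : ((C₃ * E : ℕ) : ℝ) ≤ (g₀ (pb k) 0 : ℕ) := by linarith
        exact_mod_cast h3) (fun l hl => hpla k hkL l (by omega) a₀ ha₀)
      (hpla _ hbL 1 (by norm_num) b₀ hb₀) (by
        obtain ⟨-, -, -, x1, -⟩ := hgb 1 (by omega)
        obtain ⟨-, -, -, x2, -⟩ := hgk 0 (by omega)
        obtain ⟨-, -, x3, -, -⟩ := hgb 0 (by omega)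
        obtain ⟨-, -, x4, -, -⟩ := hgk 1 (by omega)
        have h2 := mul_le_mul_of_nonneg_right hpu hJ0
        rw [add_mul, add_mul, sub_mul, sub_mul] at h2
        have h3 : ((g₀ (pb k) 1 + g₀ k 0 : ℕ) : ℝ) ≤ ((u + g₀ (pb k) 0 + g₀ k 1 : ℕ) : ℝ) := by
          push_cast
          linarith
        exact_mod_cast h3) (fun l hl => by
        rw [← hE]
        obtain ⟨-, -, -, x1, -⟩ := hgk (l + 1) (by omega)
        obtain ⟨-, -, -, x2, -⟩ := hgb 0 (by omega)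
        obtain ⟨-, -, x3, -, -⟩ := hgk 0 (by omega)
        obtain ⟨-, -, x4, -, -⟩ := hgb (l + 1) (by omega)
        have h2 := mul_le_mul_of_nonneg_right (hpz l hl) hJ0
        rw [add_mul, sub_mul, sub_mul] at h2
        have h3 : ((g₀ k (l + 1) + g₀ (pb k) 0 + C₃ * E : ℕ) : ℝ) ≤
            ((g₀ k 0 + g₀ (pb k) (l + 1) : ℕ) : ℝ) := by
          push_cast at hCER ⊢
          linarith
        exact_mod_cast h3) hB'B hBA (by
        have h2 : κ₀ * Pe F.p A ≤ C ^ L.length * C ^ L₃.length * Pe F.p B' := by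
          refine hκB.trans (c2.trans ?_)
          rw [mul_assoc]
          refine mul_le_mul ?_ hPB' (hp _) (by positivity)
          exact pow_le_pow_left₀ (by positivity) (by linarith) _
        rw [hκ₃, div_mul_eq_mul_div, div_le_iff₀ (by positivity)]
        linarith) (by
        rw [ha₀]
        exact hWok) f1 f4 f2 f5 (fun l hl => f3 l hl (by omega)) (by
        intro ω hω l hl1 hl3
        rw [← hE, ha₀]
        obtain ⟨hqS, hqv⟩ := hdeep k hkL l hl1 (by omega) (by omega)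
        refine wins_deep Wn hkN (hLS _ hqS) (by omega) hCY hB'B (hSk _ hqS) ?_ ω hω
        have h2 := mul_le_mul_of_nonneg_right hqv hJ0
        rw [add_mul, add_mul] at h2
        linarith) (by
        intro ω hω l hl1 hl3
        rw [← hE, hb₀]
        obtain ⟨hqS, hqv⟩ := hdeep _ hbL l hl1 (by omega) (by omega)
        refine wins_deep Wn hbN (hLS _ hqS) (by omega) hCY hB'B (hSk _ hqS) ?_ ω hω
        have h2 := mul_le_mul_of_nonneg_right hqv hJ0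
        rw [add_mul, add_mul] at h2
        linarith) (by
        have h2 : (⌊η k * J⌋₊ : ℝ) ≤ Y := by
          refine (Nat.floor_le (mul_nonneg (Wn.hη k hkN).1 hJ0)).trans ?_
          have := mul_le_mul_of_nonneg_right (Wn.hη k hkN).2 hJ0
          linarith
        rw [ha₀]
        exact Pool.ISO.relvF_exp ((Wn.evs k hkN).relb.mono hDr (hκκ.trans ((min_le_right _ _).trans
          (hκm k hk)))) (by exact_mod_cast h2))
    have hC₃C : (C₃ : ℝ) ≤ C := by linarith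
    rw [← hE] at k3
    rw [← ha₀]
    refine ⟨B'', k1, k2.trans (mul_le_mul_of_nonneg_right hC₃C (hp _)), k3.sub (fun _ h => h)
      (Nat.le_floor ?_)⟩
    push_cast at hCER ⊢
    rw [add_mul]
    linarith
  obtain ⟨B', d1, d2, d3⟩ := ev_list (fun k B'' => NatH F c ⌊o k * J⌋₊ (g₀ k) B'' (G k)
    ⌊(C * ζ + 2 * υ) * J⌋₊ 3) hCR (fun k B B' h hB => h.sub hB le_rfl) L₃ B₂ hstep
  rw [← he₀]
  refine ⟨B', fun ω hω => c1 ω (d1 ω hω), ?_, fun k hk => (c3 k hk).sub d1 hKC (by omega), d3⟩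
  rw [pow_add, mul_assoc]
  refine c2.trans (mul_le_mul ?_ d2 (hp _) (by positivity))
  exact pow_le_pow_left₀ (by positivity) (by linarith) _

end Pool.F5
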