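import Pool.Agent.H64.F5.Rel
import Pool.Agent.H60.D2.Rnd

/-!
# (F5): an a priori bound

`apr_smp`: a crude bound for the second derivative of the ball chart at the sample, from the
gradients of the chain of labels, the own velocity and the own second derivative.
-/

set_option autoImplicit false

namespace Pool.F5

open Finset Real MvPolynomial
open Pool.Agent.H49.Ent Pool.Agent.H32.Dense Pool.STK Pool.KA Pool.KSAT Pool.K2S Pool.PB Pool.S6C
open Pool.GEN Pool.CHT Pool.CHX
open Pool.D2F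
open Pool.D2Z (pd_zero' cvc_grd)
open Pool.D2R (dd hs nrm nrm_nonneg nrm_none nrm_comp nrm_le box_all dd_add dd_smul dd_sub hs_add_left
  hs_add_right hs_smul_left hs_smul_right hs_comm)

variable {m J : ℕ}

/-- The second derivative in a spatial direction. -/
theorem hs_sp {c : ℕ → Fin m} {l : ℕ} (hc : Set.InjOn c (Set.Iio l))
    {P : MvPolynomial (Option (Fin m)) ℝ} (hP : DepC c l P) (x W : Option (Fin m) → ℝ)
    {R : Option (Fin m) → ℝ} (hR : R none = 0) :
    hs P x W R = ∑ j ∈ range l, dd (pderiv (some (c j)) P) x W * R (some (c j)) := by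
  obtain ⟨χ, hχ⟩ : ∃ χ : Option (Fin m) → ℝ, χ = fun o => dd (pderiv o P) x W := ⟨_, rfl⟩
  have e1 : hs P x W R = cv χ R := by
    rw [hχ]
    rfl
  have e2 : CvC c l χ := by
    intro k hk
    rw [hχ]
    show dd (pderiv (some k) P) x W = 0
    rw [pd_zero' hP (fun l hl => (hk l hl).symm)]
    unfold dd
    simp
  rw [e1, cv_eq hc e2, hR, mul_zero, zero_add, hχ]

/-- The size of a spatial direction. -/
theorem sp_le {c : ℕ → Fin m} {l : ℕ} (hc : Set.InjOn c (Set.Iio l))
    {G : ℕ → MvPolynomial (Option (Fin m)) ℝ} (hdep : ∀ j, DepC c j (G j)) {g : ℕ → ℕ} {a : ℕ}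
    {x R : Option (Fin m) → ℝ} {A K : ℝ} (hA : 0 ≤ A)
    (hlip : ∀ j < l, ∀ i < j, |eval x (pderiv (some (c i)) (G j))| ≤ A) (hR : R none = 0)
    (hK : nrm c G g a l x R ≤ K) : ∀ j < l, |R (some (c j))| ≤ K * (1 + A) ^ j := by
  have hK0 : 0 ≤ K := (nrm_nonneg c G g a l x R).trans hK
  intro j
  induction j using Nat.strong_induction_on with
  | _ j ih =>
    intro hj
    have h1 := nrm_comp c G g a l x R hj
    have h2 : |R (some (c j)) - dd (G j) x R| ≤ K := by
      refine h1.trans ((div_le_self (nrm_nonneg c G g a l x R) (one_le_pow₀ (by norm_num))).trans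
        hK)
    have h3 : dd (G j) x R = ∑ i ∈ range j, eval x (pderiv (some (c i)) (G j)) *
        R (some (c i)) := by
      rw [← cv_grd, cv_eq (hc.mono (Set.Iio_subset_Iio hj.le)) (cvc_grd (hdep j) x), hR, mul_zero,
        zero_add]
      rfl
    have h4 : |dd (G j) x R| ≤ ∑ i ∈ range j, A * (K * (1 + A) ^ i) := by
      rw [h3]
      refine (Finset.abs_sum_le_sum_abs _ _).trans (Finset.sum_le_sum fun i hi => ?_)
      have hi' := Finset.mem_range.1 hi
      rw [abs_mul]
      exact mul_le_mul (hlip j hj i hi') (ih i hi' (hi'.trans hj)) (abs_nonneg _) hA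
    have h5 : ∑ i ∈ range j, A * (K * (1 + A) ^ i) = K * ((1 + A) ^ j - 1) := by
      have h6 := geom_sum_mul (1 + A) j
      have h7 : ∑ i ∈ range j, A * (K * (1 + A) ^ i) = K * ((∑ i ∈ range j, (1 + A) ^ i) *
          (1 + A - 1)) := by
        rw [Finset.sum_mul, Finset.mul_sum]
        exact Finset.sum_congr rfl fun i _ => by ring
      rw [h7, h6]
    have h8 : R (some (c j)) = (R (some (c j)) - dd (G j) x R) + dd (G j) x R := by ring
    rw [h8]
    refine (abs_add_le _ _).trans ?_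
    rw [h5] at h4
    linarith

/-- **A crude bound** at the sample. -/
theorem apr_smp (D l : ℕ) : ∃ C : ℕ, ∀ {m J : ℕ} {F : Fam m J} {c : ℕ → Fin m} {a e k : ℕ}
    {g : ℕ → ℕ} {B : F.Ω → Prop} {G : PtT F → ℕ → MvPolynomial (Option (Fin m)) ℝ}
    {H : LnT F → ℕ → MvPolynomial (Option (Fin m)) ℝ}, Set.InjOn c (Set.Iio l) →
    ChOK F c (l + 1) (fun _ => D) a a e g B G H → (∀ j ≤ l, g j ≤ J) →
    (∀ ω, B ω → ∀ j ≤ l, |bd F ω (some (c j)) - dd (G (ptr F J ω) j) (bt F ω) (bd F ω)| ≤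
      2 ^ k * 2 ^ a / 2 ^ g j) →
    (∀ ω, B ω → |hs (G (ptr F J ω) l) (bt F ω) (bd F ω) (bd F ω)| ≤
      2 ^ k * (2 ^ a) ^ 2 / 2 ^ g l) → ∀ ω, B ω → ∀ V V' : Option (Fin m) → ℝ,
    |hs (G (ptr F J ω) l) (bt F ω) V V'| ≤ 2 ^ (C * (J + e + k + 1)) *
      (nrm c (G (ptr F J ω)) g a l (bt F ω) V * nrm c (G (ptr F J ω)) g a l (bt F ω) V') := by
  obtain ⟨C₁, hC₁, hbox⟩ := box_all l D D
  obtain ⟨c₁, hc₁⟩ := pow_unbounded_of_one_lt (C₁ + l + 1) (one_lt_two (α := ℝ))
  refine ⟨4 * c₁ + 2 * l + 20, ?_⟩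
  intro m J F c a e k g B G H hc hch hgJ hvel hnul ω hω
  obtain ⟨x, hx⟩ : ∃ x, x = bt F ω := ⟨_, rfl⟩
  obtain ⟨Gx, hGx⟩ : ∃ Gx, Gx = G (ptr F J ω) := ⟨_, rfl⟩
  obtain ⟨W, hW⟩ : ∃ W, W = bd F ω := ⟨_, rfl⟩
  obtain ⟨N, hN⟩ : ∃ N : (Option (Fin m) → ℝ) → ℝ, N = fun V => nrm c Gx g a l x V := ⟨_, rfl⟩
  obtain ⟨A, hA⟩ : ∃ A : ℝ, A = 2 ^ (e + J) := ⟨_, rfl⟩
  obtain ⟨K, hK⟩ : ∃ K : ℝ, K = 2 ^ (c₁ + k) := ⟨_, rfl⟩
  have hA1 : 1 ≤ A := by rw [hA]; exact one_le_pow₀ (by norm_num)
  have hc1 : (l : ℝ) + 1 ≤ 2 ^ c₁ := by linarith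
  have hC1' : C₁ ≤ 2 ^ c₁ := by
    have : (0 : ℝ) ≤ l := Nat.cast_nonneg l
    linarith
  have hk1 : (1 : ℝ) ≤ 2 ^ k := one_le_pow₀ (by norm_num)
  have hK1 : ((l : ℝ) + 1) * 2 ^ k ≤ K := by
    rw [hK, pow_add]
    exact mul_le_mul_of_nonneg_right hc1 (by positivity)
  have h1K : 1 ≤ K := by rw [hK]; exact one_le_pow₀ (by norm_num)
  have hN0 : ∀ V, 0 ≤ N V := fun V => by rw [hN]; exact nrm_nonneg _ _ _ _ _ _ _
  rw [← hx, ← hGx]
  have hdep : ∀ j, DepC c j (Gx j) := fun j => by rw [hGx]; exact hch.depG _ j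
  have hdeg : ∀ j, (Gx j).totalDegree ≤ D := fun j => by rw [hGx]; exact hch.degG _ j
  have hxt : x none = F.t ω := by rw [hx]; rfl
  have hpos : ∀ j < l, |x (some (c j)) - eval x (Gx j)| ≤ 1 / 2 ^ g j := fun j hj => by
    rw [hx, hGx]
    exact hch.pos ω hω j (by omega)
  have hnx : ∀ i ≤ l, NBx c Gx g a (F.t ω) i x := fun i hi =>
    ⟨by rw [hxt, sub_self, abs_zero]; positivity, fun j hj => hpos j (by omega)⟩
  have hnlp : ∀ j i, i ≤ l → nlp g j i ≤ J := fun j i hi => by
    unfold nlp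
    refine (Nat.sub_le _ _).trans (Finset.sup_le fun b hb => ?_)
    exact hgJ b (by have := (Finset.mem_Icc.1 hb).2; omega)
  have hlip : ∀ i ≤ l, ∀ b, NBx c Gx g a (F.t ω) i b → ∀ j < i,
      |eval b (pderiv (some (c j)) (Gx i))| ≤ A := by
    intro i hi b hb j hj
    rw [hGx] at hb ⊢
    refine (hch.lip ω hω i (by omega) b hb j hj).trans ?_
    rw [hA]
    exact pow_le_pow_right₀ (by norm_num) (by have := hnlp j i hi; omega)
  -- the first derivative of the gradients
  have hdd : ∀ j < l, ∀ V, |dd (pderiv (some (c j)) (Gx l)) x V| ≤ C₁ * A * N V := by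
    intro j hj V
    rw [hN]
    refine (hbox (c := c) (ψ := Gx) (Q := pderiv (some (c j)) (Gx l)) (g := g) (a := a) (M := A)
      (x := x) hc hdeg hdep (DepC.pderiv (hdep l) j) (totalDegree_pdσ (hdeg l) _)
      (by linarith) ?_ hpos).1 V
    intro b hb
    rw [hxt] at hb
    exact hlip l le_rfl b hb j hj
  -- a spatial direction
  obtain ⟨S, hS⟩ : ∃ S : ℝ, S = l * (C₁ * A * (1 + A) ^ l) := ⟨_, rfl⟩
  have hS0 : 0 ≤ S := by rw [hS]; positivity
  have hsp : ∀ V R : Option (Fin m) → ℝ, R none = 0 → |hs (Gx l) x V R| ≤ S * (N V * N R) := by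
    intro V R hR
    rw [hs_sp hc (hdep l) x V hR]
    refine (Finset.abs_sum_le_sum_abs _ _).trans ?_
    have h1 := sp_le (a := a) (g := g) (x := x) (K := N R) hc hdep (A := A) (by linarith)
      (fun j hj i hi => hlip j hj.le x (hnx j hj.le) i hi) hR (by rw [hN])
    have h2 : ∀ j ∈ range l, |dd (pderiv (some (c j)) (Gx l)) x V * R (some (c j))| ≤
        C₁ * A * (1 + A) ^ l * (N V * N R) := by
      intro j hj
      have hj' := Finset.mem_range.1 hj
      rw [abs_mul]
      refine (mul_le_mul (hdd j hj' V) (h1 j hj') (abs_nonneg _)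
        (mul_nonneg (by positivity) (hN0 V))).trans ?_
      have h3 : (1 + A) ^ j ≤ (1 + A) ^ l := pow_le_pow_right₀ (by linarith) hj'.le
      calc C₁ * A * N V * (N R * (1 + A) ^ j) = C₁ * A * (N V * N R) * (1 + A) ^ j := by ring
        _ ≤ C₁ * A * (N V * N R) * (1 + A) ^ l :=
          mul_le_mul_of_nonneg_left h3 (mul_nonneg (by positivity) (mul_nonneg (hN0 V) (hN0 R)))
        _ = _ := by ring
    refine (Finset.sum_le_sum h2).trans (le_of_eq ?_)
    rw [Finset.sum_const, Finset.card_range, nsmul_eq_mul, hS]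
    ring
  -- the own velocity
  have hWn : W none = 1 := by rw [hW]; rfl
  have ha0 : (0 : ℝ) < 2 ^ a := by positivity
  have hNW : N W ≤ K * 2 ^ a := by
    rw [hN]
    refine (nrm_le (L := 2 ^ k * 2 ^ a) ?_ ?_).trans ?_
    · rw [hWn, abs_one, mul_div_assoc, div_self ha0.ne', mul_one]
      exact hk1
    · intro j hj
      rw [hGx, hx, hW]
      exact hvel ω hω j hj.le
    · calc ((l : ℝ) + 1) * (2 ^ k * 2 ^ a) = ((l : ℝ) + 1) * 2 ^ k * 2 ^ a := by ring
        _ ≤ _ := mul_le_mul_of_nonneg_right hK1 ha0.le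
  obtain ⟨R, hR⟩ : ∃ R : (Option (Fin m) → ℝ) → Option (Fin m) → ℝ, R = fun V =>
      V - V none • W := ⟨_, rfl⟩
  have hRn : ∀ V, R V none = 0 := fun V => by
    rw [hR]
    show V none - V none * W none = 0
    rw [hWn]
    ring
  have hVR : ∀ V, V = V none • W + R V := fun V => by
    rw [hR]
    simp
  have hal : ∀ V, |V none| * 2 ^ a ≤ N V := fun V => by
    have h1 := nrm_none c Gx g a l x V
    rw [le_div_iff₀ ha0] at h1
    rw [hN]
    exact h1
  have hNR : ∀ V, N (R V) ≤ 2 * K * N V := by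
    intro V
    have h1 : N (R V) ≤ N V + |V none| * N W := by
      rw [hN, hR]
      show nrm c Gx g a l x (V - V none • W) ≤ nrm c Gx g a l x V + |V none| *
        nrm c Gx g a l x W
      unfold nrm
      have e1 : 2 ^ a * |(V - V none • W) none| ≤ 2 ^ a * |V none| +
          |V none| * (2 ^ a * |W none|) := by
        have e2 : |(V - V none • W) none| ≤ |V none| + |V none| * |W none| := by
          rw [Pi.sub_apply, Pi.smul_apply, smul_eq_mul]
          refine (abs_sub _ _).trans (le_of_eq ?_)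
          rw [abs_mul]
        calc 2 ^ a * |(V - V none • W) none| ≤ 2 ^ a * (|V none| + |V none| * |W none|) :=
              mul_le_mul_of_nonneg_left e2 ha0.le
          _ = _ := by ring
      have e3 : ∑ j ∈ range l, 2 ^ g j * |(V - V none • W) (some (c j)) -
          dd (Gx j) x (V - V none • W)| ≤
          ∑ j ∈ range l, 2 ^ g j * |V (some (c j)) - dd (Gx j) x V| +
          |V none| * ∑ j ∈ range l, 2 ^ g j * |W (some (c j)) - dd (Gx j) x W| := by
        rw [Finset.mul_sum, ← Finset.sum_add_distrib]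
        refine Finset.sum_le_sum fun j _ => ?_
        have e4 : (V - V none • W) (some (c j)) - dd (Gx j) x (V - V none • W) =
            (V (some (c j)) - dd (Gx j) x V) - V none * (W (some (c j)) - dd (Gx j) x W) := by
          rw [sub_eq_add_neg V, ← neg_smul, dd_add, dd_smul, Pi.add_apply, Pi.smul_apply,
            smul_eq_mul]
          ring
        rw [e4]
        have e5 := abs_sub (V (some (c j)) - dd (Gx j) x V)
          (V none * (W (some (c j)) - dd (Gx j) x W))
        rw [abs_mul] at e5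
        calc 2 ^ g j * |V (some (c j)) - dd (Gx j) x V - V none *
              (W (some (c j)) - dd (Gx j) x W)| ≤ 2 ^ g j * (|V (some (c j)) - dd (Gx j) x V| +
              |V none| * |W (some (c j)) - dd (Gx j) x W|) :=
              mul_le_mul_of_nonneg_left e5 (by positivity)
          _ = _ := by ring
      linarith
    have h2 : |V none| * N W ≤ K * N V := by
      calc |V none| * N W ≤ |V none| * (K * 2 ^ a) :=
            mul_le_mul_of_nonneg_left hNW (abs_nonneg _)
        _ = K * (|V none| * 2 ^ a) := by ring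
        _ ≤ _ := mul_le_mul_of_nonneg_left (hal V) (by linarith)
    have h3 : N V ≤ K * N V := le_mul_of_one_le_left (hN0 V) h1K
    linarith
  have hWW : |hs (Gx l) x W W| ≤ K * (2 ^ a) ^ 2 := by
    have h1 := hnul ω hω
    rw [← hx, ← hGx, ← hW] at h1
    refine h1.trans ((div_le_self (by positivity) (one_le_pow₀ (by norm_num))).trans ?_)
    refine mul_le_mul_of_nonneg_right ?_ (by positivity)
    rw [hK]
    exact pow_le_pow_right₀ (by norm_num) (by omega)
  have hfin : ∀ V V', |hs (Gx l) x V V'| ≤ (K + S * K * (2 * K) + S * (2 * K)) *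
      (N V * N V') := by
    intro V V'
    have e1 : hs (Gx l) x V V' = V none * (V' none * hs (Gx l) x W W + hs (Gx l) x W (R V')) +
        hs (Gx l) x V' (R V) := by
      have e2 : hs (Gx l) x V V' = V none * hs (Gx l) x W V' + hs (Gx l) x (R V) V' := by
        conv_lhs => rw [hVR V]
        rw [hs_add_left, hs_smul_left]
      have e3 : hs (Gx l) x W V' = V' none * hs (Gx l) x W W + hs (Gx l) x W (R V') := by
        conv_lhs => rw [hVR V']
        rw [hs_add_right, hs_smul_right]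
      rw [e2, e3, hs_comm (Gx l) x (R V) V']
    have h1 : |V none * (V' none * hs (Gx l) x W W)| ≤ K * (N V * N V') := by
      rw [abs_mul, abs_mul]
      calc |V none| * (|V' none| * |hs (Gx l) x W W|) ≤
            |V none| * (|V' none| * (K * (2 ^ a) ^ 2)) :=
            mul_le_mul_of_nonneg_left (mul_le_mul_of_nonneg_left hWW (abs_nonneg _))
              (abs_nonneg _)
        _ = K * ((|V none| * 2 ^ a) * (|V' none| * 2 ^ a)) := by ring
        _ ≤ _ := mul_le_mul_of_nonneg_left (mul_le_mul (hal V) (hal V')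
            (by positivity) (hN0 V)) (by linarith)
    have h2 : |V none * hs (Gx l) x W (R V')| ≤ S * K * (2 * K) * (N V * N V') := by
      rw [abs_mul]
      have h3 := hsp W (R V') (hRn V')
      calc |V none| * |hs (Gx l) x W (R V')| ≤ |V none| * (S * (K * 2 ^ a * (2 * K * N V'))) := by
            refine mul_le_mul_of_nonneg_left (h3.trans (mul_le_mul_of_nonneg_left
              (mul_le_mul hNW (hNR V') (hN0 _) (by positivity)) hS0)) (abs_nonneg _)
        _ = S * K * (2 * K) * ((|V none| * 2 ^ a) * N V') := by ring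
        _ ≤ _ := mul_le_mul_of_nonneg_left (mul_le_mul_of_nonneg_right (hal V) (hN0 V'))
            (by positivity)
    have h4 : |hs (Gx l) x V' (R V)| ≤ S * (2 * K) * (N V * N V') := by
      refine (hsp V' (R V) (hRn V)).trans ?_
      calc S * (N V' * N (R V)) ≤ S * (N V' * (2 * K * N V)) :=
            mul_le_mul_of_nonneg_left (mul_le_mul_of_nonneg_left (hNR V) (hN0 V')) hS0
        _ = _ := by ring
    rw [e1, mul_add]
    refine (abs_add_le _ _).trans ((add_le_add (abs_add_le _ _) le_rfl).trans ?_)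
    linarith
  intro V V'
  refine (hfin V V').trans ?_
  rw [hN]
  refine mul_le_mul_of_nonneg_right ?_ (mul_nonneg (nrm_nonneg _ _ _ _ _ _ _)
    (nrm_nonneg _ _ _ _ _ _ _))
  -- the numbers
  have hS1 : S ≤ 2 ^ (2 * c₁ + (l + 1) * (e + J + 1)) := by
    have h1 : 1 + A ≤ 2 ^ (e + J + 1) := by rw [pow_succ, ← hA]; linarith
    have h2 : (1 + A) ^ l ≤ 2 ^ (l * (e + J + 1)) := by
      calc (1 + A) ^ l ≤ (2 ^ (e + J + 1)) ^ l := pow_le_pow_left₀ (by linarith) h1 l
        _ = _ := by rw [← pow_mul, mul_comm]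
    calc S = l * C₁ * A * (1 + A) ^ l := by rw [hS]; ring
      _ ≤ 2 ^ c₁ * 2 ^ c₁ * 2 ^ (e + J + 1) * 2 ^ (l * (e + J + 1)) := by
        refine mul_le_mul (mul_le_mul (mul_le_mul (by linarith) hC1' (by linarith)
          (by positivity)) (by linarith) (by linarith) (by positivity)) h2 (by positivity)
          (by positivity)
      _ = _ := by
        rw [← pow_add, ← pow_add, ← pow_add]
        congr 1
        ring
  have hT : K + S * K * (2 * K) + S * (2 * K) ≤ 8 * (K * K * 2 ^ (2 * c₁ + (l + 1) *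
      (e + J + 1))) := by
    have h0 : (1 : ℝ) ≤ 2 ^ (2 * c₁ + (l + 1) * (e + J + 1)) := one_le_pow₀ (by norm_num)
    have h1 : K ≤ K * K := le_mul_of_one_le_left (by linarith) h1K
    have h2 : K * K ≤ K * K * 2 ^ (2 * c₁ + (l + 1) * (e + J + 1)) :=
      le_mul_of_one_le_right (by positivity) h0
    have h3 : S * K * (2 * K) ≤ 2 * (K * K * 2 ^ (2 * c₁ + (l + 1) * (e + J + 1))) := by
      calc S * K * (2 * K) = 2 * (K * K * S) := by ring
        _ ≤ _ := by
          refine mul_le_mul_of_nonneg_left (mul_le_mul_of_nonneg_left hS1 (by positivity))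
            (by norm_num)
    have h4 : S * (2 * K) ≤ 2 * (K * K * 2 ^ (2 * c₁ + (l + 1) * (e + J + 1))) := by
      calc S * (2 * K) = 2 * (K * S) := by ring
        _ ≤ 2 * (K * K * 2 ^ (2 * c₁ + (l + 1) * (e + J + 1))) := by
          refine mul_le_mul_of_nonneg_left (mul_le_mul h1 hS1 hS0 (by positivity)) (by norm_num)
    linarith
  refine hT.trans (le_of_eq_of_le (b := (2 : ℝ) ^ (3 + ((c₁ + k) + (c₁ + k)) + (2 * c₁ +
    (l + 1) * (e + J + 1)))) ?_ (pow_le_pow_right₀ (by norm_num) ?_))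
  · rw [hK, pow_add, pow_add, pow_add]
    ring
  · nlinarith [Nat.zero_le (c₁ * (J + e + k)), Nat.zero_le (l * (J + e + k)), Nat.zero_le k,
      Nat.zero_le c₁, Nat.zero_le l, Nat.zero_le (J + e)]

end Pool.F5
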