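import Pool.Agent.H64.F5.Num

/-!
# (F5), two coordinates of `V1`: the join

`f5_two`: an event on which the normalised second derivative of the ball chart is not small is small.
-/

set_option autoImplicit false

namespace Pool.F5

open Finset Real MvPolynomial
open Pool.Agent.H49.Ent Pool.Agent.H32.Dense Pool.STK Pool.KA Pool.KSAT Pool.K2S Pool.PB Pool.S6C
open Pool.GEN Pool.CHT Pool.CHX
open Pool.LBT (ThrOf)
open Pool.D2F
open Pool.SEP46 (sep_cls cl_ev)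
open Pool.FLF (Fam.sub)
open Pool.PB.Trl (rt rt_mem t_rt)
open Pool.D2R (dd hs dd_add dd_smul dd_sub hs_sub hs_add_left hs_add_right hs_smul_left hs_smul_right
  hs_comm co co_slam)

variable {m J : ℕ}

theorem dt_neg (a : Fin 2 → ℝ) (M M' : Fin 2 → Fin 2 → ℝ) :
    dt a (zz M M') = -dt a (zz M' M) := by
  unfold dt zz
  ring

theorem dz_eq {T : Type} (M : T → Fin 2 → Fin 2 → ℝ) (y y' : T) :
    dz (fun y => M y 0) (fun y => M y 1) y y' = zz (M y) (M y') := by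
  funext k
  fin_cases k <;> rfl

/-- The visible data for a covector. -/
theorem HPol.vdat {F : Fam m J} {c : ℕ → Fin m} {g : ℕ → ℕ} {a D : ℕ}
    {ψ : PtT F → ℕ → Option (Fin m) → ℝ} {B B' : F.Ω → Prop}
    {PG : PtT F → MvPolynomial (Option (Fin 3)) ℝ} {PH : LnT F → MvPolynomial (Option (Fin 3)) ℝ}
    {M : PtT F → Fin 2 → Fin 2 → ℝ} {A K ε Ka μ : ℝ} {al : PtT F → Fin 2 → ℝ}
    (h : HPol F c g a 2 D ψ B PG PH M A K ε) (hB : Sub B' B)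
    (hal : ∀ ω, B' ω → ∀ j, |al (ptr F J ω) j| ≤ Ka)
    (hla : ∀ ω, B' ω → μ ≤ |al (ptr F J ω) 0| ∨ μ ≤ |al (ptr F J ω) 1|) :
    VDat F c g a ψ B' (fun y => M y 0) (fun y => M y 1) al ε A Ka μ :=
  ⟨fun ω hω => h.slp ω (hB ω hω) 0, fun ω hω => h.slp ω (hB ω hω) 1,
    fun ω hω j => h.bM ω (hB ω hω) 0 j, fun ω hω j => h.bM ω (hB ω hω) 1 j, hal, hla⟩

/-- **(F5), two coordinates of `V1`.** -/
theorem f5_two (m D : ℕ) (hD1 : 1 ≤ D) : ∃ C : ℕ, 1 ≤ C ∧ ∀ {θ : ℝ} {S : PCl m}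
    {P : List (Fin m) × Fin m → ℝ → ℝ → ℝ}, ThrOf (chsys m θ) S P → TmH S →
    ∀ (c : ℕ → Fin m), Set.InjOn c (Set.Iio 3) → ∀ (a b : ℚ) (e h ρ : ℝ), 0 ≤ a → a ≤ 1 →
    e < θ * a → 0 ≤ b → b ≤ 1 → e < θ * b → 0 < h → 0 < ρ → bet P c 0 a a + h ≤ 1 →
    bet P c 1 a a + h ≤ 1 → bet P c 2 a a + h ≤ 1 → bet P c 1 b b + h ≤ 1 →
    ∃ δ : ℝ, 0 < δ ∧ Bas S (fun J F A =>
      ∀ (n n₁ a₀ b₀ e₀ e₁ k x s s₁ s₀ r w V p₀ p₁ p₂ p₃ : ℕ) (g g₁ : ℕ → ℕ)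
      (ψ ψ₁ : PtT F → ℕ → Option (Fin m) → ℝ) (ψH ψH₁ : LnT F → ℕ → Option (Fin m) → ℝ)
      (PG : PtT F → MvPolynomial (Option (Fin 3)) ℝ)
      (PH : LnT F → MvPolynomial (Option (Fin 3)) ℝ) (M : PtT F → Fin 2 → Fin 2 → ℝ)
      (Nv : PtT F → Fin 2 → ℝ) (ε ε₁ κ δz : ℝ), 3 ≤ n → 2 ≤ n₁ → a₀ ≤ b₀ → b₀ ≤ J →
      a₀ ≤ ⌊(a : ℝ) * J⌋₊ → b₀ ≤ ⌊(b : ℝ) * J⌋₊ → k ≤ x → w = x + s + s₁ + s₀ + r + 1 →
      ρ * J ≤ r → a₀ + r ≤ J → e₀ + 2 * (C * w) ≤ ⌊e * J⌋₊ → e₁ + 2 * (C * w) ≤ ⌊e * J⌋₊ →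
      2 * (C * w) ≤ V → (∀ j ≤ 2, e₀ + g j + V ≤ J) → (∀ j ≤ 1, e₁ + g₁ j + V ≤ J) →
      (∀ l < 2, k + 1 ≤ g l) → k + 1 ≤ g₁ 0 →
      p₀ ≤ g 0 + s → p₀ ≤ J → ⌊(bet P c 0 a a + h) * J⌋₊ + a₀ ≤ p₀ + ⌊(a : ℝ) * J⌋₊ →
      p₁ ≤ g 1 + s → p₁ ≤ J → ⌊(bet P c 1 a a + h) * J⌋₊ + a₀ ≤ p₁ + ⌊(a : ℝ) * J⌋₊ →
      p₂ ≤ g 2 + s → p₂ ≤ J → ⌊(bet P c 2 a a + h) * J⌋₊ + a₀ ≤ p₂ + ⌊(a : ℝ) * J⌋₊ →
      p₃ ≤ g₁ 1 + s₁ → p₃ ≤ J → ⌊(bet P c 1 b b + h) * J⌋₊ + b₀ ≤ p₃ + ⌊(b : ℝ) * J⌋₊ →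
      0 ≤ ε → 0 ≤ ε₁ → 0 < κ → ε * 2 ^ (C * w) ≤ 1 → ε₁ * 2 ^ (C * w) ≤ 1 →
      κ * ε * 2 ^ (C * w) ≤ 1 → δz * 2 ^ (C * w) ≤ 1 →
      ∀ B : F.Ω → Prop, Sub B A → FrOK F c n a₀ k e₀ g B ψ ψH →
      HPol F c g a₀ 2 D ψ B PG PH M (2 ^ x) (2 ^ x) ε → FrOK F c n₁ b₀ k e₁ g₁ B ψ₁ ψH₁ →
      (∀ ω, B ω → ∀ j, |Nv (ptr F J ω) j| ≤ 2 ^ x) →
      (∀ ω, B ω → |Xn F c g₁ b₀ ψ₁ ω 2 -
        (Nv (ptr F J ω) 0 + Nv (ptr F J ω) 1 * Xn F c g₁ b₀ ψ₁ ω 1)| ≤ ε₁) →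
      (∀ ω ω', B ω → B ω' → slam F b₀ ω = slam F b₀ ω' → |Nv (ptr F J ω') 1 -
        Nv (ptr F J ω) 1| ≤ κ * |M (ptr F J ω') 0 1 - M (ptr F J ω) 0 1|) →
      (∀ ω ω', B ω → B ω' → slam F b₀ ω = slam F b₀ ω' → ∀ l,
        |M (ptr F J ω') l 1 - M (ptr F J ω) l 1| ≤ δz) →
      (∀ ω, B ω → ∃ o o' : Option (Fin 3),
        1 / 2 ^ s₀ ≤ |hs (PG (ptr F J ω)) 0 (eo o) (eo o')|) →
      Pe F.p B ≤ Real.exp (-(δ * J)) * Pe F.p A) := by
  classical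
  obtain ⟨C₁, hC₁, N₁, hpair⟩ := pl_pair D hD1
  obtain ⟨C₂, hC₂, N₂, hdv⟩ := pl_dv D hD1
  obtain ⟨Cr, hCr, hrem⟩ := rem_dv m D
  obtain ⟨c₁, hc₁⟩ := pow_unbounded_of_one_lt C₁ (one_lt_two (α := ℝ))
  obtain ⟨c₂, hc₂⟩ := pow_unbounded_of_one_lt C₂ (one_lt_two (α := ℝ))
  refine ⟨130 * (c₁ + c₂ + 9 * N₁ + 9 * N₂ + 40), by omega, ?_⟩
  intro θ S P hP hS c hc a b e h ρ ha0 ha he hb0 hb he' hh hρ hbt0 hbt1 hbt2 hbt3
  have hc2 : Set.InjOn c (Set.Iio 2) := hc.mono (Set.Iio_subset_Iio (by norm_num))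
  have hL2 : 0 < Real.log 2 := Real.log_pos (by norm_num)
  -- the time
  obtain ⟨εt, hεt⟩ : ∃ εt, εt = ρ * Real.log 2 / (2 * Cr) := ⟨_, rfl⟩
  have hCr0 : 0 < Cr := by linarith
  have hεt0 : 0 < εt := by rw [hεt]; positivity
  obtain ⟨δt, hδt, bt⟩ := bas_dl (hS.2 εt hεt0)
  obtain ⟨δ₁, hδ₁, b1⟩ := sep_cls hP c (D + 1) a e h ha0 ha he hh hbt0
  obtain ⟨δ₂, hδ₂, b2⟩ := ev_zero hP c a e h ha0 ha he hh hbt0
  obtain ⟨δ₃, hδ₃, b3⟩ := ev_one hP c hc2 b e h hb0 hb he' hh hbt3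
  obtain ⟨δ₄, hδ₄, b4⟩ := kil_ev hP c hc a e h ha0 ha he hh hbt1 hbt2
  obtain ⟨δ, hδ⟩ : ∃ δ, δ = min (min δt δ₁) (min δ₂ (min δ₃ δ₄)) := ⟨_, rfl⟩
  have hδ0 : 0 < δ := by
    rw [hδ]
    exact lt_min (lt_min hδt hδ₁) (lt_min hδ₂ (lt_min hδ₃ hδ₄))
  have dt' : δ ≤ δt := by rw [hδ]; exact (min_le_left _ _).trans (min_le_left _ _)
  have d1 : δ ≤ δ₁ := by rw [hδ]; exact (min_le_left _ _).trans (min_le_right _ _)
  have d2 : δ ≤ δ₂ := by rw [hδ]; exact (min_le_right _ _).trans (min_le_left _ _)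
  have d3 : δ ≤ δ₃ := by
    rw [hδ]
    exact (min_le_right _ _).trans ((min_le_right _ _).trans (min_le_left _ _))
  have d4 : δ ≤ δ₄ := by
    rw [hδ]
    exact (min_le_right _ _).trans ((min_le_right _ _).trans (min_le_right _ _))
  obtain ⟨J₀, hJ₀⟩ := exp_half hδ0 (K := 24) (by norm_num)
  obtain ⟨J₁, hJ₁⟩ := exists_nat_ge (2 * Cr / (ρ * Real.log 2))
  refine ⟨δ / 2, by linarith, (bt.and (b1.and (b2.and (b3.and b4)))).mono (max J₀ J₁) ?_⟩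
  rintro J hJ F A ⟨lt', l1, l2, l3, l4⟩ n n₁ a₀ b₀ e₀ e₁ k x s s₁ s₀ r w V p₀ p₁ p₂ p₃ g g₁ ψ ψ₁ ψH
    ψH₁ PG PH M Nv ε ε₁ κ δz hn hn1 hab hbJ haa hbb hkx hw hρr har hee hee1 hV hJg hJg1 hgk hgk1
    hp0 hp0J hq0 hp1 hp1J hq1 hp2 hp2J hq2 hp3 hp3J hq3 hε hε₁ hκ hnε hnε₁ hnκ hnδ B hBA hfr hH
    hfr1 hNb hNo hNz hMz hrel
  have haJ : a₀ ≤ J := hab.trans hbJ
  have hPA := Pe_nonneg F.isLaw A
  have hJR : (0 : ℝ) ≤ J := Nat.cast_nonneg J
  have hex : ∀ d : ℝ, δ ≤ d → Real.exp (-(d * J)) * Pe F.p A ≤ Real.exp (-(δ * J)) * Pe F.p A := by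
    intro d hd
    refine mul_le_mul_of_nonneg_right (Real.exp_le_exp.2 ?_) hPA
    nlinarith
  obtain ⟨xx, hxx⟩ : ∃ xx, xx = Real.exp (-(δ * J)) * Pe F.p A := ⟨_, rfl⟩
  have hxx0 : 0 ≤ xx := by rw [hxx]; exact mul_nonneg (Real.exp_pos _).le hPA
  rw [← hxx] at hex
  suffices hmain : Pe F.p B ≤ 24 * xx by
    refine hmain.trans ?_
    rw [hxx, ← mul_assoc]
    exact mul_le_mul_of_nonneg_right (hJ₀ J ((le_max_left _ _).trans hJ)) hPA
  by_cases hB : Real.exp (-(δ₁ * J)) * Pe F.p A ≤ Pe F.p B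
  swap
  · push Not at hB
    linarith [hex δ₁ d1]
  -- the numbers
  obtain ⟨Y, hY⟩ : ∃ Y : ℝ, Y = 2 ^ ((c₁ + c₂ + 9 * N₁ + 9 * N₂ + 40) * w) := ⟨_, rfl⟩
  obtain ⟨y0, y1, y2, y3, y4, y5, y6, y7, y8⟩ := num_unit (N₁ := N₁) (N₂ := N₂) hc₁.le hc₂.le hkx hw
  rw [← hY] at y0 y1 y2 y3 y4 y5 y6 y7 y8
  have hYC : (2 : ℝ) ^ (130 * (c₁ + c₂ + 9 * N₁ + 9 * N₂ + 40) * w) = Y ^ 130 := by
    rw [hY, ← pow_mul]
    congr 1
    ring
  rw [hYC] at hnε hnε₁ hnκ hnδ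
  obtain ⟨u, hu⟩ : ∃ u, u = 1 / Y := ⟨_, rfl⟩
  have hN : NumY Y u := by rw [hu]; exact numY y0
  have sε := hN.sm hnε
  have sε₁ := hN.sm hnε₁
  have sκ := hN.sm hnκ
  have sδ := hN.sm hnδ
  have hY0 : 0 < Y := by linarith
  have hu0 := hN.u0
  have hup : ∀ i : ℕ, 0 < u ^ i := fun i => pow_pos hu0 i
  have hu1 : u ≤ 1 := by linarith [hN.u1]
  have hup1 : ∀ i : ℕ, u ^ i ≤ 1 := fun i => pow_le_one₀ hu0.le hu1
  obtain ⟨mu, hmu⟩ : ∃ mu : ℝ, mu = 1 / 2 ^ (s + 2 * k + 9) := ⟨_, rfl⟩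
  have hmu0 : 0 < mu := by rw [hmu]; positivity
  have hmu1 : mu ≤ 1 := by
    rw [hmu, div_le_one (by positivity)]
    exact one_le_pow₀ (by norm_num)
  rw [← hmu] at y3 y4
  obtain ⟨X, hX⟩ : ∃ X : ℝ, X = 2 ^ x := ⟨_, rfl⟩
  rw [← hX] at hH hNb y1 y2 y3 y4
  have hX1 : 1 ≤ X := by rw [hX]; exact one_le_pow₀ (by norm_num)
  have hX0 : 0 ≤ X := by linarith
  have hXmu : 0 ≤ X / mu := by positivity
  obtain ⟨er1, er2, er3, er4⟩ := hN.err (X := C₁ * (X / mu) ^ N₁) (A := X) (K := X) y3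
    (by positivity) y1 y1 y2 hε
  have hCw : ∀ i : ℕ, i ≤ 130 → Y ^ i ≤ 2 ^ (130 * (c₁ + c₂ + 9 * N₁ + 9 * N₂ + 40) * w) := by
    intro i hi
    rw [hYC]
    exact pow_le_pow_right₀ (by linarith) hi
  have hwC : 4 * x + 4 * s + s₁ + 40 ≤ 130 * (c₁ + c₂ + 9 * N₁ + 9 * N₂ + 40) * w := by
    calc 4 * x + 4 * s + s₁ + 40 ≤ 130 * 40 * w := by omega
      _ ≤ _ := Nat.mul_le_mul_right _ (Nat.mul_le_mul_left _ (by omega))
  obtain ⟨L, hL⟩ : ∃ L, L = 130 * (c₁ + c₂ + 9 * N₁ + 9 * N₂ + 40) * w := ⟨_, rfl⟩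
  rw [← hL] at hee hee1 hV hwC hCw
  -- the rich points
  obtain ⟨B₁, k1, k2, k3⟩ := l1 n a₀ e₀ k s V p₀ g ψ ψH (by omega) haJ haa (by omega) (by omega)
    (hJg 0 (by omega)) hp0 hp0J hq0 B hBA hfr hB
  have hLn : ∀ ω, B₁ ω → Lns F c g a₀ D ψ B mu ω := by
    intro ω hω
    obtain ⟨ν, v1, -, v3⟩ := k3 ω hω
    exact ⟨ν, v1, fun i j hij => by rw [hmu]; exact v3 i j hij⟩
  have sX : 2 * X ^ 2 * ε ≤ 1 := by
    have h1 : X ^ 2 ≤ Y := by rw [pow_two]; exact y2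
    have h2 : 2 * X ^ 2 * ε ≤ 2 * Y * u ^ 130 := by
      refine mul_le_mul (by linarith) sε hε (by positivity)
    have h3 : 2 * Y * u ^ 130 = 2 * (Y ^ 1 * u ^ (1 + 129)) := by ring
    rw [h3, hN.can] at h2
    have h4 := hN.stp 128
    have h5 := hup1 128
    linarith
  -- the pairs
  have hFP : ∀ ω ω', B₁ ω → B₁ ω' → slam F a₀ ω = slam F a₀ ω' →
      FP (Hm (PG (ptr F J ω))) (M (ptr F J ω)) (M (ptr F J ω')) (Y ^ 2 * ε) := by
    intro ω ω' hω hω' hsl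
    refine ⟨Hm_symm _, fun i j => ?_, fun i j => ?_⟩
    · rw [bf_hh]
      exact (hpair hH hX1 hX1 hε sX hmu0 hmu1 ω ω (k1 ω hω) (k1 ω hω) rfl rfl (hLn ω hω) i j).trans
        er1
    · rw [bf_hh]
      exact (hpair hH hX1 hX1 hε sX hmu0 hmu1 ω' ω (k1 ω' hω') (k1 ω hω) hsl.symm
        (Xn_eq hfr (k1 ω' hω') (k1 ω hω) hsl.symm) (hLn ω' hω') i j).trans er1
  -- the sizes
  have hHm : ∀ ω, B ω → ∀ i j, |Hm (PG (ptr F J ω)) i j| ≤ X := fun ω hω i j =>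
    hH.bx ω hω 0 _ _ (fun o => by simp; positivity) (eo_le _) (eo_le _)
  have hAA : ∀ ω, B ω → ∀ i k, |aa (Hm (PG (ptr F J ω))) (M (ptr F J ω)) i k| ≤ Y := by
    intro ω hω i k
    unfold aa
    rw [bf_he]
    refine ((hH.bx ω hω).le hX0 zero_le_one (fun o => by simp; positivity)
      (fun o => lv_le hX1 (hH.bM ω hω) i o) (eo_le _)).trans ?_
    rw [mul_one]
    exact y2
  have hQQ : ∀ ω, B ω → ∀ k l, |qq (Hm (PG (ptr F J ω))) k l| ≤ Y := by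
    intro ω hω k l
    unfold qq
    rw [bf_ee]
    exact (hH.bx ω hω 0 _ _ (fun o => by simp; positivity) (eo_le _) (eo_le _)).trans y1
  have hE1 : ∀ ω, B ω → |Xn F c g a₀ ψ ω 1| ≤ X := fun ω hω => hH.bX ω hω 1 (by norm_num)
  have hzb : ∀ ω ω', B ω → B ω' → ∀ l, |zz (M (ptr F J ω)) (M (ptr F J ω')) l| ≤ 2 * Y := by
    intro ω ω' hω hω' l
    unfold zz
    refine (abs_sub _ _).trans ?_
    have h1 := hH.bM ω hω l 1
    have h2 := hH.bM ω' hω' l 1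
    linarith
  -- the first relation
  have hone : ∀ ω ω', B₁ ω → B₁ ω' → slam F a₀ ω = slam F a₀ ω' →
      |dt (fun k => aa (Hm (PG (ptr F J ω))) (M (ptr F J ω)) 0 k + Xn F c g a₀ ψ ω 1 *
        aa (Hm (PG (ptr F J ω))) (M (ptr F J ω)) 1 k)
        (zz (M (ptr F J ω)) (M (ptr F J ω')))| ≤ Y ^ 5 * ε := by
    intro ω ω' hω hω' hsl
    refine (fp_one (hFP ω ω' hω hω' hsl) (hE1 ω (k1 ω hω)) (hHm ω (k1 ω hω)) hX1
      (hH.bM ω' (k1 ω' hω')) (fun l => ?_)).trans er3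
    exact (hH.dif (k1 ω hω) (k1 ω' hω') (Xn_eq hfr (k1 ω hω) (k1 ω' hω') hsl) l).trans er2
  -- the events
  obtain ⟨Bd, hBd⟩ : ∃ Bd : F.Ω → Prop, Bd = fun ω => B₁ ω ∧
      u ^ 119 ≤ |wd (aa (Hm (PG (ptr F J ω))) (M (ptr F J ω)) 0)
        (aa (Hm (PG (ptr F J ω))) (M (ptr F J ω)) 1)| := ⟨_, rfl⟩
  obtain ⟨BE, hBE⟩ : ∃ BE : F.Ω → Prop, BE = fun ω => B₁ ω ∧
      (∃ i k, u ^ 32 ≤ |aa (Hm (PG (ptr F J ω))) (M (ptr F J ω)) i k|) ∧
      ∀ k, |aa (Hm (PG (ptr F J ω))) (M (ptr F J ω)) 0 k + Xn F c g a₀ ψ ω 1 *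
        aa (Hm (PG (ptr F J ω))) (M (ptr F J ω)) 1 k| ≤ u ^ 37 := ⟨_, rfl⟩
  obtain ⟨BK, hBK⟩ : ∃ BK : F.Ω → Prop, BK = fun ω => B₁ ω ∧
      |wd (aa (Hm (PG (ptr F J ω))) (M (ptr F J ω)) 0)
        (aa (Hm (PG (ptr F J ω))) (M (ptr F J ω)) 1)| ≤ u ^ 119 ∧
      (∃ i k, u ^ 32 ≤ |aa (Hm (PG (ptr F J ω))) (M (ptr F J ω)) i k|) ∧
      ∃ k, u ^ 37 ≤ |aa (Hm (PG (ptr F J ω))) (M (ptr F J ω)) 0 k + Xn F c g a₀ ψ ω 1 *
        aa (Hm (PG (ptr F J ω))) (M (ptr F J ω)) 1 k| := ⟨_, rfl⟩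
  obtain ⟨B₄, hB₄⟩ : ∃ B₄ : F.Ω → Prop, B₄ = fun ω => B₁ ω ∧
      ∀ i k, |aa (Hm (PG (ptr F J ω))) (M (ptr F J ω)) i k| ≤ u ^ 32 := ⟨_, rfl⟩
  -- the determinant
  have sd : Pe F.p Bd ≤ xx := by
    refine le_trans ?_ (hex δ₃ d3)
    have hsub : Sub Bd B := fun ω hω => by
      rw [hBd] at hω
      exact k1 ω hω.1
    refine l3 n₁ b₀ e₁ x k s₁ V p₃ g₁ ψ₁ ψH₁ Nv u ε₁ hn1 hbJ hbb (by omega) (by omega) hJg1 hgk1
      hp3 hp3J hq3 ?_ hu0.le hε₁ Bd (fun ω hω => hBA ω (hsub ω hω)) (fr_sub hfr1 hsub)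
      (fun ω hω j => by rw [← hX]; exact hNb ω (hsub ω hω) j) (fun ω hω => hNo ω (hsub ω hω)) ?_
    · -- the number
      have h1 : (2 : ℝ) ^ k * 2 ^ (2 * k + 10 + s₁) ≤ Y / 4 := by
        rw [le_div_iff₀ (by norm_num), ← pow_add]
        calc (2 : ℝ) ^ (k + (2 * k + 10 + s₁)) * 4 = 2 ^ (3 * k + s₁ + 12) := by
              rw [show 3 * k + s₁ + 12 = k + (2 * k + 10 + s₁) + 2 by ring, pow_add _ _ 2]
              norm_num
          _ ≤ Y := y6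
      have h2 : (2 : ℝ) ^ (2 * k + 10 + s₁) ≤ Y := by
        refine le_trans ?_ y6
        exact pow_le_pow_right₀ (by norm_num) (by omega)
      have h3 : (2 : ℝ) ^ k * u * 2 ^ (2 * k + 10 + s₁) ≤ 1 / 4 := by
        have := mul_le_mul_of_nonneg_left h1 hu0.le
        have e1 : u * (Y / 4) = 1 / 4 := by
          have := hN.uY
          linarith [mul_comm u Y]
        rw [e1] at this
        linarith
      have h4 : 2 * ε₁ * 2 ^ (2 * k + 10 + s₁) ≤ 1 / 4 := by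
        have h5 : 2 * ε₁ * 2 ^ (2 * k + 10 + s₁) ≤ 2 * u ^ 130 * Y :=
          mul_le_mul (by linarith) h2 (by positivity) (by positivity)
        have e1 : 2 * u ^ 130 * Y = 2 * (Y ^ 1 * u ^ (1 + 129)) := by ring
        rw [e1, hN.can] at h5
        have h6 := hN.stp 128
        have h7 := hup1 128
        linarith
      linarith
    · intro ω ω' hω hω' hsl
      have hωB := hsub ω hω
      have hωB' := hsub ω' hω'
      rw [hBd] at hω hω'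
      have hsl' : slam F a₀ ω = slam F a₀ ω' := by
        rw [← co_slam F hab hbJ, ← co_slam F hab hbJ, hsl]
      by_contra hcon
      push Not at hcon
      have hz0 : 1 / (κ * Y) ≤ |zz (M (ptr F J ω)) (M (ptr F J ω')) 0| := by
        have h1 := hcon.le.trans (hNz ω ω' hωB hωB' hsl)
        rw [div_le_iff₀ (by positivity)]
        have h2 := mul_le_mul_of_nonneg_left h1 hY0.le
        rw [hN.uY] at h2
        show 1 ≤ |M (ptr F J ω') 0 1 - M (ptr F J ω) 0 1| * (κ * Y)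
        linarith
      obtain ⟨zv, hzv⟩ : ∃ zv, zv = zz (M (ptr F J ω)) (M (ptr F J ω')) := ⟨_, rfl⟩
      obtain ⟨Z, hZ⟩ : ∃ Z, Z = max |zv 0| |zv 1| := ⟨_, rfl⟩
      have hZ0 : 1 / (κ * Y) ≤ Z := by
        rw [hZ, hzv]
        exact hz0.trans (le_max_left _ _)
      have hZj : ∀ j, |zv j| ≤ Z := by
        intro j
        rw [hZ]
        fin_cases j
        · exact le_max_left _ _
        · exact le_max_right _ _
      have hZδ : Z ≤ δz := by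
        rw [hZ, hzv]
        exact max_le (hMz ω ω' hωB hωB' hsl 0) (hMz ω ω' hωB hωB' hsl 1)
      have hZor : Z ≤ |zv 0| ∨ Z ≤ |zv 1| := by
        rw [hZ]
        rcases le_total |zv 0| |zv 1| with h | h
        · exact Or.inr (max_le h le_rfl)
        · exact Or.inl (max_le le_rfl h)
      have hZp : 0 < Z := lt_of_lt_of_le (by positivity) hZ0
      have h3 := rank_le (A := aa (Hm (PG (ptr F J ω))) (M (ptr F J ω)))
        (q := qq (Hm (PG (ptr F J ω)))) (R := Y) (K := Y) (ε := Y ^ 5 * ε) (z := zv)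
        ((hE1 ω hωB).trans y1) (by linarith) (hAA ω hωB) (hQQ ω hωB)
        (by rw [hzv]; exact hone ω ω' hω.1 hω'.1 hsl')
        (by rw [hzv]; exact (fp_two (hFP ω ω' hω.1 hω'.1 hsl')).trans er4)
        hZp hZor hZj
      have h4 := hN.det hκ hε sκ sδ hZ0 hZδ
      linarith [hω.2]
  -- the direction
  have sE : Pe F.p BE ≤ xx := by
    refine le_trans ?_ (hex δ₂ d2)
    have hsub : Sub BE B := fun ω hω => by
      rw [hBE] at hω
      exact k1 ω hω.1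
    have htz : ∀ ω, BE ω → |Xn F c g a₀ ψ ω 1 -
        tz (u ^ 34) (aa (Hm (PG (ptr F J ω))) (M (ptr F J ω)))| ≤ u ^ 3 := by
      intro ω hω
      have hωB := hsub ω hω
      rw [hBE] at hω
      rw [← hN.dir.2]
      exact tz_le (hup 34) (by linarith) ((hE1 ω hωB).trans y1) hN.dir.1 hω.2.1 hω.2.2
    refine l2 n a₀ e₀ (x + 1) k s V p₀ g ψ ψH
      (fun y => tz (u ^ 34) (aa (Hm (PG y)) (M y))) (u ^ 3) (by omega) haJ haa (by omega) (by omega)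
      (hJg 0 (by omega)) hp0 hp0J hq0 ?_ (hup 3).le BE (fun ω hω => hBA ω (hsub ω hω))
      (fr_sub hfr hsub) (fun ω hω => ?_) htz
    · have h1 : (2 : ℝ) ^ (2 * k + 8 + s) ≤ Y :=
        (pow_le_pow_right₀ (by norm_num) (by omega)).trans y5
      have h2 : 2 * u ^ 3 * 2 ^ (2 * k + 8 + s) ≤ 2 * u ^ 3 * Y :=
        mul_le_mul_of_nonneg_left h1 (by positivity)
      have e1 : 2 * u ^ 3 * Y = 2 * (Y ^ 1 * u ^ (1 + 2)) := by ring
      rw [e1, hN.can] at h2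
      have h3 := hN.stp 1
      have h4 := hup1 1
      linarith
    · have h1 := htz ω hω
      have h2 := hE1 ω (hsub ω hω)
      have e1 : tz (u ^ 34) (aa (Hm (PG (ptr F J ω))) (M (ptr F J ω))) =
          Xn F c g a₀ ψ ω 1 - (Xn F c g a₀ ψ ω 1 -
            tz (u ^ 34) (aa (Hm (PG (ptr F J ω))) (M (ptr F J ω)))) := by ring
      show |tz (u ^ 34) (aa (Hm (PG (ptr F J ω))) (M (ptr F J ω)))| ≤ 2 ^ (x + 1)
      have e2 : (2 : ℝ) ^ (x + 1) = X * 2 := by rw [pow_succ, ← hX]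
      rw [e1, e2]
      refine (abs_sub _ _).trans ?_
      have h3 := hup1 3
      linarith
  -- the covector of the mixed part
  have sK : Pe F.p BK ≤ 2 * xx := by
    have hsub : Sub BK B := fun ω hω => by
      rw [hBK] at hω
      exact k1 ω hω.1
    obtain ⟨al, hal⟩ : ∃ al : PtT F → Fin 2 → ℝ, al = fun y =>
      row (u ^ 32) (aa (Hm (PG y)) (M y)) := ⟨_, rfl⟩
    have halb : ∀ ω, BK ω → ∀ j, |al (ptr F J ω) j| ≤ Y := fun ω hω j => by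
      rw [hal]
      exact row_le (hAA ω (hsub ω hω)) j
    have hall : ∀ ω, BK ω → u ^ 32 ≤ |al (ptr F J ω) 0| ∨ u ^ 32 ≤ |al (ptr F J ω) 1| :=
      fun ω hω => by
        rw [hBK] at hω
        rw [hal]
        exact row_big hω.2.2.1
    have hkey : ∀ ω ω', BK ω → BK ω' → slam F a₀ ω = slam F a₀ ω' →
        |dt (al (ptr F J ω)) (zz (M (ptr F J ω)) (M (ptr F J ω')))| ≤ u ^ 79 := by
      intro ω ω' hω hω' hsl
      have hωB := hsub ω hω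
      have hωB' := hsub ω' hω'
      have hb := halb ω hω
      rw [hBK] at hω hω'
      obtain ⟨w1, w2, w3, l, w4⟩ := hω
      have h1 := hone ω ω' w1 hω'.1 hsl
      have h2 := dot_of (a := al (ptr F J ω)) (K := Y) (ε := Y ^ 5 * ε) (d := Y * u ^ 119)
        (μ := u ^ 37) (Z := 2 * Y) hb h1 (by
          rw [hal]
          exact row_wd w2 ((hE1 ω hωB).trans y1) (by linarith)) (hzb ω ω' hωB hωB') (hup 37) (by
          fin_cases l
          · exact Or.inl w4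
          · exact Or.inr w4)
      exact h2.trans (hN.dot sε)
    have h32 : (1 : ℝ) / Y ^ 32 = u ^ 32 := hN.pu 32
    have h36 : (1 : ℝ) / Y ^ 36 = u ^ 36 := hN.pu 36
    have h3 : (1 : ℝ) / Y ^ 3 = u ^ 3 := hN.pu 3
    obtain ⟨lb1, lb2⟩ := lb_le 32 y0 hY0.le y1 le_rfl
    have hE := er_le (T := 2 ^ k) (P := 2 ^ (2 * k + 12 + s)) (Mb := X) (K := Y) (ε := ε)
      (ε₂ := u ^ 79) 32 y0 (by positivity) (by positivity) hX0 hY0.le hε (hup 79).le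
      ((pow_le_pow_right₀ (by norm_num) (by omega : k ≤ 2 * k + 12 + s)).trans y5) y5 y1 le_rfl (by
        have h5 := mul_le_mul_of_nonneg_right sε (show 0 ≤ Y ^ 39 by positivity)
        have e1 : u ^ 130 * Y ^ 39 = Y ^ 39 * u ^ (39 + 91) := by ring
        rw [e1, hN.can] at h5
        exact h5.trans (hup1 91)) (by
        have e1 : u ^ 79 * Y ^ (2 * 32 + 15) = Y ^ 79 * u ^ (79 + 0) := by ring
        rw [e1, hN.can]
        exact le_rfl)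
    have h7 := l4 n a₀ e₀ L k s V p₁ p₂ g ψ ψH (fun y => M y 0) (fun y => M y 1) al ε X Y
      (1 / Y ^ 32) (1 / Y ^ (32 + 4)) (1 / Y ^ 3) (u ^ 79) hn haJ haa (by omega) (by omega) hJg hgk
      hp1 hp2 hp1J hp2J hq1 hq2 (by positivity) (by positivity) (by
        have e1 : (1 : ℝ) / Y ^ (32 + 4) = u ^ 36 := hN.pu 36
        rw [e1, h32]
        have h5 := hN.stp 32
        have h6 := hN.le (show 33 ≤ 36 by norm_num)
        have h8 := hup 32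
        linarith) (by positivity) (lb1.trans (hCw 39 (by norm_num)))
      (lb2.trans (hCw 39 (by norm_num))) hE BK (fun ω hω => hBA ω (hsub ω hω)) (fr_sub hfr hsub)
      (hH.vdat hsub halb (by rw [h32]; exact hall)) (fun ω ω' hω hω' hsl => by
        unfold Kil
        rw [dz_eq]
        refine ⟨hkey ω ω' hω hω' hsl, ?_⟩
        rw [dt_neg, abs_neg]
        exact hkey ω' ω hω' hω hsl.symm)
    have h8 := hex δ₄ d4
    linarith
  -- the mixed part is small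
  have s4 : Pe F.p B₄ ≤ 8 * xx := by
    have hsub : Sub B₄ B := fun ω hω => by
      rw [hB₄] at hω
      exact k1 ω hω.1
    by_cases hlar : Real.exp (-(δt * J)) * Pe F.p A ≤ Pe F.p B₄
    swap
    · push Not at hlar
      linarith [hex δt dt']
    by_cases hpos : 0 < Pe F.p B₄
    swap
    · linarith
    have hTm := lt' B₄ (fun ω hω => hBA ω (hsub ω hω)) hlar hpos
    have hJ1 : 2 * Cr / (ρ * Real.log 2) ≤ J :=
      hJ₁.trans (by exact_mod_cast (le_max_right _ _).trans hJ)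
    have htime : Cr * (εt * J + 1) ≤ (r : ℝ) * Real.log 2 := by
      rw [div_le_iff₀ (by positivity)] at hJ1
      have h5 : Cr * (εt * J) = ρ * J * Real.log 2 / 2 := by
        rw [hεt]
        field_simp
      have h6 : Cr ≤ ρ * J * Real.log 2 / 2 := by linarith
      have h7 : ρ * J * Real.log 2 ≤ r * Real.log 2 := mul_le_mul_of_nonneg_right hρr hL2.le
      rw [mul_add, h5, mul_one]
      linarith
    obtain ⟨B₅, q1, q2, q3⟩ := hrem hfr hH hX1 hX1 hε (hup 32) haJ (θ := εt * J) (by positivity)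
      hsub hpos hTm (htime.trans (by
        refine mul_le_mul_of_nonneg_right ?_ hL2.le
        have : ((a₀ + r : ℕ) : ℝ) ≤ J := by exact_mod_cast har
        push_cast at this
        linarith)) (fun ω hω i l => by
        rw [← bf_he]
        rw [hB₄] at hω
        exact hω.2 i l) le_rfl
    have hq3 : ∀ ω, B₅ ω → ∀ (l : Fin 2), ∀ τ ∈ Set.Icc (0 : ℝ) 1, |hs (PH (slam F a₀ ω))
        (fun o => τ * Xo 2 F c g a₀ ψ ω o) (Xo 2 F c g a₀ ψ ω) (eo (some l.succ))| ≤ u ^ 29 := by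
      intro ω hω l τ hτ
      refine (q3 ω hω l τ hτ).trans (hN.rem ?_ (Real.exp_pos _).le y1 y2 hε sε)
      refine le_trans ?_ y8
      have e1 : (2 : ℝ) ^ r = Real.exp (r * Real.log 2) := by
        rw [mul_comm, Real.exp_mul, Real.exp_log (by norm_num), Real.rpow_natCast]
      rw [e1]
      exact Real.exp_le_exp.2 htime
    have hsub5 : Sub B₅ B := fun ω hω => hsub ω (q1 ω hω)
    by_cases hl5 : Real.exp (-(δ₁ * J)) * Pe F.p A ≤ Pe F.p B₅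
    swap
    · push Not at hl5
      linarith [hex δ₁ d1]
    obtain ⟨B₆, t1, t2, t3⟩ := l1 n a₀ e₀ k s V p₀ g ψ ψH (by omega) haJ haa (by omega) (by omega)
      (hJg 0 (by omega)) hp0 hp0J hq0 B₅ (fun ω hω => hBA ω (hsub5 ω hω)) (fr_sub hfr hsub5) hl5
    have hsub6 : Sub B₆ B := fun ω hω => hsub5 ω (t1 ω hω)
    have h61 : ∀ ω, B₆ ω → B₁ ω := fun ω hω => by
      have := q1 ω (t1 ω hω)
      rw [hB₄] at this
      exact this.1
    have h6a : ∀ ω, B₆ ω → ∀ i k, |aa (Hm (PG (ptr F J ω))) (M (ptr F J ω)) i k| ≤ u ^ 32 :=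
      fun ω hω => by
        have := q1 ω (t1 ω hω)
        rw [hB₄] at this
        exact this.2
    have hLn6 : ∀ ω, B₆ ω → Lns F c g a₀ D ψ B₅ mu ω := by
      intro ω hω
      obtain ⟨ν, v1, -, v3⟩ := t3 ω hω
      exact ⟨ν, v1, fun i j hij => by rw [hmu]; exact v3 i j hij⟩
    -- the other sample
    have hoth : ∀ ω ω', B₆ ω → B₆ ω' → slam F a₀ ω = slam F a₀ ω' → ∀ (i k : Fin 2),
        |bf (Hm (PG (ptr F J ω'))) (hv (M (ptr F J ω)) i) (ev k)| ≤ u ^ 27 := by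
      intro ω ω' hω hω' hsl i l
      rw [bf_he]
      have h5 := hdv hH hX1 hX1 hε (ε₁ := u ^ 29) (V := eo (some l.succ)) (by
          have h6 : 2 * X * u ^ 29 ≤ 2 * Y * u ^ 29 :=
            mul_le_mul_of_nonneg_right (by linarith) (hup 29).le
          have e1 : 2 * Y * u ^ 29 = 2 * (Y ^ 1 * u ^ (1 + 28)) := by ring
          rw [e1, hN.can] at h6
          have h7 := hN.stp 27
          have h8 := hup1 27
          linarith) (sε.trans (hN.le (by norm_num))) hmu0 hmu1 (eo_le _) hsub5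
        (fun ν hν τ hτ => hq3 ν hν l τ hτ) ω ω' (hsub6 ω hω) (hsub6 ω' hω') hsl
        (Xn_eq hfr (hsub6 ω hω) (hsub6 ω' hω') hsl) (hLn6 ω hω) i
      exact h5.trans (hN.pla y4 (by positivity) y1 27)
    have hthree : ∀ ω ω', B₆ ω → B₆ ω' → slam F a₀ ω = slam F a₀ ω' → ∀ k : Fin 2,
        |dt (fun l => qq (Hm (PG (ptr F J ω))) k l)
          (zz (M (ptr F J ω)) (M (ptr F J ω')))| ≤ u ^ 25 := by
      intro ω ω' hω hω' hsl l
      have h5 := fp_three (ε' := u ^ 27) (Hm_symm (PG (ptr F J ω)))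
        (fun l => (h6a ω hω 1 l).trans (hN.le (by norm_num)))
        (fun l => hoth ω' ω hω' hω hsl.symm 1 l) l (M := M (ptr F J ω)) (M' := M (ptr F J ω'))
      refine h5.trans ?_
      have h6 := hN.stp 26
      have h7 := hN.le (show 25 ≤ 26 by norm_num)
      have h8 := hup 26
      linarith
    obtain ⟨B₇, hB₇⟩ : ∃ B₇ : F.Ω → Prop, B₇ = fun ω => B₆ ω ∧
      ∃ i k, u ^ 5 ≤ |qq (Hm (PG (ptr F J ω))) i k| := ⟨_, rfl⟩
    have hsub7 : Sub B₇ B := fun ω hω => by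
      rw [hB₇] at hω
      exact hsub6 ω hω.1
    have s7 : Pe F.p B₇ ≤ 2 * xx := by
      obtain ⟨al, hal⟩ : ∃ al : PtT F → Fin 2 → ℝ, al = fun y =>
        row (u ^ 5) (qq (Hm (PG y))) := ⟨_, rfl⟩
      have halb : ∀ ω, B₇ ω → ∀ j, |al (ptr F J ω) j| ≤ Y := fun ω hω j => by
        rw [hal]
        exact row_le (hQQ ω (hsub7 ω hω)) j
      have hall : ∀ ω, B₇ ω → u ^ 5 ≤ |al (ptr F J ω) 0| ∨ u ^ 5 ≤ |al (ptr F J ω) 1| :=
        fun ω hω => by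
          rw [hB₇] at hω
          rw [hal]
          exact row_big hω.2
      have hkey : ∀ ω ω', B₇ ω → B₇ ω' → slam F a₀ ω = slam F a₀ ω' →
          |dt (al (ptr F J ω)) (zz (M (ptr F J ω)) (M (ptr F J ω')))| ≤ u ^ 25 := by
        intro ω ω' hω hω' hsl
        rw [hB₇] at hω hω'
        rw [hal]
        exact row_dt fun i => hthree ω ω' hω.1 hω'.1 hsl i
      have h5' : (1 : ℝ) / Y ^ 5 = u ^ 5 := hN.pu 5
      obtain ⟨lb1, lb2⟩ := lb_le 5 y0 hY0.le y1 le_rfl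
      have hE := er_le (T := 2 ^ k) (P := 2 ^ (2 * k + 12 + s)) (Mb := X) (K := Y) (ε := ε)
        (ε₂ := u ^ 25) 5 y0 (by positivity) (by positivity) hX0 hY0.le hε (hup 25).le
        ((pow_le_pow_right₀ (by norm_num) (by omega : k ≤ 2 * k + 12 + s)).trans y5) y5 y1
        le_rfl (by
          have h5 := mul_le_mul_of_nonneg_right sε (show 0 ≤ Y ^ 12 by positivity)
          have e1 : u ^ 130 * Y ^ 12 = Y ^ 12 * u ^ (12 + 118) := by ring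
          rw [e1, hN.can] at h5
          exact h5.trans (hup1 118)) (by
          have e1 : u ^ 25 * Y ^ (2 * 5 + 15) = Y ^ 25 * u ^ (25 + 0) := by ring
          rw [e1, hN.can]
          exact le_rfl)
      have h7 := l4 n a₀ e₀ L k s V p₁ p₂ g ψ ψH (fun y => M y 0) (fun y => M y 1) al ε X Y
        (1 / Y ^ 5) (1 / Y ^ (5 + 4)) (1 / Y ^ 3) (u ^ 25) hn haJ haa (by omega) (by omega) hJg
        hgk hp1 hp2 hp1J hp2J hq1 hq2 (by positivity) (by positivity) (by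
          have e1 : (1 : ℝ) / Y ^ (5 + 4) = u ^ 9 := hN.pu 9
          rw [e1, h5']
          have h5 := hN.stp 5
          have h6 := hN.le (show 6 ≤ 9 by norm_num)
          have h8 := hup 5
          linarith) (by positivity) (lb1.trans (hCw 12 (by norm_num)))
        (lb2.trans (hCw 12 (by norm_num))) hE B₇ (fun ω hω => hBA ω (hsub7 ω hω))
        (fr_sub hfr hsub7) (hH.vdat hsub7 halb (by rw [h5']; exact hall))
        (fun ω ω' hω hω' hsl => by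
          unfold Kil
          rw [dz_eq]
          refine ⟨hkey ω ω' hω hω' hsl, ?_⟩
          rw [dt_neg, abs_neg]
          exact hkey ω' ω hω' hω hsl.symm)
      have h8 := hex δ₄ d4
      linarith
    -- nothing remains
    have h67 : Pe F.p B₆ ≤ Pe F.p B₇ := by
      have h0 : Pe F.p B₆ ≤ Pe F.p B₇ + Pe F.p (fun _ => False) := by
        refine pe_or F.isLaw.nonneg fun ω _ hω => ?_
        by_cases hq : ∃ i k, u ^ 5 ≤ |qq (Hm (PG (ptr F J ω))) i k|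
        · left
          rw [hB₇]
          exact ⟨hω, hq⟩
        · exfalso
          push Not at hq
          have hωB := hsub6 ω hω
          have hf := hFP ω ω (h61 ω hω) (h61 ω hω) rfl
          have h5 := fp_small (ε := u ^ 5) (B := X) (Hm_symm (PG (ptr F J ω))) hX1
            (hH.bM ω hωB) (fun i j => (hf.own i j).trans (by
              have h6 : Y ^ 2 * ε ≤ Y ^ 2 * u ^ (2 + 128) :=
                mul_le_mul_of_nonneg_left sε (by positivity)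
              rw [hN.can] at h6
              exact h6.trans (hN.le (by norm_num))))
            (fun i k => (h6a ω hω i k).trans (hN.le (by norm_num))) (fun i k => (hq i k).le)
          obtain ⟨o, o', hoo⟩ := hrel ω hωB
          obtain ⟨i, hi⟩ := io_surj o
          obtain ⟨j, hj⟩ := io_surj o'
          have h6 := h5 i j
          unfold Hm at h6
          rw [hi, hj] at h6
          have h7 := hN.fin (A := X) (s := 1 / 2 ^ s₀) (by rw [pow_two]; exact y2) (by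
            rw [mul_one_div, le_div_iff₀ (by positivity), one_mul]
            exact y7)
          linarith
      have h1 : Pe F.p (fun _ => False) = 0 := by
        rw [Pool.JVE.pe_sum]
        simp
      linarith
    linarith
  -- the cover
  have hcov : Pe F.p B₁ ≤ (Pe F.p Bd + Pe F.p BE) + (Pe F.p BK + Pe F.p B₄) := by
    have g1 : Pe F.p B₁ ≤ Pe F.p (fun ω => Bd ω ∨ BE ω) + Pe F.p (fun ω => BK ω ∨ B₄ ω) := by
      refine pe_or F.isLaw.nonneg fun ω _ hω => ?_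
      by_cases h4 : ∀ i k, |aa (Hm (PG (ptr F J ω))) (M (ptr F J ω)) i k| ≤ u ^ 32
      · right
        right
        rw [hB₄]
        exact ⟨hω, h4⟩
      · push Not at h4
        obtain ⟨i, k, h4⟩ := h4
        by_cases h5 : u ^ 119 ≤ |wd (aa (Hm (PG (ptr F J ω))) (M (ptr F J ω)) 0)
            (aa (Hm (PG (ptr F J ω))) (M (ptr F J ω)) 1)|
        · left
          left
          rw [hBd]
          exact ⟨hω, h5⟩
        · by_cases h6 : ∀ k, |aa (Hm (PG (ptr F J ω))) (M (ptr F J ω)) 0 k +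
              Xn F c g a₀ ψ ω 1 * aa (Hm (PG (ptr F J ω))) (M (ptr F J ω)) 1 k| ≤ u ^ 37
          · left
            right
            rw [hBE]
            exact ⟨hω, ⟨i, k, h4.le⟩, h6⟩
          · push Not at h5 h6
            obtain ⟨k', h6⟩ := h6
            right
            left
            rw [hBK]
            exact ⟨hω, h5.le, ⟨i, k, h4.le⟩, k', h6.le⟩
    have g2 : Pe F.p (fun ω => Bd ω ∨ BE ω) ≤ Pe F.p Bd + Pe F.p BE :=
      pe_or F.isLaw.nonneg fun ω _ hω => hω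
    have g3 : Pe F.p (fun ω => BK ω ∨ B₄ ω) ≤ Pe F.p BK + Pe F.p B₄ :=
      pe_or F.isLaw.nonneg fun ω _ hω => hω
    linarith
  linarith

end Pool.F5
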