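import Pool.Agent.H64.F5.Lev
import Pool.Agent.H64.F5.JnTwo

/-!
# (F5): the jets of the ball charts are natural

`nat_two`: the ball chart over the time and two coordinates. `nat_three`: the ball chart over the time
and three coordinates.
-/

set_option autoImplicit false

namespace Pool.F5

open Finset Real MvPolynomial
open Pool.Agent.H49.Ent Pool.Agent.H32.Dense Pool.STK Pool.KA Pool.KSAT Pool.K2S Pool.PB Pool.S6C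
open Pool.GEN Pool.CHT Pool.CHX
open Pool.LBT (ThrOf)
open Pool.D2F
open Pool.D2Z (Nc frok_sub)
open Pool.D2R (dd hs)

variable {m J : ℕ}

/-- A small exponential. -/
theorem exp_small {δ : ℝ} (hδ : 0 < δ) {K : ℝ} (hK : 0 < K) :
    ∃ J₀ : ℕ, ∀ J : ℕ, J₀ ≤ J → Real.exp (-(δ * J)) ≤ K := by
  obtain ⟨J₀, hJ₀⟩ := exists_nat_ge (-Real.log K / δ)
  refine ⟨J₀, fun J hJ => ?_⟩
  have h1 : -Real.log K / δ ≤ J := hJ₀.trans (by exact_mod_cast hJ)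
  rw [div_le_iff₀ hδ] at h1
  calc Real.exp (-(δ * J)) ≤ Real.exp (Real.log K) := Real.exp_le_exp.2 (by linarith)
    _ = K := Real.exp_log hK

/-- **(F5) for the chart over the time and two coordinates**, as a statement on large events. -/
theorem nat_two (D : ℕ) (hD : 1 ≤ D) : ∃ C : ℕ, 1 ≤ C ∧ ∀ {m : ℕ} {θ : ℝ} {S : PCl m}
    {P : List (Fin m) × Fin m → ℝ → ℝ → ℝ}, ThrOf (chsys m θ) S P → TmH S → ∀ (c : ℕ → Fin m),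
    Set.InjOn c (Set.Iio 3) → ∀ (a : ℚ) (e h ε κ : ℝ), 0 ≤ a → a ≤ 1 → e < θ * a → 0 < h →
    bet P c 0 a a + h ≤ 1 → bet P c 1 a a + h ≤ 1 → 0 < ε → 0 < κ → ∃ κ' : ℝ, 0 < κ' ∧
    Bas S (fun J F A => ∀ (a₀ e₀ k x mu p₀ p₁ : ℕ) (g : ℕ → ℕ) (B₀ B : F.Ω → Prop)
      (G : PtT F → ℕ → MvPolynomial (Option (Fin m)) ℝ)
      (H : LnT F → ℕ → MvPolynomial (Option (Fin m)) ℝ)
      (ψ : PtT F → ℕ → Option (Fin m) → ℝ) (ψH : LnT F → ℕ → Option (Fin m) → ℝ)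
      (M : PtT F → Fin 1 → Fin 2 → ℝ), a₀ ≤ J → a₀ ≤ ⌊(a : ℝ) * J⌋₊ → ε * J ≤ x → k ≤ x →
      C * (x + 1) ≤ mu → e₀ + mu ≤ ⌊e * J⌋₊ → (∀ j ≤ 1, e₀ + g j + mu + 3 ≤ J) → g 2 ≤ J →
      k + 1 ≤ g 0 → p₀ ≤ g 0 + x → p₀ ≤ J →
      ⌊(bet P c 0 a a + h) * J⌋₊ + a₀ ≤ p₀ + ⌊(a : ℝ) * J⌋₊ → p₁ ≤ g 1 + x → p₁ ≤ J →
      ⌊(bet P c 1 a a + h) * J⌋₊ + a₀ ≤ p₁ + ⌊(a : ℝ) * J⌋₊ → Sub B B₀ → Sub B₀ A →
      κ * Pe F.p A ≤ Pe F.p B → ChOK F c 3 (fun _ => D) a₀ a₀ e₀ g B G H →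
      FrOK F c 2 a₀ k e₀ g B ψ ψH →
      (∀ ω, B ω → Nc c g a₀ 2 (2 ^ k) (ψ (ptr F J ω)) (fun l => grd (G (ptr F J ω) l) (bt F ω))) →
      (∀ ω, B ω → ∀ τ ∈ Set.Icc (0 : ℝ) 1,
        |(dv a₀ (fun s _ => H s 2) (c 2) (slam F a₀ ω)).eval τ| ≤ 2 ^ k / 2 ^ g 2) →
      NatH F c a₀ g B G k 0 → NatH F c a₀ g B G k 1 →
      (∀ ω, B ω → ∀ j ≤ 2, |bd F ω (some (c j)) - dd (G (ptr F J ω) j) (bt F ω) (bd F ω)| ≤
        2 ^ k * 2 ^ a₀ / 2 ^ g j) →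
      (∀ ω, B ω → |hs (G (ptr F J ω) 2) (bt F ω) (bd F ω) (bd F ω)| ≤
        2 ^ k * (2 ^ a₀) ^ 2 / 2 ^ g 2) →
      (∀ ω, B ω → |Xn F c g a₀ ψ ω 2 - (M (ptr F J ω) 0 0 +
        M (ptr F J ω) 0 1 * Xn F c g a₀ ψ ω 1)| ≤ 2 ^ k / 2 ^ mu) →
      (∀ ω, B ω → ∀ l i, |M (ptr F J ω) l i| ≤ 2 ^ k) →
      RelvF F c 2 a₀ a₀ g D x κ' B₀ G →
      ∃ B' : F.Ω → Prop, Sub B' B ∧ Pe F.p B ≤ 2 * 2 ^ 9 * Pe F.p B' ∧
        NatH F c a₀ g B' G (2 * mu) 2) := by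
  classical
  obtain ⟨C₁, hlev⟩ := lev_fam D 1
  obtain ⟨C₅, hf5⟩ := f5_one D hD
  obtain ⟨C, hC⟩ : ∃ C, C = (C₁ + C₅ * (1 + C₁) + 20) * (C₁ + 2) := ⟨_, rfl⟩
  refine ⟨C, ?_, ?_⟩
  · rw [hC]
    exact Nat.one_le_iff_ne_zero.2 (Nat.mul_ne_zero (by omega) (by omega))
  intro m θ S P hP hT c hc a e h ε κ ha0 ha he hh hb0 hb1 hε hκ
  obtain ⟨δ, hδ, b5⟩ := hf5 hP c (hc.mono (Set.Iio_subset_Iio (by norm_num))) a e h ha0 ha he hh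
    hb0 hb1
  obtain ⟨N₀, hN₀⟩ := exists_nat_ge (4 * C₁ / ε)
  obtain ⟨N, hN⟩ : ∃ N, N = N₀ + 1 := ⟨_, rfl⟩
  have hN1 : 1 ≤ N := by omega
  have hNr : (0 : ℝ) < N := by exact_mod_cast hN1
  have hNε : 4 * (C₁ : ℝ) ≤ N * ε := by
    rw [div_le_iff₀ hε] at hN₀
    have h1 : (N₀ : ℝ) ≤ N := by exact_mod_cast (by omega : N₀ ≤ N)
    have h2 := mul_le_mul_of_nonneg_right h1 hε.le
    linarith
  obtain ⟨κ', hκ'⟩ : ∃ κ' : ℝ, κ' = κ / (4 * N * 4 ^ 9) := ⟨_, rfl⟩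
  have hκ'0 : 0 < κ' := by rw [hκ']; positivity
  refine ⟨κ', hκ'0, ?_⟩
  have hpos : Bas S (fun _ F A => 0 < Pe F.p A) := ⟨1, one_pos, 0, fun J _ F A hA =>
    hT.1 1 J F A hA⟩
  obtain ⟨J₀, hJ₀⟩ := exp_small hδ (K := κ / (2 * (4 * N * 2 ^ 9))) (by positivity)
  refine Bas.mono J₀ (b5.and hpos) ?_
  rintro J hJ F A ⟨hA5, hA0⟩ a₀ e₀ k x mu p₀ p₁ g B₀ B G H ψ ψH M haJ haa hεx hkx hmu hee hgJ hg2
    hg0 hp0 hp0J hbe0 hp1 hp1J hbe1 hBB₀ hB₀A hBκ hch hfr hnc hdv hn0 hn1 hvel hnul hslp hbM hR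
  have hp := Pe_nonneg F.isLaw
  have hBpos : 0 < Pe F.p B := (mul_pos hκ hA0).trans_le hBκ
  have hBA : Sub B A := fun ω hω => hB₀A ω (hBB₀ ω hω)
  have hg00 := hgJ 0 (by norm_num)
  have hJ1 : 1 ≤ J := by omega
  obtain ⟨K, hK⟩ : ∃ K, K = x + C₁ * (x + 1) := ⟨_, rfl⟩
  obtain ⟨Y, hY⟩ : ∃ Y, Y = (C₁ + 2) * (x + 1) := ⟨_, rfl⟩
  have hKY : K + x + 1 ≤ Y := by rw [hK, hY]; nlinarith
  have hCY : C * (x + 1) = C₁ * Y + C₅ * Y + C₅ * (C₁ * Y) + 20 * Y := by rw [hC, hY]; ring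
  have h1 : C₁ * (K + x + 1) ≤ C₁ * Y := Nat.mul_le_mul_left _ hKY
  have h2 : C₅ * (K + x + C₁ * (K + x + 1) + 1) ≤ C₅ * Y + C₅ * (C₁ * Y) := by
    rw [← Nat.mul_add]
    exact Nat.mul_le_mul_left _ (by omega)
  have h3 : C₁ * (K + 1) ≤ C₁ * Y := Nat.mul_le_mul_left _ (by omega)
  have hxY : x ≤ Y := by omega
  -- the a priori number
  have hNT : C₁ * (J + e₀ + k + 1) + x ≤ mu + N * x := by
    have e1 : C₁ * (J + e₀ + k + 1) ≤ C₁ * (4 * J) := Nat.mul_le_mul_left _ (by omega)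
    have e2 : C₁ * (4 * J) ≤ N * x := by
      have e3 : ((C₁ * (4 * J) : ℕ) : ℝ) ≤ ((N * x : ℕ) : ℝ) := by
        push_cast
        have hJ0 : (0 : ℝ) ≤ J := Nat.cast_nonneg J
        calc (C₁ : ℝ) * (4 * J) = 4 * C₁ * J := by ring
          _ ≤ N * ε * J := mul_le_mul_of_nonneg_right hNε hJ0
          _ = N * (ε * J) := by ring
          _ ≤ N * x := mul_le_mul_of_nonneg_left hεx hNr.le
      exact_mod_cast e3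
    omega
  rcases hlev (F := F) (c := c) (a := a₀) (e := e₀) (k := k) (hh := x) (mu := mu) (K := K)
    (N := N) (T := x) (l₀ := mu) (g := g) (κ := κ') (B₀ := B₀) (B := B) (G := G) (H := H)
    (ψ := ψ) (ψH := ψH) (M := M) hc haJ (fun j hj => hgJ j hj) hg2 hch hfr hnc hdv
    (fun l hl => by
      rcases Nat.lt_or_ge l 1 with h | h
      · rw [Nat.lt_one_iff.1 h]
        exact hn0
      · have h1 : l = 1 := by omega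
        rw [h1]
        exact hn1) hvel hnul (fun ω hω l => by
      rw [Subsingleton.elim l 0]
      exact hslp ω hω) hbM hR hBB₀ hBpos hκ'0.le hN1 (by
      have e1 : κ' * (4 * N * 4 ^ 9) = κ := by
        rw [hκ']
        field_simp
      calc κ' * (4 * N * 4 ^ ((1 + 2) * (1 + 2))) * Pe F.p B₀ =
            κ' * (4 * N * 4 ^ 9) * Pe F.p B₀ := by norm_num
        _ = κ * Pe F.p B₀ := by rw [e1]
        _ ≤ κ * Pe F.p A := mul_le_mul_of_nonneg_left (Pe_mono F.isLaw hB₀A) hκ.le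
        _ ≤ Pe F.p B := hBκ) (by
      rw [hK]
      exact Nat.add_le_add_left (Nat.mul_le_mul_left _ (by omega)) _) (by omega) le_rfl hNT with
    ⟨B', c1, c2, c3⟩ | ⟨L, W, d1, d2, d3, d4⟩
  · refine ⟨B', c1, by simpa using c2, c3.sub (fun _ h => h) ?_⟩
    have e1 : C₁ * (k + 1) ≤ C₁ * Y := Nat.mul_le_mul_left _ (by omega)
    omega
  · exfalso
    have h5 := hA5 2 a₀ e₀ k K x (C₁ * (K + x + 1)) mu p₀ p₁ g ψ ψH _ _ M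
      (2 ^ (C₁ * (K + 1)) / 2 ^ mu) le_rfl haJ haa (by omega) (by omega) (by omega)
      (fun j hj => by have := hgJ j hj; omega) hg0 hp0 hp0J hbe0 hp1 hp1J hbe1 (by positivity) (by
        rw [div_mul_eq_mul_div, ← pow_add, div_le_one (by positivity)]
        exact pow_le_pow_right₀ (by norm_num) (by omega)) W (fun ω hω => hBA ω (d1 ω hω))
      (frok_sub hfr d1) d3 d4
    have e1 := hJ₀ J hJ
    have e2 : Pe F.p B ≤ κ / 2 * Pe F.p A := by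
      calc Pe F.p B ≤ 4 * N * 2 ^ ((1 + 2) * (1 + 2)) * Pe F.p W := d2
        _ = 4 * N * 2 ^ 9 * Pe F.p W := by norm_num
        _ ≤ 4 * N * 2 ^ 9 * (Real.exp (-(δ * J)) * Pe F.p A) :=
          mul_le_mul_of_nonneg_left h5 (by positivity)
        _ ≤ 4 * N * 2 ^ 9 * (κ / (2 * (4 * N * 2 ^ 9)) * Pe F.p A) :=
          mul_le_mul_of_nonneg_left (mul_le_mul_of_nonneg_right e1 (hp A)) (by positivity)
        _ = κ / 2 * Pe F.p A := by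
          field_simp
    have e3 : 0 < κ * Pe F.p A := mul_pos hκ hA0
    linarith

/-- **(F5) for the chart over the time and three coordinates**, as a statement on large events.
`b₀`: a later window; `Nv`: the slope of `c 1` in its natural units; for two samples of one line
with the same window `b₀` the slopes of `c 1` in the units of the two windows are comparable up to
`2 ^ u`, and the slopes in the units of `a₀` move by at most `2 ^ (-z)`. -/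
theorem nat_three (m D : ℕ) (hD : 1 ≤ D) : ∃ C : ℕ, 1 ≤ C ∧ ∀ {θ : ℝ} {S : PCl m}
    {P : List (Fin m) × Fin m → ℝ → ℝ → ℝ}, ThrOf (chsys m θ) S P → TmH S → ∀ (c : ℕ → Fin m),
    Set.InjOn c (Set.Iio 4) → ∀ (a b : ℚ) (e h ε κ : ℝ), 0 ≤ a → a ≤ 1 → e < θ * a → 0 ≤ b →
    b ≤ 1 → e < θ * b → 0 < h → bet P c 0 a a + h ≤ 1 → bet P c 1 a a + h ≤ 1 →
    bet P c 2 a a + h ≤ 1 → bet P c 1 b b + h ≤ 1 → 0 < ε → 0 < κ → ∃ κ' : ℝ, 0 < κ' ∧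
    Bas S (fun J F A => ∀ (a₀ b₀ e₀ e₁ k x mu u z p₀ p₁ p₂ p₃ : ℕ) (g g₁ : ℕ → ℕ)
      (B₀ B : F.Ω → Prop) (G : PtT F → ℕ → MvPolynomial (Option (Fin m)) ℝ)
      (H : LnT F → ℕ → MvPolynomial (Option (Fin m)) ℝ)
      (ψ ψ₁ : PtT F → ℕ → Option (Fin m) → ℝ) (ψH ψH₁ : LnT F → ℕ → Option (Fin m) → ℝ)
      (M : PtT F → Fin 2 → Fin 2 → ℝ) (Nv : PtT F → Fin 2 → ℝ), a₀ ≤ b₀ → b₀ ≤ J →
      a₀ ≤ ⌊(a : ℝ) * J⌋₊ → b₀ ≤ ⌊(b : ℝ) * J⌋₊ → ε * J ≤ x → a₀ + x ≤ J → k ≤ x →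
      C * (x + 1) + u ≤ mu → C * (x + 1) ≤ z → e₀ + mu ≤ ⌊e * J⌋₊ →
      e₁ + mu ≤ ⌊e * J⌋₊ → (∀ j ≤ 2, e₀ + g j + mu + 4 ≤ J) → (∀ j ≤ 1, e₁ + g₁ j + mu ≤ J) →
      g 3 ≤ J → (∀ l < 2, k + 1 ≤ g l) → k + 1 ≤ g₁ 0 →
      p₀ ≤ g 0 + x → p₀ ≤ J → ⌊(bet P c 0 a a + h) * J⌋₊ + a₀ ≤ p₀ + ⌊(a : ℝ) * J⌋₊ →
      p₁ ≤ g 1 + x → p₁ ≤ J → ⌊(bet P c 1 a a + h) * J⌋₊ + a₀ ≤ p₁ + ⌊(a : ℝ) * J⌋₊ →
      p₂ ≤ g 2 + x → p₂ ≤ J → ⌊(bet P c 2 a a + h) * J⌋₊ + a₀ ≤ p₂ + ⌊(a : ℝ) * J⌋₊ →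
      p₃ ≤ g₁ 1 + x → p₃ ≤ J → ⌊(bet P c 1 b b + h) * J⌋₊ + b₀ ≤ p₃ + ⌊(b : ℝ) * J⌋₊ →
      Sub B B₀ → Sub B₀ A → κ * Pe F.p A ≤ Pe F.p B →
      ChOK F c 4 (fun _ => D) a₀ a₀ e₀ g B G H → FrOK F c 3 a₀ k e₀ g B ψ ψH →
      (∀ ω, B ω → Nc c g a₀ 3 (2 ^ k) (ψ (ptr F J ω)) (fun l => grd (G (ptr F J ω) l) (bt F ω))) →
      (∀ ω, B ω → ∀ τ ∈ Set.Icc (0 : ℝ) 1,
        |(dv a₀ (fun s _ => H s 3) (c 3) (slam F a₀ ω)).eval τ| ≤ 2 ^ k / 2 ^ g 3) →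
      NatH F c a₀ g B G k 0 → NatH F c a₀ g B G k 1 → NatH F c a₀ g B G k 2 →
      (∀ ω, B ω → ∀ j ≤ 3, |bd F ω (some (c j)) - dd (G (ptr F J ω) j) (bt F ω) (bd F ω)| ≤
        2 ^ k * 2 ^ a₀ / 2 ^ g j) →
      (∀ ω, B ω → |hs (G (ptr F J ω) 3) (bt F ω) (bd F ω) (bd F ω)| ≤
        2 ^ k * (2 ^ a₀) ^ 2 / 2 ^ g 3) →
      (∀ ω, B ω → ∀ l : Fin 2, |Xn F c g a₀ ψ ω (l + 2) - (M (ptr F J ω) l 0 +
        M (ptr F J ω) l 1 * Xn F c g a₀ ψ ω 1)| ≤ 2 ^ k / 2 ^ mu) →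
      (∀ ω, B ω → ∀ l i, |M (ptr F J ω) l i| ≤ 2 ^ k) →
      FrOK F c 2 b₀ k e₁ g₁ B ψ₁ ψH₁ → (∀ ω, B ω → ∀ j, |Nv (ptr F J ω) j| ≤ 2 ^ k) →
      (∀ ω, B ω → |Xn F c g₁ b₀ ψ₁ ω 2 -
        (Nv (ptr F J ω) 0 + Nv (ptr F J ω) 1 * Xn F c g₁ b₀ ψ₁ ω 1)| ≤ 2 ^ k / 2 ^ mu) →
      (∀ ω ω', B ω → B ω' → slam F b₀ ω = slam F b₀ ω' → |Nv (ptr F J ω') 1 -
        Nv (ptr F J ω) 1| ≤ 2 ^ u * |M (ptr F J ω') 0 1 - M (ptr F J ω) 0 1|) →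
      (∀ ω ω', B ω → B ω' → slam F b₀ ω = slam F b₀ ω' → ∀ l,
        |M (ptr F J ω') l 1 - M (ptr F J ω) l 1| ≤ 1 / 2 ^ z) →
      RelvF F c 3 a₀ a₀ g D x κ' B₀ G →
      ∃ B' : F.Ω → Prop, Sub B' B ∧ Pe F.p B ≤ 2 * 2 ^ 16 * Pe F.p B' ∧
        NatH F c a₀ g B' G (2 * mu) 3) := by
  classical
  obtain ⟨C₁, hlev⟩ := lev_fam D 2
  obtain ⟨C₅, hC₅, hf5⟩ := f5_two m D hD
  obtain ⟨C, hC⟩ : ∃ C, C = (C₁ + 2 * (C₅ * (3 + C₁)) + 20) * (C₁ + 2) := ⟨_, rfl⟩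
  refine ⟨C, ?_, ?_⟩
  · rw [hC]
    exact Nat.one_le_iff_ne_zero.2 (Nat.mul_ne_zero (by omega) (by omega))
  intro θ S P hP hT c hc a b e h ε κ ha0 ha he hb0 hb he' hh hbt0 hbt1 hbt2 hbt3 hε hκ
  obtain ⟨δ, hδ, b5⟩ := hf5 hP hT c (hc.mono (Set.Iio_subset_Iio (by norm_num))) a b e h ε ha0 ha
    he hb0 hb he' hh hε hbt0 hbt1 hbt2 hbt3
  obtain ⟨N₀, hN₀⟩ := exists_nat_ge (4 * C₁ / ε)
  obtain ⟨N, hN⟩ : ∃ N, N = N₀ + 1 := ⟨_, rfl⟩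
  have hN1 : 1 ≤ N := by omega
  have hNr : (0 : ℝ) < N := by exact_mod_cast hN1
  have hNε : 4 * (C₁ : ℝ) ≤ N * ε := by
    rw [div_le_iff₀ hε] at hN₀
    have h1 : (N₀ : ℝ) ≤ N := by exact_mod_cast (by omega : N₀ ≤ N)
    have h2 := mul_le_mul_of_nonneg_right h1 hε.le
    linarith
  obtain ⟨κ', hκ'⟩ : ∃ κ' : ℝ, κ' = κ / (4 * N * 4 ^ 16) := ⟨_, rfl⟩
  have hκ'0 : 0 < κ' := by rw [hκ']; positivity
  refine ⟨κ', hκ'0, ?_⟩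
  have hpos : Bas S (fun _ F A => 0 < Pe F.p A) := ⟨1, one_pos, 0, fun J _ F A hA =>
    hT.1 1 J F A hA⟩
  obtain ⟨J₀, hJ₀⟩ := exp_small hδ (K := κ / (2 * (4 * N * 2 ^ 16))) (by positivity)
  refine Bas.mono J₀ (b5.and hpos) ?_
  rintro J hJ F A ⟨hA5, hA0⟩ a₀ b₀ e₀ e₁ k x mu u z p₀ p₁ p₂ p₃ g g₁ B₀ B G H ψ ψ₁ ψH ψH₁ M Nv
    hab hbJ haa hbb hεx haxJ hkx hmu hz hee hee1 hgJ hgJ1 hg3 hgk hgk1 hp0 hp0J hbe0 hp1 hp1J hbe1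
    hp2 hp2J hbe2 hp3 hp3J hbe3 hBB₀ hB₀A hBκ hch hfr hnc hdv hn0 hn1 hn2 hvel hnul hslp hbM hfr1
    hbN hslN hrel hdz hR
  have hp := Pe_nonneg F.isLaw
  have hBpos : 0 < Pe F.p B := (mul_pos hκ hA0).trans_le hBκ
  have hBA : Sub B A := fun ω hω => hB₀A ω (hBB₀ ω hω)
  have hg00 := hgJ 0 (by norm_num)
  have haJ : a₀ ≤ J := hab.trans hbJ
  have hJ1 : 1 ≤ J := by omega
  obtain ⟨K, hK⟩ : ∃ K, K = x + C₁ * (x + 1) := ⟨_, rfl⟩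
  obtain ⟨Y, hY⟩ : ∃ Y, Y = (C₁ + 2) * (x + 1) := ⟨_, rfl⟩
  have hKY : K + x + 1 ≤ Y := by rw [hK, hY]; nlinarith
  have hCY : C * (x + 1) = C₁ * Y + 2 * (C₅ * (3 * Y + C₁ * Y)) + 20 * Y := by
    rw [hC, hY]; ring
  have h1 : C₁ * (K + x + 1) ≤ C₁ * Y := Nat.mul_le_mul_left _ hKY
  obtain ⟨w, hw⟩ : ∃ w, w = K + x + x + C₁ * (K + x + 1) + x + 1 := ⟨_, rfl⟩
  have hwY : w ≤ 3 * Y + C₁ * Y := by rw [hw]; omega
  have h2 : C₅ * w ≤ C₅ * (3 * Y + C₁ * Y) := Nat.mul_le_mul_left _ hwY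
  have h3 : C₁ * (K + 1) ≤ C₁ * Y := Nat.mul_le_mul_left _ (by omega)
  have hxY : x ≤ Y := by omega
  have hkK : k ≤ K := by omega
  have hkp : (2 : ℝ) ^ k ≤ 2 ^ K := pow_le_pow_right₀ (by norm_num) hkK
  -- the a priori number
  have hNT : C₁ * (J + e₀ + k + 1) + x ≤ mu + N * x := by
    have e1 : C₁ * (J + e₀ + k + 1) ≤ C₁ * (4 * J) := Nat.mul_le_mul_left _ (by omega)
    have e2 : C₁ * (4 * J) ≤ N * x := by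
      have e3 : ((C₁ * (4 * J) : ℕ) : ℝ) ≤ ((N * x : ℕ) : ℝ) := by
        push_cast
        have hJ0 : (0 : ℝ) ≤ J := Nat.cast_nonneg J
        calc (C₁ : ℝ) * (4 * J) = 4 * C₁ * J := by ring
          _ ≤ N * ε * J := mul_le_mul_of_nonneg_right hNε hJ0
          _ = N * (ε * J) := by ring
          _ ≤ N * x := mul_le_mul_of_nonneg_left hεx hNr.le
      exact_mod_cast e3
    omega
  rcases hlev (F := F) (c := c) (a := a₀) (e := e₀) (k := k) (hh := x) (mu := mu) (K := K)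
    (N := N) (T := x) (l₀ := mu) (g := g) (κ := κ') (B₀ := B₀) (B := B) (G := G) (H := H)
    (ψ := ψ) (ψH := ψH) (M := M) hc haJ (fun j hj => hgJ j hj) hg3 hch hfr hnc hdv
    (fun l hl => by
      obtain h | h | h : l = 0 ∨ l = 1 ∨ l = 2 := by omega
      · rw [h]; exact hn0
      · rw [h]; exact hn1
      · rw [h]; exact hn2) hvel hnul hslp hbM hR hBB₀ hBpos hκ'0.le hN1 (by
      have e1 : κ' * (4 * N * 4 ^ 16) = κ := by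
        rw [hκ']
        field_simp
      calc κ' * (4 * N * 4 ^ ((2 + 2) * (2 + 2))) * Pe F.p B₀ =
            κ' * (4 * N * 4 ^ 16) * Pe F.p B₀ := by norm_num
        _ = κ * Pe F.p B₀ := by rw [e1]
        _ ≤ κ * Pe F.p A := mul_le_mul_of_nonneg_left (Pe_mono F.isLaw hB₀A) hκ.le
        _ ≤ Pe F.p B := hBκ) (by
      rw [hK]
      exact Nat.add_le_add_left (Nat.mul_le_mul_left _ (by omega)) _) (by omega) le_rfl hNT with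
    ⟨B', c1, c2, c3⟩ | ⟨L, W, d1, d2, d3, d4⟩
  · refine ⟨B', c1, by simpa using c2, c3.sub (fun _ h => h) ?_⟩
    have e1 : C₁ * (k + 1) ≤ C₁ * Y := Nat.mul_le_mul_left _ (by omega)
    omega
  · exfalso
    have h5 := hA5 3 2 a₀ b₀ e₀ e₁ k K x x (C₁ * (K + x + 1)) x w mu p₀ p₁ p₂ p₃ g g₁ ψ ψ₁ ψH ψH₁
      _ _ M Nv (2 ^ (C₁ * (K + 1)) / 2 ^ mu) (2 ^ k / 2 ^ mu) (2 ^ u) (1 / 2 ^ z) le_rfl le_rfl hab
      hbJ haa hbb hkK hw hεx haxJ (by omega) (by omega) (by omega)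
      (fun j hj => by have := hgJ j hj; omega) hgJ1 hgk hgk1 hp0 hp0J hbe0 hp1 hp1J hbe1 hp2 hp2J
      hbe2 hp3 hp3J hbe3 (by positivity) (by positivity) (by positivity) (by
        rw [div_mul_eq_mul_div, ← pow_add, div_le_one (by positivity)]
        exact pow_le_pow_right₀ (by norm_num) (by omega)) (by
        rw [div_mul_eq_mul_div, ← pow_add, div_le_one (by positivity)]
        exact pow_le_pow_right₀ (by norm_num) (by omega)) (by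
        rw [mul_div_assoc', div_mul_eq_mul_div, ← pow_add, ← pow_add, div_le_one (by positivity)]
        exact pow_le_pow_right₀ (by norm_num) (by omega)) (by
        rw [div_mul_eq_mul_div, one_mul, div_le_one (by positivity)]
        exact pow_le_pow_right₀ (by norm_num) (by omega)) W (fun ω hω => hBA ω (d1 ω hω))
      (frok_sub hfr d1) d3 (frok_sub hfr1 d1)
      (fun ω hω j => (hbN ω (d1 ω hω) j).trans hkp) (fun ω hω => hslN ω (d1 ω hω))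
      (fun ω ω' hω hω' h => hrel ω ω' (d1 ω hω) (d1 ω' hω') h)
      (fun ω ω' hω hω' h => hdz ω ω' (d1 ω hω) (d1 ω' hω') h) d4
    have e1 := hJ₀ J hJ
    have e2 : Pe F.p B ≤ κ / 2 * Pe F.p A := by
      calc Pe F.p B ≤ 4 * N * 2 ^ ((2 + 2) * (2 + 2)) * Pe F.p W := d2
        _ = 4 * N * 2 ^ 16 * Pe F.p W := by norm_num
        _ ≤ 4 * N * 2 ^ 16 * (Real.exp (-(δ * J)) * Pe F.p A) :=
          mul_le_mul_of_nonneg_left h5 (by positivity)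
        _ ≤ 4 * N * 2 ^ 16 * (κ / (2 * (4 * N * 2 ^ 16)) * Pe F.p A) :=
          mul_le_mul_of_nonneg_left (mul_le_mul_of_nonneg_right e1 (hp A)) (by positivity)
        _ = κ / 2 * Pe F.p A := by
          field_simp
    have e3 : 0 < κ * Pe F.p A := mul_pos hκ hA0
    linarith

end Pool.F5
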