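import Pool.Agent.H64.F5.Apr
import Pool.Agent.H46.F5.Rel
import Pool.Agent.H60.D2.Fra

/-!
# (F5): one level, in one family

`lev_fam`: the second derivative of the ball chart of the target is natural on a part of the event,
or there are, on a part of the event, normalised natural polynomials with a second derivative which
is not small at the sample.
-/

set_option autoImplicit false

namespace Pool.F5

open Finset Real MvPolynomial
open Pool.Agent.H49.Ent Pool.Agent.H32.Dense Pool.STK Pool.KA Pool.KSAT Pool.K2S Pool.PB Pool.S6C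
open Pool.GEN Pool.CHT Pool.CHX
open Pool.D2F
open Pool.D2Z (en en_nonneg cv_subl Nc frok_mono frok_sub)
open Pool.HP46 (lin lin_eta eta_lin en_lin_le NP hs_NP dep_hp hs_congr ptn_of nrm_box agr_hs eta_box
  hpol_of rel_of hs_eo PGn PHn eta_le_en Ptn two_i ix_le)
open Pool.D2R (dd hs nrm nrm_nonneg dd_add dd_smul dd_sub hs_sub hs_add_left hs_add_right
  hs_smul_left hs_smul_right hs_comm)

variable {m J : ℕ}

/-- The natural norm of a unit vector. -/
theorem en_unit {c : ℕ → Fin m} {n : ℕ} (g : ℕ → ℕ) (a : ℕ) {χ : ℕ → Option (Fin m) → ℝ}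
    (hc : Set.InjOn c (Set.Iio n)) (hχ : ∀ l, CvC c l (χ l)) (o : Option (Fin n)) :
    en c g a χ n (lin c g a χ n (eo o)) ≤ 1 := by
  unfold en
  have h1 : ∀ j ∈ range (n + 1), |eta c g a χ (lin c g a χ n (eo o)) j| =
      if j = ix o then 1 else 0 := by
    intro j hj
    obtain ⟨o', rfl⟩ := Pool.HP46.ix_sur (Nat.lt_succ_iff.1 (Finset.mem_range.1 hj))
    rw [eta_lin g a hc hχ]
    unfold eo
    by_cases h : o' = o
    · rw [if_pos h, if_pos (by rw [h]), abs_one]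
    · rw [if_neg h, if_neg fun h' => h (Pool.HP46.ix_inj h'), abs_zero]
  rw [Finset.sum_congr rfl h1, Finset.sum_ite_eq' (range (n + 1)) (ix o) (fun _ => (1 : ℝ))]
  split_ifs <;> norm_num

/-- The second derivative from its entries. -/
theorem hs_ent {c : ℕ → Fin m} {n : ℕ} (g : ℕ → ℕ) (a : ℕ) {χ : ℕ → Option (Fin m) → ℝ}
    (hc : Set.InjOn c (Set.Iio n)) (hχ : ∀ l, CvC c l (χ l))
    {P : MvPolynomial (Option (Fin m)) ℝ} (hP : DepC c n P) {b : Option (Fin m) → ℝ} {M : ℝ}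
    (hM : ∀ o o' : Option (Fin n), |hs P b (lin c g a χ n (eo o)) (lin c g a χ n (eo o'))| ≤ M)
    (V V' : Option (Fin m) → ℝ) : |hs P b V V'| ≤ M * (en c g a χ n V * en c g a χ n V') := by
  obtain ⟨v, hv⟩ : ∃ v : Option (Fin n) → ℝ, v = fun o => eta c g a χ V (ix o) := ⟨_, rfl⟩
  obtain ⟨v', hv'⟩ : ∃ v' : Option (Fin n) → ℝ, v' = fun o => eta c g a χ V' (ix o) := ⟨_, rfl⟩
  have h0 := lin_eta (n := n) g a hc hχ V
  have h0' := lin_eta (n := n) g a hc hχ V'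
  rw [← hv] at h0
  rw [← hv'] at h0'
  have h1 : hs P b V V' = hs P b (lin c g a χ n v) (lin c g a χ n v') :=
    hs_congr hP rfl (fun _ _ => rfl) h0.1.symm (fun l hl => (h0.2 l hl).symm) h0'.1.symm
      (fun l hl => (h0'.2 l hl).symm)
  have h2 : ∀ W W' : Option (Fin n) → ℝ, hs (NP c g a χ n b 1 P) 0 W W' =
      hs P b (lin c g a χ n W) (lin c g a χ n W') := by
    intro W W'
    rw [hs_NP, one_mul]
    have e1 : lin c g a χ n (0 : Option (Fin n) → ℝ) = 0 := by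
      funext k
      simp [lin]
    rw [e1, add_zero]
  rw [h1, ← h2, hs_eo]
  have hM0 : 0 ≤ M := (abs_nonneg _).trans (hM none none)
  have h3 : ∀ o' o : Option (Fin n), |hs (NP c g a χ n b 1 P) 0 (eo o) (eo o') * (v o * v' o')| ≤
      M * (|v o| * |v' o'|) := by
    intro o' o
    rw [abs_mul, abs_mul, h2]
    exact mul_le_mul_of_nonneg_right (hM o o') (by positivity)
  have h4 : ∀ u : Option (Fin n) → ℝ, ∀ U : Option (Fin m) → ℝ,
      u = (fun o => eta c g a χ U (ix o)) → ∑ o, |u o| = en c g a χ n U := by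
    intro u U hu
    rw [hu, Fintype.sum_option]
    unfold en
    rw [Finset.sum_range_succ', add_comm]
    congr 1
    rw [Finset.sum_range]
    rfl
  calc |∑ o', ∑ o, hs (NP c g a χ n b 1 P) 0 (eo o) (eo o') * (v o * v' o')| ≤
        ∑ o', ∑ o, M * (|v o| * |v' o'|) := by
        refine (Finset.abs_sum_le_sum_abs _ _).trans (Finset.sum_le_sum fun o' _ => ?_)
        exact (Finset.abs_sum_le_sum_abs _ _).trans (Finset.sum_le_sum fun o _ => h3 o' o)
    _ = M * ((∑ o, |v o|) * ∑ o', |v' o'|) := by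
        rw [Finset.sum_mul_sum, Finset.mul_sum, Finset.sum_comm]
        refine Finset.sum_congr rfl fun o _ => ?_
        rw [Finset.mul_sum]
    _ = _ := by rw [h4 v V hv, h4 v' V' hv']

/-- **One level**, in one family. -/
theorem lev_fam (D n : ℕ) : ∃ C : ℕ, ∀ {m J : ℕ} {F : Fam m J} {c : ℕ → Fin m}
    {a e k hh mu K N T l₀ : ℕ} {g : ℕ → ℕ} {κ : ℝ} {B₀ B : F.Ω → Prop}
    {G : PtT F → ℕ → MvPolynomial (Option (Fin m)) ℝ}
    {H : LnT F → ℕ → MvPolynomial (Option (Fin m)) ℝ} {ψ : PtT F → ℕ → Option (Fin m) → ℝ}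
    {ψH : LnT F → ℕ → Option (Fin m) → ℝ} {M : PtT F → Fin n → Fin 2 → ℝ},
    Set.InjOn c (Set.Iio (n + 2)) → a ≤ J → (∀ j ≤ n, e + g j + mu + n + 2 ≤ J) →
    g (n + 1) ≤ J → ChOK F c (n + 2) (fun _ => D) a a e g B G H →
    FrOK F c (n + 1) a k e g B ψ ψH →
    (∀ ω, B ω → Nc c g a (n + 1) (2 ^ k) (ψ (ptr F J ω))
      (fun l => grd (G (ptr F J ω) l) (bt F ω))) →
    (∀ ω, B ω → ∀ τ ∈ Set.Icc (0 : ℝ) 1,
      |(dv a (fun s _ => H s (n + 1)) (c (n + 1)) (slam F a ω)).eval τ| ≤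
        2 ^ k / 2 ^ g (n + 1)) → (∀ l < n + 1, NatH F c a g B G k l) →
    (∀ ω, B ω → ∀ j ≤ n + 1, |bd F ω (some (c j)) - dd (G (ptr F J ω) j) (bt F ω) (bd F ω)| ≤
      2 ^ k * 2 ^ a / 2 ^ g j) →
    (∀ ω, B ω → |hs (G (ptr F J ω) (n + 1)) (bt F ω) (bd F ω) (bd F ω)| ≤
      2 ^ k * (2 ^ a) ^ 2 / 2 ^ g (n + 1)) →
    (∀ ω, B ω → ∀ l : Fin n, |Xn F c g a ψ ω (l + 2) - (M (ptr F J ω) l 0 +
      M (ptr F J ω) l 1 * Xn F c g a ψ ω 1)| ≤ 2 ^ k / 2 ^ mu) →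
    (∀ ω, B ω → ∀ l i, |M (ptr F J ω) l i| ≤ 2 ^ k) →
    RelvF F c (n + 1) a a g D hh κ B₀ G → Sub B B₀ → 0 < Pe F.p B → 0 ≤ κ → 1 ≤ N →
    κ * (4 * N * 4 ^ ((n + 2) * (n + 2))) * Pe F.p B₀ ≤ Pe F.p B →
    T + C * (k + 1) ≤ K → C * (K + hh + 1) ≤ mu → mu ≤ l₀ →
    C * (J + e + k + 1) + hh ≤ l₀ + N * T →
    (∃ B' : F.Ω → Prop, Sub B' B ∧ Pe F.p B ≤ 2 * 2 ^ ((n + 2) * (n + 2)) * Pe F.p B' ∧
      NatH F c a g B' G (l₀ + C * (k + 1)) (n + 1)) ∨
    ∃ (L : ℕ) (W : F.Ω → Prop), Sub W B ∧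
      Pe F.p B ≤ 4 * N * 2 ^ ((n + 2) * (n + 2)) * Pe F.p W ∧
      HPol F c g a n D ψ W (PGn F c g a n ψ L G) (PHn F c g a n ψH L H) M (2 ^ K) (2 ^ K)
        (2 ^ (C * (K + 1)) / 2 ^ mu) ∧
      ∀ ω, W ω → ∃ o o', 1 / 2 ^ (C * (K + hh + 1)) ≤
        |hs (PGn F c g a n ψ L G (ptr F J ω)) 0 (eo o) (eo o')| := by
  classical
  obtain ⟨Cp, hCp⟩ := ptn_of D (n + 1)
  obtain ⟨Cn, hCn⟩ := nrm_box D (n + 1)
  obtain ⟨Ce, hCe⟩ := eta_box D (n + 1)
  obtain ⟨Ca, hCa⟩ := agr_hs D (n + 1)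
  obtain ⟨Cr, hCr⟩ := apr_smp D (n + 1)
  obtain ⟨Ch, hCh⟩ := hpol_of D n
  obtain ⟨Co, hCo⟩ := rel_of D n
  -- the exponents: `x₁` of the closeness, `x₂` of the norms
  obtain ⟨A₁, hA₁⟩ : ∃ A₁, A₁ = Ca * (Ce * (Cp + 1) + Cp + 1) := ⟨_, rfl⟩
  obtain ⟨A₂, hA₂⟩ : ∃ A₂, A₂ = Cn * (Cp + 1) := ⟨_, rfl⟩
  obtain ⟨C, hC⟩ : ∃ C, C = Cr + 3 * A₁ + 6 * A₂ + Ch + Co + 2 * n + 20 := ⟨_, rfl⟩
  refine ⟨C, ?_⟩
  intro m J F c a e k hh mu K N T l₀ g κ B₀ B G H ψ ψH M hc haJ hJ hgJ hch hfr hnc hdv hnat hvel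
    hnul hslp hbM hR hB hB0 hκ0 hN hκ hTK hKmu hmul hNT
  have hc1 : Set.InjOn c (Set.Iio (n + 1)) := hc.mono (Set.Iio_subset_Iio (by omega))
  have hg0 : (0 : ℝ) < 2 ^ g (n + 1) := by positivity
  obtain ⟨x₁, hx₁⟩ : ∃ x₁, x₁ = A₁ * (k + 1) := ⟨_, rfl⟩
  obtain ⟨x₂, hx₂⟩ : ∃ x₂, x₂ = A₂ * (k + 1) := ⟨_, rfl⟩
  have hCk : C * (k + 1) = Cr * (k + 1) + 3 * x₁ + 6 * x₂ + Ch * (k + 1) + Co * (k + 1) +
      (2 * n + 20) * (k + 1) := by rw [hC, hx₁, hx₂]; ring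
  -- the point
  have hP : ∀ ω, B ω → Ptn c g a (n + 1) D (Cp * (k + 1)) (G (ptr F J ω)) (ψ (ptr F J ω))
      (bt F ω) := fun ω hω => hCp hc1 (hch.degG _) (hch.depG _) (hfr.dep _)
    (fun l hl => hch.pos ω hω l (by omega)) (fun l hl V => by
      have h1 := hnc ω hω l hl V
      rw [cv_subl] at h1
      exact h1) (fun l hl => hnat l hl ω hω)
  -- the norms on the box
  have hnb : ∀ ω, B ω → ∀ b, NBx c (G (ptr F J ω)) g a (F.t ω) (n + 1) b → ∀ V,
      nrm c (G (ptr F J ω)) g a (n + 1) b V ≤ 2 ^ x₂ * en c g a (ψ (ptr F J ω)) (n + 1) V ∧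
      en c g a (ψ (ptr F J ω)) (n + 1) V ≤ 2 ^ x₂ * nrm c (G (ptr F J ω)) g a (n + 1) b V := by
    intro ω hω b hb V
    have h1 := hCn (hP ω hω) (b := b) hb V
    have h2 : (2 : ℝ) ^ (Cn * (Cp * (k + 1) + 1)) ≤ 2 ^ x₂ := by
      refine pow_le_pow_right₀ (by norm_num) ?_
      rw [hx₂, hA₂, Nat.mul_assoc]
      exact Nat.mul_le_mul_left _ (by nlinarith)
    exact ⟨h1.1.trans (mul_le_mul_of_nonneg_right h2 (en_nonneg _ _ _ _ _ _)),
      h1.2.trans (mul_le_mul_of_nonneg_right h2 (nrm_nonneg _ _ _ _ _ _ _))⟩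
  -- the vectors of the frame
  obtain ⟨Ev, hEv⟩ : ∃ Ev : PtT F → Option (Fin (n + 1)) → Option (Fin m) → ℝ,
      Ev = fun y o => lin c g a (ψ y) (n + 1) (eo o) := ⟨_, rfl⟩
  obtain ⟨EvH, hEvH⟩ : ∃ EvH : LnT F → Option (Fin (n + 1)) → Option (Fin m) → ℝ,
      EvH = fun s o => lin c g a (ψH s) (n + 1) (eo o) := ⟨_, rfl⟩
  have hEE : ∀ ω, B ω → ∀ o, EvH (slam F a ω) o = Ev (ptr F J ω) o := by
    intro ω hω o
    rw [hEv, hEvH]
    show lin c g a (ψH (slam F a ω)) (n + 1) (eo o) = lin c g a (ψ (ptr F J ω)) (n + 1) (eo o)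
    rw [hfr.cls ω hω]
  have hE1 : ∀ y o, en c g a (ψ y) (n + 1) (Ev y o) ≤ 1 := fun y o => by
    rw [hEv]
    exact en_unit g a hc1 (hfr.dep y) o
  -- the entries
  obtain ⟨E, hE⟩ : ∃ E : Option (Fin (n + 1)) × Option (Fin (n + 1)) → PtT F →
      MvPolynomial (Option (Fin m)) ℝ,
      E = fun x y => hp (G y (n + 1)) (Ev y x.1) (Ev y x.2) := ⟨_, rfl⟩
  obtain ⟨El, hEl⟩ : ∃ El : Option (Fin (n + 1)) × Option (Fin (n + 1)) → LnT F →
      MvPolynomial (Option (Fin m)) ℝ,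
      El = fun x s => hp (H s (n + 1)) (EvH s x.1) (EvH s x.2) := ⟨_, rfl⟩
  have hEe : ∀ x y b, eval b (E x y) = hs (G y (n + 1)) b (Ev y x.1) (Ev y x.2) :=
    fun x y b => by rw [hE]; exact eval_hp _ _ _ _
  have hEle : ∀ x s b, eval b (El x s) = hs (H s (n + 1)) b (EvH s x.1) (EvH s x.2) :=
    fun x s b => by rw [hEl]; exact eval_hp _ _ _ _
  have dE : ∀ x y, (E x y).totalDegree ≤ D := fun x y => by
    rw [hE]; exact deg_hp (hch.degG y (n + 1)) _ _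
  have dEl : ∀ x s, (El x s).totalDegree ≤ D := fun x s => by
    rw [hEl]; exact deg_hp (hch.degH s (n + 1)) _ _
  have pE : ∀ x y, DepC c (n + 1) (E x y) := fun x y => by
    rw [hE]; exact dep_hp (hch.depG y (n + 1)) _ _
  have pEl : ∀ x s, DepC c (n + 1) (El x s) := fun x s => by
    rw [hEl]; exact dep_hp (hch.depH s (n + 1)) _ _
  obtain ⟨M₀, hM₀⟩ : ∃ M₀ : ℝ, M₀ = 2 ^ x₁ / 2 ^ g (n + 1) := ⟨_, rfl⟩
  have hM₀0 : 0 < M₀ := by rw [hM₀]; positivity
  have hclo : ∀ ω, B ω → ∀ x, ∀ b, NBx c (G (ptr F J ω)) g a (F.t ω) (n + 1) b →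
      |eval b (E x (ptr F J ω)) - eval b (El x (slam F a ω))| ≤ M₀ := by
    intro ω hω x b hb
    rw [hEe, hEle, hEE ω hω, hEE ω hω, ← hs_sub]
    have h1 := hCe (hP ω hω) (b := b) hb
    have h2 := hCa (k := Ce * (Cp * (k + 1) + 1) + Cp * (k + 1)) ((hP ω hω).mono (by omega))
      (W := b - bt F ω) (Q := G (ptr F J ω) (n + 1) - H (slam F a ω) (n + 1))
      (M := 1 / 2 ^ g (n + 1))
      (fun b b' h0 h1 => by
        rw [map_sub, map_sub, hch.depG _ _ b b' h0 h1, hch.depH _ _ b b' h0 h1])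
      ((totalDegree_sub _ _).trans (max_le (hch.degG _ _) (hch.degH _ _))) (by positivity)
      (fun b hb => by
        rw [map_sub]
        exact hch.agr ω hω (n + 1) (by omega) b hb)
      (fun j hj => (h1 j hj).trans (pow_le_pow_right₀ (by norm_num) (by omega)))
      (Ev (ptr F J ω) x.1) (Ev (ptr F J ω) x.2)
    rw [add_sub_cancel] at h2
    refine h2.trans ?_
    have h3 : en c g a (ψ (ptr F J ω)) (n + 1) (Ev (ptr F J ω) x.1) *
        en c g a (ψ (ptr F J ω)) (n + 1) (Ev (ptr F J ω) x.2) ≤ 1 :=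
      mul_le_one₀ (hE1 _ _) (en_nonneg _ _ _ _ _ _) (hE1 _ _)
    have h4 : (2 : ℝ) ^ (Ca * (Ce * (Cp * (k + 1) + 1) + Cp * (k + 1) + 1)) ≤ 2 ^ x₁ := by
      refine pow_le_pow_right₀ (by norm_num) ?_
      rw [hx₁, hA₁, Nat.mul_assoc]
      refine Nat.mul_le_mul_left _ ?_
      have e1 : (Ce * (Cp + 1) + Cp + 1) * (k + 1) = Ce * (Cp * (k + 1)) + Ce * (k + 1) +
          Cp * (k + 1) + (k + 1) := by ring
      have e2 : Ce ≤ Ce * (k + 1) := Nat.le_mul_of_pos_right _ (by omega)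
      rw [e1, Nat.mul_add]
      omega
    calc 2 ^ (Ca * (Ce * (Cp * (k + 1) + 1) + Cp * (k + 1) + 1)) * (1 / 2 ^ g (n + 1)) *
          (en c g a (ψ (ptr F J ω)) (n + 1) (Ev (ptr F J ω) x.1) *
          en c g a (ψ (ptr F J ω)) (n + 1) (Ev (ptr F J ω) x.2)) ≤
          2 ^ x₁ * (1 / 2 ^ g (n + 1)) * 1 :=
          mul_le_mul (mul_le_mul_of_nonneg_right h4 (by positivity)) h3
            (mul_nonneg (en_nonneg _ _ _ _ _ _) (en_nonneg _ _ _ _ _ _)) (by positivity)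
      _ = M₀ := by rw [hM₀]; ring
  -- the a priori bound
  have hcard : Fintype.card (Option (Fin (n + 1)) × Option (Fin (n + 1))) = (n + 2) * (n + 2) := by
    simp [Fintype.card_prod, Fintype.card_option]
  obtain ⟨X, hX⟩ : ∃ X, X = Cr * (J + e + k + 1) + 2 * x₂ + J := ⟨_, rfl⟩
  have hgj : ∀ j ≤ n + 1, g j ≤ J := by
    intro j hj
    rcases Nat.lt_or_ge j (n + 1) with h | h
    · have := hJ j (by omega)
      omega
    · have h1 : j = n + 1 := by omega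
      rw [h1]
      exact hgJ
  have hbt : ∀ ω, B ω → NBx c (G (ptr F J ω)) g a (F.t ω) (n + 1) (bt F ω) := fun ω hω =>
    ⟨by rw [show bt F ω none = F.t ω from rfl, sub_self, abs_zero]; positivity,
      fun j hj => hch.pos ω hω j (by omega)⟩
  have hcru : ∀ ω, B ω → ∀ x, |eval (bt F ω) (E x (ptr F J ω))| ≤ 2 ^ X * M₀ := by
    intro ω hω x
    rw [hEe]
    have h1 := hCr (F := F) (c := c) (a := a) (e := e) (k := k) (g := g) (B := B) (G := G)
      (H := H) hc1 hch hgj hvel hnul ω hω (Ev (ptr F J ω) x.1) (Ev (ptr F J ω) x.2)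
    have h2 : ∀ o, nrm c (G (ptr F J ω)) g a (n + 1) (bt F ω) (Ev (ptr F J ω) o) ≤ 2 ^ x₂ := by
      intro o
      refine (hnb ω hω _ (hbt ω hω) _).1.trans ?_
      exact mul_le_of_le_one_right (by positivity) (hE1 _ _)
    refine h1.trans ?_
    calc 2 ^ (Cr * (J + e + k + 1)) * (nrm c (G (ptr F J ω)) g a (n + 1) (bt F ω)
          (Ev (ptr F J ω) x.1) * nrm c (G (ptr F J ω)) g a (n + 1) (bt F ω)
          (Ev (ptr F J ω) x.2)) ≤ 2 ^ (Cr * (J + e + k + 1)) * (2 ^ x₂ * 2 ^ x₂) :=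
          mul_le_mul_of_nonneg_left (mul_le_mul (h2 _) (h2 _) (nrm_nonneg _ _ _ _ _ _ _)
            (by positivity)) (by positivity)
      _ ≤ 2 ^ X * M₀ := by
          rw [hM₀, ← mul_div_assoc, le_div_iff₀ hg0, ← pow_add, ← pow_add, ← pow_add, ← pow_add]
          refine pow_le_pow_right₀ (by norm_num) ?_
          rw [hX]
          omega
  have h4N : (1 : ℝ) ≤ 4 * N := by
    have : (1 : ℝ) ≤ N := by exact_mod_cast hN
    linarith
  have hP0 := Pe_nonneg F.isLaw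
  have hpw4 : (4 : ℝ) ^ ((n + 2) * (n + 2)) = 2 ^ ((n + 2) * (n + 2)) * 2 ^ ((n + 2) * (n + 2)) := by
    rw [← mul_pow]
    norm_num
  have h1pw : (1 : ℝ) ≤ 2 ^ ((n + 2) * (n + 2)) := one_le_pow₀ (by norm_num)
  obtain ⟨B₁, b1, b2, b3⟩ := rel_all hR hB (by
      rw [hcard]
      refine le_trans ?_ hκ
      refine mul_le_mul_of_nonneg_right (mul_le_mul_of_nonneg_left ?_ hκ0) (hP0 B₀)
      rw [hpw4]
      calc (2 : ℝ) ^ ((n + 2) * (n + 2)) = 1 * (2 ^ ((n + 2) * (n + 2)) * 1) := by ring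
        _ ≤ _ := mul_le_mul h4N (mul_le_mul_of_nonneg_left h1pw (by positivity)) (by positivity)
            (by linarith)) (E := E) (El := El) (M := 2 ^ X * M₀) (by positivity) dE dEl pE pEl hcru
    (fun ω hω x b hb => (hclo ω hω x b hb).trans (le_mul_of_one_le_left hM₀0.le
      (one_le_pow₀ (by norm_num))))
  rw [hcard] at b2
  have hB1 : 0 < Pe F.p B₁ := by
    have : 0 < 2 ^ ((n + 2) * (n + 2)) * Pe F.p B₁ := hB0.trans_le b2
    exact (mul_pos_iff_of_pos_left (by positivity)).1 this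
  have hXC : hh + X ≤ l₀ + N * T := by
    have e1 : C * (J + e + k + 1) = Cr * (J + e + k + 1) + 3 * (A₁ * (J + e + k + 1)) +
        6 * (A₂ * (J + e + k + 1)) + (Ch + Co) * (J + e + k + 1) +
        (2 * n + 20) * (J + e + k + 1) := by rw [hC]; ring
    have e2 : x₂ ≤ A₂ * (J + e + k + 1) := by
      rw [hx₂]
      exact Nat.mul_le_mul_left _ (by omega)
    have e3 : J ≤ (2 * n + 20) * (J + e + k + 1) := by nlinarith
    rw [hX]
    omega
  have hKh : K + hh + 1 ≤ C * (K + hh + 1) := Nat.le_mul_of_pos_left _ (by omega)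
  have hkK : k ≤ K := by
    have : (2 * n + 20) * (k + 1) ≤ C * (k + 1) := Nat.mul_le_mul_right _ (by omega)
    nlinarith
  rcases win_pig (B := B₁) hR (fun ω hω => hB ω (b1 ω hω)) (E := E) (El := El) (M := M₀) hM₀0
    (N := N) (T := T) (l₀ := l₀) (by
      rw [hcard]
      have h2 : 2 ^ ((n + 2) * (n + 2)) * (κ * (4 * N * 2 ^ ((n + 2) * (n + 2))) * Pe F.p B₀) ≤
          2 ^ ((n + 2) * (n + 2)) * Pe F.p B₁ := by
        refine le_trans (le_of_eq ?_) (hκ.trans b2)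
        rw [hpw4]
        ring
      exact le_of_mul_le_mul_left h2 (by positivity)) hB1 dE dEl pE pEl
    (fun ω hω => hclo ω (b1 ω hω)) (fun ω hω x b hb => (b3 ω hω x b hb).trans (by
      rw [← mul_assoc, ← pow_add]
      exact mul_le_mul_of_nonneg_right (pow_le_pow_right₀ (by norm_num) hXC) hM₀0.le))
    (by omega) with ⟨B', c1, c2, c3⟩ | ⟨l, W, d1, d2, d3, d4⟩
  · left
    refine ⟨B', fun ω hω => b1 ω (c1 ω hω), ?_, ?_⟩
    · calc Pe F.p B ≤ 2 ^ ((n + 2) * (n + 2)) * Pe F.p B₁ := b2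
        _ ≤ 2 ^ ((n + 2) * (n + 2)) * (2 * Pe F.p B') :=
          mul_le_mul_of_nonneg_left c2 (by positivity)
        _ = _ := by ring
    · intro ω hω b hb V V'
      have hωB := b1 ω (c1 ω hω)
      have h1 := hs_ent g a hc1 (hfr.dep (ptr F J ω)) (hch.depG (ptr F J ω) (n + 1)) (b := b)
        (M := 2 ^ l₀ * M₀) (fun o o' => by
          have h2 := c3 ω hω (o, o') b hb
          rw [hEe, hEv] at h2
          exact h2) V V'
      refine h1.trans ?_
      have h3 := (hnb ω hωB b hb V).2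
      have h4 := (hnb ω hωB b hb V').2
      calc 2 ^ l₀ * M₀ * (en c g a (ψ (ptr F J ω)) (n + 1) V *
            en c g a (ψ (ptr F J ω)) (n + 1) V') ≤ 2 ^ l₀ * M₀ *
            ((2 ^ x₂ * nrm c (G (ptr F J ω)) g a (n + 1) b V) *
            (2 ^ x₂ * nrm c (G (ptr F J ω)) g a (n + 1) b V')) :=
            mul_le_mul_of_nonneg_left (mul_le_mul h3 h4 (en_nonneg _ _ _ _ _ _)
              (mul_nonneg (by positivity) (nrm_nonneg _ _ _ _ _ _ _))) (by positivity)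
        _ = 2 ^ (l₀ + x₁ + 2 * x₂) / 2 ^ g (n + 1) *
            (nrm c (G (ptr F J ω)) g a (n + 1) b V *
            nrm c (G (ptr F J ω)) g a (n + 1) b V') := by
            rw [hM₀, two_mul, pow_add, pow_add, pow_add]
            ring
        _ ≤ _ := by
            refine mul_le_mul_of_nonneg_right (div_le_div_of_nonneg_right
              (pow_le_pow_right₀ (by norm_num) ?_) hg0.le) (mul_nonneg (nrm_nonneg _ _ _ _ _ _ _)
              (nrm_nonneg _ _ _ _ _ _ _))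
            omega
  · right
    have hWB : Sub W B := fun ω hω => b1 ω (d2 ω hω)
    have htar : ∀ ω, W ω → ∀ b, NBx c (G (ptr F J ω)) g a (F.t ω) (n + 1) b → ∀ V V',
        |hs (G (ptr F J ω) (n + 1)) b V V'| ≤ 2 ^ (l + K) / 2 ^ g (n + 1) *
          (nrm c (G (ptr F J ω)) g a (n + 1) b V *
          nrm c (G (ptr F J ω)) g a (n + 1) b V') := by
      intro ω hω b hb V V'
      have hωB := hWB ω hω
      have h1 := hs_ent g a hc1 (hfr.dep (ptr F J ω)) (hch.depG (ptr F J ω) (n + 1)) (b := b)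
        (M := 2 ^ (l + T) * M₀) (fun o o' => by
          have h2 := (d4 ω hω).1 (o, o') b hb
          rw [hEe, hEv] at h2
          exact h2) V V'
      refine h1.trans ?_
      have h3 := (hnb ω hωB b hb V).2
      have h4 := (hnb ω hωB b hb V').2
      calc 2 ^ (l + T) * M₀ * (en c g a (ψ (ptr F J ω)) (n + 1) V *
            en c g a (ψ (ptr F J ω)) (n + 1) V') ≤ 2 ^ (l + T) * M₀ *
            ((2 ^ x₂ * nrm c (G (ptr F J ω)) g a (n + 1) b V) *
            (2 ^ x₂ * nrm c (G (ptr F J ω)) g a (n + 1) b V')) :=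
            mul_le_mul_of_nonneg_left (mul_le_mul h3 h4 (en_nonneg _ _ _ _ _ _)
              (mul_nonneg (by positivity) (nrm_nonneg _ _ _ _ _ _ _))) (by positivity)
        _ = 2 ^ (l + T + x₁ + 2 * x₂) / 2 ^ g (n + 1) *
            (nrm c (G (ptr F J ω)) g a (n + 1) b V *
            nrm c (G (ptr F J ω)) g a (n + 1) b V') := by
            rw [hM₀, two_mul, pow_add _ (l + T + x₁), pow_add _ (l + T), pow_add _ x₂]
            ring
        _ ≤ _ := by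
            refine mul_le_mul_of_nonneg_right (div_le_div_of_nonneg_right
              (pow_le_pow_right₀ (by norm_num) ?_) hg0.le) (mul_nonneg (nrm_nonneg _ _ _ _ _ _ _)
              (nrm_nonneg _ _ _ _ _ _ _))
            omega
    have hkp : (2 : ℝ) ^ k ≤ 2 ^ K := pow_le_pow_right₀ (by norm_num) hkK
    have hpol := hCh (F := F) (c := c) (a := a) (e := e) (k := K) (lam := l) (mu := mu) (g := g)
      (B := W) (G := G) (H := H) (ψ := ψ) (ψH := ψH) (M := M) hc haJ (by omega) hJ (hch.sub hWB)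
      (frok_mono (frok_sub hfr hWB) hkK le_rfl) (fun ω hω => (hnc ω (hWB ω hω)).mono hkp)
      (fun ω hω τ hτ => (hdv ω (hWB ω hω) τ hτ).trans (div_le_div_of_nonneg_right hkp hg0.le))
      (fun ω hω l hl => (hnat l hl).sub hWB hkK ω hω) htar
      (fun ω hω l => (hslp ω (hWB ω hω) l).trans (div_le_div_of_nonneg_right hkp (by positivity)))
      (fun ω hω l i => (hbM ω (hWB ω hω) l i).trans hkp)
    have hCh1 : Ch * (K + 1) ≤ C * (K + 1) := Nat.mul_le_mul_right _ (by omega)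
    have hpol' : HPol F c g a n D ψ W (PGn F c g a n ψ (l + Ch * (K + 1)) G)
        (PHn F c g a n ψH (l + Ch * (K + 1)) H) M (2 ^ K) (2 ^ K) (2 ^ (C * (K + 1)) / 2 ^ mu) := by
      have h1 : (2 : ℝ) ^ (Ch * (K + 1)) / 2 ^ mu ≤ 2 ^ (C * (K + 1)) / 2 ^ mu :=
        div_le_div_of_nonneg_right (pow_le_pow_right₀ (by norm_num) hCh1) (by positivity)
      exact ⟨hpol.dG, hpol.dH, hpol.bx, fun ω hω η V V' h2 h3 h4 =>
        (hpol.agr ω hω η V V' h2 h3 h4).trans h1, fun ω hω τ hτ => (hpol.own ω hω τ hτ).trans h1,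
        fun ω hω l => (hpol.slp ω hω l).trans h1, hpol.bM, hpol.bX⟩
    refine ⟨l + Ch * (K + 1), W, hWB, ?_, hpol', fun ω hω => ?_⟩
    · calc Pe F.p B ≤ 2 ^ ((n + 2) * (n + 2)) * Pe F.p B₁ := b2
        _ ≤ 2 ^ ((n + 2) * (n + 2)) * (4 * N * Pe F.p W) :=
          mul_le_mul_of_nonneg_left d3 (by positivity)
        _ = _ := by ring
    · obtain ⟨x, hx⟩ := (d4 ω hω).2
      rw [hEe] at hx
      have hExp : C * (K + hh + 1) = Cr * (K + hh + 1) + 3 * (A₁ * (K + hh + 1)) +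
          6 * (A₂ * (K + hh + 1)) + Ch * (K + hh + 1) + Co * (K + hh + 1) +
          (2 * n + 20) * (K + hh + 1) := by rw [hC]; ring
      have hCh2 : Ch * (K + 1) ≤ Ch * (K + hh + 1) := Nat.mul_le_mul_left _ (by omega)
      have hCo2 : Co ≤ Co * (K + hh + 1) := Nat.le_mul_of_pos_right _ (by omega)
      have hn2 : 2 * n + 20 + K + hh ≤ (2 * n + 20) * (K + hh + 1) := by nlinarith
      obtain ⟨o, o', ho⟩ := hCo (F := F) (c := c) (a := a) (e := e) (k := K) (k' := k)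
        (L := l + Ch * (K + 1)) (mu := mu) (s := Ch * (K + 1) + hh + 1) (g := g) (B := B)
        (G := G) (ψ := ψ) (ψH := ψH) hc1 hJ (fun y => hch.degG y _) (fun y => hch.depG y _) hfr
        (by omega) ω (hWB ω hω) (hpol.bx ω hω) (Ev (ptr F J ω) x.1) (Ev (ptr F J ω) x.2)
        (hE1 _ _) (hE1 _ _) (by
          refine le_trans ?_ hx
          rw [hM₀, div_mul_div_comm, ← pow_add, ← pow_add,
            div_le_div_iff₀ (by positivity) (by positivity), ← pow_add, ← pow_add]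
          refine pow_le_pow_right₀ (by norm_num) ?_
          omega)
      refine ⟨o, o', le_trans ?_ ho⟩
      refine one_div_le_one_div_of_le (by positivity) (pow_le_pow_right₀ (by norm_num) ?_)
      omega

end Pool.F5
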