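import Pool.Agent.H64.F5.Slp
import Pool.Agent.H64.F5.Fin
import Pool.Agent.H60.D2.Box
import Pool.Agent.H60.D2.Trf

/-!
# (F5): the first two levels at one window

`WOK`: a ball chart at one window with a list of visible covectors near its gradients. `lvl_one`: the
frame over two coordinates and the second derivatives of the first two coordinates.
-/

set_option autoImplicit false

namespace Pool.F5

open Finset Real MvPolynomial
open Pool.Agent.H49.Ent Pool.Agent.H32.Dense Pool.STK Pool.KA Pool.KSAT Pool.K2S Pool.PB Pool.S6C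
open Pool.GEN Pool.CHT Pool.CHX
open Pool.LBT (ThrOf)
open Pool.D2F
open Pool.D2Z (Nc frm_cls box_cls V1P CurP frok_sub frok_mono frok_le cvc_grd)
open Pool.D2R (dd hs nrm nrm_nonneg ROut1)

variable {m J : ℕ}

/-- **A ball chart at one window** with the rows of the window and a list `Sv` of visible covectors
near the gradients. -/
structure WOK (F : Fam m J) (c : ℕ → Fin m) (r D w a v e k p : ℕ) (g gT : ℕ → ℕ) (U : ℝ)
    (B : F.Ω → Prop) (G : PtT F → ℕ → MvPolynomial (Option (Fin m)) ℝ)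
    (H : LnT F → ℕ → MvPolynomial (Option (Fin m)) ℝ)
    (T : PtT F → ℕ → MvPolynomial (Option (Fin m)) ℝ)
    (TH : LnT F → ℕ → MvPolynomial (Option (Fin m)) ℝ)
    (Ht : LnT F → MvPolynomial (Option (Fin m)) ℝ)
    (Sv : PtT F → ℕ → Option (Fin m) → ℝ) : Prop where
  ch : ChOK F c (r + 1) (fun _ => D) a a e g B G H
  row : ROut1 F c r w a v g gT p U B G H T TH Ht
  U0 : 0 ≤ U
  Uk : U ≤ 2 ^ k
  dep : ∀ y l, CvC c l (Sv y l)
  nr : ∀ ω, B ω → Nc c g a (r + 1) (2 ^ k) (Sv (ptr F J ω))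
    (fun l => grd (G (ptr F J ω) l) (bt F ω))

theorem WOK.sub {F : Fam m J} {c : ℕ → Fin m} {r D w a v e k p : ℕ} {g gT : ℕ → ℕ} {U : ℝ}
    {B B' : F.Ω → Prop} {G : PtT F → ℕ → MvPolynomial (Option (Fin m)) ℝ}
    {H : LnT F → ℕ → MvPolynomial (Option (Fin m)) ℝ}
    {T : PtT F → ℕ → MvPolynomial (Option (Fin m)) ℝ}
    {TH : LnT F → ℕ → MvPolynomial (Option (Fin m)) ℝ}
    {Ht : LnT F → MvPolynomial (Option (Fin m)) ℝ} {Sv : PtT F → ℕ → Option (Fin m) → ℝ}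
    (h : WOK F c r D w a v e k p g gT U B G H T TH Ht Sv) (hB : Sub B' B) :
    WOK F c r D w a v e k p g gT U B' G H T TH Ht Sv :=
  ⟨h.ch.sub hB, h.row.sub hB, h.U0, h.Uk, h.dep, fun ω hω => h.nr ω (hB ω hω)⟩

/-- The natural size of a velocity. -/
theorem WOK.nrm_bd {F : Fam m J} {c : ℕ → Fin m} {r D w a v e k p : ℕ} {g gT : ℕ → ℕ} {U : ℝ}
    {B : F.Ω → Prop} {G : PtT F → ℕ → MvPolynomial (Option (Fin m)) ℝ}
    {H : LnT F → ℕ → MvPolynomial (Option (Fin m)) ℝ}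
    {T : PtT F → ℕ → MvPolynomial (Option (Fin m)) ℝ}
    {TH : LnT F → ℕ → MvPolynomial (Option (Fin m)) ℝ}
    {Ht : LnT F → MvPolynomial (Option (Fin m)) ℝ} {Sv : PtT F → ℕ → Option (Fin m) → ℝ}
    (h : WOK F c r D w a v e k p g gT U B G H T TH Ht Sv) {ω ν : F.Ω} (hω : B ω) (hν : B ν)
    (hp : ptr F J ω = ptr F J ν) {l : ℕ} (hl : l ≤ r + 1) :
    nrm c (G (ptr F J ω)) g a l (bt F ω) (bd F ν) ≤ 2 ^ (r + 1) * 2 ^ k * 2 ^ a := by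
  unfold nrm
  have e0 : bd F ν none = 1 := rfl
  have hk : (1 : ℝ) ≤ 2 ^ k := one_le_pow₀ (by norm_num)
  have e1 : ∀ j ∈ range l, (2 : ℝ) ^ g j * |bd F ν (some (c j)) -
      dd (G (ptr F J ω) j) (bt F ω) (bd F ν)| ≤ 2 ^ k * 2 ^ a := by
    intro j hj
    have hj' := Finset.mem_range.1 hj
    have h4 := h.row.vel ω ν hω hν hp j (by omega)
    rw [le_div_iff₀ (by positivity)] at h4
    have h5 := mul_le_mul_of_nonneg_right h.Uk (show (0 : ℝ) ≤ 2 ^ a by positivity)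
    linarith
  have e2 : (l : ℝ) ≤ r + 1 := by exact_mod_cast hl
  have e3 : (r : ℝ) + 2 ≤ 2 ^ (r + 1) := by
    have h1 : r + 1 < 2 ^ (r + 1) := Nat.lt_two_pow_self
    have h2 : r + 2 ≤ 2 ^ (r + 1) := h1
    exact_mod_cast h2
  rw [e0, abs_one, mul_one]
  have e4 := Finset.sum_le_sum e1
  rw [Finset.sum_const, Finset.card_range, nsmul_eq_mul] at e4
  have e5 : (0 : ℝ) < 2 ^ a := by positivity
  have e6 : (2 : ℝ) ^ a ≤ 2 ^ k * 2 ^ a := le_mul_of_one_le_left e5.le hk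
  have e7 : (l : ℝ) * (2 ^ k * 2 ^ a) ≤ (r + 1) * (2 ^ k * 2 ^ a) :=
    mul_le_mul_of_nonneg_right e2 (by positivity)
  have e8 : ((r : ℝ) + 2) * (2 ^ k * 2 ^ a) ≤ 2 ^ (r + 1) * (2 ^ k * 2 ^ a) :=
    mul_le_mul_of_nonneg_right e3 (by positivity)
  linarith

/-- **The first two levels at one window.** -/
theorem lvl_one (m D r : ℕ) (hD : 1 ≤ D) (hr : 1 ≤ r) : ∃ C : ℕ, 1 ≤ C ∧ ∀ {θ : ℝ} {S : PCl m}
    {P : List (Fin m) × Fin m → ℝ → ℝ → ℝ}, ThrOf (chsys m θ) S P → TmH S → ∀ (c : ℕ → Fin m),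
    Set.InjOn c (Set.Iio (r + 1)) → ∀ (a : ℚ) (e h ε κ : ℝ), 0 ≤ a → a < 1 → e < θ * a → 0 < h →
    bet P c 0 a a + h ≤ 1 → 0 < ε → 0 < κ →
    Bas S (fun J F A => ∀ (w a₀ v e₀ k s p : ℕ) (g gT : ℕ → ℕ) (U : ℝ)
      (G : PtT F → ℕ → MvPolynomial (Option (Fin m)) ℝ)
      (H : LnT F → ℕ → MvPolynomial (Option (Fin m)) ℝ)
      (T : PtT F → ℕ → MvPolynomial (Option (Fin m)) ℝ)
      (TH : LnT F → ℕ → MvPolynomial (Option (Fin m)) ℝ)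
      (Ht : LnT F → MvPolynomial (Option (Fin m)) ℝ)
      (Sv : PtT F → ℕ → Option (Fin m) → ℝ) (B : F.Ω → Prop), a₀ ≤ J →
      a₀ ≤ ⌊(a : ℝ) * J⌋₊ → ε * J ≤ k → e₀ + C * (k + s + 1) ≤ ⌊e * J⌋₊ →
      (∀ j ≤ 1, e₀ + g j + C * (k + s + 1) ≤ J) →
      ⌊(bet P c 0 a a + h) * J⌋₊ + a₀ ≤ g 0 + s + ⌊(a : ℝ) * J⌋₊ → Sub B A →
      κ * Pe F.p A ≤ Pe F.p B → WOK F c r D w a₀ v e₀ k p g gT U B G H T TH Ht Sv →
      ∃ (B' : F.Ω → Prop) (ψ : PtT F → ℕ → Option (Fin m) → ℝ)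
        (ψH : LnT F → ℕ → Option (Fin m) → ℝ), Sub B' B ∧ Pe F.p B ≤ C * Pe F.p B' ∧
        FrOK F c 2 a₀ (C * (k + s + 1)) (e₀ + C * (k + s + 1)) g B' ψ ψH ∧
        (∀ ω, B' ω → Nc c g a₀ 2 (2 ^ (C * (k + s + 1))) (ψ (ptr F J ω)) (Sv (ptr F J ω))) ∧
        ∀ l ≤ 1, NatH F c a₀ g B' G (C * (k + s + 1)) l) := by
  classical
  obtain ⟨C₁, hC₁, hfrm⟩ := frm_cls m D r 2 hD (by norm_num) (by omega)
  obtain ⟨C₂, hC₂, hbox⟩ := box_cls m D hD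
  obtain ⟨C, hC⟩ : ∃ C, C = (C₂ + 6) * (C₁ * (r + 4) + 2) := ⟨_, rfl⟩
  have hCa : C₁ * (r + 4) ≤ C := by rw [hC]; nlinarith
  refine ⟨C, by nlinarith, ?_⟩
  intro θ S P hP hT c hc a e h ε κ ha0 ha he hh hb0 hε hκ
  have hc2 : Set.InjOn c (Set.Iio 2) := hc.mono (Set.Iio_subset_Iio (by omega))
  have hf := hfrm hP hT c hc2 a e h ε κ ha0 ha he hh hb0 hε hκ
  obtain ⟨δ, hδ, hb⟩ := hbox hP c hc2 a e h ha0 ha.le he hh hb0
  have hC₁R : (1 : ℝ) ≤ C₁ := by exact_mod_cast hC₁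
  obtain ⟨J₀, hJ₀⟩ := exp_small hδ (K := κ / C₁) (by positivity)
  refine Bas.mono J₀ (hf.and hb) ?_
  rintro J hJ F A ⟨hfA, hbA⟩ w a₀ v e₀ k s p g gT U G H T TH Ht Sv B haJ haa hεk hee hgJ hbt hBA
    hBκ hW
  have hp := Pe_nonneg F.isLaw
  obtain ⟨E, hE⟩ : ∃ E, E = k + s + 1 := ⟨_, rfl⟩
  have hE1 : 1 ≤ E := by omega
  obtain ⟨k₀, hk₀⟩ : ∃ k₀, k₀ = k + (k + 1) * (r + 1) := ⟨_, rfl⟩
  have hk₀E : k₀ + s + 1 ≤ (r + 4) * E := by
    rw [hk₀, hE]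
    nlinarith
  obtain ⟨k₁, hk₁⟩ : ∃ k₁, k₁ = C₁ * (k₀ + s + 1) := ⟨_, rfl⟩
  have hk₁E : k₁ ≤ C₁ * (r + 4) * E := by
    rw [hk₁, mul_assoc]
    exact Nat.mul_le_mul_left _ hk₀E
  have hkk₁ : k ≤ k₁ := by
    rw [hk₁, hk₀]
    nlinarith
  obtain ⟨Q, hQ⟩ : ∃ Q, Q = C₁ * (r + 4) * E := ⟨_, rfl⟩
  have hCE : C * E = C₂ * Q + 2 * (C₂ * E) + 6 * Q + 12 * E := by rw [hC, hQ]; ring
  rw [← hE] at hee hgJ ⊢
  rw [← hQ] at hk₁E
  have h6E : E ≤ C₂ * E := Nat.le_mul_of_pos_left _ hC₂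
  have hsE : s + 1 ≤ E := by omega
  -- the place
  obtain ⟨p₁, hp₁⟩ : ∃ p₁, p₁ = min (g 0 + s) J := ⟨_, rfl⟩
  have hp₁b : ⌊(bet P c 0 a a + h) * J⌋₊ + a₀ ≤ p₁ + ⌊(a : ℝ) * J⌋₊ := by
    have h1 : ⌊(bet P c 0 a a + h) * J⌋₊ ≤ J := by
      have h2 : (bet P c 0 a a + h) * J ≤ J := by
        have h3 := mul_le_mul_of_nonneg_right hb0 (Nat.cast_nonneg (α := ℝ) J)
        rwa [one_mul] at h3
      have h3 := Nat.floor_le_floor h2
      rwa [Nat.floor_natCast] at h3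
    rw [hp₁]
    rcases min_cases (g 0 + s) J with ⟨h2, -⟩ | ⟨h2, -⟩ <;> rw [h2] <;> omega
  -- the frame
  have hg0 := hgJ 0 (by norm_num)
  obtain ⟨B₁, ψ, ψH, a1, a2, a3, a4, -⟩ := hfA w a₀ v e₀ k₀ s k₁ p p₁ g gT U G H T TH Ht Sv B haJ
    haa (hεk.trans (by
      have : k ≤ k₀ := by rw [hk₀]; nlinarith
      exact_mod_cast this)) (by omega) (by omega) (by omega)
    (by rw [hp₁]; exact min_le_left _ _) (by rw [hp₁]; exact min_le_right _ _) hp₁b hBA hBκ hW.ch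
    hW.row hW.U0 (hW.Uk.trans (pow_le_pow_right₀ (by norm_num) (by rw [hk₀]; nlinarith)))
    (fun l h1 h2 => by omega) hW.dep (fun ω hω => ((hW.nr ω hω).le (by omega)).symm2.mono
      (pow_le_pow_right₀ (by norm_num) (by
        rw [hk₀]
        have : (k + 1) * 2 ≤ (k + 1) * (r + 1) := Nat.mul_le_mul_left _ (by omega)
        omega)))
  rw [← hk₁] at a3 a4
  have hB₁ : κ / C₁ * Pe F.p A ≤ Pe F.p B₁ := by
    rw [div_mul_eq_mul_div, div_le_iff₀ (by linarith), mul_comm]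
    linarith
  have hB₁A : Sub B₁ A := fun ω hω => hBA ω (a1 ω hω)
  obtain ⟨B₂, b1, b2, b3⟩ := hbA 2 a₀ (e₀ + k₁) e₀ k₁ s (s + 2 * k₁ + 9) p₁ r g G H ψ ψH B₁
    (by norm_num) hr haJ haa (by omega) le_rfl (by omega) (by rw [hp₁]; exact min_le_left _ _)
    (by rw [hp₁]; exact min_le_right _ _) hp₁b hB₁A (fun l hl => by
      have h1 := hgJ l hl
      have h2 : C₂ * (k₁ + 1) ≤ C₂ * Q + C₂ * E := by
        rw [← mul_add]
        exact Nat.mul_le_mul_left _ (by omega)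
      omega) (hW.ch.sub a1) a3 (fun ω hω l hl τ hτ => by
      refine (hW.row.own ω (a1 ω hω) l (by omega) τ hτ).trans
        (div_le_div_of_nonneg_right ?_ (by positivity))
      exact hW.Uk.trans (pow_le_pow_right₀ (by norm_num) hkk₁))
    ((mul_le_mul_of_nonneg_right (hJ₀ J hJ) (hp A)).trans hB₁)
  have hCk : k₁ ≤ C * E := by omega
  refine ⟨B₂, ψ, ψH, fun ω hω => a1 ω (b1 ω hω), ?_, frok_mono (frok_sub a3 b1) hCk (by omega),
    fun ω hω => (a4 ω (b1 ω hω)).mono (pow_le_pow_right₀ (by norm_num) hCk), fun l hl =>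
    (b3 l hl).sub (fun _ h => h) ?_⟩
  · have h1 : Pe F.p B ≤ C₁ * (2 * Pe F.p B₂) :=
      a2.trans (mul_le_mul_of_nonneg_left b2 (by linarith))
    refine h1.trans ?_
    rw [← mul_assoc]
    refine mul_le_mul_of_nonneg_right ?_ (hp _)
    have h2 : C₁ * 2 ≤ C := by
      rw [hC]
      nlinarith
    exact_mod_cast h2
  · have h2 : C₂ * (k₁ + s + 1) ≤ C₂ * Q + C₂ * E := by
      rw [← mul_add]
      exact Nat.mul_le_mul_left _ (by omega)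
    omega

end Pool.F5
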