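import Pool.Agent.H64.F5.Lvb

/-!
# (F5): the fourth level at one window

`lvl_three`: the second derivative of the fourth coordinate, at one window, with a deeper window.
-/

set_option autoImplicit false

namespace Pool.F5

open Finset Real MvPolynomial
open Pool.Agent.H49.Ent Pool.Agent.H32.Dense Pool.STK Pool.KA Pool.KSAT Pool.K2S Pool.PB Pool.S6C
open Pool.GEN Pool.CHT Pool.CHX
open Pool.LBT (ThrOf)
open Pool.D2F
open Pool.D2Z (Nc frok_sub frok_mono frok_le pow1)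
open Pool.D2R (dd hs nrm nrm_nonneg ROut1 nbx_up co_slam)

variable {m J : ℕ}

/-- A place. -/
theorem place {β h a : ℝ} {a₀ G s J : ℕ} (h1 : β + h ≤ 1) (haa : a₀ ≤ ⌊a * J⌋₊)
    (h2 : ⌊(β + h) * J⌋₊ + a₀ ≤ G + s + ⌊a * J⌋₊) {x : ℕ} (hx : s ≤ x) :
    ∃ p, p ≤ G + x ∧ p ≤ J ∧ ⌊(β + h) * J⌋₊ + a₀ ≤ p + ⌊a * J⌋₊ := by
  refine ⟨min (G + x) J, min_le_left _ _, min_le_right _ _, ?_⟩
  have h3 : ⌊(β + h) * J⌋₊ ≤ J := by
    have h4 : (β + h) * J ≤ J := by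
      have h5 := mul_le_mul_of_nonneg_right h1 (Nat.cast_nonneg (α := ℝ) J)
      rwa [one_mul] at h5
    have h6 := Nat.floor_le_floor h4
    rwa [Nat.floor_natCast] at h6
  rcases min_cases (G + x) J with ⟨h4, -⟩ | ⟨h4, -⟩ <;> rw [h4] <;> omega

/-- **The fourth level at one window.** -/
theorem lvl_three (m D r : ℕ) (hD : 1 ≤ D) (hr : 3 ≤ r) : ∃ C : ℕ, 1 ≤ C ∧
    ∀ {θ : ℝ} {S : PCl m} {P : List (Fin m) × Fin m → ℝ → ℝ → ℝ}, ThrOf (chsys m θ) S P →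
    TmH S → ∀ (c : ℕ → Fin m), Set.InjOn c (Set.Iio (r + 1)) → ∀ (a b : ℚ) (e h ε κ : ℝ),
    0 ≤ a → a ≤ 1 → e < θ * a → 0 ≤ b → b ≤ 1 → e < θ * b → 0 < h → bet P c 0 a a + h ≤ 1 →
    bet P c 1 a a + h ≤ 1 → bet P c 2 a a + h ≤ 1 → bet P c 1 b b + h ≤ 1 → 0 < ε → 0 < κ →
    ∃ κ' : ℝ, 0 < κ' ∧
    Bas S (fun J F A => ∀ (w a₀ v b₀ e₀ e₁ k k₁ s u p : ℕ) (g gT g₁ : ℕ → ℕ) (U : ℝ)
      (G : PtT F → ℕ → MvPolynomial (Option (Fin m)) ℝ)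
      (H : LnT F → ℕ → MvPolynomial (Option (Fin m)) ℝ)
      (T : PtT F → ℕ → MvPolynomial (Option (Fin m)) ℝ)
      (TH : LnT F → ℕ → MvPolynomial (Option (Fin m)) ℝ)
      (Ht : LnT F → MvPolynomial (Option (Fin m)) ℝ)
      (Sv : PtT F → ℕ → Option (Fin m) → ℝ) (ψ ψ₁ : PtT F → ℕ → Option (Fin m) → ℝ)
      (ψH ψH₁ : LnT F → ℕ → Option (Fin m) → ℝ) (B₀ B : F.Ω → Prop), a₀ ≤ b₀ → b₀ ≤ J →
      a₀ ≤ ⌊(a : ℝ) * J⌋₊ → b₀ ≤ ⌊(b : ℝ) * J⌋₊ → ε * J ≤ k₁ → k ≤ k₁ →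
      a₀ + C * (k₁ + s + 1) ≤ J → e₀ + C * (k₁ + s + 1) + u ≤ ⌊e * J⌋₊ →
      e₁ + C * (k₁ + s + 1) + u ≤ ⌊e * J⌋₊ →
      (∀ j ≤ 2, e₀ + g j + C * (k₁ + s + 1) + u ≤ J) →
      (∀ j ≤ 1, e₁ + g₁ j + C * (k₁ + s + 1) + u ≤ J) → g 3 ≤ J →
      (∀ l ≤ 1, C * (k₁ + s + 1) ≤ g l) → C * (k₁ + s + 1) ≤ g₁ 0 →
      (∀ l ≤ 2, ⌊(bet P c l a a + h) * J⌋₊ + a₀ ≤ g l + s + ⌊(a : ℝ) * J⌋₊) →
      ⌊(bet P c 1 b b + h) * J⌋₊ + b₀ ≤ g₁ 1 + s + ⌊(b : ℝ) * J⌋₊ →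
      g₁ 1 + g 0 ≤ u + g₁ 0 + g 1 →
      (∀ l < 2, g (l + 1) + g₁ 0 + C * (k₁ + s + 1) ≤ g 0 + g₁ (l + 1)) → Sub B B₀ →
      Sub B₀ A → κ * Pe F.p A ≤ Pe F.p B → WOK F c r D w a₀ v e₀ k p g gT U B G H T TH Ht Sv →
      FrOK F c 3 a₀ k₁ (e₀ + k₁) g B ψ ψH → FrOK F c 3 b₀ k₁ (e₁ + k₁) g₁ B ψ₁ ψH₁ →
      (∀ ω, B ω → Nc c g a₀ 3 (2 ^ k₁) (ψ (ptr F J ω)) (Sv (ptr F J ω))) →
      (∀ ω, B ω → Nc c g₁ b₀ 3 (2 ^ k₁) (ψ₁ (ptr F J ω)) (Sv (ptr F J ω))) →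
      (∀ l ≤ 2, NatH F c a₀ g B G k₁ l) →
      (∀ ω, B ω → ∀ l, 1 ≤ l → l < 3 → |bd F ω (some (c l)) -
        cv (Sv (ptr F J ω) l) (bd F ω)| ≤
        2 ^ k * 2 ^ a₀ / 2 ^ (g l + (C * (k₁ + s + 1) + u))) →
      (∀ ω, B ω → ∀ l, 1 ≤ l → l < 3 → |bd F ω (some (c l)) -
        cv (Sv (ptr F J ω) l) (bd F ω)| ≤
        2 ^ k * 2 ^ b₀ / 2 ^ (g₁ l + (C * (k₁ + s + 1) + u))) →
      RelvF F c r a₀ a₀ g D k κ' B₀ G →
      ∃ B' : F.Ω → Prop, Sub B' B ∧ Pe F.p B ≤ C * Pe F.p B' ∧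
        NatH F c a₀ g B' G (C * (k₁ + s + 1) + 2 * u) 3) := by
  classical
  obtain ⟨C₃, hC₃, hthr⟩ := nat_three m D hD
  obtain ⟨X, hX⟩ : ∃ X, X = 20 := ⟨_, rfl⟩
  obtain ⟨C, hC⟩ : ∃ C, C = 2 * (C₃ * (X + 2)) + 60 + 2 * 2 ^ 16 := ⟨_, rfl⟩
  refine ⟨C, by omega, ?_⟩
  intro θ S P hP hT c hc a b e h ε κ ha0 ha he hb0 hb heb hh ht0 ht1 ht2 ht3 hε hκ
  have hc3 : Set.InjOn c (Set.Iio 3) := hc.mono (Set.Iio_subset_Iio (by omega))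
  have hc4 : Set.InjOn c (Set.Iio 4) := hc.mono (Set.Iio_subset_Iio (by omega))
  have hcr : Set.InjOn c (Set.Iio r) := hc.mono (Set.Iio_subset_Iio (by omega))
  obtain ⟨κ', hκ', hf⟩ := hthr hP hT c hc4 a b e h ε κ ha0 ha he hb0 hb heb hh ht0 ht1 ht2 ht3 hε
    hκ
  refine ⟨κ', hκ', Bas.mono 0 hf ?_⟩
  intro J _ F A hA w a₀ v b₀ e₀ e₁ k k₁ s u p g gT g₁ U G H T TH Ht Sv ψ ψ₁ ψH ψH₁ B₀ B hab hbJ
    haa hbb hεk hkk haJ hee hee1 hgJ hgJ1 hg3 hgl hg10 hbt hbt1 hu hz hBB₀ hB₀A hBκ hW hfr hfr1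
    hN hN1 hnat hv hv1 hR
  have hp := Pe_nonneg F.isLaw
  obtain ⟨E, hE⟩ : ∃ E, E = k₁ + s + 1 := ⟨_, rfl⟩
  have hE1 : 1 ≤ E := by omega
  rw [← hE] at haJ hee hee1 hgJ hgJ1 hgl hg10 hz hv hv1 ⊢
  obtain ⟨x, hx⟩ : ∃ x, x = X * E := ⟨_, rfl⟩
  have hx1 : x = 20 * E := by rw [hx, hX]
  obtain ⟨z, hz'⟩ : ∃ z, z = C₃ * (x + 1) := ⟨_, rfl⟩
  obtain ⟨mu, hmu⟩ : ∃ mu, mu = z + u := ⟨_, rfl⟩
  obtain ⟨Q, hQ⟩ : ∃ Q, Q = C₃ * (X + 2) * E := ⟨_, rfl⟩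
  have hzQ : z ≤ Q := by
    rw [hz', hQ, mul_assoc]
    refine Nat.mul_le_mul_left _ ?_
    rw [hx, add_mul]
    omega
  have hCE : 2 * Q + 60 * E ≤ C * E := by
    rw [hC, hQ]
    nlinarith
  have hUx : U ≤ 2 ^ x := hW.Uk.trans (pow_le_pow_right₀ (by norm_num) (by omega))
  obtain ⟨p₀, q1, q2, q3⟩ := place ht0 haa (hbt 0 (by norm_num)) (show s ≤ x by omega)
  obtain ⟨p₁, q4, q5, q6⟩ := place ht1 haa (hbt 1 (by norm_num)) (show s ≤ x by omega)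
  obtain ⟨p₂, q7, q8, q9⟩ := place ht2 haa (hbt 2 le_rfl) (show s ≤ x by omega)
  obtain ⟨p₃, q10, q11, q12⟩ := place ht3 hbb hbt1 (show s ≤ x by omega)
  have hch' : ChOK F c 4 (fun _ => D) a₀ a₀ (e₀ + k₁) g B G H :=
    hW.ch.mono (by omega) (fun _ => le_rfl) le_rfl (by omega)
  have haJ' : a₀ ≤ J := hab.trans hbJ
  obtain ⟨B', b1, b2, b3⟩ := hA a₀ b₀ (e₀ + k₁) (e₁ + k₁) x x mu u z p₀ p₁ p₂ p₃ g g₁ B₀ B G H ψ ψ₁
    ψH ψH₁ (fun y l j => Mx 3 c g a₀ (ψ y) (Sv y) l j) (fun y j => Mx 3 c g₁ b₀ (ψ₁ y) (Sv y) 0 j)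
    hab hbJ haa hbb (hεk.trans (by
      have : k₁ ≤ x := by omega
      exact_mod_cast this)) (by omega) le_rfl (by rw [hmu, hz']) (by rw [hz']) (by omega)
    (by omega) (fun j hj => by
      have := hgJ j hj
      omega) (fun j hj => by
      have := hgJ1 j hj
      omega) hg3 (fun l hl => by
      have := hgl l (by omega)
      omega) (by omega) q1 q2 q3 q4 q5 q6 q7 q8 q9 q10 q11 q12 hBB₀ hB₀A hBκ hch'
    (frok_mono hfr (by omega) le_rfl)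
    (fun ω hω => ((hN ω hω).trans2 ((hW.nr ω hω).le (by omega))).mono
      (pow_le_pow_right₀ (by norm_num) (by omega)))
    (fun ω hω τ hτ => (hW.row.own ω hω 3 hr τ hτ).trans
      (div_le_div_of_nonneg_right hUx (by positivity)))
    ((hnat 0 (by norm_num)).sub (fun _ h => h) (by omega))
    ((hnat 1 (by norm_num)).sub (fun _ h => h) (by omega))
    ((hnat 2 le_rfl).sub (fun _ h => h) (by omega))
    (fun ω hω j hj => (hW.row.vel ω ω hω hω rfl j (by omega)).trans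
      (div_le_div_of_nonneg_right (mul_le_mul_of_nonneg_right hUx (by positivity))
        (by positivity)))
    (fun ω hω => (hW.row.nul ω ω hω hω rfl 3 hr).trans
      (div_le_div_of_nonneg_right (mul_le_mul_of_nonneg_right hUx (by positivity))
        (by positivity)))
    (fun ω hω l => by
      have h1 := xn_slp hc3 hfr.dep hW.dep (hN ω hω) (k := k) (mu := C * E + u) (hv ω hω)
        (i := l) (by
          have := l.2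
          omega)
      refine h1.trans ?_
      rw [div_le_div_iff₀ (by positivity) (by positivity), ← pow_add, ← pow_add]
      exact pow_le_pow_right₀ (by norm_num) (by omega))
    (fun ω hω l i => (mx_le2 hc3 (hfr.dep _) (hW.dep _) (hN ω hω) (i := l) (by
        have := l.2
        omega) i).trans (pow_le_pow_right₀ (by norm_num) (by omega)))
    (frok_le (frok_mono hfr1 (by omega) le_rfl) (by norm_num))
    (fun ω hω j => (mx_le2 hc3 (hfr1.dep _) (hW.dep _) (hN1 ω hω) (i := 0) (by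
        norm_num) j).trans (pow_le_pow_right₀ (by norm_num) (by omega)))
    (fun ω hω => by
      have h1 := xn_slp hc3 hfr1.dep hW.dep (hN1 ω hω) (k := k) (mu := C * E + u) (hv1 ω hω)
        (i := 0) (by norm_num)
      refine h1.trans ?_
      rw [div_le_div_iff₀ (by positivity) (by positivity), ← pow_add, ← pow_add]
      exact pow_le_pow_right₀ (by norm_num) (by omega))
    (fun ω ω' hω hω' hsl => by
      have h1 : ψ₁ (ptr F J ω') = ψ₁ (ptr F J ω) := by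
        rw [hfr1.cls ω hω, hfr1.cls ω' hω', hsl]
      have h2 : ψ (ptr F J ω') = ψ (ptr F J ω) := by
        rw [hfr.cls ω hω, hfr.cls ω' hω', ← co_slam F hab hbJ, ← co_slam F hab hbJ, hsl]
      show |Mx 3 c g₁ b₀ (ψ₁ (ptr F J ω')) (Sv (ptr F J ω')) 0 1 -
        Mx 3 c g₁ b₀ (ψ₁ (ptr F J ω)) (Sv (ptr F J ω)) 0 1| ≤ 2 ^ u *
        |Mx 3 c g a₀ (ψ (ptr F J ω')) (Sv (ptr F J ω')) 0 1 -
          Mx 3 c g a₀ (ψ (ptr F J ω)) (Sv (ptr F J ω)) 0 1|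
      rw [h1, h2]
      exact mx_pair hc3 (by norm_num) (hfr.dep _) (hfr1.dep _) (hW.dep _) (hW.dep _) hu)
    (fun ω ω' hω hω' hsl l => by
      have h1 : ψ₁ (ptr F J ω') = ψ₁ (ptr F J ω) := by
        rw [hfr1.cls ω hω, hfr1.cls ω' hω', hsl]
      have h2 : ψ (ptr F J ω') = ψ (ptr F J ω) := by
        rw [hfr.cls ω hω, hfr.cls ω' hω', ← co_slam F hab hbJ, ← co_slam F hab hbJ, hsl]
      show |Mx 3 c g a₀ (ψ (ptr F J ω')) (Sv (ptr F J ω')) l 1 -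
          Mx 3 c g a₀ (ψ (ptr F J ω)) (Sv (ptr F J ω)) l 1| ≤ 1 / 2 ^ z
      have h3 := hN1 ω' hω'
      rw [h1] at h3
      rw [h2]
      refine (mx_dz hc3 (by positivity) (hfr.dep _) (hfr1.dep _) (hW.dep _) (hW.dep _) hz
        (hN ω hω) (hN1 ω hω) h3 l (by
          have := l.2
          omega)).trans ?_
      have h4 := pow1 k₁ 4
      rw [div_le_div_iff₀ (by positivity) (by positivity), one_mul]
      calc 4 * (1 + (2 : ℝ) ^ k₁) ^ 4 * 2 ^ z ≤ 2 ^ 2 * 2 ^ ((k₁ + 1) * 4) * 2 ^ z := by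
            refine mul_le_mul_of_nonneg_right ?_ (by positivity)
            have e1 : (4 : ℝ) = 2 ^ 2 := by norm_num
            rw [e1]
            exact mul_le_mul_of_nonneg_left h4 (by positivity)
        _ ≤ _ := by
            rw [← pow_add, ← pow_add]
            exact pow_le_pow_right₀ (by norm_num) (by omega))
    (Pool.ISO.relvF_exp (relv_pre hcr hW.ch.depG hR hr) (by omega))
  refine ⟨B', b1, b2.trans (mul_le_mul_of_nonneg_right ?_ (hp _)), b3.sub (fun _ h => h)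
    (by omega)⟩
  have : ((2 * 2 ^ 16 : ℕ) : ℝ) ≤ (C : ℕ) := by
    have h1 : 2 * 2 ^ 16 ≤ C := by rw [hC]; omega
    exact_mod_cast h1
  push_cast at this
  linarith

end Pool.F5
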