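import Pool.Agent.H64.F5.Two

/-!
# (F5), two coordinates of `V1`: the numbers of the join

One large number `Y`, and `ε`, `κ ε`, `δ`, `ε₁` at most `1 / Y ^ 130`.
-/

set_option autoImplicit false

namespace Pool.F5

open Finset Real

/-- **The numbers**, in terms of `Y` and of its inverse `u`. -/
structure NumY (Y u : ℝ) : Prop where
  Y32 : 32 ≤ Y
  uY : Y * u = 1
  u0 : 0 < u
  u1 : u ≤ 1 / 32

theorem numY {Y : ℝ} (h : 32 ≤ Y) : NumY Y (1 / Y) :=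
  ⟨h, by field_simp, by positivity, one_div_le_one_div_of_le (by norm_num) h⟩

variable {Y u : ℝ}

theorem NumY.pu (h : NumY Y u) (i : ℕ) : 1 / Y ^ i = u ^ i := by
  have h1 : Y ^ i * u ^ i = 1 := by rw [← mul_pow, h.uY, one_pow]
  have h0 : 0 < Y ^ i := pow_pos (by linarith [h.Y32]) i
  rw [div_eq_iff h0.ne', mul_comm]
  exact h1.symm

/-- Cancellation. -/
theorem NumY.can (h : NumY Y u) (i j : ℕ) : Y ^ i * u ^ (i + j) = u ^ j := by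
  rw [pow_add, ← mul_assoc, ← mul_pow, h.uY, one_pow, one_mul]

theorem NumY.le (h : NumY Y u) {i j : ℕ} (hij : i ≤ j) : u ^ j ≤ u ^ i :=
  pow_le_pow_of_le_one h.u0.le (by linarith [h.u1]) hij

theorem NumY.stp (h : NumY Y u) (i : ℕ) : u ^ (i + 1) ≤ 1 / 32 * u ^ i := by
  rw [pow_succ, mul_comm]
  exact mul_le_mul_of_nonneg_right h.u1 (pow_nonneg h.u0.le i)

/-- A small number. -/
theorem NumY.sm (h : NumY Y u) {x : ℝ} {i : ℕ} (hx : x * Y ^ i ≤ 1) : x ≤ u ^ i := by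
  have h0 : 0 < Y ^ i := pow_pos (by linarith [h.Y32]) i
  rw [← h.pu, le_div_iff₀ h0]
  exact hx

/-- The determinant. -/
theorem NumY.det (h : NumY Y u) {ε κ δ Z : ℝ} (hκ : 0 < κ) (hε : 0 ≤ ε) (h1 : κ * ε ≤ u ^ 130)
    (h2 : δ ≤ u ^ 130) (hZ : 1 / (κ * Y) ≤ Z) (hZδ : Z ≤ δ) :
    2 * ((1 + Y) * Y) * (Y ^ 5 * ε + 2 * Y * Z ^ 2) / Z < u ^ 119 := by
  have hY := h.Y32
  have hY0 : 0 < Y := by linarith
  have hZ0 : 0 < Z := lt_of_lt_of_le (by positivity) hZ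
  have e1 : 2 * ((1 + Y) * Y) * (Y ^ 5 * ε + 2 * Y * Z ^ 2) / Z =
      2 * (1 + Y) * Y * (Y ^ 5 * (ε / Z) + 2 * Y * Z) := by
    field_simp
  have e0 : ε / Z ≤ Y * (κ * ε) := by
    rw [div_le_iff₀ hZ0]
    rw [div_le_iff₀ (by positivity)] at hZ
    calc ε = ε * 1 := (mul_one ε).symm
      _ ≤ ε * (Z * (κ * Y)) := mul_le_mul_of_nonneg_left hZ hε
      _ = _ := by ring
  rw [e1]
  have b1 : Y ^ 5 * (ε / Z) ≤ Y ^ 5 * (Y * u ^ 130) := by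
    refine mul_le_mul_of_nonneg_left (e0.trans ?_) (by positivity)
    exact mul_le_mul_of_nonneg_left h1 hY0.le
  have b2 : 2 * Y * Z ≤ 2 * Y * u ^ 130 :=
    mul_le_mul_of_nonneg_left (hZδ.trans h2) (by positivity)
  have b3 : 2 * (1 + Y) * Y ≤ 4 * Y ^ 2 := by nlinarith
  have b4 := mul_le_mul b3 (add_le_add b1 b2) (by positivity) (by positivity)
  refine b4.trans_lt ?_
  have e2 : 4 * Y ^ 2 * (Y ^ 5 * (Y * u ^ 130) + 2 * Y * u ^ 130) =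
      4 * (Y ^ 8 * u ^ (8 + 122)) + 8 * (Y ^ 3 * u ^ (3 + 127)) := by ring
  rw [e2, h.can, h.can]
  have g1 := h.le (show 120 ≤ 122 by norm_num)
  have g2 := h.le (show 120 ≤ 127 by norm_num)
  have g3 := h.stp 119
  have g4 : 0 < u ^ 119 := pow_pos h.u0 119
  linarith

/-- The covector. -/
theorem NumY.dot (h : NumY Y u) {ε : ℝ} (h1 : ε ≤ u ^ 130) :
    (Y * (Y ^ 5 * ε) + 2 * Y * (Y * u ^ 119)) / u ^ 37 ≤ u ^ 79 := by
  have hY := h.Y32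
  have hY0 : 0 < Y := by linarith
  have hu := pow_pos h.u0 37
  rw [div_le_iff₀ hu, ← pow_add]
  have b1 : Y * (Y ^ 5 * ε) ≤ Y ^ 6 * u ^ (6 + 124) := by
    have := mul_le_mul_of_nonneg_left h1 (show 0 ≤ Y ^ 6 by positivity)
    calc Y * (Y ^ 5 * ε) = Y ^ 6 * ε := by ring
      _ ≤ Y ^ 6 * u ^ 130 := this
  have b2 : 2 * Y * (Y * u ^ 119) = 2 * (Y ^ 2 * u ^ (2 + 117)) := by ring
  rw [b2, h.can]
  rw [h.can] at b1
  have g1 := h.le (show 117 ≤ 124 by norm_num)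
  have g3 := h.stp 116
  have g4 : 0 < u ^ 116 := pow_pos h.u0 116
  have e : (79 + 37 : ℕ) = 116 := by norm_num
  rw [e]
  linarith

/-- The direction. -/
theorem NumY.dir (h : NumY Y u) : u ^ 37 + Y * u ^ 34 < u ^ 32 ∧ u ^ 37 / u ^ 34 = u ^ 3 := by
  constructor
  · have e : Y * u ^ 34 = Y ^ 1 * u ^ (1 + 33) := by ring
    rw [e, h.can]
    have g1 := h.le (show 33 ≤ 37 by norm_num)
    have g3 := h.stp 32
    have g4 : 0 < u ^ 32 := pow_pos h.u0 32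
    linarith
  · have hu := pow_pos h.u0 34
    rw [div_eq_iff hu.ne', ← pow_add]

/-- The mixed derivatives. -/
theorem NumY.rem (h : NumY Y u) {X A K ε : ℝ} (hX : X ≤ Y) (hX0 : 0 ≤ X) (hA : A ≤ Y)
    (hAK : A * K ≤ Y) (hε : 0 ≤ ε) (h1 : ε ≤ u ^ 130) :
    X * (2 * A * u ^ 32 + 2 * (A * (K * ε))) ≤ u ^ 29 := by
  have hY := h.Y32
  have hY0 : 0 < Y := by linarith
  have hu := pow_pos h.u0 32
  have b1 : 2 * A * u ^ 32 ≤ 2 * Y * u ^ 32 := mul_le_mul_of_nonneg_right (by linarith) hu.le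
  have b2 : 2 * (A * (K * ε)) ≤ 2 * (Y * u ^ 130) := by
    have : A * (K * ε) ≤ Y * u ^ 130 := by
      calc A * (K * ε) = A * K * ε := by ring
        _ ≤ Y * ε := mul_le_mul_of_nonneg_right hAK hε
        _ ≤ Y * u ^ 130 := mul_le_mul_of_nonneg_left h1 hY0.le
    linarith
  have b3 : X * (2 * A * u ^ 32 + 2 * (A * (K * ε))) ≤ Y * (2 * Y * u ^ 32 + 2 * (Y * u ^ 130)) := by
    refine (mul_le_mul_of_nonneg_left (add_le_add b1 b2) hX0).trans ?_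
    exact mul_le_mul_of_nonneg_right hX (by positivity)
  refine b3.trans ?_
  have e : Y * (2 * Y * u ^ 32 + 2 * (Y * u ^ 130)) = 2 * (Y ^ 2 * u ^ (2 + 30)) +
      2 * (Y ^ 2 * u ^ (2 + 128)) := by ring
  rw [e, h.can, h.can]
  have g1 := h.le (show 30 ≤ 128 by norm_num)
  have g3 := h.stp 29
  have g4 : 0 < u ^ 29 := pow_pos h.u0 29
  linarith

/-- The plane. -/
theorem NumY.pla (h : NumY Y u) {X K : ℝ} (hX : X ≤ Y) (hX0 : 0 ≤ X) (hK : K ≤ Y) (i : ℕ)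
    : X * (K * u ^ (i + 2)) ≤ u ^ i := by
  have hY := h.Y32
  have hu := pow_pos h.u0 (i + 2)
  have hY0 : 0 < Y := by linarith
  calc X * (K * u ^ (i + 2)) ≤ Y * (Y * u ^ (i + 2)) := by
        refine (mul_le_mul_of_nonneg_left (mul_le_mul_of_nonneg_right hK hu.le) hX0).trans ?_
        exact mul_le_mul_of_nonneg_right hX (by positivity)
    _ = Y ^ 2 * u ^ (2 + i) := by ring
    _ = u ^ i := h.can 2 i

/-- The end. -/
theorem NumY.fin (h : NumY Y u) {A s : ℝ} (hA : A ^ 2 ≤ Y) (hs : 1 ≤ Y * s) :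
    9 * A ^ 2 * u ^ 5 < s := by
  have hY := h.Y32
  have hY0 : 0 < Y := by linarith
  have hu := pow_pos h.u0 5
  have h1 : 9 * A ^ 2 * u ^ 5 ≤ 9 * (Y ^ 1 * u ^ (1 + 4)) := by
    have := mul_le_mul_of_nonneg_right hA hu.le
    calc 9 * A ^ 2 * u ^ 5 = 9 * (A ^ 2 * u ^ 5) := by ring
      _ ≤ 9 * (Y * u ^ 5) := by linarith
      _ = _ := by ring
  rw [h.can] at h1
  have h2 : u ≤ s := by
    have := mul_le_mul_of_nonneg_left hs h.u0.le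
    rw [mul_one, ← mul_assoc, mul_comm u Y, h.uY, one_mul] at this
    exact this
  have g3 := h.stp 1
  have g5 := h.le (show 2 ≤ 4 by norm_num)
  rw [pow_one] at g3
  linarith [h.u0]

/-- The errors of the form. -/
theorem NumY.err (h : NumY Y u) {X A K ε : ℝ} (hX : X ≤ Y) (hX0 : 0 ≤ X) (hA : A ≤ Y)
    (hK : K ≤ Y) (hAK : K * A ≤ Y) (hε : 0 ≤ ε) :
    X * (K * ε) ≤ Y ^ 2 * ε ∧ 2 * ε ≤ Y ^ 2 * ε ∧
    (2 * (1 + A) + 32 * (K * A)) * (Y ^ 2 * ε) ≤ Y ^ 5 * ε ∧ 2 * (Y ^ 2 * ε) ≤ Y ^ 5 * ε := by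
  have hY := h.Y32
  have hY0 : 0 < Y := by linarith
  have h2 : 1 ≤ Y ^ 2 := one_le_pow₀ (by linarith)
  refine ⟨?_, ?_, ?_, ?_⟩
  · calc X * (K * ε) ≤ X * (Y * ε) :=
          mul_le_mul_of_nonneg_left (mul_le_mul_of_nonneg_right hK hε) hX0
      _ ≤ Y * (Y * ε) := mul_le_mul_of_nonneg_right hX (by positivity)
      _ = Y ^ 2 * ε := by ring
  · exact mul_le_mul_of_nonneg_right (by nlinarith) hε
  · have h3 : 2 * (1 + A) + 32 * (K * A) ≤ Y ^ 3 := by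
      have : 2 * (1 + A) + 32 * (K * A) ≤ 36 * Y := by linarith
      nlinarith [pow_pos hY0 2, pow_pos hY0 3]
    calc (2 * (1 + A) + 32 * (K * A)) * (Y ^ 2 * ε) ≤ Y ^ 3 * (Y ^ 2 * ε) :=
          mul_le_mul_of_nonneg_right h3 (by positivity)
      _ = Y ^ 5 * ε := by ring
  · have h3 : 2 ≤ Y ^ 3 := by nlinarith [pow_pos hY0 2, pow_pos hY0 3]
    calc 2 * (Y ^ 2 * ε) ≤ Y ^ 3 * (Y ^ 2 * ε) := mul_le_mul_of_nonneg_right h3 (by positivity)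
      _ = Y ^ 5 * ε := by ring

/-- The unit. -/
theorem num_unit {C₁ C₂ : ℝ} {c₁ c₂ N₁ N₂ x k s s₁ s₀ r w : ℕ} (h1 : C₁ ≤ 2 ^ c₁)
    (h2 : C₂ ≤ 2 ^ c₂) (hk : k ≤ x) (hw : w = x + s + s₁ + s₀ + r + 1) :
    32 ≤ (2 : ℝ) ^ ((c₁ + c₂ + 9 * N₁ + 9 * N₂ + 40) * w) ∧
    (2 : ℝ) ^ x ≤ 2 ^ ((c₁ + c₂ + 9 * N₁ + 9 * N₂ + 40) * w) ∧
    (2 : ℝ) ^ x * 2 ^ x ≤ 2 ^ ((c₁ + c₂ + 9 * N₁ + 9 * N₂ + 40) * w) ∧
    C₁ * (2 ^ x / (1 / 2 ^ (s + 2 * k + 9))) ^ N₁ ≤ 2 ^ ((c₁ + c₂ + 9 * N₁ + 9 * N₂ + 40) * w) ∧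
    C₂ * (2 ^ x / (1 / 2 ^ (s + 2 * k + 9))) ^ N₂ ≤ 2 ^ ((c₁ + c₂ + 9 * N₁ + 9 * N₂ + 40) * w) ∧
    (2 : ℝ) ^ (2 * k + 12 + s) ≤ 2 ^ ((c₁ + c₂ + 9 * N₁ + 9 * N₂ + 40) * w) ∧
    (2 : ℝ) ^ (3 * k + s₁ + 12) ≤ 2 ^ ((c₁ + c₂ + 9 * N₁ + 9 * N₂ + 40) * w) ∧
    (2 : ℝ) ^ s₀ ≤ 2 ^ ((c₁ + c₂ + 9 * N₁ + 9 * N₂ + 40) * w) ∧
    (2 : ℝ) ^ r ≤ 2 ^ ((c₁ + c₂ + 9 * N₁ + 9 * N₂ + 40) * w) := by
  have e0 : (c₁ + c₂ + 9 * N₁ + 9 * N₂ + 40) * w = c₁ * w + c₂ * w + 9 * N₁ * w + 9 * N₂ * w +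
      40 * w := by ring
  have hc1 : c₁ ≤ c₁ * w := Nat.le_mul_of_pos_right _ (by omega)
  have hc2 : c₂ ≤ c₂ * w := Nat.le_mul_of_pos_right _ (by omega)
  have hp : ∀ i : ℕ, i ≤ (c₁ + c₂ + 9 * N₁ + 9 * N₂ + 40) * w →
      (2 : ℝ) ^ i ≤ 2 ^ ((c₁ + c₂ + 9 * N₁ + 9 * N₂ + 40) * w) := fun i hi =>
    pow_le_pow_right₀ (by norm_num) hi
  have e1 : (2 : ℝ) ^ x / (1 / 2 ^ (s + 2 * k + 9)) ≤ 2 ^ (3 * x + s + 9) := by
    rw [one_div, div_inv_eq_mul, ← pow_add]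
    exact pow_le_pow_right₀ (by norm_num) (by omega)
  have hN : ∀ N : ℕ, (3 * x + s + 9) * N ≤ 9 * N * w := by
    intro N
    calc (3 * x + s + 9) * N ≤ (9 * w) * N := Nat.mul_le_mul_right _ (by omega)
      _ = _ := by ring
  have key : ∀ (C : ℝ) (c N : ℕ), C ≤ 2 ^ c → c + 9 * N * w ≤
      (c₁ + c₂ + 9 * N₁ + 9 * N₂ + 40) * w → C * (2 ^ x / (1 / 2 ^ (s + 2 * k + 9))) ^ N ≤
      2 ^ ((c₁ + c₂ + 9 * N₁ + 9 * N₂ + 40) * w) := by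
    intro C c N hC hi
    have h3 : ((2 : ℝ) ^ x / (1 / 2 ^ (s + 2 * k + 9))) ^ N ≤ 2 ^ ((3 * x + s + 9) * N) := by
      rw [pow_mul]
      exact pow_le_pow_left₀ (by positivity) e1 N
    have h4 := mul_le_mul hC h3 (by positivity) (by positivity)
    refine h4.trans ?_
    rw [← pow_add]
    exact hp _ ((Nat.add_le_add_left (hN N) c).trans hi)
  refine ⟨?_, hp _ (by omega), ?_, key _ c₁ N₁ h1 (by omega), key _ c₂ N₂ h2 (by omega),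
    hp _ (by omega), hp _ (by omega), hp _ (by omega), hp _ (by omega)⟩
  · have := hp 5 (by omega)
    norm_num at this ⊢
    exact this
  · rw [← pow_add]
    exact hp _ (by omega)

end Pool.F5
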