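import Pool.Agent.H90.D2.Mix

/-!
# (F5): the slopes at all windows from one system of covectors

`Mx`: the slopes of the coordinates `c (i + 1)` over `(t, c 0)` in the natural coordinates of a frame
`ψ`, from a list `χ` of covectors. `mx_own`: the own velocity. `mx_one`: the dependence on the
window. `mx_pair`, `mx_dz`: two samples with one frame.
-/

set_option autoImplicit false

namespace Pool.F5

open Finset Real MvPolynomial
open Pool.Agent.H49.Ent Pool.Agent.H32.Dense Pool.STK Pool.KA Pool.KSAT Pool.K2S Pool.PB Pool.S6C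
open Pool.GEN Pool.CHT Pool.CHX
open Pool.D2F Pool.D2Z
open Pool.HP46 (unr unr_none unr_some eta_unr)
open Pool.D2N (mx mx_dep nc_mx)

variable {m J : ℕ}

/-- **Change of the natural coordinates**, a frame of any length. -/
theorem eta_mixn {c : ℕ → Fin m} {n : ℕ} (hc : Set.InjOn c (Set.Iio n)) (g : ℕ → ℕ) (a : ℕ)
    {ψ χ : ℕ → Option (Fin m) → ℝ} (hψ : ∀ l, CvC c l (ψ l)) (hχ : ∀ l, CvC c l (χ l))
    (V : Option (Fin m) → ℝ) {j : ℕ} (hj : j ≤ n) :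
    eta c g a ψ V j =
      ∑ i ∈ range (n + 1), eta c g a χ V i * eta c g a ψ (unr c g a χ (HP46.bs i) n) j :=
  Pool.D2N.eta_mix hc g a hψ hχ V hj

/-- The size of the dual vectors. -/
theorem dual_n {c : ℕ → Fin m} {n : ℕ} (hc : Set.InjOn c (Set.Iio n)) {g : ℕ → ℕ} {a : ℕ}
    {ψ χ : ℕ → Option (Fin m) → ℝ} (hχ : ∀ l, CvC c l (χ l))
    {K : ℝ} (hK : 0 ≤ K) (hN : Nc c g a n K ψ χ) {i j : ℕ} (hi : i ≤ n) (hj : j ≤ n) :
    |eta c g a ψ (unr c g a χ (HP46.bs i) n) j| ≤ (1 + K) ^ n := by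
  have h1 : |eta c g a ψ (unr c g a χ (HP46.bs i) n) j| ≤ en c g a ψ n (unr c g a χ (HP46.bs i) n) := by
    unfold en
    exact Finset.single_le_sum (f := fun j => |eta c g a ψ (unr c g a χ (HP46.bs i) n) j|)
      (fun _ _ => abs_nonneg _) (Finset.mem_range.mpr (by omega))
  have h2 := hN.en_ge hK le_rfl (unr c g a χ (HP46.bs i) n)
  have h3 : en c g a χ n (unr c g a χ (HP46.bs i) n) = 1 := by
    unfold en
    rw [Finset.sum_eq_single i]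
    · rw [eta_unr (c := c) g a χ (HP46.bs i) hc hχ hi]
      unfold HP46.bs
      rw [if_pos rfl, abs_one]
    · intro j' hj' hne
      rw [eta_unr (c := c) g a χ (HP46.bs i) hc hχ (by
        have := Finset.mem_range.mp hj'
        omega)]
      unfold HP46.bs
      rw [if_neg hne, abs_zero]
    · intro h
      exact absurd (Finset.mem_range.mpr (by omega)) h
  rw [h3, mul_one] at h2
  exact h1.trans h2

/-- **The slopes** of `c (i + 1)` over `(t, c 0)` in the natural coordinates of `ψ`, from the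
covectors `χ`. -/
noncomputable def Mx (n : ℕ) (c : ℕ → Fin m) (g : ℕ → ℕ) (a : ℕ)
    (ψ χ : ℕ → Option (Fin m) → ℝ) (i : ℕ) (j : Fin 2) : ℝ :=
  eta c g a ψ (unr c g a (mx ψ χ) (HP46.bs j.1) n) (i + 2)

/-- The slopes are bounded. -/
theorem mx_le {c : ℕ → Fin m} {n : ℕ} (hc : Set.InjOn c (Set.Iio n)) {g : ℕ → ℕ}
    {a : ℕ} {ψ χ : ℕ → Option (Fin m) → ℝ} (hψ : ∀ l, CvC c l (ψ l)) (hχ : ∀ l, CvC c l (χ l))
    {K : ℝ} (hK : 0 ≤ K) (hN : Nc c g a n K ψ χ) {i : ℕ} (hi : i + 2 ≤ n) (j : Fin 2) :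
    |Mx n c g a ψ χ i j| ≤ (1 + K) ^ n :=
  dual_n hc (mx_dep hψ hχ) hK (nc_mx hK hN) (by omega) hi

/-- The natural coordinates in the mixed list. -/
theorem eta_mx (c : ℕ → Fin m) (g : ℕ → ℕ) (a : ℕ) (ψ χ : ℕ → Option (Fin m) → ℝ)
    (V : Option (Fin m) → ℝ) : eta c g a (mx ψ χ) V 0 = eta c g a ψ V 0 ∧
      eta c g a (mx ψ χ) V 1 = eta c g a ψ V 1 ∧
      ∀ l, 1 ≤ l → eta c g a (mx ψ χ) V (l + 1) = eta c g a χ V (l + 1) := by
  refine ⟨rfl, ?_, fun l hl => ?_⟩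
  · show 2 ^ g 0 * (V (some (c 0)) - cv (mx ψ χ 0) V) = 2 ^ g 0 * (V (some (c 0)) - cv (ψ 0) V)
    unfold mx
    rw [if_pos rfl]
  · show 2 ^ g l * (V (some (c l)) - cv (mx ψ χ l) V) = 2 ^ g l * (V (some (c l)) - cv (χ l) V)
    unfold mx
    rw [if_neg (by omega)]

/-- **The own velocities.** -/
theorem mx_own {c : ℕ → Fin m} {n : ℕ} (hc : Set.InjOn c (Set.Iio n)) {g : ℕ → ℕ}
    {a : ℕ} {ψ χ : ℕ → Option (Fin m) → ℝ} (hψ : ∀ l, CvC c l (ψ l)) (hχ : ∀ l, CvC c l (χ l))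
    {K δ : ℝ} (hK : 0 ≤ K) (hN : Nc c g a n K ψ χ) {V : Option (Fin m) → ℝ}
    (hV : eta c g a ψ V 0 = 1)
    (hδ : ∀ l, 1 ≤ l → l < n → |eta c g a χ V (l + 1)| ≤ δ) {i : ℕ} (hi : i + 2 ≤ n) :
    |eta c g a ψ V (i + 2) - (Mx n c g a ψ χ i 0 + Mx n c g a ψ χ i 1 * eta c g a ψ V 1)| ≤
      n * (δ * (1 + K) ^ n) := by
  obtain ⟨n', rfl⟩ : ∃ n', n = n' + 1 := ⟨n - 1, by omega⟩
  obtain ⟨h0, h1, h2⟩ := eta_mx c g a ψ χ V
  have e1 := eta_mixn hc g a hψ (mx_dep hψ hχ) V hi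
  rw [Finset.sum_range_succ', Finset.sum_range_succ'] at e1
  rw [h0, hV, h1, one_mul] at e1
  have e2 : eta c g a ψ V (i + 2) -
      (Mx (n' + 1) c g a ψ χ i 0 + Mx (n' + 1) c g a ψ χ i 1 * eta c g a ψ V 1) =
      ∑ k ∈ range n', eta c g a (mx ψ χ) V (k + 1 + 1) *
        eta c g a ψ (unr c g a (mx ψ χ) (HP46.bs (k + 1 + 1)) (n' + 1)) (i + 2) := by
    rw [e1]
    unfold Mx
    have f0 : ((0 : Fin 2) : ℕ) = 0 := rfl
    have f1 : ((1 : Fin 2) : ℕ) = 1 := rfl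
    rw [f0, f1]
    ring
  rw [e2]
  have hδ0 : 0 ≤ δ := by
    refine le_trans (abs_nonneg _) (hδ 1 le_rfl (by omega))
  have h3 : ∀ k ∈ range n', |eta c g a (mx ψ χ) V (k + 1 + 1) *
      eta c g a ψ (unr c g a (mx ψ χ) (HP46.bs (k + 1 + 1)) (n' + 1)) (i + 2)| ≤
      δ * (1 + K) ^ (n' + 1) := by
    intro k hk
    rw [abs_mul]
    have hk' := Finset.mem_range.1 hk
    refine mul_le_mul ?_ ?_ (abs_nonneg _) hδ0
    · rw [h2 (k + 1) (by omega)]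
      exact hδ (k + 1) (by omega) (by omega)
    · exact dual_n hc (mx_dep hψ hχ) hK (nc_mx hK hN) (by omega) hi
  refine (Finset.abs_sum_le_sum_abs _ _).trans ((Finset.sum_le_sum h3).trans ?_)
  rw [Finset.sum_const, Finset.card_range, nsmul_eq_mul]
  refine mul_le_mul_of_nonneg_right ?_ (by positivity)
  push_cast
  linarith

/-- The tangent vector of the covectors `χ` over the coordinate `c 0`. -/
noncomputable def tv (n : ℕ) (c : ℕ → Fin m) (χ : ℕ → Option (Fin m) → ℝ) :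
    Option (Fin m) → ℝ := unr c (fun _ => 0) 0 (mx 0 χ) (HP46.bs 1) n

theorem tv_none (n : ℕ) (c : ℕ → Fin m) (χ : ℕ → Option (Fin m) → ℝ) : tv n c χ none = 0 := by
  unfold tv
  rw [unr_none]
  unfold HP46.bs
  rw [if_neg (by norm_num), zero_div]

theorem mx_zero_dep {c : ℕ → Fin m} {χ : ℕ → Option (Fin m) → ℝ} (hχ : ∀ l, CvC c l (χ l)) :
    ∀ l, CvC c l (mx (0 : ℕ → Option (Fin m) → ℝ) χ l) := mx_dep (fun _ _ _ => rfl) hχ

/-- The coordinates of the tangent vector. -/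
theorem tv_some {c : ℕ → Fin m} {n : ℕ} (hc : Set.InjOn c (Set.Iio n))
    {χ : ℕ → Option (Fin m) → ℝ} (hχ : ∀ l, CvC c l (χ l)) :
    (0 < n → tv n c χ (some (c 0)) = 1) ∧
      ∀ l, 1 ≤ l → l < n → tv n c χ (some (c l)) = cv (χ l) (tv n c χ) := by
  have h0 : ∀ l, 1 ≤ l → mx (0 : ℕ → Option (Fin m) → ℝ) χ l = χ l := fun l hl => by
    unfold mx
    rw [if_neg (by omega)]
  refine ⟨fun hn => ?_, fun l hl hln => ?_⟩
  · have h1 := eta_unr (c := c) (fun _ => 0) 0 (mx (0 : ℕ → Option (Fin m) → ℝ) χ) (HP46.bs 1) hc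
      (mx_zero_dep hχ) (j := 1) hn
    have h2 : cv (mx (0 : ℕ → Option (Fin m) → ℝ) χ 0) (tv n c χ) = 0 := by
      unfold mx
      rw [if_pos rfl]
      unfold cv
      simp
    have h3 : eta c (fun _ => 0) 0 (mx (0 : ℕ → Option (Fin m) → ℝ) χ) (tv n c χ) 1 =
        tv n c χ (some (c 0)) := by
      show 2 ^ 0 * (tv n c χ (some (c 0)) - cv (mx (0 : ℕ → Option (Fin m) → ℝ) χ 0)
        (tv n c χ)) = _
      rw [h2]
      ring
    have h4 : HP46.bs 1 1 = 1 := by simp [HP46.bs]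
    unfold tv at h3 ⊢
    rw [← h3, h1, h4]
  · have h1 := eta_unr (c := c) (fun _ => 0) 0 (mx (0 : ℕ → Option (Fin m) → ℝ) χ) (HP46.bs 1) hc
      (mx_zero_dep hχ) (j := l + 1) hln
    have h3 : eta c (fun _ => 0) 0 (mx (0 : ℕ → Option (Fin m) → ℝ) χ) (tv n c χ) (l + 1) =
        tv n c χ (some (c l)) - cv (χ l) (tv n c χ) := by
      show 2 ^ 0 * (tv n c χ (some (c l)) - cv (mx (0 : ℕ → Option (Fin m) → ℝ) χ l)
        (tv n c χ)) = _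
      rw [h0 l hl]
      ring
    have h4 : HP46.bs 1 (l + 1) = 0 := by
      unfold HP46.bs
      rw [if_neg (by omega)]
    have h5 : eta c (fun _ => 0) 0 (mx (0 : ℕ → Option (Fin m) → ℝ) χ) (tv n c χ) (l + 1) = 0 := by
      unfold tv
      rw [h1, h4]
    linarith

/-- **The slopes over `c 0` and the tangent vector**: the dependence on the window. -/
theorem mx_one {c : ℕ → Fin m} {n : ℕ} (hc : Set.InjOn c (Set.Iio n)) {g : ℕ → ℕ}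
    {a : ℕ} {ψ χ : ℕ → Option (Fin m) → ℝ} (hψ : ∀ l, CvC c l (ψ l)) (hχ : ∀ l, CvC c l (χ l))
    {i : ℕ} (hi : i + 2 ≤ n) : Mx n c g a ψ χ i 1 =
      2 ^ g (i + 1) / 2 ^ g 0 * (tv n c χ (some (c (i + 1))) - cv (ψ (i + 1)) (tv n c χ)) := by
  obtain ⟨t0, t1⟩ := tv_some hc hχ
  have h1 : ∀ j ≤ n, eta c g a (mx ψ χ) (unr c g a (mx ψ χ) (HP46.bs 1) n) j =
      eta c g a (mx ψ χ) ((1 / 2 ^ g 0 : ℝ) • tv n c χ) j := by
    intro j hj
    rw [eta_unr (c := c) g a (mx ψ χ) (HP46.bs 1) hc (mx_dep hψ hχ) hj, eta_smul]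
    obtain h | h | h : j = 0 ∨ j = 1 ∨ ∃ l, 1 ≤ l ∧ j = l + 1 := by
      rcases Nat.lt_or_ge j 2 with h | h
      · omega
      · exact Or.inr (Or.inr ⟨j - 1, by omega, by omega⟩)
    · subst h
      have e1 : eta c g a (mx ψ χ) (tv n c χ) 0 = 0 := by
        show 2 ^ a * tv n c χ none = 0
        rw [tv_none, mul_zero]
      rw [e1, mul_zero]
      simp [HP46.bs]
    · subst h
      have e1 : cv (ψ 0) (tv n c χ) = 0 := by
        have := cv_congr (hψ 0) (W := tv n c χ) (W' := 0) (by rw [tv_none]; rfl)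
          fun j hj => absurd hj (Nat.not_lt_zero j)
        rw [this]
        unfold cv
        simp
      rw [(eta_mx c g a ψ χ (tv n c χ)).2.1]
      show HP46.bs 1 1 = 1 / 2 ^ g 0 * (2 ^ g 0 * (tv n c χ (some (c 0)) - cv (ψ 0) (tv n c χ)))
      rw [e1, t0 (by omega)]
      unfold HP46.bs
      rw [if_pos rfl]
      field_simp
      ring
    · obtain ⟨l, hl, rfl⟩ := h
      rw [(eta_mx c g a ψ χ (tv n c χ)).2.2 l hl]
      show HP46.bs 1 (l + 1) = 1 / 2 ^ g 0 * (2 ^ g l * (tv n c χ (some (c l)) - cv (χ l) (tv n c χ)))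
      rw [← t1 l hl (by omega), sub_self, mul_zero, mul_zero]
      unfold HP46.bs
      rw [if_neg (by omega)]
  obtain ⟨h2, h3⟩ := Pool.HP46.eta_inj (c := c) (g := g) (a := a) (χ := mx ψ χ) (i := n)
    (mx_dep hψ hχ) h1
  have f1 : ((1 : Fin 2) : ℕ) = 1 := rfl
  unfold Mx
  rw [f1, eta_congr (c := c) g a (i := n) (fun l _ => hψ l) h2 h3 hi, eta_smul]
  show 1 / 2 ^ g 0 * (2 ^ g (i + 1) * (tv n c χ (some (c (i + 1))) -
    cv (ψ (i + 1)) (tv n c χ))) = _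
  ring

/-- Two samples with one frame: the first slope. -/
theorem mx_del {c : ℕ → Fin m} {n : ℕ} (hc : Set.InjOn c (Set.Iio n)) (hn : 2 ≤ n) {g : ℕ → ℕ}
    {a : ℕ} {ψ χ χ' : ℕ → Option (Fin m) → ℝ} (hψ : ∀ l, CvC c l (ψ l))
    (hχ : ∀ l, CvC c l (χ l)) (hχ' : ∀ l, CvC c l (χ' l)) :
    Mx n c g a ψ χ' 0 1 - Mx n c g a ψ χ 0 1 =
      2 ^ g 1 / 2 ^ g 0 * (tv n c χ' (some (c 1)) - tv n c χ (some (c 1))) := by
  rw [mx_one hc hψ hχ' (by omega), mx_one hc hψ hχ (by omega)]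
  have h1 : cv (ψ (0 + 1)) (tv n c χ') = cv (ψ (0 + 1)) (tv n c χ) :=
    cv_congr (hψ 1) (by rw [tv_none, tv_none]) fun j hj => by
      rw [Nat.lt_one_iff.1 hj, (tv_some hc hχ).1 (by omega), (tv_some hc hχ').1 (by omega)]
  rw [h1]
  ring

/-- Two samples with one frame: the second slope. -/
theorem mx_del2 {c : ℕ → Fin m} {n : ℕ} (hc : Set.InjOn c (Set.Iio n)) (hn : 3 ≤ n) {g : ℕ → ℕ}
    {a : ℕ} {ψ χ χ' : ℕ → Option (Fin m) → ℝ} (hψ : ∀ l, CvC c l (ψ l))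
    (hχ : ∀ l, CvC c l (χ l)) (hχ' : ∀ l, CvC c l (χ' l)) :
    Mx n c g a ψ χ' 1 1 - Mx n c g a ψ χ 1 1 =
      2 ^ g 2 / 2 ^ g 0 * (tv n c χ' (some (c 2)) - tv n c χ (some (c 2)) -
        ψ 2 (some (c 1)) * (tv n c χ' (some (c 1)) - tv n c χ (some (c 1)))) := by
  rw [mx_one hc hψ hχ' (by omega), mx_one hc hψ hχ (by omega)]
  have hc2 : Set.InjOn c (Set.Iio 2) := hc.mono fun y hy => by
    rw [Set.mem_Iio] at hy ⊢
    omega
  have e1 : ∀ χ : ℕ → Option (Fin m) → ℝ, (∀ l, CvC c l (χ l)) →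
      cv (ψ (1 + 1)) (tv n c χ) = ψ 2 (some (c 0)) + ψ 2 (some (c 1)) * tv n c χ (some (c 1)) := by
    intro χ hχ
    rw [cv_eq hc2 (hψ 2), tv_none, Finset.sum_range_succ, Finset.sum_range_one,
      (tv_some hc hχ).1 (by omega)]
    ring
  rw [e1 χ hχ, e1 χ' hχ']
  show 2 ^ g 2 / 2 ^ g 0 * (tv n c χ' (some (c 2)) - _) - _ * (tv n c χ (some (c 2)) - _) = _
  ring

/-- Near lists: one coefficient. -/
theorem nc_cf {c : ℕ → Fin m} (hc : Set.InjOn c (Set.Iio 3)) {g : ℕ → ℕ} {a : ℕ}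
    {ψ χ : ℕ → Option (Fin m) → ℝ} (hψ : ∀ l, CvC c l (ψ l)) {K : ℝ}
    (hN : Nc c g a 3 K ψ χ) :
    |χ 2 (some (c 1)) - ψ 2 (some (c 1))| ≤ K / 2 ^ g 2 * 2 ^ g 1 := by
  obtain ⟨e, he⟩ : ∃ e : Option (Fin m) → ℝ, e = fun o => if o = some (c 1) then 1 else 0 :=
    ⟨_, rfl⟩
  have h1 := hN 2 (by norm_num) e
  have hne : c 0 ≠ c 1 := fun h => by
    have := hc (show (0 : ℕ) ∈ Set.Iio 3 by simp) (show (1 : ℕ) ∈ Set.Iio 3 by simp) h
    omega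
  have h2 : ∀ φ : Option (Fin m) → ℝ, cv φ e = φ (some (c 1)) := fun φ => by
    rw [he]
    exact cv_single φ _
  have h3 : en c g a ψ 2 e = 2 ^ g 1 := by
    rw [en_eq, Finset.sum_range_succ, Finset.sum_range_one, h2, h2,
      hψ 0 (c 1) (fun x hx => absurd hx (Nat.not_lt_zero x)),
      hψ 1 (c 1) (fun x hx h => hne (by rw [Nat.lt_one_iff.1 hx] at h; exact h.symm)), he]
    show 2 ^ a * |(if (none : Option (Fin m)) = some (c 1) then (1 : ℝ) else 0)| +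
      (2 ^ g 0 * |(if some (c 0) = some (c 1) then (1 : ℝ) else 0) - 0| +
        2 ^ g 1 * |(if some (c 1) = some (c 1) then (1 : ℝ) else 0) - 0|) = _
    rw [if_neg (by simp), if_neg (fun h => hne (Option.some_injective _ h)), if_pos rfl]
    simp
  rw [h2, h3] at h1
  exact h1

/-- **The first slope in two windows.** -/
theorem mx_pair {c : ℕ → Fin m} {n : ℕ} (hc : Set.InjOn c (Set.Iio n)) (hn : 2 ≤ n)
    {g g₁ : ℕ → ℕ} {a b u : ℕ} {ψ ψ₁ χ χ' : ℕ → Option (Fin m) → ℝ}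
    (hψ : ∀ l, CvC c l (ψ l)) (hψ₁ : ∀ l, CvC c l (ψ₁ l))
    (hχ : ∀ l, CvC c l (χ l)) (hχ' : ∀ l, CvC c l (χ' l)) (hu : g₁ 1 + g 0 ≤ u + g₁ 0 + g 1) :
    |Mx n c g₁ b ψ₁ χ' 0 1 - Mx n c g₁ b ψ₁ χ 0 1| ≤
      2 ^ u * |Mx n c g a ψ χ' 0 1 - Mx n c g a ψ χ 0 1| := by
  rw [mx_del hc hn hψ₁ hχ hχ', mx_del hc hn hψ hχ hχ', abs_mul, abs_mul,
    abs_of_pos (show (0 : ℝ) < 2 ^ g₁ 1 / 2 ^ g₁ 0 by positivity),
    abs_of_pos (show (0 : ℝ) < 2 ^ g 1 / 2 ^ g 0 by positivity), ← mul_assoc]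
  refine mul_le_mul_of_nonneg_right ?_ (abs_nonneg _)
  rw [← mul_div_assoc, div_le_div_iff₀ (by positivity) (by positivity), ← pow_add, ← pow_add,
    ← pow_add]
  exact pow_le_pow_right₀ (by norm_num) (by omega)

/-- **The slopes of two samples with one deeper frame.** -/
theorem mx_dz {c : ℕ → Fin m} (hc : Set.InjOn c (Set.Iio 3))
    {g g₁ : ℕ → ℕ} {a b z : ℕ} {ψ ψ₁ χ χ' : ℕ → Option (Fin m) → ℝ} {K : ℝ} (hK : 0 ≤ K)
    (hψ : ∀ l, CvC c l (ψ l)) (hψ₁ : ∀ l, CvC c l (ψ₁ l))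
    (hχ : ∀ l, CvC c l (χ l)) (hχ' : ∀ l, CvC c l (χ' l))
    (hz : ∀ l < 2, g (l + 1) + g₁ 0 + z ≤ g 0 + g₁ (l + 1))
    (hN : Nc c g a 3 K ψ χ) (hN₁ : Nc c g₁ b 3 K ψ₁ χ) (hN₁' : Nc c g₁ b 3 K ψ₁ χ') :
    ∀ l < 2, |Mx 3 c g a ψ χ' l 1 - Mx 3 c g a ψ χ l 1| ≤ 4 * (1 + K) ^ 4 / 2 ^ z := by
  obtain ⟨A, hA⟩ : ∃ A : ℝ, A = (1 + K) ^ 3 := ⟨_, rfl⟩
  have hA0 : 0 < A := by rw [hA]; positivity
  obtain ⟨s, hs'⟩ : ∃ s : ℝ, s = tv 3 c χ' (some (c 1)) - tv 3 c χ (some (c 1)) := ⟨_, rfl⟩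
  obtain ⟨s₂, hs₂⟩ : ∃ s₂ : ℝ, s₂ = tv 3 c χ' (some (c 2)) - tv 3 c χ (some (c 2)) := ⟨_, rfl⟩
  -- the first slope
  have h1 : |s| ≤ 2 * A * (2 ^ g₁ 0 / 2 ^ g₁ 1) := by
    have e1 := mx_del hc (by norm_num) (g := g₁) (a := b) hψ₁ hχ hχ'
    rw [← hs'] at e1
    have e2 := mx_le hc (i := 0) hψ₁ hχ hK hN₁ (by norm_num) 1
    have e3 := mx_le hc (i := 0) hψ₁ hχ' hK hN₁' (by norm_num) 1
    rw [← hA] at e2 e3
    have e4 : |2 ^ g₁ 1 / 2 ^ g₁ 0 * s| ≤ 2 * A := by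
      rw [← e1]
      refine (abs_sub _ _).trans ?_
      linarith
    rw [abs_mul, abs_of_pos (by positivity), div_mul_eq_mul_div, div_le_iff₀ (by positivity)] at e4
    rw [← mul_div_assoc, le_div_iff₀ (by positivity)]
    linarith
  -- the second slope
  have h2 : |s₂ - ψ₁ 2 (some (c 1)) * s| ≤ 2 * A * (2 ^ g₁ 0 / 2 ^ g₁ 2) := by
    have e1 := mx_del2 hc le_rfl (g := g₁) (a := b) hψ₁ hχ hχ'
    rw [← hs', ← hs₂] at e1
    have e2 := mx_le hc (i := 1) hψ₁ hχ hK hN₁ (by norm_num) 1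
    have e3 := mx_le hc (i := 1) hψ₁ hχ' hK hN₁' (by norm_num) 1
    rw [← hA] at e2 e3
    have e4 : |2 ^ g₁ 2 / 2 ^ g₁ 0 * (s₂ - ψ₁ 2 (some (c 1)) * s)| ≤ 2 * A := by
      rw [← e1]
      refine (abs_sub _ _).trans ?_
      linarith
    rw [abs_mul, abs_of_pos (by positivity), div_mul_eq_mul_div, div_le_iff₀ (by positivity)] at e4
    rw [← mul_div_assoc, le_div_iff₀ (by positivity)]
    linarith
  have h3 : |ψ₁ 2 (some (c 1)) - ψ 2 (some (c 1))| ≤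
      K / 2 ^ g₁ 2 * 2 ^ g₁ 1 + K / 2 ^ g 2 * 2 ^ g 1 := by
    have e1 := nc_cf hc hψ hN
    have e2 := nc_cf hc hψ₁ hN₁
    have e3 : ψ₁ 2 (some (c 1)) - ψ 2 (some (c 1)) = (χ 2 (some (c 1)) - ψ 2 (some (c 1))) -
        (χ 2 (some (c 1)) - ψ₁ 2 (some (c 1))) := by ring
    rw [e3]
    refine (abs_sub _ _).trans ?_
    linarith
  have hz1 : (2 : ℝ) ^ g 1 / 2 ^ g 0 * (2 ^ g₁ 0 / 2 ^ g₁ 1) ≤ 1 / 2 ^ z := by
    rw [div_mul_div_comm, div_le_div_iff₀ (by positivity) (by positivity), one_mul, ← pow_add,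
      ← pow_add, ← pow_add]
    exact pow_le_pow_right₀ (by norm_num) (hz 0 (by norm_num))
  have hz2 : (2 : ℝ) ^ g 2 / 2 ^ g 0 * (2 ^ g₁ 0 / 2 ^ g₁ 2) ≤ 1 / 2 ^ z := by
    rw [div_mul_div_comm, div_le_div_iff₀ (by positivity) (by positivity), one_mul, ← pow_add,
      ← pow_add, ← pow_add]
    exact pow_le_pow_right₀ (by norm_num) (hz 1 (by norm_num))
  have hK4 : (1 + K) ^ 4 = A * (1 + K) := by rw [hA]; ring
  intro l hl
  obtain h | h : l = 0 ∨ l = 1 := by omega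
  · subst h
    rw [mx_del hc (by norm_num) hψ hχ hχ', ← hs', abs_mul, abs_of_pos (by positivity)]
    calc (2 : ℝ) ^ g 1 / 2 ^ g 0 * |s| ≤ 2 ^ g 1 / 2 ^ g 0 * (2 * A * (2 ^ g₁ 0 / 2 ^ g₁ 1)) :=
          mul_le_mul_of_nonneg_left h1 (by positivity)
      _ = 2 * A * (2 ^ g 1 / 2 ^ g 0 * (2 ^ g₁ 0 / 2 ^ g₁ 1)) := by ring
      _ ≤ 2 * A * (1 / 2 ^ z) := mul_le_mul_of_nonneg_left hz1 (by positivity)
      _ ≤ 4 * (A * (1 + K)) * (1 / 2 ^ z) := by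
          refine mul_le_mul_of_nonneg_right ?_ (by positivity)
          nlinarith [mul_nonneg hA0.le hK]
      _ = _ := by rw [hK4]; ring
  · subst h
    rw [mx_del2 hc le_rfl hψ hχ hχ', ← hs', ← hs₂, abs_mul, abs_of_pos (by positivity)]
    have e1 : s₂ - ψ 2 (some (c 1)) * s = (s₂ - ψ₁ 2 (some (c 1)) * s) +
        (ψ₁ 2 (some (c 1)) - ψ 2 (some (c 1))) * s := by ring
    have e2 : |s₂ - ψ 2 (some (c 1)) * s| ≤ 2 * A * (2 ^ g₁ 0 / 2 ^ g₁ 2) +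
        (K / 2 ^ g₁ 2 * 2 ^ g₁ 1 + K / 2 ^ g 2 * 2 ^ g 1) * (2 * A * (2 ^ g₁ 0 / 2 ^ g₁ 1)) := by
      rw [e1]
      refine (abs_add_le _ _).trans (add_le_add h2 ?_)
      rw [abs_mul]
      exact mul_le_mul h3 h1 (abs_nonneg _) (by positivity)
    calc (2 : ℝ) ^ g 2 / 2 ^ g 0 * |s₂ - ψ 2 (some (c 1)) * s| ≤ 2 ^ g 2 / 2 ^ g 0 *
          (2 * A * (2 ^ g₁ 0 / 2 ^ g₁ 2) + (K / 2 ^ g₁ 2 * 2 ^ g₁ 1 + K / 2 ^ g 2 * 2 ^ g 1) *
            (2 * A * (2 ^ g₁ 0 / 2 ^ g₁ 1))) := mul_le_mul_of_nonneg_left e2 (by positivity)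
      _ = 2 * A * (1 + K) * (2 ^ g 2 / 2 ^ g 0 * (2 ^ g₁ 0 / 2 ^ g₁ 2)) +
          2 * A * K * (2 ^ g 1 / 2 ^ g 0 * (2 ^ g₁ 0 / 2 ^ g₁ 1)) := by
          field_simp
          ring
      _ ≤ 2 * A * (1 + K) * (1 / 2 ^ z) + 2 * A * K * (1 / 2 ^ z) :=
          add_le_add (mul_le_mul_of_nonneg_left hz2 (by positivity))
            (mul_le_mul_of_nonneg_left hz1 (by positivity))
      _ = (2 * A * (1 + K) + 2 * A * K) * (1 / 2 ^ z) := by ring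
      _ ≤ 4 * (A * (1 + K)) * (1 / 2 ^ z) := by
          refine mul_le_mul_of_nonneg_right ?_ (by positivity)
          nlinarith [mul_nonneg hA0.le hK]
      _ = _ := by rw [hK4]; ring

end Pool.F5
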