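import Pool.Agent.H64.F5.Evs
import Pool.Agent.H2.GEN.AttG
import Pool.Agent.H23.D2.Fam

/-!
# (F5), two coordinates of `V1`: the form at a sample, numbers

`Hm`: the form in the coordinates `Fin 4`. `FP` for the pairs. `row`: the larger row. `tz`: the
direction in which the mixed part is small. `er_le` and the other numbers, in terms of one large
number `Y`. `bas_dl`: from members to events of exponentially small probability.
-/

set_option autoImplicit false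

namespace Pool.F5

open Finset Real MvPolynomial
open Pool.Agent.H49.Ent Pool.Agent.H32.Dense Pool.STK Pool.KA Pool.KSAT Pool.K2S Pool.PB Pool.S6C
open Pool.GEN Pool.CHT Pool.CHX
open Pool.D2F
open Pool.D2R (dd hs dd_add dd_smul dd_sub hs_sub hs_add_left hs_add_right hs_smul_left hs_smul_right
  hs_comm)

variable {m J n : ℕ}

/-- From members to events of small probability. -/
theorem bas_dl {S : PCl m} {Φ : Stat m} (h : Bas S Φ) : ∃ δ : ℝ, 0 < δ ∧
    Bas S (fun J F A => ∀ B : F.Ω → Prop, Sub B A →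
      Real.exp (-(δ * J)) * Pe F.p A ≤ Pe F.p B → Φ J F B) := by
  obtain ⟨τ, hτ, J₁, h⟩ := h
  refine ⟨τ / 2, by linarith, τ / 2, by linarith, J₁, fun J hJ F A hA B hB hP => ?_⟩
  have h1 := S.res (τ := τ / 2) (τ' := τ / 2) (by linarith) hA hB hP
  rw [add_halves] at h1
  exact h J hJ F B h1

/-! ### The form -/

/-- The index of the coordinates. -/
def io : Fin 4 → Option (Fin 3) := ![none, some 0, some 1, some 2]

/-- The vector with given natural coordinates. -/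
def ov (U : Fin 4 → ℝ) : Option (Fin 3) → ℝ :=
  U 0 • eo (none : Option (Fin 3)) + U 1 • eo (some 0) + U 2 • eo (some 1) + U 3 • eo (some 2)

/-- The form in the coordinates. -/
noncomputable def Hm (P : MvPolynomial (Option (Fin 3)) ℝ) (i j : Fin 4) : ℝ :=
  hs P 0 (eo (io i)) (eo (io j))

theorem hs_ov (P : MvPolynomial (Option (Fin 3)) ℝ) (U V : Fin 4 → ℝ) :
    hs P 0 (ov U) (ov V) = bf (Hm P) U V := by
  unfold ov bf
  simp only [hs_add_left, hs_add_right, hs_smul_left, hs_smul_right, Fin.sum_univ_four]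
  simp only [Hm, io, Matrix.cons_val_zero, Matrix.cons_val_one, Matrix.cons_val]
  ring

theorem ov_hv (M : Fin 2 → Fin 2 → ℝ) (i : Fin 2) : ov (hv M i) = lv M i := by
  funext o
  unfold ov hv
  simp only [Pi.add_apply, Pi.smul_apply, smul_eq_mul, Matrix.cons_val_zero, Matrix.cons_val_one,
    Matrix.cons_val]
  cases o with
  | none =>
    show (if i = 0 then (1 : ℝ) else 0) * (if (none : Option (Fin 3)) = none then (1 : ℝ) else 0) +
      (if i = 1 then (1 : ℝ) else 0) * (if (none : Option (Fin 3)) = some 0 then (1 : ℝ) else 0) +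
      M 0 i * (if (none : Option (Fin 3)) = some 1 then (1 : ℝ) else 0) +
      M 1 i * (if (none : Option (Fin 3)) = some 2 then (1 : ℝ) else 0) =
      (if i = 0 then (1 : ℝ) else 0)
    simp
  | some j =>
    fin_cases j
    · show (if i = 0 then (1 : ℝ) else 0) * (if (some 0 : Option (Fin 3)) = none then (1 : ℝ) else 0) +
        (if i = 1 then (1 : ℝ) else 0) * (if (some 0 : Option (Fin 3)) = some 0 then (1 : ℝ) else 0) +
        M 0 i * (if (some 0 : Option (Fin 3)) = some 1 then (1 : ℝ) else 0) +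
        M 1 i * (if (some 0 : Option (Fin 3)) = some 2 then (1 : ℝ) else 0) =
        (if i = 1 then (1 : ℝ) else 0)
      simp
    · show (if i = 0 then (1 : ℝ) else 0) * (if (some 1 : Option (Fin 3)) = none then (1 : ℝ) else 0) +
        (if i = 1 then (1 : ℝ) else 0) * (if (some 1 : Option (Fin 3)) = some 0 then (1 : ℝ) else 0) +
        M 0 i * (if (some 1 : Option (Fin 3)) = some 1 then (1 : ℝ) else 0) +
        M 1 i * (if (some 1 : Option (Fin 3)) = some 2 then (1 : ℝ) else 0) = M 0 i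
      simp
    · show (if i = 0 then (1 : ℝ) else 0) * (if (some 2 : Option (Fin 3)) = none then (1 : ℝ) else 0) +
        (if i = 1 then (1 : ℝ) else 0) * (if (some 2 : Option (Fin 3)) = some 0 then (1 : ℝ) else 0) +
        M 0 i * (if (some 2 : Option (Fin 3)) = some 1 then (1 : ℝ) else 0) +
        M 1 i * (if (some 2 : Option (Fin 3)) = some 2 then (1 : ℝ) else 0) = M 1 i
      simp

theorem ov_ev (k : Fin 2) : ov (ev k) = eo (some k.succ) := by
  unfold ov ev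
  fin_cases k
  · simp only [Matrix.cons_val_zero, Matrix.cons_val_one, Matrix.cons_val]
    show (0 : ℝ) • eo none + (0 : ℝ) • eo (some 0) + (if (0 : Fin 2) = 0 then (1 : ℝ) else 0) •
      eo (some 1) + (if (0 : Fin 2) = 1 then (1 : ℝ) else 0) • eo (some 2) =
      (eo (some 1) : Option (Fin 3) → ℝ)
    simp
  · simp only [Matrix.cons_val_zero, Matrix.cons_val_one, Matrix.cons_val]
    show (0 : ℝ) • eo none + (0 : ℝ) • eo (some 0) + (if (1 : Fin 2) = 0 then (1 : ℝ) else 0) •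
      eo (some 1) + (if (1 : Fin 2) = 1 then (1 : ℝ) else 0) • eo (some 2) =
      (eo (some 2) : Option (Fin 3) → ℝ)
    simp

section form

variable (P : MvPolynomial (Option (Fin 3)) ℝ) (M M' : Fin 2 → Fin 2 → ℝ)

theorem bf_hh (i j : Fin 2) : bf (Hm P) (hv M i) (hv M j) = hs P 0 (lv M i) (lv M j) := by
  rw [← hs_ov, ov_hv, ov_hv]

theorem bf_he (i k : Fin 2) : bf (Hm P) (hv M i) (ev k) = hs P 0 (lv M i) (eo (some k.succ)) := by
  rw [← hs_ov, ov_hv, ov_ev]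

theorem bf_ee (k l : Fin 2) : bf (Hm P) (ev k) (ev l) =
    hs P 0 (eo (some k.succ)) (eo (some l.succ)) := by
  rw [← hs_ov, ov_ev, ov_ev]

theorem Hm_symm (i j : Fin 4) : Hm P i j = Hm P j i := hs_comm _ _ _ _

end form

theorem io_surj (o : Option (Fin 3)) : ∃ i, io i = o := by
  cases o with
  | none => exact ⟨0, rfl⟩
  | some j =>
    fin_cases j
    · exact ⟨1, rfl⟩
    · exact ⟨2, rfl⟩
    · exact ⟨3, rfl⟩

/-! ### The larger row -/

/-- The larger row. -/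
noncomputable def row (μ : ℝ) (a : Fin 2 → Fin 2 → ℝ) : Fin 2 → ℝ :=
  open Classical in if μ ≤ |a 0 0| ∨ μ ≤ |a 0 1| then a 0 else a 1

theorem row_big {μ : ℝ} {a : Fin 2 → Fin 2 → ℝ} (h : ∃ i k, μ ≤ |a i k|) :
    μ ≤ |row μ a 0| ∨ μ ≤ |row μ a 1| := by
  unfold row
  split_ifs with h1
  · exact h1
  · obtain ⟨i, k, h2⟩ := h
    push Not at h1
    fin_cases i
    · fin_cases k
      · exact absurd h2 (not_le.2 h1.1)
      · exact absurd h2 (not_le.2 h1.2)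
    · fin_cases k
      · exact Or.inl h2
      · exact Or.inr h2

theorem row_le {μ K : ℝ} {a : Fin 2 → Fin 2 → ℝ} (h : ∀ i k, |a i k| ≤ K) (j : Fin 2) :
    |row μ a j| ≤ K := by
  unfold row
  split_ifs
  · exact h 0 j
  · exact h 1 j

theorem row_dt {μ ε : ℝ} {a : Fin 2 → Fin 2 → ℝ} {z : Fin 2 → ℝ} (h : ∀ i, |dt (a i) z| ≤ ε) :
    |dt (row μ a) z| ≤ ε := by
  unfold row
  split_ifs
  · exact h 0
  · exact h 1

theorem row_wd {μ d R E : ℝ} {a : Fin 2 → Fin 2 → ℝ} (hd : |wd (a 0) (a 1)| ≤ d) (hE : |E| ≤ R)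
    (hR : 1 ≤ R) : |wd (row μ a) (fun k => a 0 k + E * a 1 k)| ≤ R * d := by
  have hd0 : 0 ≤ d := (abs_nonneg _).trans hd
  unfold row
  split_ifs
  · have e : wd (a 0) (fun k => a 0 k + E * a 1 k) = E * wd (a 0) (a 1) := by
      unfold wd
      ring
    rw [e, abs_mul]
    exact mul_le_mul hE hd (abs_nonneg _) (by linarith)
  · have e : wd (a 1) (fun k => a 0 k + E * a 1 k) = -wd (a 0) (a 1) := by
      unfold wd
      ring
    rw [e, abs_neg]
    exact hd.trans (le_mul_of_one_le_left hd0 hR)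

/-- The direction in which the mixed part is small. -/
noncomputable def tz (μ : ℝ) (a : Fin 2 → Fin 2 → ℝ) : ℝ :=
  open Classical in if μ ≤ |a 1 0| then -a 0 0 / a 1 0 else -a 0 1 / a 1 1

theorem tz_le {μ₄ μ₅ μ₆ R E : ℝ} {a : Fin 2 → Fin 2 → ℝ} (h6 : 0 < μ₆) (hR : 1 ≤ R)
    (hE : |E| ≤ R) (hμ : μ₅ + R * μ₆ < μ₄) (ha : ∃ i k, μ₄ ≤ |a i k|)
    (hr : ∀ k, |a 0 k + E * a 1 k| ≤ μ₅) : |E - tz μ₆ a| ≤ μ₅ / μ₆ := by
  have h5 : 0 ≤ μ₅ := (abs_nonneg _).trans (hr 0)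
  have key : ∀ k : Fin 2, μ₆ ≤ |a 1 k| → |E - -a 0 k / a 1 k| ≤ μ₅ / μ₆ := by
    intro k hk
    have h0 : a 1 k ≠ 0 := by
      intro h
      rw [h, abs_zero] at hk
      linarith
    have e : E - -a 0 k / a 1 k = (a 0 k + E * a 1 k) / a 1 k := by
      field_simp
      ring
    rw [e, abs_div]
    exact div_le_div₀ h5 (hr k) h6 hk
  unfold tz
  split_ifs with h1
  · exact key 0 h1
  · by_cases h2 : μ₆ ≤ |a 1 1|
    · exact key 1 h2
    · exfalso
      push Not at h1 h2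
      have h3 : ∀ k : Fin 2, |a 1 k| < μ₆ := by
        intro k
        fin_cases k
        · exact h1
        · exact h2
      have h4 : ∀ k : Fin 2, |a 0 k| < μ₄ := by
        intro k
        have e : a 0 k = (a 0 k + E * a 1 k) - E * a 1 k := by ring
        rw [e]
        refine (abs_sub _ _).trans_lt (lt_of_le_of_lt (add_le_add (hr k) ?_) hμ)
        rw [abs_mul]
        exact mul_le_mul hE (h3 k).le (abs_nonneg _) (by linarith)
      obtain ⟨i, k, hik⟩ := ha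
      have h6' : μ₆ ≤ R * μ₆ := le_mul_of_one_le_left h6.le hR
      fin_cases i
      · exact absurd hik (not_le.2 (h4 k))
      · have := h3 k
        have h8 : μ₄ ≤ |a 1 k| := hik
        linarith

/-! ### Numbers -/

/-- The error of the labels. -/
theorem er_le {Y T P Mb K ε ε₂ : ℝ} (i : ℕ) (hY : 32 ≤ Y) (hT0 : 0 ≤ T) (hP0 : 0 ≤ P)
    (hM0 : 0 ≤ Mb) (hK0 : 0 ≤ K) (hε0 : 0 ≤ ε) (hε₂0 : 0 ≤ ε₂) (hT : T ≤ Y) (hP : P ≤ Y)
    (hMb : Mb ≤ Y) (hK : K ≤ Y) (hε : ε * Y ^ (i + 7) ≤ 1) (hε₂ : ε₂ * Y ^ (2 * i + 15) ≤ 1) :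
    Er T Mb K (1 / Y ^ i) (1 / Y ^ (i + 4)) (1 / Y ^ 3) ε ε₂ * P ≤ 1 := by
  have hY0 : 0 < Y := by linarith
  have hY1 : 1 ≤ Y := by linarith
  have hYi : 0 < Y ^ i := pow_pos hY0 i
  have hYi1 : 1 ≤ Y ^ i := one_le_pow₀ hY1
  have hiv : 1 / Y ≤ 1 / 32 := one_div_le_one_div_of_le (by norm_num) hY
  -- the maximum
  have m1 : max (1 / Y ^ 3) ((ε₂ + 1 / Y ^ (i + 4) * (2 * Mb)) / (1 / Y ^ i)) ≤
      3 / Y ^ 3 + ε₂ * Y ^ i := by
    have e1 : (ε₂ + 1 / Y ^ (i + 4) * (2 * Mb)) / (1 / Y ^ i) = ε₂ * Y ^ i + 2 * Mb / Y ^ 4 := by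
      rw [pow_add]
      field_simp
    have e2 : 2 * Mb / Y ^ 4 ≤ 2 / Y ^ 3 := by
      rw [div_le_div_iff₀ (by positivity) (by positivity)]
      have : Mb * Y ^ 3 ≤ Y * Y ^ 3 := mul_le_mul_of_nonneg_right hMb (by positivity)
      nlinarith
    have e3 : (3 : ℝ) / Y ^ 3 = 1 / Y ^ 3 + 2 / Y ^ 3 := by ring
    rw [e1, e3]
    refine max_le ?_ ?_
    · have : 0 ≤ 2 / Y ^ 3 + ε₂ * Y ^ i := by positivity
      linarith
    · have : 0 ≤ 1 / Y ^ 3 := by positivity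
      linarith
  have hTP : T * P ≤ Y ^ 2 := by
    rw [pow_two]
    exact mul_le_mul hT hP hP0 hY0.le
  have hTP0 : 0 ≤ T * P := mul_nonneg hT0 hP0
  have t1 : T * max (1 / Y ^ 3) ((ε₂ + 1 / Y ^ (i + 4) * (2 * Mb)) / (1 / Y ^ i)) * P ≤ 1 / 4 := by
    have h1 : T * max (1 / Y ^ 3) ((ε₂ + 1 / Y ^ (i + 4) * (2 * Mb)) / (1 / Y ^ i)) * P =
        T * P * max (1 / Y ^ 3) ((ε₂ + 1 / Y ^ (i + 4) * (2 * Mb)) / (1 / Y ^ i)) := by ring
    rw [h1]
    have h2 : 0 ≤ 3 / Y ^ 3 + ε₂ * Y ^ i := by positivity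
    have h3 := mul_le_mul hTP m1 (le_max_of_le_left (by positivity)) (by positivity)
    refine h3.trans ?_
    have e1 : Y ^ 2 * (3 / Y ^ 3 + ε₂ * Y ^ i) = 3 * (1 / Y) + ε₂ * Y ^ (i + 2) := by
      rw [pow_add]
      field_simp
    rw [e1]
    have h4 : ε₂ * Y ^ (i + 2) ≤ 1 / Y := by
      rw [le_div_iff₀ hY0]
      calc ε₂ * Y ^ (i + 2) * Y = ε₂ * Y ^ (i + 3) := by ring
        _ ≤ ε₂ * Y ^ (2 * i + 15) :=
            mul_le_mul_of_nonneg_left (pow_le_pow_right₀ hY1 (by omega)) hε₂0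
        _ ≤ 1 := hε₂
    linarith
  have t2 : T * (ε₂ / (1 / Y ^ (i + 4))) * P ≤ 1 / 4 := by
    have e1 : T * (ε₂ / (1 / Y ^ (i + 4))) * P = T * P * (ε₂ * Y ^ (i + 4)) := by
      field_simp
    rw [e1]
    refine (mul_le_mul_of_nonneg_right hTP (by positivity)).trans ?_
    have h4 : Y ^ 2 * (ε₂ * Y ^ (i + 4)) ≤ 1 / Y := by
      rw [le_div_iff₀ hY0]
      calc Y ^ 2 * (ε₂ * Y ^ (i + 4)) * Y = ε₂ * Y ^ (i + 7) := by ring
        _ ≤ ε₂ * Y ^ (2 * i + 15) :=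
            mul_le_mul_of_nonneg_left (pow_le_pow_right₀ hY1 (by omega)) hε₂0
        _ ≤ 1 := hε₂
    linarith
  have t3 : 2 * ε * (1 + K / (1 / Y ^ (i + 4))) * P ≤ 1 / 4 := by
    have e1 : 1 + K / (1 / Y ^ (i + 4)) ≤ 2 * Y ^ (i + 5) := by
      have e2 : K / (1 / Y ^ (i + 4)) = K * Y ^ (i + 4) := by field_simp
      rw [e2]
      have h1 : K * Y ^ (i + 4) ≤ Y * Y ^ (i + 4) := mul_le_mul_of_nonneg_right hK (by positivity)
      have h2 : (1 : ℝ) ≤ Y ^ (i + 5) := one_le_pow₀ hY1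
      have e3 : Y * Y ^ (i + 4) = Y ^ (i + 5) := by ring
      linarith
    have h1 : 2 * ε * (1 + K / (1 / Y ^ (i + 4))) * P ≤ 2 * ε * (2 * Y ^ (i + 5)) * Y := by
      have h0 : 0 ≤ 1 + K / (1 / Y ^ (i + 4)) := by positivity
      exact mul_le_mul (mul_le_mul_of_nonneg_left e1 (by linarith)) hP hP0 (by positivity)
    refine h1.trans ?_
    have h4 : ε * Y ^ (i + 6) ≤ 1 / Y := by
      rw [le_div_iff₀ hY0]
      calc ε * Y ^ (i + 6) * Y = ε * Y ^ (i + 7) := by ring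
        _ ≤ 1 := hε
    have e2 : 2 * ε * (2 * Y ^ (i + 5)) * Y = 4 * (ε * Y ^ (i + 6)) := by ring
    rw [e2]
    linarith
  have t4 : 2 * K * ε₂ / (1 / Y ^ 3) / (1 / Y ^ (i + 4)) ^ 2 * (Mb + 1) * P ≤ 1 / 4 := by
    have e1 : 2 * K * ε₂ / (1 / Y ^ 3) / (1 / Y ^ (i + 4)) ^ 2 * (Mb + 1) * P =
        2 * K * (Mb + 1) * P * (ε₂ * (Y ^ 3 * Y ^ (2 * i + 8))) := by
      rw [show 2 * i + 8 = (i + 4) * 2 by ring, pow_mul]
      field_simp
    rw [e1]
    have h1 : Mb + 1 ≤ 2 * Y := by linarith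
    have h2 : 2 * K * (Mb + 1) * P ≤ 2 * Y * (2 * Y) * Y := by
      refine mul_le_mul (mul_le_mul (by linarith) h1 (by linarith) (by linarith)) hP hP0
        (by positivity)
    refine (mul_le_mul_of_nonneg_right h2 (by positivity)).trans ?_
    have h4 : ε₂ * Y ^ (2 * i + 14) ≤ 1 / Y := by
      rw [le_div_iff₀ hY0]
      calc ε₂ * Y ^ (2 * i + 14) * Y = ε₂ * Y ^ (2 * i + 15) := by ring
        _ ≤ 1 := hε₂
    have e2 : 2 * Y * (2 * Y) * Y * (ε₂ * (Y ^ 3 * Y ^ (2 * i + 8))) =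
        4 * (ε₂ * Y ^ (2 * i + 14)) := by ring
    rw [e2]
    linarith
  unfold Er
  have e : (T * max (1 / Y ^ 3) ((ε₂ + 1 / Y ^ (i + 4) * (2 * Mb)) / (1 / Y ^ i)) +
      T * (ε₂ / (1 / Y ^ (i + 4))) + 2 * ε * (1 + K / (1 / Y ^ (i + 4))) +
      2 * K * ε₂ / (1 / Y ^ 3) / (1 / Y ^ (i + 4)) ^ 2 * (Mb + 1)) * P =
      T * max (1 / Y ^ 3) ((ε₂ + 1 / Y ^ (i + 4) * (2 * Mb)) / (1 / Y ^ i)) * P +
      T * (ε₂ / (1 / Y ^ (i + 4))) * P + 2 * ε * (1 + K / (1 / Y ^ (i + 4))) * P +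
      2 * K * ε₂ / (1 / Y ^ 3) / (1 / Y ^ (i + 4)) ^ 2 * (Mb + 1) * P := by ring
  rw [e]
  linarith

/-- The size of the labels. -/
theorem lb_le {Y Mb K : ℝ} (i : ℕ) (hY : 32 ≤ Y) (hK0 : 0 ≤ K) (hMb : Mb ≤ Y)
    (hK : K ≤ Y) : Mb * (1 + K / (1 / Y ^ (i + 4))) ≤ Y ^ (i + 7) ∧
      K / (1 / Y ^ (i + 4)) ≤ Y ^ (i + 7) := by
  have hY0 : 0 < Y := by linarith
  have hY1 : 1 ≤ Y := by linarith
  have e2 : K / (1 / Y ^ (i + 4)) = K * Y ^ (i + 4) := by field_simp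
  have h1 : K * Y ^ (i + 4) ≤ Y ^ (i + 5) := by
    calc K * Y ^ (i + 4) ≤ Y * Y ^ (i + 4) := mul_le_mul_of_nonneg_right hK (by positivity)
      _ = Y ^ (i + 5) := by ring
  have h2 : (1 : ℝ) ≤ Y ^ (i + 5) := one_le_pow₀ hY1
  rw [e2]
  constructor
  · calc Mb * (1 + K * Y ^ (i + 4)) ≤ Y * (2 * Y ^ (i + 5)) :=
          mul_le_mul hMb (by linarith) (by positivity) hY0.le
      _ = 2 * Y ^ (i + 6) := by ring
      _ ≤ Y * Y ^ (i + 6) := mul_le_mul_of_nonneg_right (by linarith) (by positivity)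
      _ = Y ^ (i + 7) := by ring
  · exact h1.trans (pow_le_pow_right₀ hY1 (by omega))

end Pool.F5
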